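import Pool.Agent.V11297.ListPoly

/-!
# Coefficient lists of the cyclotomic polynomials of orders 885 and 1239
-/

open Polynomial

namespace Pool.Agent.V11297.LP

/-- Coefficients of the cyclotomic polynomial of order 1239. -/
def L1239 : List ℤ :=
  [1, 1, 1, 0, 0, 0, 0, -1, -1, -1, 0, 0, 0, 0, 0, 0, 0, 0, 0, 0, 0, 1, 1, 1, 0, 0, 0, 0, -1,
   -1, -1, 0, 0, 0, 0, 0, 0, 0, 0, 0, 0, 0, 1, 1, 1, 0, 0, 0, 0, -1, -1, -1, 0, 0, 0, 0, 0, 0,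
   0, -1, -1, -1, 0, 1, 1, 1, 1, 1, 1, 0, -1, -1, -1, 0, 0, 0, 0, 0, 0, 0, -1, -1, -1, 0, 1,
   1, 1, 1, 1, 1, 0, -1, -1, -1, 0, 0, 0, 0, 0, 0, 0, -1, -1, -1, 0, 1, 1, 1, 1, 1, 1, 0, -1,
   -1, -1, 0, 0, 0, 0, 0, 0, 0, -1, -1, -1, 0, 1, 1, 1, 1, 1, 1, 0, -1, -1, -1, 0, 0, 0, 0, 0,
   0, 0, -1, -1, -1, 0, 1, 1, 1, 1, 1, 1, 0, -1, -1, -1, 0, 0, 0, 0, 0, 0, 0, -1, -1, -1, 0,
   1, 1, 1, 1, 1, 1, 0, -1, -1, 0, 1, 1, 0, 0, 0, 0, -1, -2, -2, -1, 0, 1, 1, 1, 1, 1, 1, 0,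
   -1, -1, 0, 1, 1, 0, 0, 0, 0, -1, -2, -2, -1, 0, 1, 1, 1, 1, 1, 1, 0, -1, -1, 0, 1, 1, 0, 0,
   0, 0, -1, -2, -2, -1, 0, 1, 1, 1, 1, 1, 0, -1, -2, -1, 0, 1, 1, 1, 1, 1, 0, -1, -2, -2, -1,
   0, 1, 1, 1, 1, 1, 0, -1, -2, -1, 0, 1, 1, 1, 1, 1, 0, -1, -2, -2, -1, 0, 1, 1, 1, 1, 1, 0,
   -1, -2, -1, 0, 1, 1, 1, 1, 1, 0, -1, -2, -2, -1, 0, 1, 1, 1, 1, 1, 0, -1, -2, -1, 0, 1, 1,
   1, 1, 1, 0, -1, -2, -2, -1, 0, 1, 1, 1, 1, 1, 0, -1, -2, -1, 0, 1, 1, 1, 1, 1, 0, -1, -2,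
   -2, -1, 0, 1, 1, 1, 1, 1, 0, -1, -2, -1, 0, 1, 1, 1, 1, 1, 0, -1, -2, -1, 0, 1, 1, 1, 1, 1,
   0, -1, -2, -2, -1, 0, 1, 1, 1, 1, 1, 0, -1, -2, -1, 0, 1, 1, 1, 1, 1, 0, -1, -2, -2, -1, 0,
   1, 1, 1, 1, 1, 0, -1, -2, -1, 0, 1, 1, 1, 1, 1, 0, -1, -2, -2, -1, 0, 1, 1, 1, 1, 1, 0, -1,
   -2, -1, 0, 1, 1, 1, 1, 1, 0, -1, -2, -2, -1, 0, 1, 1, 1, 1, 1, 0, -1, -2, -1, 0, 1, 1, 1,
   1, 1, 0, -1, -2, -2, -1, 0, 1, 1, 1, 1, 1, 0, -1, -2, -1, 0, 1, 1, 1, 1, 1, 0, -1, -2, -2,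
   -1, 0, 0, 0, 0, 1, 1, 0, -1, -1, 0, 1, 1, 1, 1, 1, 1, 0, -1, -2, -2, -1, 0, 0, 0, 0, 1, 1,
   0, -1, -1, 0, 1, 1, 1, 1, 1, 1, 0, -1, -2, -2, -1, 0, 0, 0, 0, 1, 1, 0, -1, -1, 0, 1, 1, 1,
   1, 1, 1, 0, -1, -1, -1, 0, 0, 0, 0, 0, 0, 0, -1, -1, -1, 0, 1, 1, 1, 1, 1, 1, 0, -1, -1,
   -1, 0, 0, 0, 0, 0, 0, 0, -1, -1, -1, 0, 1, 1, 1, 1, 1, 1, 0, -1, -1, -1, 0, 0, 0, 0, 0, 0,
   0, -1, -1, -1, 0, 1, 1, 1, 1, 1, 1, 0, -1, -1, -1, 0, 0, 0, 0, 0, 0, 0, -1, -1, -1, 0, 1,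
   1, 1, 1, 1, 1, 0, -1, -1, -1, 0, 0, 0, 0, 0, 0, 0, -1, -1, -1, 0, 1, 1, 1, 1, 1, 1, 0, -1,
   -1, -1, 0, 0, 0, 0, 0, 0, 0, -1, -1, -1, 0, 0, 0, 0, 1, 1, 1, 0, 0, 0, 0, 0, 0, 0, 0, 0, 0,
   0, -1, -1, -1, 0, 0, 0, 0, 1, 1, 1, 0, 0, 0, 0, 0, 0, 0, 0, 0, 0, 0, -1, -1, -1, 0, 0, 0,
   0, 1, 1, 1]

/-- Coefficients of the cyclotomic polynomial of order 885. -/
def L885 : List ℤ :=
  [1, 1, 1, 0, 0, -1, -1, -1, 0, 0, 0, 0, 0, 0, 0, 1, 1, 1, 0, 0, -1, -1, -1, 0, 0, 0, 0, 0,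
   0, 0, 1, 1, 1, 0, 0, -1, -1, -1, 0, 0, 0, 0, 0, 0, 0, 1, 1, 1, 0, 0, -1, -1, -1, 0, 0, 0,
   0, 0, 0, -1, 0, 0, 1, 0, 1, 0, 0, -1, 0, 0, 0, 0, 0, 0, -1, 0, 0, 1, 0, 1, 0, 0, -1, 0, 0,
   0, 0, 0, 0, -1, 0, 0, 1, 0, 1, 0, 0, -1, 0, 0, 0, 0, 0, 0, -1, 0, 0, 1, 0, 1, 0, 0, -1, 0,
   0, 0, 0, 0, 0, -1, 0, 0, 1, 0, 1, 0, 0, -1, 0, 0, 0, 0, 0, 0, -1, 0, 0, 1, 0, 1, 0, 0, -1,
   0, 0, 0, 0, 0, 0, -1, 0, 0, 1, 0, 1, 0, 0, -1, 0, 0, 0, 0, 0, 0, -1, 0, 0, 1, 0, 1, 0, 0,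
   -1, 0, 0, 0, 0, 1, 1, 0, 0, 0, 0, -1, 0, 0, 0, -1, 0, 0, 0, 0, 1, 1, 0, 0, 0, 0, -1, 0, 0,
   0, -1, 0, 0, 0, 0, 1, 1, 0, 0, 0, 0, -1, 0, 0, 0, -1, 0, 0, 0, 0, 1, 1, 0, 0, 0, 0, -1, 0,
   0, 0, -1, 0, 0, 0, -1, 0, 0, 0, 0, 1, 1, 0, 0, 0, 0, -1, 0, 0, 0, -1, 0, 0, 0, 0, 1, 1, 0,
   0, 0, 0, -1, 0, 0, 0, -1, 0, 0, 0, 0, 1, 1, 0, 0, 0, 0, -1, 0, 0, 0, -1, 0, 0, 0, 0, 1, 1,
   0, 0, 0, 0, -1, 0, 0, 1, 0, 1, 0, 0, -1, 0, 0, 0, 0, 0, 0, -1, 0, 0, 1, 0, 1, 0, 0, -1, 0,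
   0, 0, 0, 0, 0, -1, 0, 0, 1, 0, 1, 0, 0, -1, 0, 0, 0, 0, 0, 0, -1, 0, 0, 1, 0, 1, 0, 0, -1,
   0, 0, 0, 0, 0, 0, -1, 0, 0, 1, 0, 1, 0, 0, -1, 0, 0, 0, 0, 0, 0, -1, 0, 0, 1, 0, 1, 0, 0,
   -1, 0, 0, 0, 0, 0, 0, -1, 0, 0, 1, 0, 1, 0, 0, -1, 0, 0, 0, 0, 0, 0, -1, 0, 0, 1, 0, 1, 0,
   0, -1, 0, 0, 0, 0, 0, 0, -1, -1, -1, 0, 0, 1, 1, 1, 0, 0, 0, 0, 0, 0, 0, -1, -1, -1, 0, 0,
   1, 1, 1, 0, 0, 0, 0, 0, 0, 0, -1, -1, -1, 0, 0, 1, 1, 1, 0, 0, 0, 0, 0, 0, 0, -1, -1, -1,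
   0, 0, 1, 1, 1]

set_option maxRecDepth 100000 in
lemma check1239 : mulL 21 (mulL 177 (mulL 413 (mulL 1 L1239)))
    = mulL 1239 (mulL 3 (mulL 7 (mulL 59 [1]))) := by decide +kernel

set_option maxRecDepth 100000 in
lemma check885 : mulL 15 (mulL 177 (mulL 295 (mulL 1 L885)))
    = mulL 885 (mulL 3 (mulL 5 (mulL 59 [1]))) := by decide +kernel

lemma X_pow_sub_one_ne (e : ℕ) (he : 0 < e) : (X ^ e - 1 : ℤ[X]) ≠ 0 :=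
  X_pow_sub_C_ne_zero (a := 1) he

lemma cyclo_of_list {p q r : ℕ} (hp : 0 < p) (hq : 0 < q) (hr : 0 < r)
    (d0 : (p * q * r).divisors = {1, p, q, r, p * q, p * r, q * r, p * q * r})
    (h0 : [1, p, q, r, p * q, p * r, q * r, p * q * r].Nodup)
    (d1 : (p * q).divisors = {1, p, q, p * q}) (d2 : (p * r).divisors = {1, p, r, p * r})
    (d3 : (q * r).divisors = {1, q, r, q * r}) (d4 : p.divisors = {1, p})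
    (d5 : q.divisors = {1, q}) (d6 : r.divisors = {1, r}) {L : List ℤ}
    (h : mulL (p * q) (mulL (p * r) (mulL (q * r) (mulL 1 L)))
      = mulL (p * q * r) (mulL p (mulL q (mulL r [1])))) :
    ofL L = cyclotomic (p * q * r) ℤ := by
  have e := congrArg ofL h
  simp only [ofL_mulL] at e
  have e1 : ofL [1] = (1 : ℤ[X]) := by simp [ofL]
  rw [e1, mul_one] at e
  simp only [List.nodup_cons, List.mem_cons, List.not_mem_nil, or_false, not_or,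
    List.nodup_nil, and_true] at h0
  have f0 := prod_cyclotomic_eq_X_pow_sub_one (n := p * q * r) (by positivity) ℤ
  have f1 := prod_cyclotomic_eq_X_pow_sub_one (n := p * q) (by positivity) ℤ
  have f2 := prod_cyclotomic_eq_X_pow_sub_one (n := p * r) (by positivity) ℤ
  have f3 := prod_cyclotomic_eq_X_pow_sub_one (n := q * r) (by positivity) ℤ
  have f4 := prod_cyclotomic_eq_X_pow_sub_one (n := p) (by positivity) ℤ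
  have f5 := prod_cyclotomic_eq_X_pow_sub_one (n := q) (by positivity) ℤ
  have f6 := prod_cyclotomic_eq_X_pow_sub_one (n := r) (by positivity) ℤ
  obtain ⟨⟨a1, a2, a3, a4, a5, a6, a7⟩, ⟨b2, b3, b4, b5, b6, b7⟩, ⟨c3, c4, c5, c6, c7⟩,
    ⟨g4, g5, g6, g7⟩, ⟨i5, i6, i7⟩, ⟨j6, j7⟩, k7⟩ := h0
  rw [d0] at f0
  rw [d1] at f1
  rw [d2] at f2
  rw [d3] at f3
  rw [d4] at f4
  rw [d5] at f5
  rw [d6] at f6
  rw [Finset.prod_insert (by simp [*]), Finset.prod_insert (by simp [*]),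
    Finset.prod_insert (by simp [*]), Finset.prod_insert (by simp [*]),
    Finset.prod_insert (by simp [*]), Finset.prod_insert (by simp [*]),
    Finset.prod_insert (by simp [*]), Finset.prod_singleton] at f0
  rw [Finset.prod_insert (by simp [*]), Finset.prod_insert (by simp [*]),
    Finset.prod_insert (by simp [*]), Finset.prod_singleton] at f1
  rw [Finset.prod_insert (by simp [*]), Finset.prod_insert (by simp [*]),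
    Finset.prod_insert (by simp [*]), Finset.prod_singleton] at f2
  rw [Finset.prod_insert (by simp [*]), Finset.prod_insert (by simp [*]),
    Finset.prod_insert (by simp [*]), Finset.prod_singleton] at f3
  rw [Finset.prod_insert (by simp [*]), Finset.prod_singleton] at f4
  rw [Finset.prod_insert (by simp [*]), Finset.prod_singleton] at f5
  rw [Finset.prod_insert (by simp [*]), Finset.prod_singleton] at f6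
  have hD : ((X ^ (p * q) - 1) * ((X ^ (p * r) - 1) * ((X ^ (q * r) - 1) * (X ^ 1 - 1))) : ℤ[X])
      ≠ 0 := by
    refine mul_ne_zero (X_pow_sub_one_ne _ (by positivity)) (mul_ne_zero
      (X_pow_sub_one_ne _ (by positivity)) (mul_ne_zero (X_pow_sub_one_ne _ (by positivity))
      (X_pow_sub_one_ne _ (by positivity))))
  apply mul_left_cancel₀ hD
  have e' : (X ^ (p * q) - 1) * ((X ^ (p * r) - 1) * ((X ^ (q * r) - 1) * (X ^ 1 - 1)))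
      * ofL L = (X ^ (p * q * r) - 1) * ((X ^ p - 1) * ((X ^ q - 1) * (X ^ r - 1))) := by
    rw [← e]; ring
  rw [e', ← f0, ← f1, ← f2, ← f3, ← f4, ← f5, ← f6, pow_one, cyclotomic_one]
  ring

lemma ofL_1239 : ofL L1239 = cyclotomic 1239 ℤ :=
  cyclo_of_list (p := 3) (q := 7) (r := 59) (by norm_num) (by norm_num) (by norm_num)
    (by decide +kernel) (by decide) (by decide +kernel) (by decide +kernel) (by decide +kernel)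
    (by decide +kernel) (by decide +kernel) (by decide +kernel) check1239

lemma ofL_885 : ofL L885 = cyclotomic 885 ℤ :=
  cyclo_of_list (p := 3) (q := 5) (r := 59) (by norm_num) (by norm_num) (by norm_num)
    (by decide +kernel) (by decide) (by decide +kernel) (by decide +kernel) (by decide +kernel)
    (by decide +kernel) (by decide +kernel) (by decide +kernel) check885

end Pool.Agent.V11297.LP
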