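import Mathlib

/-!
# The height of an integer polynomial
-/

open Polynomial

namespace Pool.Agent.V11297

/-- The height of an integer polynomial: the largest absolute value of a coefficient
(and `0` for the zero polynomial). -/
def height (f : ℤ[X]) : ℕ := f.support.sup (fun k => (f.coeff k).natAbs)

lemma height_le_iff (f : ℤ[X]) (c : ℕ) : height f ≤ c ↔ ∀ k, |f.coeff k| ≤ c := by
  unfold height
  rw [Finset.sup_le_iff]
  constructor
  · intro h k
    by_cases hk : f.coeff k = 0
    · rw [hk]; simp
    · have := h k (mem_support_iff.mpr hk)
      rw [Int.abs_eq_natAbs]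
      exact_mod_cast this
  · intro h k _
    have := h k
    rw [Int.abs_eq_natAbs] at this
    exact_mod_cast this

lemma abs_coeff_le_height (f : ℤ[X]) (k : ℕ) : |f.coeff k| ≤ height f :=
  (height_le_iff f _).mp le_rfl k

end Pool.Agent.V11297
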