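import Mathlib

/-!
# Eventual periods of powers modulo `n`: abstract lemmas
-/

namespace Pool.Agent.V11297.Auto

variable {A : Type*} [CommRing A]

/-- `u^(k+ℓ) ≡ u^ℓ` modulo `n`, for some `ℓ`. -/
def Per (n u : A) (k : ℕ) : Prop := ∃ ℓ : ℕ, n ∣ u ^ ℓ * (u ^ k - 1)

theorem Per.lift {n u : A} {k ℓ ℓ' : ℕ} (h : n ∣ u ^ ℓ * (u ^ k - 1)) (hl : ℓ ≤ ℓ') :
    n ∣ u ^ ℓ' * (u ^ k - 1) := by
  obtain ⟨d, rfl⟩ := Nat.exists_eq_add_of_le hl
  rw [pow_add, mul_right_comm]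
  exact Dvd.dvd.mul_right h _

theorem Per.zero (n u : A) : Per n u 0 := ⟨0, by simp⟩

theorem Per.add {n u : A} {j k : ℕ} (hj : Per n u j) (hk : Per n u k) : Per n u (j + k) := by
  obtain ⟨l, hl⟩ := hj
  obtain ⟨l', hl'⟩ := hk
  refine ⟨l + l', ?_⟩
  have h1 : n ∣ u ^ (l + l') * (u ^ j - 1) := Per.lift hl (by omega)
  have h2 : n ∣ u ^ (l + l') * (u ^ k - 1) := Per.lift hl' (by omega)
  have h3 : u ^ (l + l') * (u ^ (j + k) - 1) =
      u ^ j * (u ^ (l + l') * (u ^ k - 1)) + u ^ (l + l') * (u ^ j - 1) := by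
    rw [pow_add u j k]; ring
  rw [h3]
  exact dvd_add (Dvd.dvd.mul_left h2 _) h1

theorem Per.sub {n u : A} {j k : ℕ} (hjk : Per n u (j + k)) (hj : Per n u j) : Per n u k := by
  obtain ⟨l, hl⟩ := hjk
  obtain ⟨l', hl'⟩ := hj
  refine ⟨l + l' + j, ?_⟩
  have h1 : n ∣ u ^ (l + l') * (u ^ (j + k) - 1) := Per.lift hl (by omega)
  have h2 : n ∣ u ^ (l + l') * (u ^ j - 1) := Per.lift hl' (by omega)
  have h3 : u ^ (l + l' + j) * (u ^ k - 1) =
      u ^ (l + l') * (u ^ (j + k) - 1) - u ^ (l + l') * (u ^ j - 1) := by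
    rw [pow_add u j k, pow_add u (l + l') j]; ring
  rw [h3]
  exact dvd_sub h1 h2

theorem Per.mul {n u : A} {k : ℕ} (hk : Per n u k) (c : ℕ) : Per n u (c * k) := by
  induction c with
  | zero => simpa using Per.zero n u
  | succ c ih => rw [Nat.succ_mul]; exact ih.add hk

theorem Per.of_dvd {n u : A} {k k' : ℕ} (hk : Per n u k) (h : k ∣ k') : Per n u k' := by
  obtain ⟨c, rfl⟩ := h
  rw [mul_comm]; exact hk.mul c

theorem Per.weaken {n n' u : A} {k : ℕ} (hk : Per n u k) (h : n' ∣ n) : Per n' u k := by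
  obtain ⟨l, hl⟩ := hk
  exact ⟨l, h.trans hl⟩

/-- The least positive period. -/
noncomputable def per (n u : A) : ℕ := sInf {k : ℕ | 1 ≤ k ∧ Per n u k}

theorem per_spec {n u : A} (h : ∃ k, 1 ≤ k ∧ Per n u k) : 1 ≤ per n u ∧ Per n u (per n u) :=
  Nat.sInf_mem (s := {k : ℕ | 1 ≤ k ∧ Per n u k}) h

theorem per_le {n u : A} {k : ℕ} (h1 : 1 ≤ k) (h : Per n u k) : per n u ≤ k :=
  Nat.sInf_le (s := {k : ℕ | 1 ≤ k ∧ Per n u k}) ⟨h1, h⟩

theorem per_dvd {n u : A} {k : ℕ} (hex : ∃ k, 1 ≤ k ∧ Per n u k) (h : Per n u k) :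
    per n u ∣ k := by
  obtain ⟨h1, h2⟩ := per_spec hex
  have h3 : Per n u (per n u * (k / per n u) + k % per n u) := by
    rw [Nat.div_add_mod]; exact h
  have h4 : Per n u (k % per n u) :=
    h3.sub (h2.of_dvd (Dvd.intro _ rfl))
  rcases Nat.eq_zero_or_pos (k % per n u) with h0 | h0
  · exact Nat.dvd_of_mod_eq_zero h0
  · exact absurd (per_le h0 h4) (not_le.mpr (Nat.mod_lt _ h1))

theorem per_iff {n u : A} {k : ℕ} (hex : ∃ k, 1 ≤ k ∧ Per n u k) :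
    Per n u k ↔ per n u ∣ k :=
  ⟨per_dvd hex, fun h => (per_spec hex).2.of_dvd h⟩

theorem expand2 (t : A) (n : ℕ) : ∃ h, (1 + t) ^ n = 1 + n * t + t ^ 2 * h := by
  induction n with
  | zero => exact ⟨0, by simp⟩
  | succ n ih =>
    obtain ⟨h, hh⟩ := ih
    refine ⟨n + h + t * h, ?_⟩
    rw [pow_succ, hh]; push_cast; ring

theorem expand3 (t : A) (n : ℕ) :
    ∃ h, (1 + t) ^ n = 1 + n * t + (n.choose 2 : ℕ) * t ^ 2 + t ^ 3 * h := by
  induction n with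
  | zero => exact ⟨0, by simp⟩
  | succ n ih =>
    obtain ⟨h, hh⟩ := ih
    refine ⟨(n.choose 2 : ℕ) + h + t * h, ?_⟩
    have h1 : (n + 1).choose 2 = n + n.choose 2 := by
      rw [Nat.choose_succ_succ' n 1]; simp
    rw [pow_succ, hh, h1]; push_cast; ring

theorem Per.upper {u : A} {p k m : ℕ} (hm : 1 ≤ m) (h : Per ((p : A) ^ m) u k) :
    Per ((p : A) ^ (m + 1)) u (p * k) := by
  obtain ⟨l, w, hw⟩ := h
  obtain ⟨h, hh⟩ := expand2 (u ^ k - 1) p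
  obtain ⟨d, rfl⟩ : ∃ d, m = d + 1 := ⟨m - 1, by omega⟩
  refine ⟨2 * l, w * u ^ l + (p : A) ^ d * w ^ 2 * h, ?_⟩
  have h1 : u ^ (p * k) = (1 + (u ^ k - 1)) ^ p := by
    rw [show 1 + (u ^ k - 1) = u ^ k by ring, ← pow_mul, mul_comm]
  rw [h1, hh]
  have h2 : u ^ (2 * l) * (1 + (p : A) * (u ^ k - 1) + (u ^ k - 1) ^ 2 * h - 1) =
      (p : A) * u ^ l * (u ^ l * (u ^ k - 1)) + (u ^ l * (u ^ k - 1)) ^ 2 * h := by
    rw [show 2 * l = l + l by ring, pow_add]; ring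
  rw [h2, hw]
  ring

theorem Per.upper_pow {u : A} {p k : ℕ} (h : Per (p : A) u k) (m : ℕ) :
    Per ((p : A) ^ (m + 1)) u (p ^ m * k) := by
  induction m with
  | zero => simpa using h
  | succ m ih =>
    have := Per.upper (m := m + 1) (by omega) ih
    rw [pow_succ p m, mul_comm (p ^ m) p, mul_assoc]
    exact this

theorem lower_step {u : A} {p k j : ℕ} (hp : Odd p)
    (hreg : ∀ y : A, (p : A) * y = 0 → y = 0)
    (h1 : Per ((p : A) ^ (j + 1)) u k) (h2 : ¬ Per ((p : A) ^ (j + 2)) u k) :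
    ¬ Per ((p : A) ^ (j + 3)) u (p * k) := by
  rintro ⟨L, hL⟩
  apply h2
  obtain ⟨l, w, hw⟩ := h1
  obtain ⟨h, hh⟩ := expand3 (u ^ k - 1) p
  obtain ⟨c, hc⟩ : ∃ c, p.choose 2 = p * c := by
    obtain ⟨r, rfl⟩ := hp
    refine ⟨r, ?_⟩
    rw [Nat.choose_two_right]
    simp only [Nat.add_sub_cancel]
    rw [show (2 * r + 1) * (2 * r) = 2 * ((2 * r + 1) * r) by ring]
    exact Nat.mul_div_cancel_left _ (by norm_num)
  have hregp : ∀ (i : ℕ) (y : A), (p : A) ^ i * y = 0 → y = 0 := by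
    intro i
    induction i with
    | zero => intro y hy; simpa using hy
    | succ i ih =>
      intro y hy
      apply ih
      apply hreg
      rw [← mul_assoc, ← pow_succ']; exact hy
  have e1 : u ^ (p * k) = (1 + (u ^ k - 1)) ^ p := by
    rw [show 1 + (u ^ k - 1) = u ^ k by ring, ← pow_mul, mul_comm]
  obtain ⟨s, hs⟩ := hL
  rw [e1, hh, hc] at hs
  -- multiply by u^{3l}
  have e2 : (p : A) ^ (j + 2) * (u ^ L * (u ^ (2 * l) * w + (p : A) * (c * u ^ l * (p : A) ^ j * w ^ 2 +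
      (p : A) ^ (2 * j) * w ^ 3 * h))) = (p : A) ^ (j + 2) * ((p : A) * (u ^ (3 * l) * s)) := by
    have e3 : u ^ (3 * l) * (u ^ L * (1 + (p : A) * (u ^ k - 1) + ((p * c : ℕ) : A) * (u ^ k - 1) ^ 2 +
        (u ^ k - 1) ^ 3 * h - 1)) = u ^ (3 * l) * ((p : A) ^ (j + 3) * s) := by rw [hs]
    have e4 : u ^ (3 * l) * (u ^ L * (1 + (p : A) * (u ^ k - 1) + ((p * c : ℕ) : A) * (u ^ k - 1) ^ 2 +
        (u ^ k - 1) ^ 3 * h - 1)) = u ^ L * ((p : A) * u ^ (2 * l) * (u ^ l * (u ^ k - 1)) +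
        (p : A) * c * u ^ l * (u ^ l * (u ^ k - 1)) ^ 2 + (u ^ l * (u ^ k - 1)) ^ 3 * h) := by
      push_cast
      rw [show 3 * l = l + l + l by ring, show 2 * l = l + l by ring]
      simp only [pow_add]
      ring
    rw [e4, hw] at e3
    calc _ = u ^ L * ((p : A) * u ^ (2 * l) * ((p : A) ^ (j + 1) * w) +
        (p : A) * c * u ^ l * ((p : A) ^ (j + 1) * w) ^ 2 + ((p : A) ^ (j + 1) * w) ^ 3 * h) := by
          rw [show 2 * j = j + j by ring]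
          simp only [pow_add]
          ring
      _ = _ := by rw [e3, show j + 3 = (j + 2) + 1 by ring, pow_succ (p : A) (j + 2)]; ring
  have e5 : u ^ L * (u ^ (2 * l) * w + (p : A) * (c * u ^ l * (p : A) ^ j * w ^ 2 +
      (p : A) ^ (2 * j) * w ^ 3 * h)) = (p : A) * (u ^ (3 * l) * s) := by
    rw [← sub_eq_zero]
    apply hregp (j + 2)
    rw [mul_sub, e2, sub_self]
  refine ⟨L + 3 * l, u ^ (3 * l) * s - u ^ L * (c * u ^ l * (p : A) ^ j * w ^ 2 +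
      (p : A) ^ (2 * j) * w ^ 3 * h), ?_⟩
  have e6 : u ^ (L + 3 * l) * (u ^ k - 1) = u ^ L * u ^ (2 * l) * (u ^ l * (u ^ k - 1)) := by
    rw [show L + 3 * l = L + 2 * l + l by ring]
    simp only [pow_add]; ring
  rw [e6, hw]
  have e7 : u ^ L * (u ^ (2 * l) * w) = (p : A) * (u ^ (3 * l) * s) - u ^ L * ((p : A) * (c * u ^ l * (p : A) ^ j * w ^ 2 +
      (p : A) ^ (2 * j) * w ^ 3 * h)) := by
    rw [← e5]; ring
  calc u ^ L * u ^ (2 * l) * ((p : A) ^ (j + 1) * w) = (p : A) ^ (j + 1) * (u ^ L * (u ^ (2 * l) * w)) := by ring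
    _ = _ := by rw [e7]; simp only [pow_add]; ring

/-- Lifting: if the period `k` mod `p` is not a period mod `p²`, then the period mod `p^(m+1)` is
`p^m k`. -/
theorem per_pow {u : A} {p : ℕ} (hp : Odd p) (hpp : p.Prime)
    (hreg : ∀ y : A, (p : A) * y = 0 → y = 0)
    (hex : ∃ k, 1 ≤ k ∧ Per (p : A) u k)
    (h2 : ¬ Per ((p : A) ^ 2) u (per (p : A) u)) (m : ℕ) :
    per ((p : A) ^ (m + 1)) u = p ^ m * per (p : A) u := by
  obtain ⟨hk1, hk⟩ := per_spec hex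
  set k := per (p : A) u with hkdef
  have hnot : ∀ j : ℕ, ¬ Per ((p : A) ^ (j + 2)) u (p ^ j * k) := by
    intro j
    induction j with
    | zero => simpa using h2
    | succ j ih =>
      have h3 := hk.upper_pow j
      have := lower_step hp hreg h3 ih
      rw [pow_succ p j, mul_comm (p ^ j) p, mul_assoc]
      exact this
  have hexm : ∃ k, 1 ≤ k ∧ Per ((p : A) ^ (m + 1)) u k :=
    ⟨p ^ m * k, Nat.mul_pos (pow_pos hpp.pos _) hk1, hk.upper_pow m⟩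
  obtain ⟨hm1, hm⟩ := per_spec hexm
  have d1 : per ((p : A) ^ (m + 1)) u ∣ p ^ m * k := per_dvd hexm (hk.upper_pow m)
  have d2 : k ∣ per ((p : A) ^ (m + 1)) u := by
    apply per_dvd hex
    exact hm.weaken (dvd_pow_self _ (by omega))
  obtain ⟨c, hc⟩ := d2
  rw [hc] at d1 ⊢
  have d3 : c ∣ p ^ m := by
    rw [mul_comm] at d1
    exact Nat.dvd_of_mul_dvd_mul_right hk1 d1
  obtain ⟨i, hi, rfl⟩ := (Nat.dvd_prime_pow hpp).mp d3
  rcases Nat.eq_or_lt_of_le hi with h | h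
  · rw [h]; ring
  · exfalso
    obtain ⟨d, rfl⟩ : ∃ d, m = i + 1 + d := ⟨m - (i + 1), by omega⟩
    apply hnot (i + d)
    rw [hc] at hm
    have e : i + 1 + d + 1 = i + d + 2 := by ring
    rw [e] at hm
    refine hm.of_dvd ⟨p ^ d, ?_⟩
    rw [pow_add]; ring

end Pool.Agent.V11297.Auto
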