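import Mathlib
import Pool.Agent.V11297.Auto1

/-!
# Periods of `a + b x` in `ℤ_n[x]/(x^σ - 1)`
-/

open Polynomial

namespace Pool.Agent.V11297.Auto

/-- The ring `S[x]/(x^σ - 1)`. -/
abbrev Rg (σ : ℕ) (S : Type) [CommRing S] : Type := AdjoinRoot (X ^ σ - 1 : S[X])

/-- The class of `a + b x` in `S[x]/(x^σ - 1)`. -/
noncomputable def rule (σ : ℕ) {S : Type} [CommRing S] (a b : S) : Rg σ S :=
  AdjoinRoot.of (X ^ σ - 1 : S[X]) a + AdjoinRoot.of (X ^ σ - 1 : S[X]) b * AdjoinRoot.root (X ^ σ - 1 : S[X])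

/-- `Π_σ(a,b;n)`: the least `k ≥ 1` with `(a+bx)^(k+ℓ) = (a+bx)^ℓ` for some `ℓ ≥ 0`. -/
noncomputable def period (σ n : ℕ) (a b : ZMod n) : ℕ :=
  sInf {k : ℕ | 1 ≤ k ∧ ∃ ℓ : ℕ, rule σ a b ^ (k + ℓ) = rule σ a b ^ ℓ}

/-- `π_σ(n)`: the maximum of `Π_σ(a,b;n)` over `a, b ∈ ℤ_n`. -/
noncomputable def maxPeriod (σ n : ℕ) : ℕ := sSup {k : ℕ | ∃ a b : ZMod n, k = period σ n a b}

theorem rule_eq_mk (σ : ℕ) {S : Type} [CommRing S] (a b : S) :
    rule σ a b = AdjoinRoot.mk (X ^ σ - 1 : S[X]) (C a + C b * X) := by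
  simp [rule, AdjoinRoot.mk_C, AdjoinRoot.mk_X]

theorem natCast_dvd_mk {σ n : ℕ} (f : ℤ[X]) :
    ((n : ℕ) : Rg σ ℤ) ∣ AdjoinRoot.mk (X ^ σ - 1 : ℤ[X]) f ↔
      (X ^ σ - 1 : (ZMod n)[X]) ∣ f.map (Int.castRingHom (ZMod n)) := by
  constructor
  · rintro ⟨y, hy⟩
    obtain ⟨g, rfl⟩ := AdjoinRoot.mk_surjective y
    have h1 : AdjoinRoot.mk (X ^ σ - 1 : ℤ[X]) f = AdjoinRoot.mk (X ^ σ - 1 : ℤ[X]) ((n : ℤ[X]) * g) := by
      rw [hy, map_mul, map_natCast]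
    rw [AdjoinRoot.mk_eq_mk] at h1
    obtain ⟨q, hq⟩ := h1
    refine ⟨q.map (Int.castRingHom (ZMod n)), ?_⟩
    have h2 := congrArg (Polynomial.map (Int.castRingHom (ZMod n))) hq
    simp only [Polynomial.map_sub, Polynomial.map_mul, Polynomial.map_pow, Polynomial.map_X, Polynomial.map_one,
      Polynomial.map_natCast] at h2
    rw [← h2]
    simp
  · rintro ⟨q, hq⟩
    obtain ⟨q', rfl⟩ := Polynomial.map_surjective (Int.castRingHom (ZMod n)) ZMod.intCast_surjective q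
    have h1 : C (n : ℤ) ∣ f - (X ^ σ - 1) * q' := by
      rw [Polynomial.C_dvd_iff_dvd_coeff]
      intro i
      have h2 : (f - (X ^ σ - 1) * q').map (Int.castRingHom (ZMod n)) = 0 := by
        simp only [Polynomial.map_sub, Polynomial.map_mul, Polynomial.map_pow, Polynomial.map_X,
          Polynomial.map_one, hq, sub_self]
      have h3 := congrArg (fun g => Polynomial.coeff g i) h2
      simp only [Polynomial.coeff_map, Polynomial.coeff_zero, eq_intCast] at h3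
      exact (ZMod.intCast_zmod_eq_zero_iff_dvd _ _).mp h3
    obtain ⟨r, hr⟩ := h1
    refine ⟨AdjoinRoot.mk _ r, ?_⟩
    have h4 : f = (X ^ σ - 1) * q' + C (n : ℤ) * r := by rw [← hr]; ring
    rw [h4, map_add, map_mul, AdjoinRoot.mk_self, zero_mul, zero_add, map_mul]
    simp

theorem map_W {n : ℕ} (a b : ℤ) : (C a + C b * X : ℤ[X]).map (Int.castRingHom (ZMod n)) =
    C (a : ZMod n) + C (b : ZMod n) * X := by simp

theorem rule_pow_iff {σ n : ℕ} (a b : ℤ) (k l : ℕ) :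
    rule σ (a : ZMod n) (b : ZMod n) ^ (k + l) = rule σ (a : ZMod n) (b : ZMod n) ^ l ↔
      ((n : ℕ) : Rg σ ℤ) ∣ rule σ a b ^ l * (rule σ a b ^ k - 1) := by
  have h1 : rule σ a b ^ l * (rule σ a b ^ k - 1) =
      AdjoinRoot.mk (X ^ σ - 1 : ℤ[X]) ((C a + C b * X) ^ l * ((C a + C b * X) ^ k - 1)) := by
    rw [rule_eq_mk]; simp
  rw [h1, natCast_dvd_mk, rule_eq_mk, ← map_pow, ← map_pow, AdjoinRoot.mk_eq_mk]
  have h2 : ((C a + C b * X) ^ l * ((C a + C b * X) ^ k - 1) : ℤ[X]).map (Int.castRingHom (ZMod n)) =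
      (C (a : ZMod n) + C (b : ZMod n) * X) ^ (k + l) - (C (a : ZMod n) + C (b : ZMod n) * X) ^ l := by
    rw [Polynomial.map_mul, Polynomial.map_sub, Polynomial.map_pow, Polynomial.map_pow, map_W,
      Polynomial.map_one]
    ring
  rw [h2]

theorem period_eq {σ n : ℕ} (a b : ℤ) :
    period σ n (a : ZMod n) (b : ZMod n) = per ((n : ℕ) : Rg σ ℤ) (rule σ a b) := by
  unfold period per
  congr 1
  ext k
  simp only [Set.mem_ofPred_eq]
  apply and_congr_right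
  intro _
  unfold Per
  constructor
  · rintro ⟨l, hl⟩
    exact ⟨l, (rule_pow_iff a b k l).mp hl⟩
  · rintro ⟨l, hl⟩
    exact ⟨l, (rule_pow_iff a b k l).mpr hl⟩

theorem monic_J {S : Type} [CommRing S] {σ : ℕ} (hσ : 1 ≤ σ) : (X ^ σ - 1 : S[X]).Monic := by
  have := monic_X_pow_sub_C (1 : S) (n := σ) (by omega)
  simpa using this

theorem reg {σ p : ℕ} (hσ : 1 ≤ σ) (hp : p.Prime) (y : Rg σ ℤ) (h : (p : Rg σ ℤ) * y = 0) : y = 0 := by
  obtain ⟨f, rfl⟩ := AdjoinRoot.mk_surjective y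
  have h1 : AdjoinRoot.mk (X ^ σ - 1 : ℤ[X]) (C (p : ℤ) * f) = 0 := by
    rw [map_mul]; rw [← h]; simp
  rw [AdjoinRoot.mk_eq_zero] at h1 ⊢
  obtain ⟨q, hq⟩ := h1
  have hpr : Prime (C (p : ℤ)) := Polynomial.prime_C_iff.mpr (Nat.prime_iff_prime_int.mp hp)
  have h2 : C (p : ℤ) ∣ (X ^ σ - 1) * q := ⟨f, hq.symm⟩
  rcases hpr.dvd_or_dvd h2 with h3 | h3
  · exfalso
    rw [Polynomial.C_dvd_iff_dvd_coeff] at h3
    have h4 := h3 σ
    have h5 : (X ^ σ - 1 : ℤ[X]).coeff σ = 1 := by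
      have := monic_J (S := ℤ) hσ
      have h6 : (X ^ σ - 1 : ℤ[X]).natDegree = σ := by
        have := natDegree_X_pow_sub_C (n := σ) (r := (1 : ℤ))
        simpa using this
      have h7 := this.coeff_natDegree
      rwa [h6] at h7
    rw [h5] at h4
    have h8 : (p : ℤ) ≤ 1 := Int.le_of_dvd one_pos h4
    have := hp.two_le
    omega
  · obtain ⟨r, rfl⟩ := h3
    refine ⟨r, ?_⟩
    have h5 : C (p : ℤ) * f = C (p : ℤ) * ((X ^ σ - 1) * r) := by rw [hq]; ring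
    exact mul_left_cancel₀ hpr.ne_zero h5

/-- The Frobenius in `𝔽_p[X]`. -/
theorem frob {p : ℕ} [Fact p.Prime] (a b : ZMod p) (e : ℕ) :
    (C a + C b * X : (ZMod p)[X]) ^ (p ^ e) = C a + C b * X ^ (p ^ e) := by
  rw [add_pow_char_pow, mul_pow, ← C_pow, ← C_pow, ZMod.pow_card_pow, ZMod.pow_card_pow]

/-- `u^(p^e) ≡ a + b x^(p^e)` modulo `p`. -/
theorem frobZ {σ p : ℕ} [Fact p.Prime] (a b : ℤ) (e : ℕ) :
    ((p : ℕ) : Rg σ ℤ) ∣ rule σ a b ^ (p ^ e) - AdjoinRoot.mk (X ^ σ - 1 : ℤ[X]) (C a + C b * X ^ (p ^ e)) := by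
  rw [rule_eq_mk, ← map_pow, ← map_sub, natCast_dvd_mk]
  have : ((C a + C b * X : ℤ[X]) ^ p ^ e - (C a + C b * X ^ p ^ e)).map (Int.castRingHom (ZMod p)) = 0 := by
    rw [Polynomial.map_sub, Polynomial.map_pow, map_W, frob]
    simp
  rw [this]
  exact dvd_zero _

theorem exists_period {σ p : ℕ} [hp : Fact p.Prime] {v τ : ℕ} (hσ : σ = p ^ v * τ)
    (hτ : ¬ p ∣ τ) (a b : ℤ) :
    Per ((p : ℕ) : Rg σ ℤ) (rule σ a b) (p ^ v * (p ^ τ.totient - 1)) := by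
  refine ⟨p ^ v, ?_⟩
  have hcop : Nat.Coprime p τ := (Nat.Prime.coprime_iff_not_dvd hp.out).mpr hτ
  have h1 : p ^ τ.totient ≡ 1 [MOD τ] := Nat.ModEq.pow_totient hcop
  have hpos : 1 ≤ p ^ τ.totient := Nat.one_le_pow _ _ hp.out.pos
  have h2 : τ ∣ p ^ τ.totient - 1 := (Nat.modEq_iff_dvd' hpos).mp h1.symm
  obtain ⟨c, hc⟩ := h2
  have e1 : rule σ a b ^ p ^ v * (rule σ a b ^ (p ^ v * (p ^ τ.totient - 1)) - 1) =
      rule σ a b ^ (p ^ (v + τ.totient)) - rule σ a b ^ (p ^ v) := by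
    rw [mul_sub, mul_one, ← pow_add]
    congr 2
    rw [pow_add]
    obtain ⟨t, ht⟩ : ∃ t, p ^ τ.totient = t + 1 := ⟨p ^ τ.totient - 1, by omega⟩
    rw [ht]; simp; ring
  rw [e1]
  have f1 := frobZ (σ := σ) (p := p) a b (v + τ.totient)
  have f2 := frobZ (σ := σ) (p := p) a b v
  have e2 : AdjoinRoot.mk (X ^ σ - 1 : ℤ[X]) (C a + C b * X ^ (p ^ (v + τ.totient))) =
      AdjoinRoot.mk (X ^ σ - 1 : ℤ[X]) (C a + C b * X ^ (p ^ v)) := by
    have e3 : p ^ (v + τ.totient) = p ^ v + σ * c := by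
      rw [pow_add, hσ]
      obtain ⟨t, ht⟩ : ∃ t, p ^ τ.totient = t + 1 := ⟨p ^ τ.totient - 1, by omega⟩
      rw [ht] at hc ⊢
      simp only [Nat.add_sub_cancel] at hc
      rw [hc]; ring
    have e4 : AdjoinRoot.mk (X ^ σ - 1 : ℤ[X]) (X ^ σ) = 1 := by
      rw [← map_one (AdjoinRoot.mk (X ^ σ - 1 : ℤ[X])), AdjoinRoot.mk_eq_mk]
    rw [e3, pow_add, pow_mul]
    rw [map_add, map_mul, map_mul, map_pow _ (X ^ σ), e4, one_pow, mul_one, ← map_mul, ← map_add]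
  rw [e2] at f1
  have := dvd_sub f1 f2
  convert this using 1
  ring

end Pool.Agent.V11297.Auto
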