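import Mathlib
import Pool.Agent.V11297.Auto2

/-!
# A pair whose period jumps modulo `p²`
-/

open Polynomial

namespace Pool.Agent.V11297.Auto

/-- Case `p ∤ σ`. -/
theorem caseA {A : Type*} [CommRing A] {p k : ℕ} (hp : p.Prime)
    (hreg : ∀ y : A, (p : A) * y = 0 → y = 0) (u : A) (hk : ¬ p ∣ k)
    (h1 : Per ((p : A) ^ 2) u k) (h2 : Per ((p : A) ^ 2) (u + p) k) : ∃ N, (p : A) ∣ u ^ N := by
  obtain ⟨l, hl⟩ := h1
  obtain ⟨l', hl'⟩ := h2
  set L := p * (l + l') with hL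
  have hLl : l ≤ L := by
    rw [hL]; nlinarith [hp.two_le]
  have hLl' : l' ≤ L := by
    rw [hL]; nlinarith [hp.two_le]
  have g1 := Per.lift hl hLl
  have g2 := Per.lift hl' hLl'
  obtain ⟨c1, hc1⟩ := Polynomial.powAddExpansion u (p : A) L
  obtain ⟨c2, hc2⟩ := Polynomial.powAddExpansion u (p : A) k
  rw [hc1, hc2] at g2
  have hLp : ((L : ℕ) : A) = (p : A) * ((l + l' : ℕ) : A) := by rw [hL]; push_cast; ring
  rw [hLp] at g2
  obtain ⟨w1, hw1⟩ := g1
  obtain ⟨w2, hw2⟩ := g2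
  have key : (p : A) * ((k : A) * (u ^ L * u ^ (k - 1))) = (p : A) * ((p : A) * (w2 - w1 -
      ((l + l' : ℕ) : A) * u ^ (L - 1) * (u ^ k + k * u ^ (k - 1) * p + c2 * p ^ 2 - 1) -
      c1 * (u ^ k + k * u ^ (k - 1) * p + c2 * p ^ 2 - 1) - u ^ L * c2)) := by
    linear_combination hw2 - hw1
  have key2 : (k : A) * (u ^ L * u ^ (k - 1)) = (p : A) * (w2 - w1 -
      ((l + l' : ℕ) : A) * u ^ (L - 1) * (u ^ k + k * u ^ (k - 1) * p + c2 * p ^ 2 - 1) -
      c1 * (u ^ k + k * u ^ (k - 1) * p + c2 * p ^ 2 - 1) - u ^ L * c2) := by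
    rw [← sub_eq_zero]
    apply hreg
    rw [mul_sub, key, sub_self]
  have hcop : IsCoprime (p : A) (k : A) := by
    have h3 : IsCoprime (p : ℤ) (k : ℤ) :=
      Int.isCoprime_iff_gcd_eq_one.mpr ((Nat.Prime.coprime_iff_not_dvd hp).mpr hk)
    have := h3.map (Int.castRingHom A)
    simpa using this
  refine ⟨L + (k - 1), ?_⟩
  rw [pow_add]
  exact hcop.dvd_of_dvd_mul_left ⟨_, key2⟩

theorem expand_dvd {S : Type} [CommRing S] {q : ℕ} (hq : 0 < q) {J F : S[X]} (hJ : J.Monic)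
    (h : expand S q J ∣ expand S q F) : J ∣ F := by
  nontriviality S
  rw [← Polynomial.modByMonic_eq_zero_iff_dvd hJ]
  by_contra hne
  have hJe : (expand S q J).Monic := hJ.expand hq
  have h1 : expand S q (F %ₘ J) = expand S q F - expand S q J * expand S q (F /ₘ J) := by
    rw [← map_mul, ← map_sub]
    congr 1
    rw [eq_sub_iff_add_eq]
    exact Polynomial.modByMonic_add_div F J
  have h2 : expand S q J ∣ expand S q (F %ₘ J) := by
    rw [h1]; exact dvd_sub h (dvd_mul_right _ _)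
  have h3 : expand S q (F %ₘ J) ≠ 0 := by
    intro h4; exact hne ((Polynomial.expand_eq_zero hq).mp h4)
  have hJ1 : J ≠ 1 := by
    intro h5
    rw [h5] at hne
    simp at hne
  have h4 : natDegree (F %ₘ J) < natDegree J := Polynomial.natDegree_modByMonic_lt F hJ hJ1
  refine hJe.not_dvd_of_natDegree_lt h3 ?_ h2
  rw [natDegree_expand, natDegree_expand]
  exact Nat.mul_lt_mul_of_pos_right h4 hq

/-- The derivative argument. -/
theorem caseB_core {p τ a b K M : ℤ} {pn τn Kn Mn : ℕ} [hp : Fact pn.Prime] (e1 : p = pn)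
    (e2 : τ = τn) (e3 : K = Kn) (e4 : M = Mn) (hτ : 1 ≤ τn)
    (ha : ¬ p ∣ a) (hb : ¬ p ∣ b) (hK : ¬ p ∣ K) (hM : p ∣ M) (hM1 : 1 ≤ Mn)
    (h : (X ^ (pn * τn) - 1 : (ZMod (pn ^ 2))[X]) ∣
      ((C a + C b * X : ℤ[X]) ^ (pn * Mn) * ((C a + C b * X) ^ (pn * Kn) - 1)).map
        (Int.castRingHom (ZMod (pn ^ 2)))) :
    ∃ n, (X ^ (pn * τn) - 1 : (ZMod pn)[X]) ∣ (C (a : ZMod pn) + C (b : ZMod pn) * X) ^ n := by
  set W : ℤ[X] := C a + C b * X with hW
  rw [← natCast_dvd_mk] at h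
  obtain ⟨y, hy⟩ := h
  obtain ⟨R, rfl⟩ := AdjoinRoot.mk_surjective y
  have hmk : AdjoinRoot.mk (X ^ (pn * τn) - 1 : ℤ[X]) (W ^ (pn * Mn) * (W ^ (pn * Kn) - 1)) =
      AdjoinRoot.mk (X ^ (pn * τn) - 1 : ℤ[X]) (C (p ^ 2) * R) := by
    rw [hy, map_mul]; congr 1; simp [e1]
  rw [AdjoinRoot.mk_eq_mk] at hmk
  obtain ⟨Q, hQ⟩ := hmk
  have hF : W ^ (pn * Mn) * (W ^ (pn * Kn) - 1) = (X ^ (pn * τn) - 1) * Q + C (p ^ 2) * R := by
    rw [← hQ]; ring
  have hd := congrArg derivative hF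
  have hdW : derivative W = C b := by simp [hW]
  have hKpos : 1 ≤ Kn := by
    rcases Nat.eq_zero_or_pos Kn with h0 | h0
    · exfalso; apply hK; rw [e3, h0]; simp
    · exact h0
  have hp2 := hp.out.two_le
  have hpK : 1 ≤ pn * Kn := Nat.mul_pos hp.out.pos hKpos
  have hpM : 1 ≤ pn * Mn := Nat.mul_pos hp.out.pos hM1
  have hpτ : 1 ≤ pn * τn := Nat.mul_pos hp.out.pos hτ
  set m' := pn * Mn - 1 with hm'
  set k' := pn * Kn - 1 with hk'
  set t' := pn * τn - 1 with ht'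
  have hm : pn * Mn = m' + 1 := by omega
  have hk : pn * Kn = k' + 1 := by omega
  have ht : pn * τn = t' + 1 := by omega
  have cm : ((pn * Mn : ℕ) : ℤ[X]) = C p * C M := by rw [e1, e4]; push_cast; simp
  have ck : ((pn * Kn : ℕ) : ℤ[X]) = C p * C K := by rw [e1, e3]; push_cast; simp
  have ct : ((pn * τn : ℕ) : ℤ[X]) = C p * C τ := by rw [e1, e2]; push_cast; simp
  rw [derivative_mul, derivative_sub, derivative_pow, derivative_pow, hdW, derivative_one,
    derivative_add, derivative_mul, derivative_sub, derivative_X_pow, derivative_one,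
    derivative_C_mul] at hd
  simp only [Polynomial.C_eq_natCast, ← hm', ← hk', ← ht'] at hd
  rw [cm, ck, ct] at hd
  have hpr : Prime (C p : ℤ[X]) := by
    rw [e1]
    exact Polynomial.prime_C_iff.mpr (Nat.prime_iff_prime_int.mp hp.out)
  have hdvd : C p ∣ (X ^ (pn * τn) - 1) * derivative Q := by
    refine ⟨C M * W ^ m' * C b * (W ^ (pn * Kn) - 1) + W ^ (pn * Mn) * (C K * W ^ k' * C b) -
      C τ * X ^ t' * Q - C p * derivative R, ?_⟩
    have : C (p ^ 2) = (C p : ℤ[X]) * C p := by rw [← C_mul]; ring_nf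
    rw [this] at hd
    linear_combination -hd
  have hJnot : ¬ (C p ∣ (X ^ (pn * τn) - 1 : ℤ[X])) := by
    intro h3
    rw [Polynomial.C_dvd_iff_dvd_coeff] at h3
    have h4 := h3 (pn * τn)
    have h5 : (X ^ (pn * τn) - 1 : ℤ[X]).coeff (pn * τn) = 1 := by
      have := monic_J (S := ℤ) hpτ
      have h6 : (X ^ (pn * τn) - 1 : ℤ[X]).natDegree = pn * τn := by
        have := natDegree_X_pow_sub_C (n := pn * τn) (r := (1 : ℤ))
        simpa using this
      have h7 := this.coeff_natDegree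
      rwa [h6] at h7
    rw [h5] at h4
    have h8 : p ≤ 1 := Int.le_of_dvd one_pos h4
    omega
  obtain ⟨Q1, hQ1⟩ := (hpr.dvd_or_dvd hdvd).resolve_left hJnot
  have hcancel : C M * W ^ m' * C b * (W ^ (pn * Kn) - 1) + W ^ (pn * Mn) * (C K * W ^ k' * C b) =
      C τ * X ^ t' * Q + (X ^ (pn * τn) - 1) * Q1 + C p * derivative R := by
    apply mul_left_cancel₀ hpr.ne_zero
    have : C (p ^ 2) = (C p : ℤ[X]) * C p := by rw [← C_mul]; ring_nf
    rw [this, hQ1] at hd
    linear_combination hd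
  -- reduce mod p
  set f := Int.castRingHom (ZMod pn) with hf
  have hpz : (p : ZMod pn) = 0 := by rw [e1]; simp
  have hMz : (M : ZMod pn) = 0 := by
    obtain ⟨c, hc⟩ := hM
    rw [hc]; push_cast; rw [hpz]; simp
  have ha' : (a : ZMod pn) ≠ 0 := by
    intro h0; apply ha; rw [e1]; exact (ZMod.intCast_zmod_eq_zero_iff_dvd _ _).mp h0
  have hb' : (b : ZMod pn) ≠ 0 := by
    intro h0; apply hb; rw [e1]; exact (ZMod.intCast_zmod_eq_zero_iff_dvd _ _).mp h0
  have hK' : (K : ZMod pn) ≠ 0 := by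
    intro h0; apply hK; rw [e1]; exact (ZMod.intCast_zmod_eq_zero_iff_dvd _ _).mp h0
  set V : (ZMod pn)[X] := C (a : ZMod pn) + C (b : ZMod pn) * X with hV
  have hWV : W.map f = V := by rw [hW, hf, map_W]
  have hbar := congrArg (Polynomial.map f) hcancel
  simp only [Polynomial.map_add, Polynomial.map_mul, Polynomial.map_sub, Polynomial.map_pow,
    Polynomial.map_X, Polynomial.map_one, hWV] at hbar
  have mC : ∀ z : ℤ, (C z : ℤ[X]).map f = C (z : ZMod pn) := by intro z; simp [hf]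
  simp only [mC] at hbar
  rw [hMz, hpz] at hbar
  simp only [C_0, zero_mul, zero_add, add_zero] at hbar
  have hQ' : derivative (Q.map f) = 0 := by
    rw [derivative_map, hQ1, Polynomial.map_mul, mC, hpz]; simp
  have hX : X * (V ^ (pn * Mn) * (C (K : ZMod pn) * V ^ k' * C (b : ZMod pn))) =
      C (τ : ZMod pn) * Q.map f + (X ^ (pn * τn) - 1) * (C (τ : ZMod pn) * Q.map f + X * Q1.map f) := by
    rw [hbar]
    have : (X : (ZMod pn)[X]) ^ (pn * τn) = X * X ^ t' := by rw [ht, pow_succ']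
    rw [this]; ring
  have hX2 : C (K : ZMod pn) * C (b : ZMod pn) * (X * V ^ (pn * Mn + k')) =
      C (τ : ZMod pn) * Q.map f + (X ^ (pn * τn) - 1) * (C (τ : ZMod pn) * Q.map f + X * Q1.map f) := by
    rw [← hX, pow_add]; ring
  have hpN : ((pn : ℕ) : (ZMod pn)[X]) = 0 := by
    have : ((pn : ℕ) : ZMod pn) = 0 := by simp
    rw [← Polynomial.C_eq_natCast, this, C_0]
  have hdd := congrArg derivative hX2
  have hdV : derivative V = C (b : ZMod pn) := by simp [hV]
  have e5 : pn * Mn + k' = (pn * Mn + pn * Kn - 2) + 1 := by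
    have : 2 ≤ pn * Kn := by nlinarith
    omega
  set n := pn * Mn + pn * Kn - 2 with hn
  have e6 : n + 2 = pn * (Mn + Kn) := by
    have : 2 ≤ pn * Kn := by nlinarith
    rw [hn, mul_add]; omega
  have e7 : ((n + 1 : ℕ) : (ZMod pn)[X]) = -1 := by
    have h9 : ((n + 2 : ℕ) : (ZMod pn)[X]) = 0 := by
      rw [e6]; push_cast; rw [hpN]; simp
    have h10 : ((n + 2 : ℕ) : (ZMod pn)[X]) = ((n + 1 : ℕ) : (ZMod pn)[X]) + 1 := by push_cast; ring
    rw [h10] at h9
    exact eq_neg_of_add_eq_zero_left h9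
  rw [e5, mul_assoc, derivative_C_mul, derivative_C_mul, derivative_mul, derivative_X, derivative_pow, hdV,
    derivative_add, derivative_C_mul, hQ', derivative_mul, derivative_sub, derivative_X_pow, derivative_one,
    Polynomial.C_eq_natCast, Polynomial.C_eq_natCast, e7] at hdd
  simp only [Nat.add_sub_cancel] at hdd
  have hz : ((pn * τn : ℕ) : (ZMod pn)[X]) = 0 := by push_cast; rw [hpN]; simp
  rw [hz] at hdd
  refine ⟨n, ?_⟩
  have hfin : C ((K : ZMod pn) * b * a) * V ^ n = (X ^ (pn * τn) - 1) *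
      derivative (C (τ : ZMod pn) * Q.map f + X * Q1.map f) := by
    have h11 : C ((K : ZMod pn) * b * a) * V ^ n = C (K : ZMod pn) * (C (b : ZMod pn) *
      (1 * V ^ (n + 1) + X * (-1 * V ^ n * C (b : ZMod pn)))) := by
      rw [pow_succ V n]
      have : V ^ n * V = V ^ n * (C (a : ZMod pn) + C (b : ZMod pn) * X) := by rw [← hV]
      rw [this]
      simp only [C_mul]
      ring
    rw [h11, hdd]
    ring
  have hunit : IsUnit (C ((K : ZMod pn) * b * a)) := by
    rw [Polynomial.isUnit_C]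
    exact isUnit_iff_ne_zero.mpr (mul_ne_zero (mul_ne_zero hK' hb') ha')
  rw [← hunit.dvd_mul_left]
  exact ⟨_, hfin⟩

end Pool.Agent.V11297.Auto
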