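import Mathlib
import Pool.Agent.V11297.Auto3

/-!
# The maximal period and its lifting
-/

open Polynomial

namespace Pool.Agent.V11297.Auto

theorem dvd_eval_sub {A : Type*} [CommRing A] {d U U0 : A} (h : d ∣ U - U0) (L K : ℕ)
    (h1 : d ∣ U ^ L * (U ^ K - 1)) : d ∣ U0 ^ L * (U0 ^ K - 1) := by
  have h2 : U - U0 ∣ U ^ L * (U ^ K - 1) - U0 ^ L * (U0 ^ K - 1) := by
    have := Polynomial.sub_dvd_eval_sub U U0 ((X : A[X]) ^ L * (X ^ K - 1))
    simpa using this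
  have h3 := dvd_sub h1 (h.trans h2)
  simpa using h3

theorem caseB {p v τ K : ℕ} [hp : Fact p.Prime] (hτ : 1 ≤ τ) (hv : 1 ≤ v)
    {a b : ℤ} (ha : ¬ (p : ℤ) ∣ a) (hb : ¬ (p : ℤ) ∣ b) (hK : ¬ p ∣ K)
    (h : Per (((p : ℕ) : Rg (p ^ v * τ) ℤ) ^ 2) (rule (p ^ v * τ) a b) (p ^ v * K)) :
    ∃ N, ((p : ℕ) : Rg (p ^ v * τ) ℤ) ∣ rule (p ^ v * τ) a b ^ N := by
  obtain ⟨w, rfl⟩ : ∃ w, v = w + 1 := ⟨v - 1, by omega⟩
  set σ := p ^ (w + 1) * τ with hσ
  obtain ⟨L0, hL0⟩ := h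
  have hpv : 1 ≤ p ^ (w + 1) := Nat.one_le_pow _ _ hp.out.pos
  set L := p * (L0 + 1) with hL
  have g1 : ((p : ℕ) : Rg σ ℤ) ^ 2 ∣ rule σ a b ^ (p ^ (w + 1) * L) * (rule σ a b ^ (p ^ (w + 1) * K) - 1) := by
    apply Per.lift hL0
    rw [hL]
    have := hp.out.two_le
    nlinarith
  rw [pow_mul (rule σ a b), pow_mul (rule σ a b)] at g1
  set z0 : Rg σ ℤ := AdjoinRoot.mk (X ^ σ - 1 : ℤ[X]) (C a + C b * X ^ (p ^ w)) with hz0
  have g2 : ((p : ℕ) : Rg σ ℤ) ^ 2 ∣ rule σ a b ^ (p ^ (w + 1)) - z0 ^ p := by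
    have h1 := frobZ (σ := σ) (p := p) a b w
    have h2 := dvd_sub_pow_of_dvd_sub h1 1
    rw [pow_one, ← pow_mul, ← pow_succ] at h2
    exact h2
  have g3 := dvd_eval_sub g2 _ _ g1
  rw [← pow_mul, ← pow_mul] at g3
  have hJ : (X ^ σ - 1 : (ZMod (p ^ 2))[X]) = expand _ (p ^ w) (X ^ (p * τ) - 1) := by
    simp [hσ, ← pow_mul]
    congr 1
    ring
  have g4 : z0 ^ (p * L) * (z0 ^ (p * K) - 1) = AdjoinRoot.mk (X ^ σ - 1 : ℤ[X])
      (expand ℤ (p ^ w) ((C a + C b * X) ^ (p * L) * ((C a + C b * X) ^ (p * K) - 1))) := by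
    rw [hz0]
    simp
  have g5 : ((p ^ 2 : ℕ) : Rg σ ℤ) ∣ AdjoinRoot.mk (X ^ σ - 1 : ℤ[X])
      (expand ℤ (p ^ w) ((C a + C b * X) ^ (p * L) * ((C a + C b * X) ^ (p * K) - 1))) := by
    rw [← g4]
    push_cast
    exact g3
  rw [natCast_dvd_mk, Polynomial.map_expand, hJ] at g5
  have g6 := expand_dvd (pow_pos hp.out.pos w)
    (monic_J (S := ZMod (p ^ 2)) (σ := p * τ) (Nat.mul_pos hp.out.pos hτ)) g5
  obtain ⟨n, hn⟩ := caseB_core (p := (p : ℤ)) (τ := (τ : ℤ)) (a := a) (b := b) (K := (K : ℤ)) (M := (L : ℤ))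
    (pn := p) (τn := τ) (Kn := K) (Mn := L) rfl rfl rfl rfl hτ ha hb
    (by rw [Int.natCast_dvd_natCast]; exact hK)
    (by rw [Int.natCast_dvd_natCast]; exact ⟨_, hL⟩)
    (by rw [hL]; exact Nat.mul_pos hp.out.pos (by omega)) g6
  refine ⟨p ^ w * n, ?_⟩
  rw [rule_eq_mk, ← map_pow, natCast_dvd_mk, Polynomial.map_pow, map_W,
    pow_mul (C (a : ZMod p) + C (b : ZMod p) * X), frob]
  have g7 := map_dvd (expand (ZMod p) (p ^ w)) hn
  have e1 : expand (ZMod p) (p ^ w) (X ^ (p * τ) - 1) = X ^ σ - 1 := by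
    simp [hσ, ← pow_mul]
    congr 1
    ring
  rw [e1] at g7
  simpa using g7

/-- Evaluation at `1`. -/
noncomputable def ev1 (σ p : ℕ) : Rg σ (ZMod p) →+* ZMod p :=
  AdjoinRoot.lift (RingHom.id _) 1 (by simp)

theorem ev1_rule (σ p : ℕ) (a b : ZMod p) : ev1 σ p (rule σ a b) = a + b := by
  simp [ev1, rule]

/-- `x ↦ x^(σ-1) = x⁻¹`. -/
theorem inv_root {σ : ℕ} (hσ : 1 ≤ σ) (S : Type) [CommRing S] :
    AdjoinRoot.root (X ^ σ - 1 : S[X]) * AdjoinRoot.root (X ^ σ - 1 : S[X]) ^ (σ - 1) = 1 := by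
  rw [← pow_succ', Nat.sub_add_cancel hσ]
  have := AdjoinRoot.eval₂_root (X ^ σ - 1 : S[X])
  simp only [eval₂_sub, eval₂_pow, eval₂_X, eval₂_one] at this
  exact sub_eq_zero.mp this

theorem root_pow {σ : ℕ} (S : Type) [CommRing S] :
    AdjoinRoot.root (X ^ σ - 1 : S[X]) ^ σ = 1 := by
  have := AdjoinRoot.eval₂_root (X ^ σ - 1 : S[X])
  simp only [eval₂_sub, eval₂_pow, eval₂_X, eval₂_one] at this
  exact sub_eq_zero.mp this

noncomputable def conj (σ : ℕ) (S : Type) [CommRing S] : Rg σ S →+* Rg σ S :=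
  AdjoinRoot.lift (AdjoinRoot.of _) (AdjoinRoot.root _ ^ (σ - 1)) (by
    simp only [eval₂_sub, eval₂_pow, eval₂_X, eval₂_one]
    rw [← pow_mul, mul_comm, pow_mul, root_pow, one_pow, sub_self])

/-- Comparison of exponents. -/
theorem exps {σ p : ℕ} (hσ : 1 ≤ σ) (hp : p.Prime) (hp2 : p ≠ 2) {e k : ℕ}
    (h : (X ^ σ - 1 : (ZMod p)[X]) ∣ 1 + X ^ e - X ^ k - X ^ (k + e)) :
    σ ∣ k ∨ (k % σ = e % σ ∧ σ ∣ 2 * e ∧ ¬ σ ∣ e) := by
  have := Fact.mk hp
  have hred : ∀ j : ℕ, (X ^ σ - 1 : (ZMod p)[X]) ∣ X ^ j - X ^ (j % σ) := by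
    intro j
    have h1 : (X ^ j - X ^ (j % σ) : (ZMod p)[X]) = X ^ (j % σ) * ((X ^ σ) ^ (j / σ) - 1 ^ (j / σ)) := by
      rw [one_pow, mul_sub, mul_one, ← pow_mul, ← pow_add, Nat.mod_add_div]
    rw [h1]
    exact Dvd.dvd.mul_left (sub_dvd_pow_sub_pow _ _ _) _
  have h2 : (X ^ σ - 1 : (ZMod p)[X]) ∣ 1 + X ^ (e % σ) - X ^ (k % σ) - X ^ ((k + e) % σ) := by
    have h3 := dvd_sub (dvd_sub h (hred e)) (dvd_add (dvd_neg.mpr (hred k)) (dvd_neg.mpr (hred (k + e))))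
    convert h3 using 1
    ring
  have h4 : (1 + X ^ (e % σ) - X ^ (k % σ) - X ^ ((k + e) % σ) : (ZMod p)[X]) = 0 := by
    by_contra hne
    refine (monic_J (S := ZMod p) hσ).not_dvd_of_degree_lt hne ?_ h2
    have hdeg : (X ^ σ - 1 : (ZMod p)[X]).degree = σ := by
      have := degree_X_pow_sub_C (n := σ) (by omega) (1 : ZMod p)
      simpa using this
    rw [hdeg]
    have hm : ∀ j : ℕ, (X ^ (j % σ) : (ZMod p)[X]).degree < σ := by
      intro j
      rw [degree_X_pow]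
      exact_mod_cast Nat.mod_lt _ (by omega)
    have h1' : (1 : (ZMod p)[X]).degree < σ := by
      have := hm 0
      simpa using this
    refine lt_of_le_of_lt (degree_sub_le _ _) (max_lt (lt_of_le_of_lt (degree_sub_le _ _) (max_lt
      (lt_of_le_of_lt (degree_add_le _ _) (max_lt h1' (hm e))) (hm k))) (hm _))
  by_cases hk0 : k % σ = 0
  · left; exact Nat.dvd_of_mod_eq_zero hk0
  · right
    have two_ne : (2 : ZMod p) ≠ 0 := by
      intro h5
      have h6 : ((2 : ℕ) : ZMod p) = 0 := by exact_mod_cast h5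
      rw [ZMod.natCast_eq_zero_iff] at h6
      exact hp2 ((Nat.prime_dvd_prime_iff_eq hp Nat.prime_two).mp h6)
    have c0 := congrArg (fun g => coeff g 0) h4
    have c1 := congrArg (fun g => coeff g (e % σ)) h4
    simp only [coeff_sub, coeff_add, coeff_X_pow, coeff_one, coeff_zero] at c0 c1
    have hk0' : ¬ (0 = k % σ) := fun h => hk0 h.symm
    rw [if_neg hk0'] at c0
    simp only [if_true] at c0
    by_cases he0 : e % σ = 0
    · exfalso
      rw [if_pos he0.symm] at c0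
      by_cases hke : 0 = (k + e) % σ
      · have : (k + e) % σ = k % σ := by
          rw [Nat.add_mod, he0]; simp
        rw [this] at hke
        exact hk0' hke
      · rw [if_neg hke] at c0
        apply two_ne
        linear_combination c0
    · have he0' : ¬ (0 = e % σ) := fun h => he0 h.symm
      rw [if_neg he0'] at c0
      have hke : 0 = (k + e) % σ := by
        by_contra hcon
        rw [if_neg hcon] at c0
        simp at c0
      rw [if_neg he0, ← hke, if_neg he0] at c1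
      simp only [if_true] at c1
      have hek : e % σ = k % σ := by
        by_contra hcon
        rw [if_neg hcon] at c1
        simp at c1
      refine ⟨hek.symm, ?_, ?_⟩
      · apply Nat.dvd_of_mod_eq_zero
        rw [two_mul, Nat.add_mod, hek, Nat.add_mod, Nat.mod_mod]
        rw [Nat.add_mod, hek] at hke
        simpa [Nat.add_mod] using hke.symm
      · intro h7
        exact he0 (Nat.mod_eq_zero_of_dvd h7)

/-- Every period of `c(1+x)`, `2c` a primitive root, is a multiple of `p - 1` and of `σ`. -/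
theorem special_period {σ p : ℕ} (hσ : 1 ≤ σ) [hp : Fact p.Prime] (hp2 : p ≠ 2) {c : ZMod p}
    (hc : orderOf (2 * c) = p - 1) (hc0 : c ≠ 0) {k l : ℕ}
    (h : rule σ c c ^ (k + l) = rule σ c c ^ l) : (p - 1) ∣ k ∧ σ ∣ k := by
  have two_ne : (2 : ZMod p) ≠ 0 := by
    intro h5
    have h6 : ((2 : ℕ) : ZMod p) = 0 := by exact_mod_cast h5
    rw [ZMod.natCast_eq_zero_iff] at h6
    exact hp2 ((Nat.prime_dvd_prime_iff_eq hp.out Nat.prime_two).mp h6)
  have h2c : (2 * c) ≠ 0 := mul_ne_zero two_ne hc0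
  have h1 : (p - 1) ∣ k := by
    have := congrArg (ev1 σ p) h
    rw [map_pow, map_pow, ev1_rule, ← two_mul, pow_add] at this
    have h3 : (2 * c) ^ k = 1 := by
      have h4 : (2 * c) ^ l ≠ 0 := pow_ne_zero _ h2c
      apply mul_right_cancel₀ h4
      rw [this, one_mul]
    rw [← hc]
    exact orderOf_dvd_of_pow_eq_one h3
  refine ⟨h1, ?_⟩
  set x := AdjoinRoot.root (X ^ σ - 1 : (ZMod p)[X]) with hx
  have hck : c ^ k = 1 := by
    obtain ⟨d, hd⟩ := h1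
    rw [hd, pow_mul, ZMod.pow_card_sub_one_eq_one hc0, one_pow]
  have hcu : IsUnit (AdjoinRoot.of (X ^ σ - 1 : (ZMod p)[X]) c) :=
    (isUnit_iff_ne_zero.mpr hc0).map _
  have hr : rule σ c c = AdjoinRoot.of (X ^ σ - 1 : (ZMod p)[X]) c * (1 + x) := by
    rw [rule]; ring
  have h2 : (1 + x) ^ (k + l) = (1 + x) ^ l := by
    rw [hr, mul_pow, mul_pow] at h
    have h3 : (AdjoinRoot.of (X ^ σ - 1 : (ZMod p)[X]) c) ^ (k + l) =
        (AdjoinRoot.of (X ^ σ - 1 : (ZMod p)[X]) c) ^ l := by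
      rw [← map_pow, ← map_pow, pow_add, hck, one_mul]
    rw [h3] at h
    exact (hcu.pow l).mul_left_cancel h
  have hxx : x * x ^ (σ - 1) = 1 := inv_root hσ (ZMod p)
  have h3 : (1 + x ^ (σ - 1)) ^ (k + l) = (1 + x ^ (σ - 1)) ^ l := by
    have := congrArg (conj σ (ZMod p)) h2
    simpa [conj, hx] using this
  have h4 : x * (1 + x ^ (σ - 1)) = 1 + x := by rw [mul_add, hxx]; ring
  have h5 : (1 + x) ^ l = x ^ k * (1 + x) ^ l := by
    calc (1 + x) ^ l = (1 + x) ^ (k + l) := h2.symm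
      _ = (x * (1 + x ^ (σ - 1))) ^ (k + l) := by rw [h4]
      _ = x ^ k * (x ^ l * (1 + x ^ (σ - 1)) ^ l) := by rw [mul_pow, h3, pow_add]; ring
      _ = x ^ k * (1 + x) ^ l := by rw [← mul_pow, h4]
  have h6 : (1 + x) ^ (p ^ l) = x ^ k * (1 + x) ^ (p ^ l) := by
    have hle : l ≤ p ^ l := (Nat.lt_pow_self hp.out.one_lt).le
    obtain ⟨d, hd⟩ := Nat.exists_eq_add_of_le hle
    rw [hd, pow_add, ← mul_assoc, ← h5]
  have h7 : AdjoinRoot.mk (X ^ σ - 1 : (ZMod p)[X]) (1 + X ^ (p ^ l) - X ^ k - X ^ (k + p ^ l)) = 0 := by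
    have e1 : (1 + x) ^ (p ^ l) = AdjoinRoot.mk (X ^ σ - 1 : (ZMod p)[X]) (1 + X ^ (p ^ l)) := by
      have := frob (p := p) 1 1 l
      simp only [C_1, one_mul] at this
      rw [← this, map_pow, map_add, map_one, AdjoinRoot.mk_X]
    rw [e1] at h6
    have e2 : (1 + X ^ (p ^ l) - X ^ k - X ^ (k + p ^ l) : (ZMod p)[X]) =
        (1 + X ^ (p ^ l)) - X ^ k * (1 + X ^ (p ^ l)) := by rw [pow_add]; ring
    rw [e2, map_sub, map_mul, map_pow, AdjoinRoot.mk_X, ← h6, sub_self]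
  rw [AdjoinRoot.mk_eq_zero] at h7
  rcases exps hσ hp.out hp2 h7 with h8 | ⟨h8, h9, h10⟩
  · exact h8
  · exfalso
    have hpodd : Odd p := hp.out.odd_of_ne_two hp2
    have hpl : Odd (p ^ l) := hpodd.pow
    have hkeven : Even k := by
      obtain ⟨d, rfl⟩ := h1
      obtain ⟨r, hr⟩ := hpodd
      rw [hr]; simp
    have hσeven : 2 ∣ σ := by
      by_contra hodd
      have hcop : Nat.Coprime σ 2 := by
        rw [Nat.coprime_comm]
        exact (Nat.Prime.coprime_iff_not_dvd Nat.prime_two).mpr hodd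
      exact h10 (hcop.dvd_of_dvd_mul_left h9)
    have h11 : k % 2 = p ^ l % 2 := by
      have h12 : k ≡ p ^ l [MOD σ] := h8
      exact h12.of_dvd hσeven
    rw [Nat.even_iff.mp hkeven, Nat.odd_iff.mp hpl] at h11
    omega

/-- `lcm(p-1, σ)` is a period of `a + b x` when `a = 0` or `b = 0`. -/
theorem degenerate_period {σ p : ℕ} [hp : Fact p.Prime] {a b : ZMod p}
    (hab : a = 0 ∨ b = 0) : rule σ a b ^ ((Nat.lcm (p - 1) σ) + 1) = rule σ a b ^ 1 := by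
  have hpow : ∀ t : ZMod p, t ^ (Nat.lcm (p - 1) σ + 1) = t := by
    intro t
    by_cases ht : t = 0
    · rw [ht]; simp
    · obtain ⟨d, hd⟩ := Nat.dvd_lcm_left (p - 1) σ
      rw [pow_succ, hd, pow_mul, ZMod.pow_card_sub_one_eq_one ht, one_pow, one_mul]
  have hxp : (AdjoinRoot.root (X ^ σ - 1 : (ZMod p)[X])) ^ (Nat.lcm (p - 1) σ + 1) =
      AdjoinRoot.root (X ^ σ - 1 : (ZMod p)[X]) := by
    obtain ⟨d, hd⟩ := Nat.dvd_lcm_right (p - 1) σ
    rw [pow_succ, hd, pow_mul, root_pow, one_pow, one_mul]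
  rcases hab with rfl | rfl
  · rw [rule, map_zero, zero_add, pow_one, mul_pow, hxp, ← map_pow, hpow]
  · rw [rule, map_zero, zero_mul, add_zero, pow_one, ← map_pow, hpow]

end Pool.Agent.V11297.Auto
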