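import Mathlib
import Pool.Agent.V11297.Auto4

/-!
# `π_σ(p^m) = p π_σ(p^(m-1))` for odd primes `p`
-/

open Polynomial

namespace Pool.Agent.V11297.Auto

theorem finite_set (σ n : ℕ) [NeZero n] : {k : ℕ | ∃ a b : ZMod n, k = period σ n a b}.Finite := by
  have : {k : ℕ | ∃ a b : ZMod n, k = period σ n a b} =
      Set.range (fun q : ZMod n × ZMod n => period σ n q.1 q.2) := by
    ext k
    constructor
    · rintro ⟨a, b, h⟩
      exact ⟨(a, b), h.symm⟩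
    · rintro ⟨⟨a, b⟩, h⟩
      exact ⟨a, b, h.symm⟩
  rw [this]
  exact Set.finite_range _

theorem le_max (σ n : ℕ) [NeZero n] (a b : ZMod n) : period σ n a b ≤ maxPeriod σ n :=
  le_csSup (finite_set σ n).bddAbove ⟨a, b, rfl⟩

theorem max_attained (σ n : ℕ) [NeZero n] : ∃ a b : ZMod n, maxPeriod σ n = period σ n a b :=
  Nat.sSup_mem (s := {k : ℕ | ∃ a b : ZMod n, k = period σ n a b}) ⟨_, 0, 0, rfl⟩
    (finite_set σ n).bddAbove

theorem factor {σ p : ℕ} (hσ : 1 ≤ σ) (hp : p.Prime) :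
    ∃ v τ, σ = p ^ v * τ ∧ ¬ p ∣ τ := by
  obtain ⟨v, τ, h1, h2⟩ := Nat.exists_eq_pow_mul_and_not_dvd (by omega : σ ≠ 0) p hp.ne_one
  exact ⟨v, τ, h2, h1⟩

theorem exists_per {σ p : ℕ} (hσ : 1 ≤ σ) [hp : Fact p.Prime] (a b : ℤ) :
    ∃ k, 1 ≤ k ∧ Per ((p : ℕ) : Rg σ ℤ) (rule σ a b) k := by
  obtain ⟨v, τ, h1, h2⟩ := factor hσ hp.out
  refine ⟨_, ?_, exists_period h1 h2 a b⟩
  have hτ : 1 ≤ τ := by
    rcases Nat.eq_zero_or_pos τ with h | h
    · exfalso; apply h2; rw [h]; exact dvd_zero _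
    · exact h
  have h3 : 1 ≤ τ.totient := Nat.totient_pos.mpr hτ
  have h4 : p ≤ p ^ τ.totient := Nat.le_self_pow (by omega) p
  have := hp.out.two_le
  exact Nat.mul_pos (pow_pos hp.out.pos _) (by omega)

/-- `π_σ(p) ≥ 2` for odd `p`. -/
theorem two_le_max {σ p : ℕ} (hσ : 1 ≤ σ) [hp : Fact p.Prime] (hp2 : p ≠ 2) : 2 ≤ maxPeriod σ p := by
  refine le_trans ?_ (le_max σ p ((-1 : ℤ) : ZMod p) ((0 : ℤ) : ZMod p))
  have hex : ∃ k, 1 ≤ k ∧ Per ((p : ℕ) : Rg σ ℤ) (rule σ (-1 : ℤ) (0 : ℤ)) k := exists_per hσ (-1) 0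
  rw [period_eq]
  obtain ⟨h1, l, h2⟩ := per_spec hex
  by_contra hlt
  have h3 : per ((p : ℕ) : Rg σ ℤ) (rule σ (-1 : ℤ) (0 : ℤ)) = 1 := by omega
  rw [h3] at h2
  have h4 := (rule_pow_iff (-1) 0 1 l).mpr h2
  have h5 := congrArg (ev1 σ p) h4
  rw [map_pow, map_pow, ev1_rule, pow_add] at h5
  push_cast at h5
  rw [add_zero, pow_one] at h5
  have h6 : ((-1 : ZMod p)) ^ l ≠ 0 := pow_ne_zero _ (by simp)
  have h7 : (-1 : ZMod p) = 1 := by
    apply mul_right_cancel₀ h6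
    rw [one_mul]; exact h5
  have h8 : (2 : ZMod p) = 0 := by
    calc (2 : ZMod p) = 1 - (-1) := by ring
      _ = 0 := by rw [h7]; ring
  have h9 : ((2 : ℕ) : ZMod p) = 0 := by exact_mod_cast h8
  rw [ZMod.natCast_eq_zero_iff] at h9
  exact hp2 ((Nat.prime_dvd_prime_iff_eq hp.out Nat.prime_two).mp h9)

/-- A pair of maximal period mod `p` is not nilpotent. -/
theorem not_nilp {σ p : ℕ} (hσ : 1 ≤ σ) [hp : Fact p.Prime] (hp2 : p ≠ 2) {a b : ℤ}
    (hmax : per ((p : ℕ) : Rg σ ℤ) (rule σ a b) = maxPeriod σ p) :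
    ¬ ∃ N, ((p : ℕ) : Rg σ ℤ) ∣ rule σ a b ^ N := by
  rintro ⟨N, hN⟩
  have h1 : Per ((p : ℕ) : Rg σ ℤ) (rule σ a b) 1 := ⟨N, Dvd.dvd.mul_right hN _⟩
  have h2 := per_le le_rfl h1
  have h3 := two_le_max hσ hp2
  omega

/-- There is a pair with maximal period mod `p`, and this period is not a period mod `p²`. -/
theorem exists_good {σ p : ℕ} (hσ : 1 ≤ σ) [hp : Fact p.Prime] (hp2 : p ≠ 2) :
    ∃ a b : ℤ, per ((p : ℕ) : Rg σ ℤ) (rule σ a b) = maxPeriod σ p ∧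
      ¬ Per (((p : ℕ) : Rg σ ℤ) ^ 2) (rule σ a b) (maxPeriod σ p) := by
  have hreg : ∀ y : Rg σ ℤ, ((p : ℕ) : Rg σ ℤ) * y = 0 → y = 0 := reg hσ hp.out
  obtain ⟨v, τ, hvt, hτ⟩ := factor hσ hp.out
  have hτ1 : 1 ≤ τ := by
    rcases Nat.eq_zero_or_pos τ with h | h
    · exfalso; apply hτ; rw [h]; exact dvd_zero _
    · exact h
  have htot : 1 ≤ τ.totient := Nat.totient_pos.mpr hτ1
  have hKnot : ¬ p ∣ (p ^ τ.totient - 1) := by
    intro h
    have h3 : 1 ≤ p ^ τ.totient := Nat.one_le_pow _ _ hp.out.pos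
    have h4 : p ∣ p ^ τ.totient := dvd_pow_self p (by omega)
    have h5 : p ∣ p ^ τ.totient - (p ^ τ.totient - 1) := Nat.dvd_sub h4 h
    have h6 : p ^ τ.totient - (p ^ τ.totient - 1) = 1 := by omega
    rw [h6] at h5
    exact hp.out.one_lt.ne' (Nat.dvd_one.mp h5)
  obtain ⟨a0, b0, hab⟩ := max_attained σ p
  obtain ⟨a, rfl⟩ := ZMod.intCast_surjective a0
  obtain ⟨b, rfl⟩ := ZMod.intCast_surjective b0
  rw [period_eq] at hab
  rcases Nat.eq_zero_or_pos v with hv | hv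
  · -- p ∤ σ
    have hkdvd : maxPeriod σ p ∣ p ^ τ.totient - 1 := by
      have h1 := exists_period hvt hτ a b
      rw [hv, pow_zero, one_mul] at h1
      rw [hab]
      exact per_dvd (exists_per hσ a b) h1
    have hknot : ¬ p ∣ maxPeriod σ p := fun h => hKnot (h.trans hkdvd)
    by_cases h1 : Per (((p : ℕ) : Rg σ ℤ) ^ 2) (rule σ a b) (maxPeriod σ p)
    · refine ⟨a + p, b, ?_, ?_⟩
      · rw [hab, ← period_eq, ← period_eq]
        simp
      · intro h2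
        have h3 : rule σ (a + p) b = rule σ a b + (p : Rg σ ℤ) := by
          simp only [rule, map_add]
          have : (AdjoinRoot.of (X ^ σ - 1 : ℤ[X])) ((p : ℕ) : ℤ) = (p : Rg σ ℤ) := by simp
          rw [this]; ring
        rw [h3] at h2
        exact not_nilp hσ hp2 hab.symm (caseA hp.out hreg _ hknot h1 h2)
    · exact ⟨a, b, hab.symm, h1⟩
  · -- p ∣ σ
    have main : ∀ a b : ℤ, ¬ (p : ℤ) ∣ a → ¬ (p : ℤ) ∣ b →
        per ((p : ℕ) : Rg σ ℤ) (rule σ a b) = maxPeriod σ p →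
        ¬ Per (((p : ℕ) : Rg σ ℤ) ^ 2) (rule σ a b) (maxPeriod σ p) := by
      intro a b ha hb hmax h1
      have h2 : maxPeriod σ p ∣ p ^ v * (p ^ τ.totient - 1) := by
        rw [← hmax]
        exact per_dvd (exists_per hσ a b) (exists_period hvt hτ a b)
      have h3 := h1.of_dvd h2
      apply not_nilp hσ hp2 hmax
      subst hvt
      exact caseB hτ1 hv ha hb hKnot h3
    by_cases hdeg : ((a : ZMod p) = 0 ∨ (b : ZMod p) = 0)
    · -- the maximum is also attained by `c(1+x)`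
      obtain ⟨g, hg⟩ := IsCyclic.exists_generator (α := (ZMod p)ˣ)
      have hog : orderOf (g : ZMod p) = p - 1 := by
        rw [orderOf_units, orderOf_eq_card_of_forall_mem_zpowers hg, Nat.card_eq_fintype_card,
          ZMod.card_units]
      have two_ne : (2 : ZMod p) ≠ 0 := by
        intro h5
        have h6 : ((2 : ℕ) : ZMod p) = 0 := by exact_mod_cast h5
        rw [ZMod.natCast_eq_zero_iff] at h6
        exact hp2 ((Nat.prime_dvd_prime_iff_eq hp.out Nat.prime_two).mp h6)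
      obtain ⟨c, hc⟩ := ZMod.intCast_surjective ((g : ZMod p) / 2)
      have h2c : 2 * (c : ZMod p) = g := by rw [hc]; field_simp
      have hc0 : (c : ZMod p) ≠ 0 := by
        rw [hc]; exact div_ne_zero g.ne_zero two_ne
      have hcd : ¬ (p : ℤ) ∣ c := by
        intro h; exact hc0 ((ZMod.intCast_zmod_eq_zero_iff_dvd _ _).mpr h)
      have hperc : per ((p : ℕ) : Rg σ ℤ) (rule σ c c) = maxPeriod σ p := by
        apply le_antisymm
        · rw [← period_eq]; exact le_max _ _ _ _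
        · have hL : 1 ≤ Nat.lcm (p - 1) σ := by
            have := hp.out.two_le
            exact Nat.lcm_pos (by omega) hσ
          have h1 : maxPeriod σ p ≤ Nat.lcm (p - 1) σ := by
            rw [hab, ← period_eq]
            exact Nat.sInf_le (s := {k : ℕ | 1 ≤ k ∧ ∃ ℓ : ℕ, rule σ (a : ZMod p) (b : ZMod p) ^ (k + ℓ) =
              rule σ (a : ZMod p) (b : ZMod p) ^ ℓ}) ⟨hL, 1, degenerate_period hdeg⟩
          refine h1.trans ?_
          obtain ⟨h3, l, h4⟩ := per_spec (exists_per hσ (p := p) c c)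
          have h5 := (rule_pow_iff c c _ l).mpr h4
          obtain ⟨h6, h7⟩ := special_period hσ hp2 (by rw [h2c]; exact hog) hc0 h5
          exact Nat.le_of_dvd h3 (Nat.lcm_dvd h6 h7)
      exact ⟨c, c, hperc, main c c hcd hcd hperc⟩
    · push Not at hdeg
      refine ⟨a, b, hab.symm, main a b ?_ ?_ hab.symm⟩
      · intro h; exact hdeg.1 ((ZMod.intCast_zmod_eq_zero_iff_dvd _ _).mpr h)
      · intro h; exact hdeg.2 ((ZMod.intCast_zmod_eq_zero_iff_dvd _ _).mpr h)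

/-- `π_σ(p^(m+1)) = p^m π_σ(p)`. -/
theorem maxPeriod_pow {σ p : ℕ} (hσ : 1 ≤ σ) (hp : p.Prime) (hp2 : p ≠ 2) (m : ℕ) :
    maxPeriod σ (p ^ (m + 1)) = p ^ m * maxPeriod σ p := by
  have := Fact.mk hp
  have hne : NeZero (p ^ (m + 1)) := ⟨pow_ne_zero _ hp.ne_zero⟩
  have hcast : (((p ^ (m + 1) : ℕ)) : Rg σ ℤ) = ((p : ℕ) : Rg σ ℤ) ^ (m + 1) := by push_cast; rfl
  apply le_antisymm
  · obtain ⟨a0, b0, hab⟩ := max_attained σ (p ^ (m + 1))
    obtain ⟨a, rfl⟩ := ZMod.intCast_surjective a0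
    obtain ⟨b, rfl⟩ := ZMod.intCast_surjective b0
    rw [hab, period_eq, hcast]
    obtain ⟨h1, h2⟩ := per_spec (exists_per hσ (p := p) a b)
    calc per (((p : ℕ) : Rg σ ℤ) ^ (m + 1)) (rule σ a b) ≤
        p ^ m * per ((p : ℕ) : Rg σ ℤ) (rule σ a b) :=
          per_le (Nat.mul_pos (pow_pos hp.pos _) h1) (h2.upper_pow m)
      _ ≤ p ^ m * maxPeriod σ p := by
          apply Nat.mul_le_mul_left
          rw [← period_eq]; exact le_max _ _ _ _
  · obtain ⟨a, b, h1, h2⟩ := exists_good hσ hp2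
    rw [← h1] at h2
    have h3 := per_pow (hp.odd_of_ne_two hp2) hp (reg hσ hp) (exists_per hσ a b) h2 m
    rw [← h1, ← h3, ← hcast, ← period_eq]
    exact le_max _ _ _ _

theorem main {σ p m : ℕ} (hσ : 1 ≤ σ) (hp : p.Prime) (hp2 : p ≠ 2) (hm : 2 ≤ m) :
    maxPeriod σ (p ^ m) = p * maxPeriod σ (p ^ (m - 1)) := by
  obtain ⟨d, rfl⟩ : ∃ d, m = d + 2 := ⟨m - 2, by omega⟩
  have h1 := maxPeriod_pow hσ hp hp2 (d + 1)
  have h2 := maxPeriod_pow hσ hp hp2 d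
  have e : d + 2 - 1 = d + 1 := by omega
  rw [e, h2, show d + 2 = d + 1 + 1 by ring, h1, pow_succ]
  ring

end Pool.Agent.V11297.Auto
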