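import Mathlib

/-!
# Coefficients of divisors of `X ^ (p q ^ b) - 1`

Helper lemmas. For primes `p < q` write `hP b a c` for the product of some of the `Φ_{q^(i+1)}`
and some of the `Φ_{p q^(i+1)}`, `i < b`.  If all coefficients of all these products are bounded
by `M`, then all coefficients of all divisors of `X ^ (p q ^ (b + 1)) - 1` are bounded by `p M`.
-/

open Polynomial

namespace Pool.Agent.V11297.CycloPQ

/-- Every divisor of `X ^ n - 1` in `ℤ[X]` is, up to sign, a product of distinct `Φ_d`. -/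
lemma divisor_form {n : ℕ} (hn : 0 < n) {f : ℤ[X]} (hf : f ∣ X ^ n - 1) :
    ∃ S : Finset ℕ, ∃ u : ℤ, |u| = 1 ∧ S ⊆ n.divisors ∧ f = C u * ∏ d ∈ S, cyclotomic d ℤ := by
  classical
  obtain ⟨g, hg⟩ := hf
  rw [← prod_cyclotomic_eq_X_pow_sub_one hn ℤ] at hg
  have hp : ∀ i ∈ n.divisors, Prime (cyclotomic i ℤ) := by
    intro i hi
    exact (cyclotomic.irreducible (Nat.pos_of_mem_divisors hi)).prime
  obtain ⟨t, u, b, c, htu, _, hbc, hx, _⟩ :=
    mul_eq_mul_prime_prod hp (x := f) (y := g) (a := 1) (by rw [one_mul]; exact hg.symm)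
  have hb : IsUnit b := IsUnit.of_mul_eq_one c hbc.symm
  obtain ⟨r, hr, hrb⟩ := Polynomial.isUnit_iff.mp hb
  refine ⟨t, r, Int.isUnit_iff_abs_eq.mp hr, ?_, ?_⟩
  · rw [← htu]; exact Finset.subset_union_left
  · rw [hx, hrb]

/-- Coefficient function extended by zero to negative indices. -/
def zc (f : ℤ[X]) (n : ℤ) : ℤ := if 0 ≤ n then f.coeff n.toNat else 0

lemma zc_natCast (f : ℤ[X]) (n : ℕ) : zc f n = f.coeff n := by simp [zc]

lemma zc_neg (f : ℤ[X]) {n : ℤ} (hn : n < 0) : zc f n = 0 := by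
  unfold zc; rw [if_neg (by omega)]

lemma zc_le {f : ℤ[X]} {M : ℤ} (h : ∀ k, |f.coeff k| ≤ M) (n : ℤ) : |zc f n| ≤ M := by
  unfold zc
  split_ifs
  · exact h _
  · rw [abs_zero]; exact (abs_nonneg _).trans (h 0)

lemma zc_X_pow_mul (f : ℤ[X]) (k : ℕ) (n : ℤ) : zc (X ^ k * f) n = zc f (n - k) := by
  unfold zc
  split_ifs with h1 h2 h2
  · rw [coeff_X_pow_mul', if_pos (by omega)]
    congr 1
    omega
  · rw [coeff_X_pow_mul', if_neg (by omega)]
  · omega
  · rfl

lemma zc_sub (f g : ℤ[X]) (n : ℤ) : zc (f - g) n = zc f n - zc g n := by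
  unfold zc
  split_ifs
  · rw [coeff_sub]
  · simp

lemma zc_add (f g : ℤ[X]) (n : ℤ) : zc (f + g) n = zc f n + zc g n := by
  unfold zc
  split_ifs
  · rw [coeff_add]
  · simp

/-- Partial sums of the coefficients. -/
def psum (f : ℤ[X]) (n : ℤ) : ℤ := ∑ j ∈ Finset.range (n + 1).toNat, f.coeff j

lemma psum_neg (f : ℤ[X]) {n : ℤ} (hn : n < 0) : psum f n = 0 := by
  unfold psum
  rw [show (n + 1).toNat = 0 by omega]
  simp

lemma psum_sub_one (f : ℤ[X]) (n : ℤ) : psum f n = psum f (n - 1) + zc f n := by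
  unfold psum zc
  split_ifs with h
  · rw [show (n + 1).toNat = n.toNat + 1 by omega, show (n - 1 + 1).toNat = n.toNat by
      congr 1; ring, Finset.sum_range_succ]
  · rw [show (n + 1).toNat = 0 by omega, show (n - 1 + 1).toNat = 0 by omega]
    simp

lemma psum_add_nat_le {f : ℤ[X]} {M : ℤ} (h : ∀ k, |f.coeff k| ≤ M) (n : ℤ) (j : ℕ) :
    |psum f (n + j) - psum f n| ≤ M * j := by
  induction j with
  | zero => simp
  | succ j ih =>
    have e := psum_sub_one f (n + (j + 1 : ℕ))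
    rw [show (n + ((j + 1 : ℕ) : ℤ)) - 1 = n + j by push_cast; ring] at e
    rw [e]
    have h1 := zc_le h (n + (j + 1 : ℕ))
    calc |psum f (n + j) + zc f (n + (j + 1 : ℕ)) - psum f n|
        = |(psum f (n + j) - psum f n) + zc f (n + (j + 1 : ℕ))| := by congr 1; ring
      _ ≤ |psum f (n + j) - psum f n| + |zc f (n + (j + 1 : ℕ))| := abs_add_le _ _
      _ ≤ M * j + M := add_le_add ih h1
      _ = M * ((j + 1 : ℕ) : ℤ) := by push_cast; ring

lemma psum_lip {f : ℤ[X]} {M : ℤ} (h : ∀ k, |f.coeff k| ≤ M) (a b : ℤ) :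
    |psum f a - psum f b| ≤ M * |a - b| := by
  rcases le_total b a with hab | hab
  · have := psum_add_nat_le h b (a - b).toNat
    rw [show b + (((a - b).toNat : ℕ) : ℤ) = a by omega] at this
    rw [abs_of_nonneg (show 0 ≤ a - b by omega)]
    rwa [show (((a - b).toNat : ℕ) : ℤ) = a - b by omega] at this
  · have := psum_add_nat_le h a (b - a).toNat
    rw [show a + (((b - a).toNat : ℕ) : ℤ) = b by omega] at this
    rw [abs_sub_comm, abs_sub_comm a b, abs_of_nonneg (show 0 ≤ b - a by omega)]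
    rwa [show (((b - a).toNat : ℕ) : ℤ) = b - a by omega] at this

section Arith

variable {p q : ℕ}

/-- The data `ρ, v` with `p ρ = 1 + q v`. -/
structure Bez (p q : ℕ) where
  ρ : ℤ
  v : ℤ
  hρ0 : 0 < ρ
  hρ1 : ρ < q
  hv0 : 0 ≤ v
  hv1 : v < p
  h : (p : ℤ) * ρ = 1 + q * v

lemma exists_bez (hp : 1 < p) (hq : 1 < q) (hc : Nat.Coprime p q) : Nonempty (Bez p q) := by
  obtain ⟨m, hm⟩ := Nat.exists_mul_mod_eq_one_of_coprime hc hq
  obtain ⟨hm1, hm2⟩ := hm
  have hmpos : 0 < m := by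
    rcases Nat.eq_zero_or_pos m with h | h
    · subst h; simp at hm2
    · exact h
  have hdiv := Nat.div_add_mod (p * m) q
  rw [hm2] at hdiv
  have hv1 : p * m / q < p := by
    rw [Nat.div_lt_iff_lt_mul (by omega)]
    exact Nat.mul_lt_mul_of_pos_left hm1 (by omega)
  refine ⟨⟨m, ((p * m / q : ℕ) : ℤ), by exact_mod_cast hmpos, by exact_mod_cast hm1,
    by positivity, by exact_mod_cast hv1, ?_⟩⟩
  have : ((q * (p * m / q) + 1 : ℕ) : ℤ) = ((p * m : ℕ) : ℤ) := by exact_mod_cast hdiv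
  push_cast at this ⊢
  linarith

variable (B : Bez p q)

/-- `i(n)` with `0 ≤ i(n) < q` and `p i(n) ≡ n (mod q)`. -/
def Bez.i (n : ℤ) : ℤ := (n * B.ρ) % q

/-- `a(n) = (n - p i(n)) / q`. -/
def Bez.a (n : ℤ) : ℤ := (n - p * B.i n) / q

lemma Bez.i_nonneg (hq : 0 < q) (n : ℤ) : 0 ≤ B.i n :=
  Int.emod_nonneg _ (by exact_mod_cast hq.ne')

lemma Bez.i_lt (hq : 0 < q) (n : ℤ) : B.i n < q :=
  Int.emod_lt_of_pos _ (by exact_mod_cast hq)

lemma Bez.a_spec (n : ℤ) : (q : ℤ) * B.a n = n - p * B.i n := by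
  unfold Bez.a
  apply Int.mul_ediv_cancel'
  have h1 : (q : ℤ) ∣ n * B.ρ - B.i n := by
    unfold Bez.i
    exact Int.dvd_self_sub_emod
  have h2 : n - p * B.i n = p * (n * B.ρ - B.i n) - q * (n * B.v) := by
    have := B.h
    linear_combination (-n) * this
  rw [h2]
  exact dvd_sub (Dvd.dvd.mul_left h1 _) (dvd_mul_right _ _)

lemma Bez.a_unique (hq : 0 < q) {n i' a' : ℤ} (h0 : 0 ≤ i') (h1 : i' < q)
    (h : n = p * i' + q * a') : i' = B.i n ∧ a' = B.a n := by
  have hq' : (0 : ℤ) < q := by exact_mod_cast hq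
  have e : B.i n = i' := by
    unfold Bez.i
    have : n * B.ρ = i' + q * (B.v * i' + a' * B.ρ) := by
      rw [h]
      have := B.h
      linear_combination i' * this
    rw [this, Int.add_mul_emod_self_left]
    exact Int.emod_eq_of_lt h0 h1
  refine ⟨e.symm, ?_⟩
  have h2 := B.a_spec n
  rw [e] at h2
  have : (q : ℤ) * B.a n = q * a' := by linarith
  exact (mul_left_cancel₀ hq'.ne' this).symm

lemma Bez.i_diff (hq : 0 < q) (n : ℤ) :
    B.i n - B.i (n - 1) = B.ρ ∨ B.i n - B.i (n - 1) = B.ρ - q := by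
  have hq' : (0 : ℤ) < q := by exact_mod_cast hq
  have h1 : (q : ℤ) ∣ (B.i n - B.i (n - 1)) - B.ρ := by
    unfold Bez.i
    have e1 : (q : ℤ) ∣ n * B.ρ - (n * B.ρ) % q := Int.dvd_self_sub_emod
    have e2 : (q : ℤ) ∣ (n - 1) * B.ρ - ((n - 1) * B.ρ) % q := Int.dvd_self_sub_emod
    have : (n * B.ρ) % q - ((n - 1) * B.ρ) % q - B.ρ
        = ((n - 1) * B.ρ - ((n - 1) * B.ρ) % q) - (n * B.ρ - (n * B.ρ) % q) := by ring
    rw [this]
    exact dvd_sub e2 e1
  obtain ⟨k, hk⟩ := h1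
  have a1 := B.i_nonneg hq n
  have a2 := B.i_lt hq n
  have a3 := B.i_nonneg hq (n - 1)
  have a4 := B.i_lt hq (n - 1)
  have a5 := B.hρ0
  have a6 := B.hρ1
  have hk1 : k < 1 := by
    by_contra hcon
    push Not at hcon
    have : (q : ℤ) * 1 ≤ q * k := mul_le_mul_of_nonneg_left hcon hq'.le
    linarith
  have hk2 : -2 < k := by
    by_contra hcon
    push Not at hcon
    have : (q : ℤ) * k ≤ q * (-2) := mul_le_mul_of_nonneg_left hcon hq'.le
    linarith
  have hk3 : k = 0 ∨ k = -1 := by omega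
  rcases hk3 with rfl | rfl
  · left; linarith
  · right; linarith

lemma Bez.a_diff (hq : 0 < q) (n : ℤ) :
    (B.i n - B.i (n - 1) = B.ρ ∧ B.a n - B.a (n - 1) = -B.v) ∨
      (B.i n - B.i (n - 1) = B.ρ - q ∧ B.a n - B.a (n - 1) = p - B.v) := by
  have hq' : (0 : ℤ) < q := by exact_mod_cast hq
  have s1 := B.a_spec n
  have s2 := B.a_spec (n - 1)
  have hB := B.h
  rcases B.i_diff hq n with h | h
  · left
    refine ⟨h, ?_⟩
    apply mul_left_cancel₀ hq'.ne'
    have e : B.i n = B.i (n - 1) + B.ρ := by linarith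
    rw [e] at s1
    linear_combination s1 - s2 - hB
  · right
    refine ⟨h, ?_⟩
    apply mul_left_cancel₀ hq'.ne'
    have e : B.i n = B.i (n - 1) + B.ρ - q := by linarith
    rw [e] at s1
    linear_combination s1 - s2 - hB

lemma Bez.a_diff_abs (hq : 0 < q) (n : ℤ) : |B.a n - B.a (n - 1)| ≤ p := by
  have a1 := B.hv0
  have a2 := B.hv1
  rcases B.a_diff hq n with ⟨_, h⟩ | ⟨_, h⟩
  · rw [h, abs_neg, abs_of_nonneg a1]; exact a2.le
  · rw [h, abs_of_nonneg (by linarith)]; linarith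

lemma Bez.a_diff_two (hp : 1 < p) (hq : 0 < q) (n : ℤ) :
    |B.a n - B.a (n - 1)| + |B.a (n - 1) - B.a (n - 2)| ≤ p := by
  have hq' : (0 : ℤ) < q := by exact_mod_cast hq
  have hp2 : (2 : ℤ) ≤ p := by exact_mod_cast hp
  have hp' : (0 : ℤ) < p := by linarith
  have a1 := B.hv0
  have a2 := B.hv1
  have hB := B.h
  have e : n - 1 - 1 = n - 2 := by ring
  have i1 := B.i_nonneg hq n
  have i2 := B.i_lt hq n
  have i3 := B.i_nonneg hq (n - 2)
  have i4 := B.i_lt hq (n - 2)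
  rcases B.a_diff hq n with ⟨g1, h1⟩ | ⟨g1, h1⟩ <;>
    rcases B.a_diff hq (n - 1) with ⟨g2, h2⟩ | ⟨g2, h2⟩ <;> rw [e] at g2 h2 <;> rw [h1, h2]
  · rw [abs_neg, abs_of_nonneg a1]
    -- 2 ρ ≤ q - 1, so 2 v < p
    have h3 : 2 * B.ρ ≤ q - 1 := by linarith
    have h4 : (p : ℤ) * (2 * B.ρ) ≤ p * (q - 1) := mul_le_mul_of_nonneg_left h3 hp'.le
    have h5 : (q : ℤ) * (2 * B.v) ≤ q * p := by nlinarith
    have h6 := le_of_mul_le_mul_left h5 hq'
    linarith
  · rw [abs_neg, abs_of_nonneg a1, abs_of_nonneg (by linarith)]; linarith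
  · rw [abs_neg, abs_of_nonneg a1, abs_of_nonneg (by linarith)]; linarith
  · rw [abs_of_nonneg (by linarith)]
    have h3 : q + 1 ≤ 2 * B.ρ := by linarith
    have h4 : (p : ℤ) * (q + 1) ≤ p * (2 * B.ρ) := mul_le_mul_of_nonneg_left h3 hp'.le
    have h5 : (q : ℤ) * p ≤ q * (2 * B.v) := by linarith
    have h6 := le_of_mul_le_mul_left h5 hq'
    linarith

lemma Bez.a_sub_q (hq : 0 < q) (n : ℤ) : B.a (n - q) = B.a n - 1 := by
  have h := B.a_spec n
  exact (B.a_unique hq (n := n - q) (i' := B.i n) (a' := B.a n - 1) (B.i_nonneg hq n)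
    (B.i_lt hq n) (by linear_combination -h)).2.symm

lemma Bez.a_neg (hq : 0 < q) {n : ℤ} (hn : n < 0) : B.a n < 0 := by
  have hq' : (0 : ℤ) < q := by exact_mod_cast hq
  have h := B.a_spec n
  have h2 := B.i_nonneg hq n
  by_contra hcon
  push Not at hcon
  have : 0 ≤ (q : ℤ) * B.a n := mul_nonneg hq'.le hcon
  have h3 : 0 ≤ (p : ℤ) * B.i n := mul_nonneg (by positivity) h2
  linarith

end Arith

lemma coeff_cyc_prime {q : ℕ} (hq : q.Prime) (k : ℕ) :
    (cyclotomic q ℤ).coeff k = if k < q then 1 else 0 := by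
  have : Fact q.Prime := ⟨hq⟩
  rw [cyclotomic_prime, finsetSum_coeff]
  simp only [coeff_X_pow]
  rw [Finset.sum_ite_eq (Finset.range q) k (fun _ => (1 : ℤ))]
  simp

/-- Coefficients of `Φ_q(X^p) h(X^q)`. -/
lemma coeff_level {p q : ℕ} (hp : 0 < p) (hq : q.Prime) (B : Bez p q) (h : ℤ[X]) (n : ℤ) :
    zc (expand ℤ p (cyclotomic q ℤ) * expand ℤ q h) n = zc h (B.a n) := by
  have hq0 := hq.pos
  by_cases hn : n < 0
  · rw [zc_neg _ hn, zc_neg _ (B.a_neg hq0 hn)]
  obtain ⟨N, rfl⟩ : ∃ N : ℕ, n = N := ⟨n.toNat, by omega⟩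
  rw [zc_natCast, coeff_mul]
  have hspec := B.a_spec (N : ℤ)
  by_cases ha : 0 ≤ B.a N
  · -- the unique contributing pair
    obtain ⟨A, hA⟩ : ∃ A : ℕ, B.a N = A := ⟨(B.a N).toNat, by omega⟩
    obtain ⟨I, hI⟩ : ∃ I : ℕ, B.i N = I := ⟨(B.i N).toNat, by have := B.i_nonneg hq0 N; omega⟩
    have hIq : I < q := by have := B.i_lt hq0 N; rw [hI] at this; exact_mod_cast this
    have hN : p * I + q * A = N := by
      have : ((p * I + q * A : ℕ) : ℤ) = (N : ℤ) := by
        push_cast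
        rw [hA, hI] at hspec
        linarith
      exact_mod_cast this
    rw [Finset.sum_eq_single_of_mem (p * I, q * A)]
    · rw [coeff_expand hp, coeff_expand hq0, if_pos (dvd_mul_right _ _),
        if_pos (dvd_mul_right _ _), Nat.mul_div_cancel_left _ hp, Nat.mul_div_cancel_left _ hq0,
        coeff_cyc_prime hq, if_pos hIq, one_mul, hA, zc_natCast]
    · rw [Finset.HasAntidiagonal.mem_antidiagonal]; exact hN
    · rintro ⟨x, y⟩ hxy hne
      rw [Finset.HasAntidiagonal.mem_antidiagonal] at hxy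
      dsimp only at hxy ⊢
      rw [coeff_expand hp, coeff_expand hq0]
      split_ifs with h1 h2
      · obtain ⟨x', rfl⟩ := h1
        obtain ⟨y', rfl⟩ := h2
        rw [Nat.mul_div_cancel_left _ hp, Nat.mul_div_cancel_left _ hq0, coeff_cyc_prime hq]
        split_ifs with h3
        · exfalso
          apply hne
          have := B.a_unique hq0 (n := (N : ℤ)) (i' := x') (a' := y') (by positivity)
            (by exact_mod_cast h3) (by rw [← hxy]; push_cast; ring)
          have e1 : x' = I := by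
            have := this.1.trans hI; exact_mod_cast this
          have e2 : y' = A := by
            have := this.2.trans hA; exact_mod_cast this
          rw [e1, e2]
        · simp
      · simp
      · simp
      · simp
  · rw [zc_neg h (by omega)]
    apply Finset.sum_eq_zero
    rintro ⟨x, y⟩ hxy
    rw [Finset.HasAntidiagonal.mem_antidiagonal] at hxy
    dsimp only at hxy ⊢
    rw [coeff_expand hp, coeff_expand hq0]
    split_ifs with h1 h2
    · obtain ⟨x', rfl⟩ := h1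
      obtain ⟨y', rfl⟩ := h2
      rw [Nat.mul_div_cancel_left _ hp, Nat.mul_div_cancel_left _ hq0, coeff_cyc_prime hq]
      split_ifs with h3
      · exfalso
        have := B.a_unique hq0 (n := (N : ℤ)) (i' := x') (a' := y') (by positivity)
          (by exact_mod_cast h3) (by rw [← hxy]; push_cast; ring)
        apply ha
        rw [← this.2]
        positivity
      · simp
    · simp
    · simp
    · simp

/-- `Φ_{pq} * (X ^ q - 1) = (X - 1) * Φ_q(X ^ p)`. -/
lemma cyc_pq_rel {p q : ℕ} (hp : p.Prime) (hq : q.Prime) (hpq : p ≠ q) :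
    cyclotomic (p * q) ℤ * (X ^ q - 1) = (X - 1) * expand ℤ p (cyclotomic q ℤ) := by
  have : Fact q.Prime := ⟨hq⟩
  have h1 := cyclotomic_expand_eq_cyclotomic_mul hp (n := q)
    (by rw [Nat.prime_dvd_prime_iff_eq hp hq]; exact hpq) ℤ
  have h2 : (X ^ q - 1 : ℤ[X]) = cyclotomic q ℤ * (X - 1) := by
    rw [cyclotomic_prime]; exact (geom_sum_mul X q).symm
  rw [h1, h2, mul_comm p q]
  ring

/-- Coefficients of `Φ_{pq}(X) h(X^q)`. -/
lemma coeff_pq {p q : ℕ} (hp : p.Prime) (hq : q.Prime) (hpq : p ≠ q) (B : Bez p q) (h : ℤ[X])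
    (n : ℤ) : zc (cyclotomic (p * q) ℤ * expand ℤ q h) n = psum h (B.a n) - psum h (B.a (n - 1)) := by
  have hq0 := hq.pos
  have hq' : (0 : ℤ) < q := by exact_mod_cast hq0
  set f := cyclotomic (p * q) ℤ * expand ℤ q h with hf
  set P := expand ℤ p (cyclotomic q ℤ) * expand ℤ q h with hP
  have hrel : X ^ q * f - f = X ^ 1 * P - P := by
    have := cyc_pq_rel hp hq hpq
    rw [hf, hP]
    linear_combination (expand ℤ q h) * this
  have hstep : ∀ m : ℤ, zc f m = zc f (m - q) + (zc P m - zc P (m - 1)) := by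
    intro m
    have := congrArg (fun g => zc g m) hrel
    simp only [zc_sub, zc_X_pow_mul] at this
    push_cast at this
    linarith
  -- induction
  have key : ∀ N : ℕ, ∀ m : ℤ, m < N → zc f m = psum h (B.a m) - psum h (B.a (m - 1)) := by
    intro N
    induction N with
    | zero =>
      intro m hm
      have hm' : m < 0 := by exact_mod_cast hm
      rw [zc_neg _ hm', psum_neg _ (B.a_neg hq0 hm'), psum_neg _ (B.a_neg hq0 (by linarith))]
      ring
    | succ N ih =>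
      intro m hm
      have hm2 : m - q < N := by push_cast at hm; omega
      rw [hstep m, ih (m - q) hm2, coeff_level hp.pos hq B, coeff_level hp.pos hq B]
      have e1 := B.a_sub_q hq0 m
      have e2 := B.a_sub_q hq0 (m - 1)
      rw [show m - 1 - (q : ℤ) = m - q - 1 by ring] at e2
      rw [e1, e2, psum_sub_one h (B.a m), psum_sub_one h (B.a (m - 1))]
      ring
  exact key (n.toNat + 1) n (by push_cast; omega)

lemma bound_pq {p q : ℕ} (hp : p.Prime) (hq : q.Prime) (hpq : p ≠ q) {h : ℤ[X]} {M : ℤ}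
    (hM : ∀ k, |h.coeff k| ≤ M) (n : ℤ) :
    |zc (cyclotomic (p * q) ℤ * expand ℤ q h) n| ≤ p * M := by
  obtain ⟨B⟩ := exists_bez hp.one_lt hq.one_lt ((Nat.coprime_primes hp hq).mpr hpq)
  have hM0 : 0 ≤ M := (abs_nonneg _).trans (hM 0)
  rw [coeff_pq hp hq hpq B]
  calc _ ≤ M * |B.a n - B.a (n - 1)| := psum_lip hM _ _
    _ ≤ M * p := mul_le_mul_of_nonneg_left (B.a_diff_abs hq.pos n) hM0
    _ = p * M := mul_comm _ _

lemma bound_one_pq {p q : ℕ} (hp : p.Prime) (hq : q.Prime) (hpq : p ≠ q) {h : ℤ[X]} {M : ℤ}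
    (hM : ∀ k, |h.coeff k| ≤ M) (n : ℤ) :
    |zc ((X - 1) * (cyclotomic (p * q) ℤ * expand ℤ q h)) n| ≤ p * M := by
  obtain ⟨B⟩ := exists_bez hp.one_lt hq.one_lt ((Nat.coprime_primes hp hq).mpr hpq)
  have hM0 : 0 ≤ M := (abs_nonneg _).trans (hM 0)
  have e : (X - 1) * (cyclotomic (p * q) ℤ * expand ℤ q h)
      = X ^ 1 * (cyclotomic (p * q) ℤ * expand ℤ q h) - cyclotomic (p * q) ℤ * expand ℤ q h := by
    ring
  rw [e, zc_sub, zc_X_pow_mul, coeff_pq hp hq hpq B, coeff_pq hp hq hpq B]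
  push_cast
  rw [show n - 1 - 1 = n - 2 by ring]
  have h1 := psum_lip hM (B.a n) (B.a (n - 1))
  have h2 := psum_lip hM (B.a (n - 1)) (B.a (n - 2))
  have h3 := B.a_diff_two hp.one_lt hq.pos n
  calc |psum h (B.a (n - 1)) - psum h (B.a (n - 2)) - (psum h (B.a n) - psum h (B.a (n - 1)))|
      ≤ |psum h (B.a (n - 1)) - psum h (B.a (n - 2))| + |psum h (B.a n) - psum h (B.a (n - 1))| :=
        abs_sub _ _
    _ ≤ M * |B.a (n - 1) - B.a (n - 2)| + M * |B.a n - B.a (n - 1)| := add_le_add h2 h1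
    _ = M * (|B.a n - B.a (n - 1)| + |B.a (n - 1) - B.a (n - 2)|) := by ring
    _ ≤ M * p := mul_le_mul_of_nonneg_left h3 hM0
    _ = p * M := mul_comm _ _

end Pool.Agent.V11297.CycloPQ
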