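import Pool.Agent.V11297.CycloLists
import Pool.Agent.V11297.CycloPQ

/-!
# Coefficient lists of the cyclotomic polynomials of orders dividing 455, and class sums
-/

open Polynomial

namespace Pool.Agent.V11297.LP

/-- Coefficients of the cyclotomic polynomial of order 1. -/
def P1 : List ℤ :=
  [-1, 1]

/-- Coefficients of the cyclotomic polynomial of order 5. -/
def P5 : List ℤ :=
  [1, 1, 1, 1, 1]

/-- Coefficients of the cyclotomic polynomial of order 7. -/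
def P7 : List ℤ :=
  [1, 1, 1, 1, 1, 1, 1]

/-- Coefficients of the cyclotomic polynomial of order 35. -/
def P35 : List ℤ :=
  [1, -1, 0, 0, 0, 1, -1, 1, -1, 0, 1, -1, 1, -1, 1, 0, -1, 1, -1, 1, 0, 0, 0, -1, 1]

/-- Coefficients of the cyclotomic polynomial of order 13. -/
def P13 : List ℤ :=
  [1, 1, 1, 1, 1, 1, 1, 1, 1, 1, 1, 1, 1]

/-- Coefficients of the cyclotomic polynomial of order 65. -/
def P65 : List ℤ :=
  [1, -1, 0, 0, 0, 1, -1, 0, 0, 0, 1, -1, 0, 1, -1, 1, -1, 0, 1, -1, 1, -1, 0, 1, -1, 1, 0,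
   -1, 1, -1, 1, 0, -1, 1, -1, 1, 0, -1, 1, 0, 0, 0, -1, 1, 0, 0, 0, -1, 1]

/-- Coefficients of the cyclotomic polynomial of order 91. -/
def P91 : List ℤ :=
  [1, -1, 0, 0, 0, 0, 0, 1, -1, 0, 0, 0, 0, 1, 0, -1, 0, 0, 0, 0, 1, 0, -1, 0, 0, 0, 1, 0, 0,
   -1, 0, 0, 0, 1, 0, 0, -1, 0, 0, 1, 0, 0, 0, -1, 0, 0, 1, 0, 0, 0, -1, 0, 1, 0, 0, 0, 0, -1,
   0, 1, 0, 0, 0, 0, -1, 1, 0, 0, 0, 0, 0, -1, 1]

/-- Coefficients of the cyclotomic polynomial of order 455. -/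
def P455 : List ℤ :=
  [1, 1, 1, 1, 1, 0, 0, -1, -1, -1, -1, -1, 0, -1, -1, -1, -1, -1, 0, 0, 1, 1, 1, 1, 1, 0, 0,
   0, 0, 0, 0, 0, 0, 0, 0, 1, 1, 1, 1, 1, 0, 0, -1, -1, -1, -1, -1, 0, -1, -1, -1, -1, -1, 0,
   0, 1, 1, 1, 1, 1, 0, 0, 0, 0, 0, 1, 1, 1, 1, 1, 1, 1, 0, 0, 0, -1, -1, -1, -2, -2, -2, -2,
   -1, -1, -1, 0, 0, 0, 1, 1, 1, 2, 2, 2, 2, 1, 0, 0, -1, -1, 0, 0, 0, 1, 0, 0, 0, -1, -1, 0,
   -1, 0, 0, -1, -1, -1, -2, -1, -1, -1, 0, 0, 0, 1, 1, 1, 2, 2, 2, 2, 2, 1, 1, 0, 0, 0, 0,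
   -1, 0, -1, -1, -1, -1, -2, -1, -2, -1, -1, -1, -1, 0, -1, 0, 0, 0, 0, 1, 1, 2, 2, 2, 2, 2,
   1, 1, 1, 0, 0, 0, -1, -1, -1, -2, -1, -1, -1, 0, 0, -1, 0, -1, -1, 0, 0, 0, 1, 0, 0, 0, -1,
   -1, 0, 0, 1, 2, 2, 2, 2, 1, 1, 1, 0, 0, 0, -1, -1, -1, -2, -2, -2, -2, -1, -1, -1, 0, 0, 0,
   1, 1, 1, 1, 1, 1, 1, 0, 0, 0, 0, 0, 1, 1, 1, 1, 1, 0, 0, -1, -1, -1, -1, -1, 0, -1, -1, -1,
   -1, -1, 0, 0, 1, 1, 1, 1, 1, 0, 0, 0, 0, 0, 0, 0, 0, 0, 0, 1, 1, 1, 1, 1, 0, 0, -1, -1, -1,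
   -1, -1, 0, -1, -1, -1, -1, -1, 0, 0, 1, 1, 1, 1, 1]


lemma ofL_P1 : ofL P1 = cyclotomic 1 ℤ := by
  rw [cyclotomic_one]
  simp [P1, ofL]
  ring

lemma cyclo_of_list_one {p : ℕ} (hp : p.Prime) {L : List ℤ} (h : mulL 1 L = mulL p [1]) :
    ofL L = cyclotomic p ℤ := by
  have e := congrArg ofL h
  simp only [ofL_mulL] at e
  have e1 : ofL [1] = (1 : ℤ[X]) := by simp [ofL]
  rw [e1, mul_one] at e
  have := Fact.mk hp
  have h2 := cyclotomic_prime_mul_X_sub_one ℤ p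
  have h3 : (X ^ 1 - 1 : ℤ[X]) ≠ 0 := X_pow_sub_one_ne _ (by norm_num)
  apply mul_left_cancel₀ h3
  rw [e, ← h2, pow_one]
  ring

lemma cyclo_of_list_two {p q : ℕ} (hp : p.Prime) (hq : q.Prime) (hpq : p ≠ q) {L : List ℤ}
    (h : mulL p (mulL q L) = mulL 1 (mulL (p * q) [1])) :
    ofL L = cyclotomic (p * q) ℤ := by
  have e := congrArg ofL h
  simp only [ofL_mulL] at e
  have e1 : ofL [1] = (1 : ℤ[X]) := by simp [ofL]
  rw [e1, mul_one] at e
  have := Fact.mk hp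
  have := Fact.mk hq
  have h2 := cyclotomic_prime_mul_X_sub_one ℤ p
  have h2' := cyclotomic_prime_mul_X_sub_one ℤ q
  have h3 : ((X ^ p - 1) * (X ^ q - 1) : ℤ[X]) ≠ 0 :=
    mul_ne_zero (X_pow_sub_one_ne _ hp.pos) (X_pow_sub_one_ne _ hq.pos)
  have h4 := prod_cyclotomic_eq_X_pow_sub_one (n := p * q) (Nat.mul_pos hp.pos hq.pos) ℤ
  have h5 : (p * q).divisors = {1, p, q, p * q} := by
    rw [Nat.divisors_mul, hp.divisors, hq.divisors]
    ext x
    simp only [Finset.mem_mul, Finset.mem_insert, Finset.mem_singleton]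
    constructor
    · rintro ⟨y, rfl | rfl, z, rfl | rfl, rfl⟩ <;> simp
    · rintro (rfl | rfl | rfl | rfl)
      · exact ⟨1, Or.inl rfl, 1, Or.inl rfl, rfl⟩
      · exact ⟨x, Or.inr rfl, 1, Or.inl rfl, mul_one _⟩
      · exact ⟨1, Or.inl rfl, x, Or.inr rfl, one_mul _⟩
      · exact ⟨p, Or.inr rfl, q, Or.inr rfl, rfl⟩
  have hp1 := hp.one_lt
  have hq1 := hq.one_lt
  have n1 : p < p * q := by nlinarith
  have n2 : q < p * q := by nlinarith
  rw [h5, Finset.prod_insert, Finset.prod_insert, Finset.prod_insert, Finset.prod_singleton]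
    at h4
  · apply mul_left_cancel₀ h3
    have e' : (X ^ p - 1) * (X ^ q - 1) * ofL L = (X ^ 1 - 1) * (X ^ (p * q) - 1) := by
      rw [← e]; ring
    rw [e', ← h4, ← h2, ← h2', pow_one, cyclotomic_one]
    ring
  · simp; omega
  · simp; omega
  · simp; omega

lemma ofL_P5 : ofL P5 = cyclotomic 5 ℤ :=
  cyclo_of_list_one (by norm_num) (by decide +kernel)

lemma ofL_P7 : ofL P7 = cyclotomic 7 ℤ :=
  cyclo_of_list_one (by norm_num) (by decide +kernel)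

lemma ofL_P13 : ofL P13 = cyclotomic 13 ℤ :=
  cyclo_of_list_one (by norm_num) (by decide +kernel)

lemma ofL_P35 : ofL P35 = cyclotomic 35 ℤ :=
  cyclo_of_list_two (p := 5) (q := 7) (by norm_num) (by norm_num) (by norm_num)
    (by decide +kernel)

lemma ofL_P65 : ofL P65 = cyclotomic 65 ℤ :=
  cyclo_of_list_two (p := 5) (q := 13) (by norm_num) (by norm_num) (by norm_num)
    (by decide +kernel)

lemma ofL_P91 : ofL P91 = cyclotomic 91 ℤ :=
  cyclo_of_list_two (p := 7) (q := 13) (by norm_num) (by norm_num) (by norm_num)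
    (by decide +kernel)

lemma ofL_P455 : ofL P455 = cyclotomic 455 ℤ :=
  cyclo_of_list (p := 5) (q := 7) (r := 13) (by norm_num) (by norm_num) (by norm_num)
    (by decide +kernel) (by decide) (by decide +kernel) (by decide +kernel) (by decide +kernel)
    (by decide +kernel) (by decide +kernel) (by decide +kernel) (by decide +kernel)

/-- Sum of the absolute values of the entries in a class modulo 13. -/
def cs : List ℤ → ℕ → ℕ
  | [], _ => 0
  | x :: l, 0 => x.natAbs + cs l 12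
  | _ :: l, c + 1 => cs l c

lemma coeff_mul_expand_le {H : ℕ} {E : ℤ[X]} (h1 : ∀ j, |E.coeff j| ≤ H)
    (h2 : ∀ j, ¬ 13 ∣ j → E.coeff j = 0) (l : List ℤ) (k : ℕ) :
    |(ofL l * E).coeff k| ≤ H * cs l (k % 13) := by
  induction l generalizing k with
  | nil => simp [ofL]
  | cons x l ih =>
    have e : ofL (x :: l) * E = C x * E + X * (ofL l * E) := by
      rw [ofL]; ring
    rw [e]
    cases k with
    | zero =>
      rw [coeff_add, coeff_C_mul, coeff_X_mul_zero, add_zero, abs_mul, Nat.zero_mod, cs]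
      have := h1 0
      have h3 : (0 : ℤ) ≤ cs l 12 := by positivity
      have h4 : (0 : ℤ) ≤ H := by positivity
      push_cast
      rw [Int.abs_eq_natAbs x] at *
      nlinarith [mul_nonneg h4 h3, mul_le_mul_of_nonneg_left this (Int.natCast_nonneg x.natAbs)]
    | succ k =>
      rw [coeff_add, coeff_C_mul, coeff_X_mul]
      by_cases hk : 13 ∣ k + 1
      · have hm : (k + 1) % 13 = 0 := Nat.mod_eq_zero_of_dvd hk
        have hm' : k % 13 = 12 := by omega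
        rw [hm, cs]
        have i1 := ih k
        rw [hm'] at i1
        have i2 := h1 (k + 1)
        calc _ ≤ |x * E.coeff (k + 1)| + |(ofL l * E).coeff k| := abs_add_le _ _
          _ ≤ x.natAbs * H + H * cs l 12 := by
            apply add_le_add _ i1
            rw [abs_mul, Int.abs_eq_natAbs x]
            exact mul_le_mul_of_nonneg_left i2 (Int.natCast_nonneg _)
          _ = _ := by push_cast; ring
      · have hm : (k + 1) % 13 = k % 13 + 1 := by omega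
        rw [hm, cs, h2 _ hk, mul_zero, zero_add]
        exact ih k

/-- Check of all class sums at once. -/
def go (N : ℕ) : List ℤ → ℕ → ℕ → ℕ → ℕ → ℕ → ℕ → ℕ → ℕ → ℕ → ℕ → ℕ → ℕ → ℕ → Bool
  | [], a0, a1, a2, a3, a4, a5, a6, a7, a8, a9, a10, a11, a12 =>
    Nat.ble a0 N && Nat.ble a1 N && Nat.ble a2 N && Nat.ble a3 N && Nat.ble a4 N &&
      Nat.ble a5 N && Nat.ble a6 N && Nat.ble a7 N && Nat.ble a8 N && Nat.ble a9 N &&
      Nat.ble a10 N && Nat.ble a11 N && Nat.ble a12 N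
  | x :: l, a0, a1, a2, a3, a4, a5, a6, a7, a8, a9, a10, a11, a12 =>
    go N l a1 a2 a3 a4 a5 a6 a7 a8 a9 a10 a11 a12 (a0 + x.natAbs)

lemma go_spec {N : ℕ} {l : List ℤ} {a0 a1 a2 a3 a4 a5 a6 a7 a8 a9 a10 a11 a12 : ℕ}
    (h : go N l a0 a1 a2 a3 a4 a5 a6 a7 a8 a9 a10 a11 a12 = true) :
    a0 + cs l 0 ≤ N ∧ a1 + cs l 1 ≤ N ∧ a2 + cs l 2 ≤ N ∧ a3 + cs l 3 ≤ N ∧ a4 + cs l 4 ≤ N ∧
    a5 + cs l 5 ≤ N ∧ a6 + cs l 6 ≤ N ∧ a7 + cs l 7 ≤ N ∧ a8 + cs l 8 ≤ N ∧ a9 + cs l 9 ≤ N ∧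
    a10 + cs l 10 ≤ N ∧ a11 + cs l 11 ≤ N ∧ a12 + cs l 12 ≤ N := by
  induction l generalizing a0 a1 a2 a3 a4 a5 a6 a7 a8 a9 a10 a11 a12 with
  | nil =>
    simp only [go, Bool.and_eq_true, Nat.ble_eq] at h
    simp only [cs]
    tauto
  | cons x l ih =>
    rw [go] at h
    have := ih h
    simp only [cs]
    obtain ⟨h1, h2, h3, h4, h5, h6, h7, h8, h9, h10, h11, h12, h0⟩ := this
    refine ⟨by omega, h1, h2, h3, h4, h5, h6, h7, h8, h9, h10, h11, h12⟩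

lemma cs_le_of_go {N : ℕ} {l : List ℤ} (h : go N l 0 0 0 0 0 0 0 0 0 0 0 0 0 = true) {c : ℕ}
    (hc : c < 13) : cs l c ≤ N := by
  obtain ⟨h0, h1, h2, h3, h4, h5, h6, h7, h8, h9, h10, h11, h12⟩ := go_spec h
  interval_cases c <;> omega

/-- Sum of absolute values. -/
def l1 : List ℤ → ℕ
  | [] => 0
  | x :: l => x.natAbs + l1 l

lemma coeff_mul_l1 {M : ℕ} {g : ℤ[X]} (hg : ∀ j, |g.coeff j| ≤ M) (l : List ℤ) (k : ℕ) :
    |(ofL l * g).coeff k| ≤ (l1 l : ℤ) * M := by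
  induction l generalizing k with
  | nil => simp [ofL]
  | cons x l ih =>
    have e : ofL (x :: l) * g = C x * g + X * (ofL l * g) := by
      rw [ofL]; ring
    rw [e, coeff_add, coeff_C_mul]
    have i2 := hg k
    have i3 : |x * g.coeff k| ≤ x.natAbs * M := by
      rw [abs_mul, Int.abs_eq_natAbs x]
      exact mul_le_mul_of_nonneg_left i2 (Int.natCast_nonneg _)
    have i4 : |(X * (ofL l * g)).coeff k| ≤ (l1 l : ℤ) * M := by
      cases k with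
      | zero => rw [coeff_X_mul_zero]; simp; positivity
      | succ k => rw [coeff_X_mul]; exact ih k
    calc _ ≤ |x * g.coeff k| + |(X * (ofL l * g)).coeff k| := abs_add_le _ _
      _ ≤ x.natAbs * M + l1 l * M := add_le_add i3 i4
      _ = _ := by rw [l1]; push_cast; ring

/-- `f` or `1`. -/
noncomputable def pp (b : Bool) (f : ℤ[X]) : ℤ[X] := bif b then f else 1

/-- `z` or `1`. -/
def pz (b : Bool) (z : ℤ) : ℤ := bif b then z else 1

lemma eval_pp (b : Bool) (l : List ℤ) (z : ℤ) : (pp b (ofL l)).eval z = pz b (evalL z l) := by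
  cases b
  · simp [pp, pz]
  · simp [pp, pz, eval_ofL]

lemma coeff_pp_l1 {M : ℕ} {g : ℤ[X]} (hg : ∀ j, |g.coeff j| ≤ M) (b : Bool) (l : List ℤ)
    (hl : 1 ≤ l1 l) (k : ℕ) : |(pp b (ofL l) * g).coeff k| ≤ ((l1 l * M : ℕ) : ℤ) := by
  cases b
  · simp only [pp, cond_false, one_mul]
    have : (M : ℤ) ≤ ((l1 l * M : ℕ) : ℤ) := by
      have : M ≤ l1 l * M := Nat.le_mul_of_pos_left _ hl
      exact_mod_cast this
    exact (hg k).trans this
  · simp only [pp, cond_true]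
    push_cast
    exact coeff_mul_l1 hg l k

lemma natDegree_pp (b : Bool) (l : List ℤ) {d : ℕ} (h : l.length ≤ d + 1) :
    (pp b (ofL l)).natDegree ≤ d := by
  cases b
  · simp [pp]
  · simp only [pp, cond_true]
    rw [natDegree_le_iff_coeff_eq_zero]
    intro N hN
    exact natDegree_ofL_lt l (by omega)

end Pool.Agent.V11297.LP
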