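import Pool.Agent.V11297.CycloPQ

/-!
# The maximal height of divisors of `X ^ (p q ^ (b + 1)) - 1`

Helper file: the bound `p M` for all divisors, and the witness `Φ_p Φ_q h(X ^ q)`.
-/

open Polynomial

namespace Pool.Agent.V11297.CycloPQ

/-- Products of some `Φ_{q^(i+1)}` and some `Φ_{p q^(i+1)}`, `i < b`. -/
noncomputable def hP (p q b : ℕ) (a c : ℕ → Prop) [DecidablePred a] [DecidablePred c] : ℤ[X] :=
  ∏ i ∈ Finset.range b, ((if a i then cyclotomic (q ^ (i + 1)) ℤ else 1) *
    (if c i then cyclotomic (p * q ^ (i + 1)) ℤ else 1))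

lemma hP_succ {p q : ℕ} (hq : q.Prime) (b : ℕ) (a c : ℕ → Prop) [DecidablePred a]
    [DecidablePred c] :
    hP p q (b + 1) a c = ((if a 0 then cyclotomic q ℤ else 1) *
      (if c 0 then cyclotomic (p * q) ℤ else 1)) *
        expand ℤ q (hP p q b (fun i => a (i + 1)) (fun i => c (i + 1))) := by
  unfold hP
  rw [Finset.prod_range_succ', mul_comm]
  congr 1
  · simp only [zero_add, pow_one]
  · rw [map_prod]
    apply Finset.prod_congr rfl
    intro i _
    rw [map_mul]
    have e1 : expand ℤ q (cyclotomic (q ^ (i + 1)) ℤ) = cyclotomic (q ^ (i + 1 + 1)) ℤ := by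
      rw [cyclotomic_expand_eq_cyclotomic hq (dvd_pow_self q (Nat.succ_ne_zero i)),
        ← pow_succ]
    have e2 : expand ℤ q (cyclotomic (p * q ^ (i + 1)) ℤ)
        = cyclotomic (p * q ^ (i + 1 + 1)) ℤ := by
      rw [cyclotomic_expand_eq_cyclotomic hq
        (Dvd.dvd.mul_left (dvd_pow_self q (Nat.succ_ne_zero i)) p), mul_assoc, ← pow_succ]
    congr 1
    · split_ifs
      · exact e1.symm
      · exact (map_one _).symm
    · split_ifs
      · exact e2.symm
      · exact (map_one _).symm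

lemma zc_expand (q : ℕ) (hq : 0 < q) (h : ℤ[X]) (n : ℤ) :
    zc (expand ℤ q h) n = if (q : ℤ) ∣ n then zc h (n / q) else 0 := by
  have hq' : (0 : ℤ) < q := by exact_mod_cast hq
  by_cases hn : n < 0
  · rw [zc_neg _ hn]
    split_ifs
    · rw [zc_neg]
      exact Int.ediv_neg_of_neg_of_pos hn hq'
    · rfl
  · obtain ⟨N, rfl⟩ : ∃ N : ℕ, n = N := ⟨n.toNat, by omega⟩
    rw [zc_natCast, coeff_expand hq]
    have : ((q : ℤ) ∣ (N : ℤ)) ↔ q ∣ N := Int.natCast_dvd_natCast
    by_cases h1 : q ∣ N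
    · rw [if_pos h1, if_pos (this.mpr h1), ← Int.natCast_ediv, zc_natCast]
    · rw [if_neg h1, if_neg (fun h => h1 (this.mp h))]

lemma zc_expand_le {q : ℕ} (hq : 0 < q) {h : ℤ[X]} {M : ℤ} (hM : ∀ n, |zc h n| ≤ M) (n : ℤ) :
    |zc (expand ℤ q h) n| ≤ M := by
  rw [zc_expand q hq]
  split_ifs
  · exact hM _
  · rw [abs_zero]; exact (abs_nonneg _).trans (hM 0)

/-- `Φ_q(X) h(X^q)`: each coefficient is a coefficient of `h`. -/
lemma zc_q_expand_le {q : ℕ} (hq : q.Prime) {h : ℤ[X]} {M : ℤ} (hM : ∀ n, |zc h n| ≤ M)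
    (n : ℤ) : |zc (cyclotomic q ℤ * expand ℤ q h) n| ≤ M := by
  have hM0 : 0 ≤ M := (abs_nonneg _).trans (hM 0)
  have hq0 := hq.pos
  by_cases hn : n < 0
  · rw [zc_neg _ hn, abs_zero]; exact hM0
  obtain ⟨N, rfl⟩ : ∃ N : ℕ, n = N := ⟨n.toNat, by omega⟩
  rw [zc_natCast, coeff_mul]
  rw [Finset.sum_eq_single_of_mem (N % q, q * (N / q))]
  · rw [coeff_expand hq0, if_pos (dvd_mul_right _ _), Nat.mul_div_cancel_left _ hq0,
      coeff_cyc_prime hq, if_pos (Nat.mod_lt _ hq0), one_mul, ← zc_natCast]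
    exact hM _
  · rw [Finset.HasAntidiagonal.mem_antidiagonal]; exact Nat.mod_add_div N q
  · rintro ⟨x, y⟩ hxy hne
    rw [Finset.HasAntidiagonal.mem_antidiagonal] at hxy
    dsimp only at hxy ⊢
    rw [coeff_expand hq0, coeff_cyc_prime hq]
    split_ifs with h1 h2
    · exfalso
      apply hne
      obtain ⟨y', rfl⟩ := h2
      have e1 : N % q = x := by
        rw [← hxy, Nat.add_mul_mod_self_left, Nat.mod_eq_of_lt h1]
      have e2 := Nat.mod_add_div N q
      rw [e1]
      ext
      · rfl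
      · dsimp only
        omega
    · simp
    · simp
    · simp

/-- The level zero factors multiply the bound by at most `p`. -/
lemma level_zero {p : ℕ} (hp : p.Prime) (x y : Prop) [Decidable x] [Decidable y] {g : ℤ[X]}
    {M : ℤ} (hM : ∀ n, |zc g n| ≤ M) (n : ℤ) :
    |zc (((if x then cyclotomic 1 ℤ else 1) * (if y then cyclotomic p ℤ else 1)) * g) n|
      ≤ p * M := by
  have hM0 : 0 ≤ M := (abs_nonneg _).trans (hM 0)
  have hp2 : (2 : ℤ) ≤ p := by exact_mod_cast hp.two_le
  have : Fact p.Prime := ⟨hp⟩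
  split_ifs
  · have e : (cyclotomic 1 ℤ * cyclotomic p ℤ) * g = X ^ p * g - g := by
      rw [cyclotomic_one, cyclotomic_prime, mul_comm (X - 1), geom_sum_mul]
      ring
    rw [e, zc_sub, zc_X_pow_mul]
    have h1 := hM (n - p)
    have h2 := hM n
    calc |zc g (n - p) - zc g n| ≤ |zc g (n - p)| + |zc g n| := abs_sub _ _
      _ ≤ M + M := add_le_add h1 h2
      _ ≤ p * M := by nlinarith
  · have e : (cyclotomic 1 ℤ * 1) * g = X ^ 1 * g - g := by
      rw [cyclotomic_one]
      ring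
    rw [e, zc_sub, zc_X_pow_mul]
    have h1 := hM (n - (1 : ℕ))
    have h2 := hM n
    calc |zc g (n - (1 : ℕ)) - zc g n| ≤ |zc g (n - (1 : ℕ))| + |zc g n| := abs_sub _ _
      _ ≤ M + M := add_le_add h1 h2
      _ ≤ p * M := by nlinarith
  · rw [one_mul, cyclotomic_prime, Finset.sum_mul]
    have : ∀ s : Finset ℕ, |zc (∑ i ∈ s, X ^ i * g) n| ≤ s.card * M := by
      intro s
      induction s using Finset.induction with
      | empty => simp [zc]
      | insert i s hi ih =>
        rw [Finset.sum_insert hi, zc_add, Finset.card_insert_of_notMem hi, zc_X_pow_mul]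
        push_cast
        calc _ ≤ |zc g (n - i)| + |zc (∑ i ∈ s, X ^ i * g) n| := abs_add_le _ _
          _ ≤ M + s.card * M := add_le_add (hM _) ih
          _ = (s.card + 1) * M := by ring
    have := this (Finset.range p)
    rwa [Finset.card_range] at this
  · rw [one_mul, one_mul]
    have := hM n
    nlinarith

lemma level_pq {p q : ℕ} (hp : p.Prime) (hq : q.Prime) (hpq : p ≠ q) (x y : Prop) [Decidable x]
    [Decidable y] {h : ℤ[X]} {M : ℤ} (hM : ∀ n, |zc h n| ≤ M) (n : ℤ) :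
    |zc (((if x then cyclotomic 1 ℤ else 1) * (if y then cyclotomic p ℤ else 1)) *
      (cyclotomic (p * q) ℤ * expand ℤ q h)) n| ≤ p * M := by
  have hM' : ∀ k, |h.coeff k| ≤ M := by
    intro k; rw [← zc_natCast]; exact hM _
  have hM0 : 0 ≤ M := (abs_nonneg _).trans (hM 0)
  -- Φ_p h
  have hu : ∀ n, |zc (cyclotomic p ℤ * h) n| ≤ p * M := by
    intro n
    have := level_zero hp False True hM n
    simpa using this
  have hexp : cyclotomic p ℤ * (cyclotomic (p * q) ℤ * expand ℤ q h)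
      = expand ℤ q (cyclotomic p ℤ * h) := by
    have := cyclotomic_expand_eq_cyclotomic_mul hq (n := p)
      (by rw [Nat.prime_dvd_prime_iff_eq hq hp]; exact fun h => hpq h.symm) ℤ
    rw [map_mul, this]
    ring
  split_ifs
  · have e : (cyclotomic 1 ℤ * cyclotomic p ℤ) * (cyclotomic (p * q) ℤ * expand ℤ q h)
        = X ^ 1 * expand ℤ q (cyclotomic p ℤ * h) - expand ℤ q (cyclotomic p ℤ * h) := by
      rw [← hexp, cyclotomic_one]
      ring
    rw [e, zc_sub, zc_X_pow_mul, zc_expand q hq.pos, zc_expand q hq.pos]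
    have hpM : (0 : ℤ) ≤ p * M := by positivity
    have hq2 : (2 : ℤ) ≤ q := by exact_mod_cast hq.two_le
    split_ifs with h1 h2 h2
    · exfalso
      have := dvd_sub h2 h1
      rw [show n - (n - ((1 : ℕ) : ℤ)) = 1 by push_cast; ring] at this
      have := Int.le_of_dvd one_pos this
      linarith
    · rw [sub_zero]; exact hu _
    · rw [zero_sub, abs_neg]; exact hu _
    · simpa using hpM
  · rw [mul_one, cyclotomic_one]
    exact bound_one_pq hp hq hpq hM' n
  · rw [one_mul, hexp]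
    exact zc_expand_le hq.pos hu n
  · rw [one_mul, one_mul]
    exact bound_pq hp hq hpq hM' n

lemma prod_subset_form {p q b : ℕ} (hp : p.Prime) (hq : q.Prime) (hpq : p ≠ q) (S : Finset ℕ)
    (hS : S ⊆ (p * q ^ b).divisors) :
    ∏ d ∈ S, cyclotomic d ℤ
      = ((if 1 ∈ S then cyclotomic 1 ℤ else 1) * (if p ∈ S then cyclotomic p ℤ else 1)) *
        hP p q b (fun i => q ^ (i + 1) ∈ S) (fun i => p * q ^ (i + 1) ∈ S) := by
  have hcop : Nat.Coprime p (q ^ b) :=
    Nat.Coprime.pow_right b ((Nat.coprime_primes hp hq).mpr hpq)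
  have h1 : ∏ d ∈ S, cyclotomic d ℤ
      = ∏ d ∈ (p * q ^ b).divisors, (if d ∈ S then cyclotomic d ℤ else 1) := by
    rw [Finset.prod_ite_mem, Finset.inter_eq_right.mpr hS]
  unfold hP
  rw [h1, Nat.divisors_mul, Finset.mul_def, Finset.prod_image hcop.mul_injOn_divisors,
    Finset.prod_product, hp.prod_divisors, Nat.prod_divisors_prime_pow hq,
    Nat.prod_divisors_prime_pow hq, ← Finset.prod_mul_distrib, Finset.prod_range_succ']
  simp only [one_mul, pow_zero, mul_one]
  rw [mul_comm]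
  congr 1
  · rw [mul_comm]
  · apply Finset.prod_congr rfl
    intro i _
    rw [mul_comm]

/-- The main upper bound. -/
theorem upper {p q b : ℕ} (hp : p.Prime) (hq : q.Prime) (hpq : p ≠ q) {M : ℤ}
    (hM : ∀ (a c : ℕ → Prop) [DecidablePred a] [DecidablePred c], ∀ n, |zc (hP p q b a c) n| ≤ M)
    {f : ℤ[X]} (hf : f ∣ X ^ (p * q ^ (b + 1)) - 1) (n : ℤ) : |zc f n| ≤ p * M := by
  have hn : 0 < p * q ^ (b + 1) := by have := hq.pos; have := hp.pos; positivity
  obtain ⟨S, u, hu, hS, rfl⟩ := divisor_form hn hf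
  have hCu : ∀ g : ℤ[X], |zc (C u * g) n| = |zc g n| := by
    intro g
    unfold zc
    split_ifs
    · rw [coeff_C_mul, abs_mul, hu, one_mul]
    · rfl
  rw [hCu, prod_subset_form hp hq hpq S hS, hP_succ hq]
  set h := hP p q b (fun i => q ^ (i + 1 + 1) ∈ S) (fun i => p * q ^ (i + 1 + 1) ∈ S) with hh
  have hhM : ∀ n, |zc h n| ≤ M := by
    intro n
    exact hM _ _ n
  by_cases h1 : q ^ (0 + 1) ∈ S
  · by_cases h2 : p * q ^ (0 + 1) ∈ S
    · simp only [if_pos h1, if_pos h2]
      apply level_zero hp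
      intro m
      obtain ⟨B⟩ := exists_bez hp.one_lt hq.one_lt ((Nat.coprime_primes hp hq).mpr hpq)
      have e : cyclotomic q ℤ * cyclotomic (p * q) ℤ = expand ℤ p (cyclotomic q ℤ) := by
        have := cyclotomic_expand_eq_cyclotomic_mul hp (n := q)
          (by rw [Nat.prime_dvd_prime_iff_eq hp hq]; exact hpq) ℤ
        rw [this, mul_comm p q]
        ring
      rw [e, coeff_level hp.pos hq B]
      exact hhM _
    · simp only [if_pos h1, if_neg h2, mul_one]
      apply level_zero hp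
      intro m
      exact zc_q_expand_le hq hhM m
  · by_cases h2 : p * q ^ (0 + 1) ∈ S
    · simp only [if_neg h1, if_pos h2, one_mul]
      exact level_pq hp hq hpq _ _ hhM n
    · simp only [if_neg h1, if_neg h2, one_mul]
      apply level_zero hp
      intro m
      exact zc_expand_le hq.pos hhM m

/-- The witness divides `X ^ (p q ^ (b + 1)) - 1`. -/
lemma witness_dvd {p q b : ℕ} (hp : p.Prime) (hq : q.Prime) (hpq : p ≠ q)
    (a c : ℕ → Prop) [DecidablePred a] [DecidablePred c] :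
    cyclotomic p ℤ * (cyclotomic q ℤ * expand ℤ q (hP p q b a c))
      ∣ X ^ (p * q ^ (b + 1)) - 1 := by
  have hn : 0 < p * q ^ (b + 1) := by have := hq.pos; have := hp.pos; positivity
  rw [← prod_cyclotomic_eq_X_pow_sub_one hn ℤ,
    prod_subset_form hp hq hpq _ (Finset.Subset.refl _), hP_succ hq]
  rw [if_pos (show 1 ∈ (p * q ^ (b + 1)).divisors by simp [hn.ne'])]
  rw [if_pos (show p ∈ (p * q ^ (b + 1)).divisors by
    rw [Nat.mem_divisors]; exact ⟨dvd_mul_right _ _, hn.ne'⟩)]
  rw [if_pos (show q ^ (0 + 1) ∈ (p * q ^ (b + 1)).divisors by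
    rw [Nat.mem_divisors]; exact ⟨Dvd.dvd.mul_left (pow_dvd_pow q (by omega)) p, hn.ne'⟩)]
  have h1 : hP p q b a c ∣ hP p q b (fun i => q ^ (i + 1 + 1) ∈ (p * q ^ (b + 1)).divisors)
      (fun i => p * q ^ (i + 1 + 1) ∈ (p * q ^ (b + 1)).divisors) := by
    unfold hP
    apply Finset.prod_dvd_prod_of_dvd
    intro i hi
    rw [Finset.mem_range] at hi
    rw [if_pos (show q ^ (i + 1 + 1) ∈ (p * q ^ (b + 1)).divisors by
      rw [Nat.mem_divisors]; exact ⟨Dvd.dvd.mul_left (pow_dvd_pow q (by omega)) p, hn.ne'⟩)]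
    rw [if_pos (show p * q ^ (i + 1 + 1) ∈ (p * q ^ (b + 1)).divisors by
      rw [Nat.mem_divisors]; exact ⟨Nat.mul_dvd_mul_left p (pow_dvd_pow q (by omega)), hn.ne'⟩)]
    apply mul_dvd_mul
    · split_ifs
      · exact dvd_rfl
      · exact one_dvd _
    · split_ifs
      · exact dvd_rfl
      · exact one_dvd _
  obtain ⟨g, hg⟩ := h1
  rw [hg, map_mul]
  refine ⟨cyclotomic 1 ℤ * (if p * q ^ (0 + 1) ∈ (p * q ^ (b + 1)).divisors
    then cyclotomic (p * q) ℤ else 1) * expand ℤ q g, ?_⟩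
  ring

/-- The coefficient of the witness at `p - 1 + q k` is `p` times the coefficient at `k`. -/
lemma witness_coeff {p q : ℕ} (hp : p.Prime) (hq : q.Prime) (hpq : p < q) (h : ℤ[X]) (k : ℕ) :
    (cyclotomic p ℤ * (cyclotomic q ℤ * expand ℤ q h)).coeff (p - 1 + q * k)
      = p * h.coeff k := by
  have : Fact p.Prime := ⟨hp⟩
  have hq0 := hq.pos
  have hp0 := hp.pos
  rw [cyclotomic_prime ℤ p, Finset.sum_mul, finsetSum_coeff]
  have e : ∀ i ∈ Finset.range p,
      (X ^ i * (cyclotomic q ℤ * expand ℤ q h)).coeff (p - 1 + q * k) = h.coeff k := by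
    intro i hi
    rw [Finset.mem_range] at hi
    rw [coeff_X_pow_mul', if_pos (by omega)]
    rw [show p - 1 + q * k - i = (p - 1 - i) + q * k by omega]
    rw [coeff_mul, Finset.sum_eq_single_of_mem (p - 1 - i, q * k)]
    · rw [coeff_expand hq0, if_pos (dvd_mul_right _ _), Nat.mul_div_cancel_left _ hq0,
        coeff_cyc_prime hq, if_pos (by omega), one_mul]
    · rw [Finset.HasAntidiagonal.mem_antidiagonal]
    · rintro ⟨x, y⟩ hxy hne
      rw [Finset.HasAntidiagonal.mem_antidiagonal] at hxy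
      dsimp only at hxy ⊢
      rw [coeff_expand hq0, coeff_cyc_prime hq]
      split_ifs with h1 h2
      · exfalso
        apply hne
        obtain ⟨y', rfl⟩ := h2
        have e1 : (x + q * y') % q = x := by
          rw [Nat.add_mul_mod_self_left, Nat.mod_eq_of_lt h1]
        have e2 : (p - 1 - i + q * k) % q = p - 1 - i := by
          rw [Nat.add_mul_mod_self_left, Nat.mod_eq_of_lt (by omega)]
        rw [hxy, e2] at e1
        ext
        · exact e1.symm
        · dsimp only
          omega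
      · simp
      · simp
      · simp
  rw [Finset.sum_congr rfl e]
  simp

end Pool.Agent.V11297.CycloPQ
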