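import Pool.Agent.V11297.CycloPQ2
import Pool.Agent.V11297.HeightDef

/-!
# `B(p q ^ (b + 1)) = p M_b`
-/

open Polynomial

namespace Pool.Agent.V11297.CycloPQ

/-- The largest height of a product `hP p q b a c`. -/
noncomputable def Mb (p q b : ℕ) : ℕ :=
  ((Finset.range b).powerset ×ˢ (Finset.range b).powerset).sup
    (fun AC => height (hP p q b (fun i => i ∈ AC.1) (fun i => i ∈ AC.2)))

lemma hP_filter (p q b : ℕ) (a c : ℕ → Prop) [DecidablePred a] [DecidablePred c] :
    hP p q b a c = hP p q b (fun i => i ∈ (Finset.range b).filter a)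
      (fun i => i ∈ (Finset.range b).filter c) := by
  unfold hP
  apply Finset.prod_congr rfl
  intro i hi
  congr 1
  · congr 1
    apply propext
    simp only [Finset.mem_filter]
    tauto
  · congr 1
    apply propext
    simp only [Finset.mem_filter]
    tauto

lemma height_le_Mb (p q b : ℕ) (a c : ℕ → Prop) [DecidablePred a] [DecidablePred c] :
    height (hP p q b a c) ≤ Mb p q b := by
  rw [hP_filter]
  unfold Mb
  exact Finset.le_sup (f := fun AC : Finset ℕ × Finset ℕ =>
    height (hP p q b (fun i => i ∈ AC.1) (fun i => i ∈ AC.2)))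
    (b := ((Finset.range b).filter a, (Finset.range b).filter c))
    (by
      rw [Finset.mem_product, Finset.mem_powerset, Finset.mem_powerset]
      exact ⟨Finset.filter_subset _ _, Finset.filter_subset _ _⟩)

/-- `B(p q ^ (b + 1)) = p M_b`. -/
theorem isGreatest {p q : ℕ} (hp : p.Prime) (hq : q.Prime) (hpq : p < q) (b : ℕ) :
    IsGreatest {h : ℕ | ∃ f : ℤ[X], f ∣ X ^ (p * q ^ (b + 1)) - 1 ∧ height f = h}
      (p * Mb p q b) := by
  have hub : ∀ f : ℤ[X], f ∣ X ^ (p * q ^ (b + 1)) - 1 → height f ≤ p * Mb p q b := by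
    intro f hf
    rw [height_le_iff]
    intro k
    have := upper hp hq hpq.ne (M := (Mb p q b : ℤ)) (b := b) (fun a c _ _ n => by
      apply zc_le
      rw [← height_le_iff]
      exact height_le_Mb p q b a c) hf k
    rw [zc_natCast] at this
    exact_mod_cast this
  constructor
  · obtain ⟨AC, _, hAC⟩ := Finset.exists_mem_eq_sup
      ((Finset.range b).powerset ×ˢ (Finset.range b).powerset)
      ⟨(∅, ∅), by simp⟩
      (fun AC => height (hP p q b (fun i => i ∈ AC.1) (fun i => i ∈ AC.2)))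
    set h := hP p q b (fun i => i ∈ AC.1) (fun i => i ∈ AC.2) with hh
    have hMb : Mb p q b = height h := hAC
    refine ⟨_, witness_dvd (b := b) hp hq hpq.ne (fun i => i ∈ AC.1) (fun i => i ∈ AC.2), ?_⟩
    apply le_antisymm (hub _ (witness_dvd hp hq hpq.ne _ _))
    set w := cyclotomic p ℤ * (cyclotomic q ℤ * expand ℤ q h) with hw
    have h1 : height h ≤ height w / p := by
      rw [height_le_iff]
      intro k
      have e := witness_coeff hp hq hpq h k
      have e2 := abs_coeff_le_height w (p - 1 + q * k)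
      rw [← hw] at e
      rw [e, abs_mul] at e2
      have e3 : p * (h.coeff k).natAbs ≤ height w := by
        have : ((p * (h.coeff k).natAbs : ℕ) : ℤ) ≤ (height w : ℤ) := by
          push_cast
          calc _ = |(p : ℤ)| * |h.coeff k| := by simp
            _ ≤ _ := e2
        exact_mod_cast this
      rw [Int.abs_eq_natAbs]
      have : (h.coeff k).natAbs ≤ height w / p := by
        rw [Nat.le_div_iff_mul_le hp.pos, mul_comm]
        exact e3
      exact_mod_cast this
    rw [hMb]
    calc p * height h ≤ p * (height w / p) := Nat.mul_le_mul_left p h1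
      _ ≤ height w := Nat.mul_div_le _ _
  · rintro h ⟨f, hf, rfl⟩
    exact hub f hf

lemma psum_cyc {q : ℕ} (hq : q.Prime) {k : ℤ} (h0 : 0 ≤ k) (h1 : k < q) :
    psum (cyclotomic q ℤ) k = k + 1 := by
  unfold psum
  rw [Finset.sum_congr rfl (g := fun _ => (1 : ℤ))]
  · simp; omega
  · intro j hj
    rw [Finset.mem_range] at hj
    rw [coeff_cyc_prime hq, if_pos (by omega)]

/-- For odd primes `p < q` one of the products for `b = 2` has height at least `(p + 1) / 2`. -/
lemma Mb_two {p q b : ℕ} (hp : p.Prime) (hq : q.Prime) (hpq : p < q) (h2 : p ≠ 2) (hb : 2 ≤ b) :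
    (p + 1) / 2 ≤ Mb p q b := by
  have hq0 := hq.pos
  have hq' : (0 : ℤ) < q := by exact_mod_cast hq0
  have hpodd : p % 2 = 1 := Nat.odd_iff.mp (hp.odd_of_ne_two h2)
  have hqodd : q % 2 = 1 := Nat.odd_iff.mp (hq.odd_of_ne_two (by have := hp.two_le; omega))
  have hp3 : 3 ≤ p := by have := hp.two_le; omega
  have hpq2 : p + 2 ≤ q := by omega
  obtain ⟨B⟩ := exists_bez hp.one_lt hq.one_lt ((Nat.coprime_primes hp hq).mpr hpq.ne)
  have hv0 := B.hv0
  have hv1 := B.hv1
  -- the polynomial
  have hpoly : hP p q b (fun i => i = 1) (fun i => i = 0)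
      = cyclotomic (p * q) ℤ * expand ℤ q (cyclotomic q ℤ) := by
    obtain ⟨b', rfl⟩ : ∃ b', b = b' + 2 := ⟨b - 2, by omega⟩
    rw [hP_succ hq, hP_succ hq]
    have e : hP p q b' (fun i => i + 1 + 1 = 1) (fun i => i + 1 + 1 = 0) = 1 := by
      unfold hP
      apply Finset.prod_eq_one
      intro i _
      rw [if_neg (by omega), if_neg (by omega), mul_one]
    simp only [e]
    simp
  have hle := height_le_Mb p q b (fun i => i = 1) (fun i => i = 0)
  rw [hpoly] at hle
  refine le_trans ?_ hle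
  set f := cyclotomic (p * q) ℤ * expand ℤ q (cyclotomic q ℤ) with hf
  have hcoef : ∀ n : ℤ, |zc f n| ≤ height f := fun n => zc_le (abs_coeff_le_height f) n
  -- value of a at q (p + 1)
  have ha0 : B.a ((q : ℤ) * (p + 1)) = p + 1 ∧ B.i ((q : ℤ) * (p + 1)) = 0 := by
    have := B.a_unique hq0 (n := (q : ℤ) * (p + 1)) (i' := 0) (a' := p + 1) le_rfl hq' (by ring)
    exact ⟨this.2.symm, this.1.symm⟩
  have hpq' : (p : ℤ) + 2 ≤ q := by exact_mod_cast hpq2
  have hρ0 := B.hρ0
  have hρ1 := B.hρ1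
  by_cases hcase : (p + 1) / 2 ≤ B.v
  · -- use n = q (p + 1) + 1
    have hd := B.a_diff hq0 ((q : ℤ) * (p + 1) + 1)
    rw [show (q : ℤ) * (p + 1) + 1 - 1 = (q : ℤ) * (p + 1) by ring, ha0.1, ha0.2] at hd
    have hi := B.i_nonneg hq0 ((q : ℤ) * (p + 1) + 1)
    have hav : B.a ((q : ℤ) * (p + 1) + 1) = p + 1 - B.v := by
      rcases hd with ⟨g1, g2⟩ | ⟨g1, g2⟩
      · linarith
      · exfalso; linarith
    have hc := coeff_pq hp hq hpq.ne B (cyclotomic q ℤ) ((q : ℤ) * (p + 1) + 1)
    rw [show (q : ℤ) * (p + 1) + 1 - 1 = (q : ℤ) * (p + 1) by ring, ha0.1, hav,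
      psum_cyc hq (by linarith) (by linarith), psum_cyc hq (by linarith) (by linarith)] at hc
    have h3 := hcoef ((q : ℤ) * (p + 1) + 1)
    rw [← hf] at hc
    rw [hc] at h3
    rw [show (p : ℤ) + 1 - B.v + 1 - (p + 1 + 1) = -B.v by ring, abs_neg,
      abs_of_nonneg hv0] at h3
    have : (((p + 1) / 2 : ℕ) : ℤ) ≤ (height f : ℤ) := by
      push_cast
      linarith
    exact_mod_cast this
  · push Not at hcase
    have hd := B.a_diff hq0 ((q : ℤ) * (p + 1))
    rw [ha0.1, ha0.2] at hd
    have hi := B.i_nonneg hq0 ((q : ℤ) * (p + 1) - 1)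
    have hav : B.a ((q : ℤ) * (p + 1) - 1) = B.v + 1 := by
      rcases hd with ⟨g1, g2⟩ | ⟨g1, g2⟩
      · exfalso; linarith
      · linarith
    have hc := coeff_pq hp hq hpq.ne B (cyclotomic q ℤ) ((q : ℤ) * (p + 1))
    rw [ha0.1, hav, psum_cyc hq (by linarith) (by linarith),
      psum_cyc hq (by linarith) (by linarith)] at hc
    have h3 := hcoef ((q : ℤ) * (p + 1))
    rw [← hf] at hc
    rw [hc] at h3
    rw [show (p : ℤ) + 1 + 1 - (B.v + 1 + 1) = p - B.v by ring,
      abs_of_nonneg (by linarith)] at h3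
    have : (((p + 1) / 2 : ℕ) : ℤ) ≤ (height f : ℤ) := by
      push_cast
      omega
    exact_mod_cast this

end Pool.Agent.V11297.CycloPQ
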