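import Mathlib

/-!
# Integer polynomials given by coefficient lists, and Descartes' rule for them
-/

open Polynomial

namespace Pool.Agent.V11297.LP

/-- The integer polynomial with the given coefficient list, constant term first. -/
noncomputable def ofL : List ℤ → ℤ[X]
  | [] => 0
  | c :: l => C c + X * ofL l

lemma coeff_ofL (l : List ℤ) (n : ℕ) : (ofL l).coeff n = l.getD n 0 := by
  induction l generalizing n with
  | nil => simp [ofL]
  | cons c l ih =>
    cases n with
    | zero => simp [ofL]
    | succ n =>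
      rw [ofL, coeff_add, coeff_C_succ, zero_add, coeff_X_mul, ih]
      rfl

/-- Horner evaluation. -/
def evalL (z : ℤ) : List ℤ → ℤ
  | [] => 0
  | c :: l => c + z * evalL z l

lemma eval_ofL (z : ℤ) (l : List ℤ) : (ofL l).eval z = evalL z l := by
  induction l with
  | nil => simp [ofL, evalL]
  | cons c l ih => simp [ofL, evalL, ih]

/-- Balanced digits in base `2 h`. -/
def unpack (h : ℕ) : ℕ → ℤ → List ℤ
  | 0, _ => []
  | n + 1, N => ((N + h) % (2 * h) - h) :: unpack h n ((N + h) / (2 * h))

lemma length_unpack (h n : ℕ) (N : ℤ) : (unpack h n N).length = n := by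
  induction n generalizing N with
  | zero => simp [unpack]
  | succ n ih => simp [unpack, ih]

/-- The digits recover the polynomial. -/
lemma ofL_unpack (h : ℕ) (hh : 0 < h) (n : ℕ) (F : ℤ[X]) (hn : ∀ j, n ≤ j → F.coeff j = 0)
    (hb : ∀ j, |F.coeff j| < h) : ofL (unpack h n (F.eval (2 * (h : ℤ)))) = F := by
  induction n generalizing F with
  | zero =>
    simp only [unpack, ofL]
    ext j
    rw [coeff_zero, hn j (Nat.zero_le _)]
  | succ n ih =>
    have hh' : (0 : ℤ) < 2 * h := by positivity
    have hF : F = F.divX * X + C (F.coeff 0) := (divX_mul_X_add F).symm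
    have hev : F.eval (2 * (h : ℤ)) = F.coeff 0 + 2 * h * F.divX.eval (2 * (h : ℤ)) := by
      conv_lhs => rw [hF]
      simp
      ring
    have hc := hb 0
    rw [abs_lt] at hc
    have hmod : (F.eval (2 * (h : ℤ)) + h) % (2 * h) - h = F.coeff 0 := by
      rw [hev, show F.coeff 0 + 2 * h * F.divX.eval (2 * (h : ℤ)) + h
        = (F.coeff 0 + h) + 2 * h * F.divX.eval (2 * (h : ℤ)) by ring, Int.add_mul_emod_self_left,
        Int.emod_eq_of_lt (by linarith [hc.1]) (by linarith [hc.2])]
      ring
    have hdiv : (F.eval (2 * (h : ℤ)) + h) / (2 * h) = F.divX.eval (2 * (h : ℤ)) := by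
      rw [hev, show F.coeff 0 + 2 * h * F.divX.eval (2 * (h : ℤ)) + h
        = (F.coeff 0 + h) + 2 * h * F.divX.eval (2 * (h : ℤ)) by ring,
        Int.add_mul_ediv_left _ _ hh'.ne', Int.ediv_eq_zero_of_lt (by linarith [hc.1])
        (by linarith [hc.2])]
      ring
    rw [unpack, hmod, hdiv, ofL, ih F.divX]
    · conv_rhs => rw [hF]
      ring
    · intro j hj
      rw [coeff_divX]
      exact hn (j + 1) (by omega)
    · intro j
      rw [coeff_divX]
      exact hb (j + 1)

/-- Add lists. -/
def addL : List ℤ → List ℤ → List ℤ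
  | [], m => m
  | a :: l, [] => a :: l
  | a :: l, b :: m => (a + b) :: addL l m

lemma ofL_addL (l m : List ℤ) : ofL (addL l m) = ofL l + ofL m := by
  induction l generalizing m with
  | nil => simp [addL, ofL]
  | cons a l ih =>
    cases m with
    | nil => simp [addL, ofL]
    | cons b m =>
      simp only [addL, ofL, ih, C_add]
      ring

/-- Negate a list. -/
def negL : List ℤ → List ℤ
  | [] => []
  | a :: l => (-a) :: negL l

lemma ofL_negL (l : List ℤ) : ofL (negL l) = -ofL l := by
  induction l with
  | nil => simp [negL, ofL]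
  | cons a l ih =>
    simp only [negL, ofL, ih, C_neg]
    ring

/-- Prepend zeros. -/
def shiftL : ℕ → List ℤ → List ℤ
  | 0, l => l
  | e + 1, l => 0 :: shiftL e l

lemma ofL_shiftL (e : ℕ) (l : List ℤ) : ofL (shiftL e l) = X ^ e * ofL l := by
  induction e with
  | zero => simp [shiftL]
  | succ e ih =>
    simp only [shiftL, ofL, ih, C_0]
    ring

/-- Multiply by `X ^ e - 1`. -/
def mulL (e : ℕ) (l : List ℤ) : List ℤ := addL (shiftL e l) (negL l)

lemma ofL_mulL (e : ℕ) (l : List ℤ) : ofL (mulL e l) = (X ^ e - 1) * ofL l := by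
  unfold mulL
  rw [ofL_addL, ofL_shiftL, ofL_negL]
  ring

/-- `k a_0, (k + 1) a_1, ...`. -/
def derivAux : ℕ → List ℤ → List ℤ
  | _, [] => []
  | k, a :: l => (k * a) :: derivAux (k + 1) l

lemma ofL_derivAux (k : ℕ) (l : List ℤ) :
    ofL (derivAux k l) = C (k : ℤ) * ofL l + X * derivative (ofL l) := by
  induction l generalizing k with
  | nil => simp [derivAux, ofL]
  | cons a l ih =>
    simp only [derivAux, ofL, ih, derivative_add, derivative_C, derivative_mul, derivative_X]
    simp only [Nat.cast_add, Nat.cast_one, C_mul, C_add, C_1]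
    ring

/-- Derivative. -/
def derivL (l : List ℤ) : List ℤ := derivAux 1 l.tail

lemma ofL_derivL (l : List ℤ) : ofL (derivL l) = derivative (ofL l) := by
  unfold derivL
  cases l with
  | nil => simp [derivAux, ofL]
  | cons a l =>
    rw [List.tail_cons, ofL_derivAux]
    simp [ofL]

/-- `f(-X)`. -/
def altL : List ℤ → List ℤ
  | [] => []
  | [a] => [a]
  | a :: b :: l => a :: (-b) :: altL l

lemma ofL_altL (l : List ℤ) : ofL (altL l) = (ofL l).comp (-X) := by
  induction l using altL.induct with
  | case1 => simp [altL, ofL]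
  | case2 a => simp [altL, ofL]
  | case3 a b l ih =>
    simp only [altL, ofL, ih, add_comp, C_comp, mul_comp, X_comp, C_neg]
    ring

/-- Coefficient bound for the Taylor shift. -/
lemma coeff_comp_bound (l : List ℤ) (M : ℤ) (hM : ∀ c ∈ l, |c| ≤ M) (hM0 : 0 ≤ M) (j : ℕ) :
    |((ofL l).comp (X + 1)).coeff j| ≤ M * (2 ^ l.length - 1) := by
  induction l generalizing j with
  | nil => simp [ofL]
  | cons c l ih =>
    have ih' := fun j => ih (fun c hc => hM c (List.mem_cons_of_mem _ hc)) j
    have hc := hM c List.mem_cons_self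
    simp only [ofL, add_comp, C_comp, mul_comp, X_comp, List.length_cons]
    rw [show (C c + (X + 1) * (ofL l).comp (X + 1) : ℤ[X])
      = C c + (X * (ofL l).comp (X + 1) + (ofL l).comp (X + 1)) by ring, coeff_add, coeff_add]
    cases j with
    | zero =>
      rw [coeff_C_zero, coeff_X_mul_zero, zero_add]
      calc _ ≤ |c| + |((ofL l).comp (X + 1)).coeff 0| := abs_add_le _ _
        _ ≤ M + M * (2 ^ l.length - 1) := add_le_add hc (ih' 0)
        _ ≤ M * (2 ^ (l.length + 1) - 1) := by
          rw [pow_succ]
          have : (1 : ℤ) ≤ 2 ^ l.length := one_le_pow₀ (by norm_num)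
          nlinarith
    | succ j =>
      rw [coeff_C_succ, coeff_X_mul, zero_add]
      calc _ ≤ |((ofL l).comp (X + 1)).coeff j| + |((ofL l).comp (X + 1)).coeff (j + 1)| :=
            abs_add_le _ _
        _ ≤ M * (2 ^ l.length - 1) + M * (2 ^ l.length - 1) := add_le_add (ih' _) (ih' _)
        _ ≤ M * (2 ^ (l.length + 1) - 1) := by
          rw [pow_succ]
          nlinarith

lemma natDegree_ofL_lt (l : List ℤ) {j : ℕ} (hj : l.length ≤ j) : (ofL l).coeff j = 0 := by
  rw [coeff_ofL]
  exact List.getD_eq_default _ _ hj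

lemma coeff_comp_zero (l : List ℤ) (j : ℕ) (hj : l.length ≤ j) :
    ((ofL l).comp (X + 1)).coeff j = 0 := by
  induction l generalizing j with
  | nil => simp [ofL]
  | cons c l ih =>
    simp only [ofL, add_comp, C_comp, mul_comp, X_comp]
    rw [show (C c + (X + 1) * (ofL l).comp (X + 1) : ℤ[X])
      = C c + (X * (ofL l).comp (X + 1) + (ofL l).comp (X + 1)) by ring, coeff_add, coeff_add]
    cases j with
    | zero => simp at hj
    | succ j =>
      rw [List.length_cons] at hj
      rw [coeff_C_succ, coeff_X_mul, zero_add, ih j (by omega), ih (j + 1) (by omega), add_zero]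

/-- The Taylor shift computed by evaluation and unpacking. -/
lemma taylor_eq (l : List ℤ) (h : ℕ) (M : ℤ) (hM : ∀ c ∈ l, |c| ≤ M) (hM0 : 0 ≤ M)
    (hpos : 0 < h) (hh : M * (2 ^ l.length - 1) < h) :
    (ofL l).comp (X + 1) = ofL (unpack h l.length (evalL (2 * h + 1) l)) := by
  have := ofL_unpack h hpos l.length ((ofL l).comp (X + 1))
    (fun j hj => coeff_comp_zero l j hj)
    (fun j => lt_of_le_of_lt (coeff_comp_bound l M hM hM0 j) hh)
  rw [← this]
  congr 2
  rw [eval_comp]
  simp [eval_ofL]

/-- The sign of an integer, in a form that is easy to compute. -/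
def sgn : ℤ → SignType
  | Int.ofNat 0 => 0
  | Int.ofNat (_ + 1) => 1
  | Int.negSucc _ => -1

lemma sgn_eq (z : ℤ) : SignType.sign z = sgn z := by
  match z with
  | Int.ofNat 0 => exact sign_zero
  | Int.ofNat (n + 1) =>
    have : (0 : ℤ) < Int.ofNat (n + 1) := Int.natCast_pos.mpr (Nat.succ_pos n)
    rw [sign_pos this]; rfl
  | Int.negSucc n =>
    rw [sign_neg (Int.negSucc_lt_zero n)]; rfl

lemma sgn_eq_real (z : ℤ) : SignType.sign ((z : ℤ) : ℝ) = sgn z := by
  rw [← sgn_eq]
  rcases lt_trichotomy z 0 with h | h | h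
  · rw [sign_neg h, sign_neg (by exact_mod_cast h)]
  · subst h; simp
  · rw [sign_pos h, sign_pos (by exact_mod_cast h)]

/-- Number of sign variations of a list (read from the leading coefficient down). -/
def varL (l : List ℤ) : ℕ :=
  (((l.reverse.map sgn).filter (· ≠ 0)).destutter (· ≠ ·)).length - 1

lemma natDegree_ofL {l : List ℤ} (hl : l.getLastD 0 ≠ 0) : (ofL l).natDegree + 1 = l.length := by
  have hne : l ≠ [] := by rintro rfl; simp at hl
  have hlen : 0 < l.length := List.length_pos_of_ne_nil hne
  have hc : (ofL l).coeff (l.length - 1) ≠ 0 := by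
    rw [coeff_ofL]
    have : l.getD (l.length - 1) 0 = l.getLastD 0 := by
      rw [List.getLastD_eq_getLast?, List.getLast?_eq_getElem?, List.getD_eq_getElem?_getD]
    rw [this]
    exact hl
  have h1 := le_natDegree_of_ne_zero hc
  have h2 : (ofL l).natDegree ≤ l.length - 1 := by
    rw [natDegree_le_iff_coeff_eq_zero]
    intro N hN
    exact natDegree_ofL_lt l (by omega)
  omega

lemma ofL_ne_zero {l : List ℤ} (hl : l.getLastD 0 ≠ 0) : ofL l ≠ 0 := by
  intro h
  have hne : l ≠ [] := by rintro rfl; simp at hl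
  have hc : (ofL l).coeff (l.length - 1) ≠ 0 := by
    rw [coeff_ofL]
    have : l.getD (l.length - 1) 0 = l.getLastD 0 := by
      rw [List.getLastD_eq_getLast?, List.getLast?_eq_getElem?, List.getD_eq_getElem?_getD]
    rw [this]
    exact hl
  rw [h] at hc
  simp at hc

/-- The real polynomial of a list. -/
noncomputable def ofR (l : List ℤ) : ℝ[X] := (ofL l).map (Int.castRingHom ℝ)

lemma inj : Function.Injective (Int.castRingHom ℝ) := Int.cast_injective

lemma coeff_ofR (l : List ℤ) (n : ℕ) : (ofR l).coeff n = ((l.getD n 0 : ℤ) : ℝ) := by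
  unfold ofR
  rw [coeff_map, coeff_ofL]
  rfl

lemma natDegree_ofR {l : List ℤ} (hl : l.getLastD 0 ≠ 0) : (ofR l).natDegree + 1 = l.length := by
  unfold ofR
  rw [natDegree_map_eq_of_injective inj]
  exact natDegree_ofL hl

lemma ofR_ne_zero {l : List ℤ} (hl : l.getLastD 0 ≠ 0) : ofR l ≠ 0 := by
  unfold ofR
  rw [Ne, Polynomial.map_eq_zero_iff inj]
  exact ofL_ne_zero hl

lemma signVariations_ofR {l : List ℤ} (hl : l.getLastD 0 ≠ 0) :
    signVariations (ofR l) = varL l := by
  unfold signVariations varL coeffList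
  have hd : (ofR l).degree.succ = l.length := by
    rw [withBotSucc_degree_eq_natDegree_add_one (ofR_ne_zero hl), natDegree_ofR hl]
  rw [hd]
  have : ((List.range l.length).reverse.map (ofR l).coeff).map SignType.sign
      = l.reverse.map sgn := by
    rw [List.map_map, List.map_reverse, List.map_reverse]
    congr 1
    apply List.ext_getElem
    · simp
    · intro i h1 h2
      simp only [List.getElem_map, List.getElem_range, Function.comp_apply]
      rw [coeff_ofR, sgn_eq_real]
      congr 1
      simp at h2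
      simp [h2]
  rw [this]

/-- Descartes' rule for lists. -/
lemma countP_pos_le {l : List ℤ} (hl : l.getLastD 0 ≠ 0) :
    (ofR l).roots.countP (0 < ·) ≤ varL l := by
  rw [← signVariations_ofR hl]
  exact roots_countP_pos_le_signVariations _

end Pool.Agent.V11297.LP
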