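import Mathlib

/-!
# Numerical semigroups: minimal generators, exponent sequence, presentations
-/

namespace Pool.Agent.V11297.NS

/-- `S` is a numerical semigroup: a submonoid of `ℕ` with finite complement. -/
def IsNumerical (S : AddSubmonoid ℕ) : Prop := {n : ℕ | n ∉ S}.Finite

/-- `n` is a minimal generator of `S`: a nonzero element of `S` that is not the sum of two nonzero
elements of `S`. -/
def IsMinGen (S : AddSubmonoid ℕ) (n : ℕ) : Prop :=
  n ∈ S ∧ n ≠ 0 ∧ ∀ a ∈ S, ∀ b ∈ S, a ≠ 0 → b ≠ 0 → a + b ≠ n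

/-- The type of minimal generators. -/
abbrev Gen (S : AddSubmonoid ℕ) : Type := {n : ℕ // IsMinGen S n}

/-- `a ≤_S b`, i.e. `b - a ∈ S`. -/
def LeS (S : AddSubmonoid ℕ) (a b : ℕ) : Prop := ∃ s ∈ S, b = a + s

open Classical in
/-- The power series `∑_{s ∈ S} x^s`. -/
noncomputable def hilb (S : AddSubmonoid ℕ) : PowerSeries ℤ :=
  PowerSeries.mk fun n => if n ∈ S then 1 else 0

/-- The semigroup polynomial `P_S = (1 - x) ∑_{s ∈ S} x^s`, as a power series. -/
noncomputable def semiPoly (S : AddSubmonoid ℕ) : PowerSeries ℤ := (1 - PowerSeries.X) * hilb S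

/-- `e` is the exponent sequence of `S`: `P_S = ∏_{j ≥ 1} (1 - x^j)^(e_j)`, which means that for
every `N` this holds modulo `x^(N+1)` with the product over `1 ≤ j ≤ N` (the factors with negative
exponents are moved to the left-hand side). The value `e 0` plays no role. -/
def IsExponentSequence (S : AddSubmonoid ℕ) (e : ℕ → ℤ) : Prop :=
  ∀ N k : ℕ, k ≤ N →
    PowerSeries.coeff k (semiPoly S * ∏ j ∈ Finset.Icc 1 N, (1 - PowerSeries.X ^ j) ^ (-e j).toNat) =
    PowerSeries.coeff k (∏ j ∈ Finset.Icc 1 N, (1 - PowerSeries.X ^ j) ^ (e j).toNat)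

/-- `𝓔(S)`, for the exponent sequence `e`. -/
def ESet (S : AddSubmonoid ℕ) (e : ℕ → ℤ) : Set ℕ := {d : ℕ | 2 ≤ d ∧ e d ≠ 0 ∧ ¬ IsMinGen S d}

/-- The factorization homomorphism `φ(x) = ∑ x_i n_i`. -/
noncomputable def phi (S : AddSubmonoid ℕ) : (Gen S →₀ ℕ) →+ ℕ :=
  (Finsupp.linearCombination ℕ (Subtype.val : Gen S → ℕ)).toAddMonoidHom

/-- A presentation: a subset of `ker φ` generating it as a congruence. -/
def IsPresentation (S : AddSubmonoid ℕ) (σ : Set ((Gen S →₀ ℕ) × (Gen S →₀ ℕ))) : Prop :=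
  (∀ q ∈ σ, phi S q.1 = phi S q.2) ∧
    addConGen (fun x y => (x, y) ∈ σ) = AddCon.ker (phi S)

/-- A minimal presentation: no proper subset is a presentation. -/
def IsMinimalPresentation (S : AddSubmonoid ℕ) (σ : Set ((Gen S →₀ ℕ) × (Gen S →₀ ℕ))) : Prop :=
  IsPresentation S σ ∧ ∀ τ, τ ⊂ σ → ¬ IsPresentation S τ

/-- `S` is a complete intersection: it has a (finite) minimal presentation with `e(S) - 1` elements. -/
def IsCompleteIntersection (S : AddSubmonoid ℕ) : Prop :=
  ∃ σ : Set ((Gen S →₀ ℕ) × (Gen S →₀ ℕ)), IsMinimalPresentation S σ ∧ σ.Finite ∧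
    σ.ncard + 1 = Nat.card (Gen S)

theorem finite_gen {S : AddSubmonoid ℕ} (hS : IsNumerical S) : Finite (Gen S) := by
  obtain ⟨F, hF⟩ := hS.bddAbove
  have hmem : ∀ n, F < n → n ∈ S := by
    intro n hn
    by_contra h
    have := hF h
    omega
  have hfin : {n : ℕ | IsMinGen S n}.Finite := by
    apply (Set.finite_Iic (F + (F + 1) + 1)).subset
    intro n hn
    by_contra hlt
    simp only [Set.mem_Iic, not_le] at hlt
    obtain ⟨h1, h2, h3⟩ := hn
    exact h3 (F + 1) (hmem _ (by omega)) (n - (F + 1)) (hmem _ (by omega)) (by omega) (by omega) (by omega)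
  exact hfin

/-- Every element of `S` has a factorization. -/
theorem exists_fact (S : AddSubmonoid ℕ) (s : ℕ) (hs : s ∈ S) : ∃ x : Gen S →₀ ℕ, phi S x = s := by
  induction s using Nat.strong_induction_on with
  | _ s ih =>
    by_cases h0 : s = 0
    · exact ⟨0, by simp [h0]⟩
    by_cases hg : IsMinGen S s
    · refine ⟨Finsupp.single ⟨s, hg⟩ 1, ?_⟩
      simp [phi]
    · unfold IsMinGen at hg
      push Not at hg
      obtain ⟨a, ha, b, hb, ha0, hb0, hab⟩ := hg hs h0
      obtain ⟨x, hx⟩ := ih a (by omega) ha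
      obtain ⟨y, hy⟩ := ih b (by omega) hb
      exact ⟨x + y, by rw [map_add, hx, hy, hab]⟩

theorem phi_mem (S : AddSubmonoid ℕ) (x : Gen S →₀ ℕ) : phi S x ∈ S := by
  simp only [phi, LinearMap.toAddMonoidHom_coe, Finsupp.linearCombination_apply, Finsupp.sum]
  exact S.sum_mem fun i _ => S.nsmul_mem i.2.1 _

theorem phi_single (S : AddSubmonoid ℕ) (i : Gen S) (k : ℕ) :
    phi S (Finsupp.single i k) = k * i.1 := by
  simp [phi]

theorem phi_apply (S : AddSubmonoid ℕ) [Fintype (Gen S)] (x : Gen S →₀ ℕ) :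
    phi S x = ∑ i, x i * i.1 := by
  simp [phi, Finsupp.linearCombination_apply, Finsupp.sum_fintype]

theorem gen_ge_two {S : AddSubmonoid ℕ} (h1 : 1 ∉ S) (i : Gen S) : 2 ≤ i.1 := by
  have h2 := i.2.2.1
  have h3 : i.1 ≠ 1 := by
    intro h; apply h1; rw [← h]; exact i.2.1
  omega

end Pool.Agent.V11297.NS
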