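import Mathlib
import Pool.Agent.V11297.NSDef

/-!
# Support arguments for power series attached to a numerical semigroup
-/

open PowerSeries Finset

namespace Pool.Agent.V11297.NS

/-- The series `f` is supported on `Q`. -/
def Supp (Q : Set ℕ) (f : PowerSeries ℤ) : Prop := ∀ n, coeff n f ≠ 0 → n ∈ Q

theorem Supp.mono {Q Q' : Set ℕ} {f : PowerSeries ℤ} (h : Supp Q f) (hQ : Q ⊆ Q') : Supp Q' f :=
  fun n hn => hQ (h n hn)

theorem Supp.zero' (Q : Set ℕ) : Supp Q 0 := fun n hn => absurd (by simp) hn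

theorem Supp.add {Q : Set ℕ} {f g : PowerSeries ℤ} (hf : Supp Q f) (hg : Supp Q g) :
    Supp Q (f + g) := by
  intro n hn
  rw [map_add] at hn
  by_cases h : coeff n f = 0
  · rw [h, zero_add] at hn
    exact hg n hn
  · exact hf n h

theorem Supp.neg {Q : Set ℕ} {f : PowerSeries ℤ} (hf : Supp Q f) : Supp Q (-f) := by
  intro n hn
  rw [map_neg] at hn
  exact hf n (neg_ne_zero.mp hn)

theorem Supp.sub {Q : Set ℕ} {f g : PowerSeries ℤ} (hf : Supp Q f) (hg : Supp Q g) :
    Supp Q (f - g) := by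
  rw [sub_eq_add_neg]; exact hf.add hg.neg

theorem Supp.mul' {Q T R : Set ℕ} {f g : PowerSeries ℤ} (hf : Supp Q f) (hg : Supp T g)
    (h : ∀ a ∈ Q, ∀ b ∈ T, a + b ∈ R) : Supp R (f * g) := by
  intro n hn
  rw [coeff_mul] at hn
  obtain ⟨⟨a, b⟩, hab, hne⟩ := Finset.exists_ne_zero_of_sum_ne_zero hn
  rw [HasAntidiagonal.mem_antidiagonal] at hab
  simp only at hab hne
  rw [← hab]
  exact h a (hf a (left_ne_zero_of_mul hne)) b (hg b (right_ne_zero_of_mul hne))

theorem Supp.mul {T : AddSubmonoid ℕ} {f g : PowerSeries ℤ} (hf : Supp T f) (hg : Supp T g) :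
    Supp T (f * g) := hf.mul' hg fun _ ha _ hb => T.add_mem ha hb

theorem Supp.one (T : AddSubmonoid ℕ) : Supp T 1 := by
  intro n hn
  rw [coeff_one] at hn
  by_cases h : n = 0
  · rw [h]; exact T.zero_mem
  · rw [if_neg h] at hn; exact absurd rfl hn

theorem Supp.X_pow {Q : Set ℕ} {j : ℕ} (hj : j ∈ Q) : Supp Q (X ^ j) := by
  intro n hn
  rw [coeff_X_pow] at hn
  by_cases h : n = j
  · rw [h]; exact hj
  · rw [if_neg h] at hn; exact absurd rfl hn

theorem Supp.one_sub_pow {T : AddSubmonoid ℕ} {j : ℕ} (hj : j ∈ T) (k : ℕ) :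
    Supp T ((1 - X ^ j) ^ k) := by
  induction k with
  | zero => simpa using Supp.one T
  | succ k ih => rw [pow_succ]; exact ih.mul ((Supp.one T).sub (Supp.X_pow hj))

theorem Supp.prod {ι : Type*} {T : AddSubmonoid ℕ} (s : Finset ι) (f : ι → PowerSeries ℤ)
    (h : ∀ i ∈ s, Supp T (f i)) : Supp T (∏ i ∈ s, f i) := by
  classical
  induction s using Finset.induction_on with
  | empty => simpa using Supp.one T
  | insert a s ha ih =>
    rw [prod_insert ha]
    exact (h a (mem_insert_self _ _)).mul (ih fun i hi => h i (mem_insert_of_mem hi))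

theorem Supp.natCast_mul {Q : Set ℕ} {f : PowerSeries ℤ} (hf : Supp Q f) (c : ℤ) :
    Supp Q (C c * f) := by
  intro n hn
  rw [coeff_C_mul] at hn
  exact hf n (right_ne_zero_of_mul hn)

theorem coeff_hilb (S : AddSubmonoid ℕ) [DecidablePred (· ∈ S)] (n : ℕ) :
    coeff n (hilb S) = if n ∈ S then 1 else 0 := by
  unfold hilb
  rw [coeff_mk]
  split_ifs <;> rfl

theorem coeff_hilb_mem {S : AddSubmonoid ℕ} {n : ℕ} (h : n ∈ S) : coeff n (hilb S) = 1 := by
  classical
  rw [coeff_hilb, if_pos h]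

theorem coeff_hilb_not {S : AddSubmonoid ℕ} {n : ℕ} (h : n ∉ S) : coeff n (hilb S) = 0 := by
  classical
  rw [coeff_hilb, if_neg h]

theorem hilb_supp (S : AddSubmonoid ℕ) : Supp S (hilb S) := by
  intro n hn
  by_contra h
  exact hn (coeff_hilb_not h)

/-- Congruence modulo `X^m`, on coefficients. -/
def Cong (m : ℕ) (f g : PowerSeries ℤ) : Prop := ∀ k < m, coeff k f = coeff k g

theorem Cong.mul {m : ℕ} {f f' g g' : PowerSeries ℤ} (h : Cong m f f') (h' : Cong m g g') :
    Cong m (f * g) (f' * g') := by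
  intro k hk
  rw [coeff_mul, coeff_mul]
  apply sum_congr rfl
  rintro ⟨a, b⟩ hab
  rw [HasAntidiagonal.mem_antidiagonal] at hab
  rw [h a (by simp only at hab ⊢; omega), h' b (by simp only at hab ⊢; omega)]

theorem Cong.refl (m : ℕ) (f : PowerSeries ℤ) : Cong m f f := fun _ _ => rfl

theorem Cong.trans {m : ℕ} {f g h : PowerSeries ℤ} (h1 : Cong m f g) (h2 : Cong m g h) : Cong m f h :=
  fun k hk => (h1 k hk).trans (h2 k hk)

theorem Cong.symm {m : ℕ} {f g : PowerSeries ℤ} (h1 : Cong m f g) : Cong m g f :=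
  fun k hk => (h1 k hk).symm

/-- `(1 - X^j)^k ≡ 1 - k X^j` modulo `X^(j+1)`, and in fact modulo `X^(2j)`. -/
theorem one_sub_pow_expand (j k : ℕ) :
    ∃ r : PowerSeries ℤ, (1 - X ^ j) ^ k = 1 - C (k : ℤ) * X ^ j + X ^ (2 * j) * r := by
  induction k with
  | zero => exact ⟨0, by simp⟩
  | succ k ih =>
    obtain ⟨r, hr⟩ := ih
    refine ⟨C (k : ℤ) + r * (1 - X ^ j), ?_⟩
    rw [pow_succ, hr, two_mul, pow_add]
    push_cast
    simp only [map_add, map_one]
    ring

theorem one_sub_pow_cong (j k : ℕ) (hj : 1 ≤ j) :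
    Cong (j + 1) ((1 - X ^ j) ^ k) (1 - C (k : ℤ) * X ^ j) := by
  obtain ⟨r, hr⟩ := one_sub_pow_expand j k
  intro m hm
  rw [hr, map_add]
  have : coeff m (X ^ (2 * j) * r) = 0 := by
    rw [coeff_X_pow_mul', if_neg (by omega)]
  rw [this, add_zero]

theorem constCoeff_one_sub_pow {j : ℕ} (hj : 1 ≤ j) (k : ℕ) :
    coeff 0 ((1 - X ^ j) ^ k : PowerSeries ℤ) = 1 := by
  simp [show j ≠ 0 by omega]

theorem constCoeff_prod (s : Finset ℕ) (hs : ∀ j ∈ s, 1 ≤ j) (e : ℕ → ℕ) :
    coeff 0 (∏ j ∈ s, (1 - X ^ j) ^ e j : PowerSeries ℤ) = 1 := by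
  rw [coeff_zero_eq_constantCoeff_apply, map_prod]
  apply prod_eq_one
  intro j hj
  have h1 := constCoeff_one_sub_pow (hs j hj) (e j)
  rwa [coeff_zero_eq_constantCoeff_apply] at h1

/-- Coefficient of index `j` of `f (1 - c X^j)`. -/
theorem coeff_mul_one_sub {f : PowerSeries ℤ} {j k : ℕ} (hj : 1 ≤ j) :
    coeff j (f * (1 - X ^ j) ^ k) = coeff j f - k * coeff 0 f := by
  have h1 : Cong (j + 1) (f * (1 - X ^ j) ^ k) (f * (1 - C (k : ℤ) * X ^ j)) :=
    (Cong.refl _ _).mul (one_sub_pow_cong j k hj)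
  rw [h1 j (by omega), mul_sub, mul_one, map_sub, mul_comm (C (k : ℤ)) (X ^ j), ← mul_assoc,
    coeff_mul_C, coeff_mul_X_pow', if_pos le_rfl, Nat.sub_self]
  ring

variable {S : AddSubmonoid ℕ} {e : ℕ → ℤ}

/-- `e_1 = 1`. -/
theorem exp_one (h1 : 1 ∉ S) (he : IsExponentSequence S e) : e 1 = 1 := by
  have h := he 1 1 le_rfl
  have hI : Finset.Icc 1 1 = {1} := by simp
  rw [hI, prod_singleton, prod_singleton, coeff_mul_one_sub le_rfl] at h
  have h2 := coeff_mul_one_sub (f := 1) (j := 1) (k := (e 1).toNat) le_rfl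
  rw [one_mul] at h2
  rw [h2] at h
  have h3 : coeff 0 (semiPoly S) = 1 := by
    unfold semiPoly
    rw [coeff_zero_eq_constantCoeff_apply, map_mul, map_sub, constantCoeff_X, ← coeff_zero_eq_constantCoeff_apply,
      ← coeff_zero_eq_constantCoeff_apply, coeff_hilb_mem S.zero_mem]
    simp
  have h4 : coeff 1 (semiPoly S) = -1 := by
    unfold semiPoly
    rw [sub_mul, one_mul, map_sub, coeff_hilb_not h1]
    have := coeff_succ_X_mul 0 (hilb S)
    rw [zero_add] at this
    rw [this, coeff_hilb_mem S.zero_mem]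
    ring
  rw [h3, h4] at h
  simp [coeff_one] at h
  omega

/-- Coefficient comparison. -/
theorem exp_step (h1 : 1 ∉ S) (he : IsExponentSequence S e) {j : ℕ} (hj : 2 ≤ j) :
    coeff j (hilb S * ∏ i ∈ Finset.Icc 2 (j - 1), (1 - X ^ i) ^ (-e i).toNat) =
      coeff j (∏ i ∈ Finset.Icc 2 (j - 1), (1 - X ^ i) ^ (e i).toNat) - e j := by
  have hone := exp_one h1 he
  set g' : PowerSeries ℤ := ∏ i ∈ Finset.Icc 2 (j - 1), (1 - X ^ i) ^ (-e i).toNat with hg'
  set f' : PowerSeries ℤ := ∏ i ∈ Finset.Icc 2 (j - 1), (1 - X ^ i) ^ (e i).toNat with hf'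
  have hsplit : ∀ E : ℕ → ℕ, (∏ i ∈ Finset.Icc 1 j, (1 - X ^ i) ^ E i : PowerSeries ℤ) =
      (1 - X) ^ E 1 * (∏ i ∈ Finset.Icc 2 (j - 1), (1 - X ^ i) ^ E i) * (1 - X ^ j) ^ E j := by
    intro E
    have e1 : Finset.Icc 1 j = insert 1 (Finset.Icc 2 j) := by
      ext x; simp only [mem_Icc, mem_insert]; omega
    have e2 : Finset.Icc 2 j = insert j (Finset.Icc 2 (j - 1)) := by
      ext x; simp only [mem_Icc, mem_insert]; omega
    rw [e1, prod_insert (by simp), e2, prod_insert (by simp; omega), pow_one]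
    ring
  have hc : Cong (j + 1) ((1 - X) * (hilb S * g' * (1 - X ^ j) ^ (-e j).toNat))
      ((1 - X) * (f' * (1 - X ^ j) ^ (e j).toNat)) := by
    intro k hk
    have h := he j k (by omega)
    rw [hsplit, hsplit] at h
    have t1 : (-e 1).toNat = 0 := by rw [hone]; rfl
    have t2 : (e 1).toNat = 1 := by rw [hone]; rfl
    rw [t1, t2, pow_zero, pow_one, one_mul] at h
    unfold semiPoly at h
    rw [← hg', ← hf'] at h
    have e3 : (1 - X) * (hilb S * g' * (1 - X ^ j) ^ (-e j).toNat) =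
      (1 - X) * hilb S * (g' * (1 - X ^ j) ^ (-e j).toNat) := by ring
    rw [e3, h]
    ring_nf
  -- cancel `1 - X`
  have hc2 : Cong (j + 1) (hilb S * g' * (1 - X ^ j) ^ (-e j).toNat) (f' * (1 - X ^ j) ^ (e j).toNat) := by
    have h3 : (PowerSeries.mk (fun _ => (1 : ℤ))) * (1 - X) = 1 := PowerSeries.mk_one_mul_one_sub_eq_one ℤ
    have h4 := (Cong.refl (j + 1) (PowerSeries.mk (fun _ => (1 : ℤ)))).mul hc
    rw [← mul_assoc, ← mul_assoc (PowerSeries.mk (fun _ => (1 : ℤ))) (1 - X), h3, one_mul, one_mul] at h4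
    exact h4
  have h5 := hc2 j (by omega)
  rw [coeff_mul_one_sub (by omega), coeff_mul_one_sub (by omega)] at h5
  have hc0 : coeff 0 (hilb S * g') = 1 := by
    rw [coeff_zero_eq_constantCoeff_apply, map_mul, ← coeff_zero_eq_constantCoeff_apply,
      ← coeff_zero_eq_constantCoeff_apply, coeff_hilb_mem S.zero_mem, hg',
      constCoeff_prod _ (by intro i hi; rw [mem_Icc] at hi; omega), one_mul]
  have hc1 : coeff 0 f' = 1 := by
    rw [hf', constCoeff_prod _ (by intro i hi; rw [mem_Icc] at hi; omega)]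
  rw [hc0, hc1] at h5
  have h6 : ((e j).toNat : ℤ) - ((-e j).toNat : ℤ) = e j := by omega
  linarith

/-- Values of the exponent sequence outside decomposable elements. -/
theorem exp_val (h1 : 1 ∉ S) (he : IsExponentSequence S e) (j : ℕ) (hj : 2 ≤ j) :
    (j ∉ S → e j = 0) ∧ (IsMinGen S j → e j = -1) := by
  induction j using Nat.strong_induction_on with
  | _ j ih =>
  classical
  have hstep := exp_step h1 he hj
  -- the submonoid generated by the elements of `S` smaller than `j`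
  set T : AddSubmonoid ℕ := AddSubmonoid.closure {s | s ∈ S ∧ s < j} with hT
  have hTS : T ≤ S := by
    rw [hT, AddSubmonoid.closure_le]
    exact fun s hs => hs.1
  have hsupp : ∀ E : ℕ → ℕ, (∀ i, 2 ≤ i → i < j → i ∉ S → E i = 0) →
      Supp T (∏ i ∈ Finset.Icc 2 (j - 1), (1 - X ^ i) ^ E i) := by
    intro E hE
    apply Supp.prod
    intro i hi
    rw [mem_Icc] at hi
    by_cases hiS : i ∈ S
    · apply Supp.one_sub_pow
      exact AddSubmonoid.subset_closure ⟨hiS, by omega⟩
    · rw [hE i hi.1 (by omega) hiS, pow_zero]; exact Supp.one T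
  have hf := hsupp (fun i => (e i).toNat) (by
    intro i h2 h3 h4
    rw [(ih i h3 h2).1 h4]; rfl)
  have hg := hsupp (fun i => (-e i).toNat) (by
    intro i h2 h3 h4
    rw [(ih i h3 h2).1 h4]; rfl)
  -- if `j ∉ T` then the coefficients are easy
  have key : j ∉ T → e j = - coeff j (hilb S) := by
    intro hjT
    have c1 : coeff j (∏ i ∈ Finset.Icc 2 (j - 1), (1 - X ^ i) ^ (e i).toNat : PowerSeries ℤ) = 0 := by
      by_contra h; exact hjT (hf j h)
    have c2 : coeff j (hilb S * ∏ i ∈ Finset.Icc 2 (j - 1), (1 - X ^ i) ^ (-e i).toNat) =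
        coeff j (hilb S) := by
      rw [coeff_mul, sum_eq_single (j, 0)]
      · rw [constCoeff_prod _ (by intro i hi; rw [mem_Icc] at hi; omega), mul_one]
      · rintro ⟨a, b⟩ hab hne
        rw [HasAntidiagonal.mem_antidiagonal] at hab
        simp only at hab
        by_contra hcon
        apply hjT
        have ha : a ∈ S := hilb_supp S a (left_ne_zero_of_mul hcon)
        have hb : b ∈ T := hg b (right_ne_zero_of_mul hcon)
        have hb0 : b ≠ 0 := by
          rintro rfl
          apply hne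
          rw [add_zero] at hab
          rw [hab]
        rw [← hab]
        exact T.add_mem (AddSubmonoid.subset_closure ⟨ha, by omega⟩) hb
      · intro h; exact absurd (by simp) h
    rw [c1, c2] at hstep
    linarith
  constructor
  · intro hjS
    rw [key (fun h => hjS (hTS h)), coeff_hilb_not hjS, neg_zero]
  · intro hmin
    have hjT : j ∉ T := by
      intro h
      have hprop : ∀ x ∈ T, x = 0 ∨ x < j ∨ ∃ a ∈ S, ∃ b ∈ S, a ≠ 0 ∧ b ≠ 0 ∧ a + b = x := by
        intro x hx
        rw [hT] at hx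
        induction hx using AddSubmonoid.closure_induction with
        | mem x hx => right; left; exact hx.2
        | zero => left; rfl
        | add x y hx hy ihx ihy =>
          by_cases hx0 : x = 0
          · rw [hx0, zero_add]; exact ihy
          by_cases hy0 : y = 0
          · rw [hy0, add_zero]; exact ihx
          right; right
          exact ⟨x, hTS hx, y, hTS hy, hx0, hy0, rfl⟩
      rcases hprop j h with h0 | h0 | ⟨a, ha, b, hb, ha0, hb0, hab⟩
      · omega
      · omega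
      · exact hmin.2.2 a ha b hb ha0 hb0 hab
    rw [key hjT, coeff_hilb_mem hmin.1]

end Pool.Agent.V11297.NS
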