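import Mathlib
import Pool.Agent.V11297.NSeries

/-!
# The case `𝓔(S) = {a, b}` with `a, b` incomparable: the Hilbert series
-/

open PowerSeries Finset

namespace Pool.Agent.V11297.NS

open Classical in
/-- Counting with a product of series. -/
theorem coeff_prod_card {S : AddSubmonoid ℕ} [Fintype (Gen S)] (K : Gen S → ℕ → Prop)
    (F : Gen S → PowerSeries ℤ)
    (hF : ∀ i n, coeff n (F i) = if (∃ k, K i k ∧ n = k * i.1) then 1 else 0) (s : ℕ) :
    {x : Gen S →₀ ℕ | (∀ i, K i (x i)) ∧ phi S x = s}.Finite ∧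
    coeff s (∏ i, F i) = ({x : Gen S →₀ ℕ | (∀ i, K i (x i)) ∧ phi S x = s}.ncard : ℤ) := by
  have hpos : ∀ i : Gen S, 0 < i.1 := fun i => Nat.pos_of_ne_zero i.2.2.1
  rw [coeff_prod]
  have hterm : ∀ l : Gen S →₀ ℕ, ∏ i, coeff (l i) (F i) =
      if (∀ i, ∃ k, K i k ∧ l i = k * i.1) then (1 : ℤ) else 0 := by
    intro l
    simp only [hF]
    by_cases h : ∀ i, ∃ k, K i k ∧ l i = k * i.1
    · rw [if_pos h]
      apply prod_eq_one
      intro i _
      rw [if_pos (h i)]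
    · rw [if_neg h]
      push Not at h
      obtain ⟨i, hi⟩ := h
      apply prod_eq_zero (mem_univ i)
      rw [if_neg]
      rintro ⟨k, hk, hk2⟩
      exact hi k hk hk2
  simp only [hterm]
  rw [← sum_filter, sum_const, nsmul_eq_mul, mul_one]
  set L := (finsuppAntidiag univ s).filter (fun l : Gen S →₀ ℕ => ∀ i, ∃ k, K i k ∧ l i = k * i.1) with hL
  -- the map `x ↦ (x_i n_i)`
  let g : (Gen S →₀ ℕ) → (Gen S →₀ ℕ) := fun x => Finsupp.equivFunOnFinite.symm (fun i => x i * i.1)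
  have hg : ∀ x i, g x i = x i * i.1 := fun x i => rfl
  have hinj : Function.Injective g := by
    intro x y hxy
    ext i
    have := congrArg (fun z => z i) hxy
    simp only [hg] at this
    exact Nat.eq_of_mul_eq_mul_right (hpos i) this
  have himg : g '' {x : Gen S →₀ ℕ | (∀ i, K i (x i)) ∧ phi S x = s} = (L : Set (Gen S →₀ ℕ)) := by
    ext l
    simp only [Set.mem_image, Set.mem_ofPred_eq, hL, coe_filter, mem_finsuppAntidiag]
    constructor
    · rintro ⟨x, ⟨hx1, hx2⟩, rfl⟩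
      refine ⟨⟨?_, by simp⟩, fun i => ⟨x i, hx1 i, hg x i⟩⟩
      rw [phi_apply] at hx2
      rw [← hx2]
      rfl
    · rintro ⟨⟨h1, -⟩, h2⟩
      choose k hk1 hk2 using h2
      refine ⟨Finsupp.equivFunOnFinite.symm k, ⟨fun i => hk1 i, ?_⟩, ?_⟩
      · rw [phi_apply, ← h1]
        apply sum_congr rfl
        intro i _
        rw [hk2 i]; rfl
      · ext i
        rw [hg, hk2 i]; rfl
  have hfin : {x : Gen S →₀ ℕ | (∀ i, K i (x i)) ∧ phi S x = s}.Finite := by
    apply Set.Finite.of_finite_image _ hinj.injOn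
    rw [himg]
    exact L.finite_toSet
  refine ⟨hfin, ?_⟩
  rw [← Set.ncard_image_of_injective _ hinj, himg, Set.ncard_coe_finset]

/-- The geometric series `1/(1-X^m)`. -/
noncomputable def geo (m : ℕ) : PowerSeries ℤ := by
  classical
  exact PowerSeries.mk fun n => if (∃ k, True ∧ n = k * m) then 1 else 0

theorem coeff_geo (m n : ℕ) [Decidable (∃ k, True ∧ n = k * m)] :
    coeff n (geo m) = if (∃ k, True ∧ n = k * m) then 1 else 0 := by
  unfold geo
  rw [coeff_mk]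
  split_ifs <;> rfl

theorem geo_mul (m : ℕ) (hm : 0 < m) : geo m * (1 - X ^ m) = 1 := by
  classical
  ext n
  rw [mul_sub, mul_one, map_sub, coeff_mul_X_pow', coeff_one, coeff_geo]
  by_cases hn : m ≤ n
  · rw [if_pos hn, if_neg (by omega : n ≠ 0), coeff_geo]
    have : (∃ k, True ∧ n = k * m) ↔ (∃ k, True ∧ n - m = k * m) := by
      constructor
      · rintro ⟨k, -, hk⟩
        refine ⟨k - 1, trivial, ?_⟩
        rw [Nat.sub_mul, one_mul, ← hk]
      · rintro ⟨k, -, hk⟩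
        refine ⟨k + 1, trivial, ?_⟩
        rw [Nat.add_mul, one_mul, ← hk]; omega
    by_cases h : ∃ k, True ∧ n = k * m
    · rw [if_pos h, if_pos (this.mp h), sub_self]
    · rw [if_neg h, if_neg (fun h' => h (this.mpr h')), sub_self]
  · rw [if_neg hn, sub_zero]
    by_cases h0 : n = 0
    · rw [if_pos h0, if_pos ⟨0, trivial, by simp [h0]⟩]
    · rw [if_neg h0, if_neg]
      rintro ⟨k, -, hk⟩
      rcases Nat.eq_zero_or_pos k with hk0 | hk0
      · apply h0; rw [hk, hk0]; simp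
      · apply hn; rw [hk]; exact Nat.le_mul_of_pos_left _ hk0

theorem geo_trunc (m c : ℕ) :
    (∑ k ∈ range c, (X ^ m) ^ k : PowerSeries ℤ) * (1 - X ^ m) = 1 - X ^ (c * m) := by
  rw [mul_comm, mul_neg_geom_sum, ← pow_mul, mul_comm m c]

theorem coeff_geo_trunc (m c n : ℕ) (hm : 0 < m) [Decidable (∃ k, k < c ∧ n = k * m)] :
    coeff n (∑ k ∈ range c, (X ^ m) ^ k : PowerSeries ℤ) = if (∃ k, k < c ∧ n = k * m) then 1 else 0 := by
  rw [map_sum]
  simp only [← pow_mul, coeff_X_pow]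
  by_cases h : ∃ k, k < c ∧ n = k * m
  · rw [if_pos h]
    obtain ⟨k, hk, hkn⟩ := h
    rw [sum_eq_single k]
    · rw [if_pos (by rw [hkn, mul_comm])]
    · intro k' _ hne
      rw [if_neg]
      intro h'
      apply hne
      rw [hkn, mul_comm] at h'
      exact (Nat.eq_of_mul_eq_mul_left hm h').symm
    · intro h'; exact absurd (mem_range.mpr hk) h'
  · rw [if_neg h]
    apply sum_eq_zero
    intro k hk
    rw [if_neg]
    intro h'
    exact h ⟨k, mem_range.mp hk, by rw [h', mul_comm]⟩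

variable {S : AddSubmonoid ℕ} {e : ℕ → ℤ} {a b : ℕ}

/-- Basic identity. -/
theorem identity [Fintype (Gen S)] (h1 : 1 ∉ S) (he : IsExponentSequence S e) (hab : a ≠ b)
    (hE : ESet S e = {a, b}) :
    hilb S * (∏ i : Gen S, (1 - X ^ i.1)) * ((1 - X ^ a) ^ (-e a).toNat * (1 - X ^ b) ^ (-e b).toNat) =
      (1 - X ^ a) ^ (e a).toNat * (1 - X ^ b) ^ (e b).toNat := by
  classical
  have hone := exp_one h1 he
  have haE : a ∈ ESet S e := by rw [hE]; simp
  have hbE : b ∈ ESet S e := by rw [hE]; simp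
  obtain ⟨ha2, ha0, hag⟩ := haE
  obtain ⟨hb2, hb0, hbg⟩ := hbE
  set B : Finset ℕ := univ.map (Function.Embedding.subtype (IsMinGen S)) with hB
  have hBmem : ∀ x, x ∈ B ↔ IsMinGen S x := by
    intro x
    simp [hB]
  have hB2 : ∀ x ∈ B, 2 ≤ x := fun x hx => gen_ge_two h1 ⟨x, (hBmem x).mp hx⟩
  have hzero : ∀ x, 2 ≤ x → x ∉ B → x ≠ a → x ≠ b → e x = 0 := by
    intro x hx hxB hxa hxb
    by_contra hne
    have : x ∈ ESet S e := ⟨hx, hne, fun h => hxB ((hBmem x).mpr h)⟩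
    rw [hE] at this
    simp only [Set.mem_insert_iff, Set.mem_singleton_iff] at this
    tauto
  have hgen : ∀ x ∈ B, e x = -1 := fun x hx => (exp_val h1 he x (hB2 x hx)).2 ((hBmem x).mp hx)
  have haB : a ∉ B := fun h => hag ((hBmem a).mp h)
  have hbB : b ∉ B := fun h => hbg ((hBmem b).mp h)
  have hsub : ∀ N, a + b + ∑ x ∈ B, x ≤ N → insert a (insert b B) ⊆ Finset.Icc 1 N := by
    intro N hN x hx
    rw [mem_insert, mem_insert] at hx
    rw [mem_Icc]
    rcases hx with rfl | rfl | hx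
    · omega
    · omega
    · have := hB2 x hx
      have h3 : x ≤ ∑ x ∈ B, x := single_le_sum (f := fun x => x) (fun _ _ => Nat.zero_le _) hx
      omega
  have hprodB : (∏ x ∈ B, (1 - X ^ x) ^ (-e x).toNat : PowerSeries ℤ) = ∏ i : Gen S, (1 - X ^ i.1) := by
    rw [hB, prod_map]
    apply prod_congr rfl
    intro i _
    have : e i.1 = -1 := hgen i.1 ((hBmem _).mpr i.2)
    simp only [Function.Embedding.subtype_apply]
    rw [this]; simp
  have hneg : ∀ N, a + b + ∑ x ∈ B, x ≤ N → (∏ j ∈ Finset.Icc 1 N, (1 - X ^ j) ^ (-e j).toNat : PowerSeries ℤ) =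
      (1 - X ^ a) ^ (-e a).toNat * ((1 - X ^ b) ^ (-e b).toNat * ∏ i : Gen S, (1 - X ^ i.1)) := by
    intro N hN
    rw [← prod_subset (hsub N hN), prod_insert (by rw [mem_insert]; tauto), prod_insert hbB, hprodB]
    intro x hx hx'
    rw [mem_insert, mem_insert] at hx'
    push Not at hx'
    rw [mem_Icc] at hx
    by_cases hx1 : x = 1
    · rw [hx1, hone]; simp
    · rw [hzero x (by omega) hx'.2.2 hx'.1 hx'.2.1]; simp
  have hpos : ∀ N, a + b + ∑ x ∈ B, x ≤ N → (∏ j ∈ Finset.Icc 1 N, (1 - X ^ j) ^ (e j).toNat : PowerSeries ℤ) =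
      (1 - X) * ((1 - X ^ a) ^ (e a).toNat * (1 - X ^ b) ^ (e b).toNat) := by
    intro N hN
    have hs2 : ({1, a, b} : Finset ℕ) ⊆ Finset.Icc 1 N := by
      intro x hx
      simp only [mem_insert, mem_singleton] at hx
      rw [mem_Icc]
      rcases hx with rfl | rfl | rfl <;> omega
    rw [← prod_subset hs2, prod_insert (by simp; omega), prod_insert (by simpa using hab), prod_singleton,
      hone]
    · simp
    intro x hx hx'
    simp only [mem_insert, mem_singleton, not_or] at hx'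
    rw [mem_Icc] at hx
    by_cases hxB : x ∈ B
    · rw [hgen x hxB]; simp
    · rw [hzero x (by omega) hxB hx'.2.1 hx'.2.2]; simp
  have hfull : semiPoly S * ((1 - X ^ a) ^ (-e a).toNat * ((1 - X ^ b) ^ (-e b).toNat * ∏ i : Gen S, (1 - X ^ i.1))) =
      (1 - X) * ((1 - X ^ a) ^ (e a).toNat * (1 - X ^ b) ^ (e b).toNat) := by
    ext k
    have h3 := he (a + b + ∑ x ∈ B, x + k) k (by omega)
    rw [hneg _ (by omega), hpos _ (by omega)] at h3
    exact h3
  have hX : (1 - X : PowerSeries ℤ) ≠ 0 := by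
    intro h
    have := congrArg (coeff 0) h
    simp at this
  apply mul_left_cancel₀ hX
  rw [← hfull]
  unfold semiPoly
  ring

/-- The multiples of `a`. -/
def Up (S : AddSubmonoid ℕ) (a : ℕ) : Set ℕ := {n | LeS S a n}

theorem up_add {n s : ℕ} (h : n ∈ Up S a) (hs : s ∈ S) : n + s ∈ Up S a := by
  obtain ⟨t, ht, rfl⟩ := h
  exact ⟨t + s, S.add_mem ht hs, by ring⟩

theorem Supp.up_mul {f g : PowerSeries ℤ} (hf : Supp (Up S a) f) (hg : Supp S g) :
    Supp (Up S a) (f * g) := hf.mul' hg fun _ h1 _ h2 => up_add h1 h2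

theorem supp_pow_sub_one (ha : a ∈ S) (k : ℕ) : Supp (Up S a) ((1 - X ^ a) ^ k - 1) := by
  induction k with
  | zero => simpa using Supp.zero' _
  | succ k ih =>
    have h1 : (1 - X ^ a : PowerSeries ℤ) ^ (k + 1) - 1 = ((1 - X ^ a) ^ k - 1) * (1 - X ^ a) - X ^ a := by
      rw [pow_succ]; ring
    rw [h1]
    exact (ih.up_mul ((Supp.one S).sub (Supp.X_pow ha))).sub (Supp.X_pow ⟨0, S.zero_mem, by simp⟩)

theorem supp_pow_sub_lin (ha : a ∈ S) (k : ℕ) :
    Supp (Up S (2 * a)) ((1 - X ^ a) ^ k - (1 - C (k : ℤ) * X ^ a)) := by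
  induction k with
  | zero => simpa using Supp.zero' _
  | succ k ih =>
    have h1 : (1 - X ^ a : PowerSeries ℤ) ^ (k + 1) - (1 - C ((k + 1 : ℕ) : ℤ) * X ^ a) =
        ((1 - X ^ a) ^ k - (1 - C (k : ℤ) * X ^ a)) * (1 - X ^ a) + C (k : ℤ) * X ^ (2 * a) := by
      rw [pow_succ, two_mul, pow_add]
      push_cast
      simp only [map_add, map_one]
      ring
    rw [h1]
    have h2 : (2 * a) ∈ Up S (2 * a) := ⟨0, S.zero_mem, by simp⟩
    exact (ih.up_mul ((Supp.one S).sub (Supp.X_pow ha))).add ((Supp.X_pow h2).natCast_mul _)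

/-- Away from the multiples of `a`, `b` nothing changes. -/
theorem coeff_away (ha : a ∈ S) (hb : b ∈ S) {f : PowerSeries ℤ} (hf : Supp S f) (k l s : ℕ)
    (h1 : ¬ LeS S a s) (h2 : ¬ LeS S b s) :
    coeff s (f * ((1 - X ^ a) ^ k * (1 - X ^ b) ^ l)) = coeff s f := by
  have e1 : f * ((1 - X ^ a) ^ k * (1 - X ^ b) ^ l) =
      f + ((((1 - X ^ a) ^ k - 1) * (f * (1 - X ^ b) ^ l)) + (((1 - X ^ b) ^ l - 1) * f)) := by ring
  rw [e1, map_add]
  have h3 : Supp (Up S a) (((1 - X ^ a) ^ k - 1) * (f * (1 - X ^ b) ^ l)) :=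
    (supp_pow_sub_one ha k).up_mul (hf.mul (Supp.one_sub_pow hb l))
  have h4 : Supp (Up S b) (((1 - X ^ b) ^ l - 1) * f) := (supp_pow_sub_one hb l).up_mul hf
  rw [map_add]
  have h5 : coeff s (((1 - X ^ a) ^ k - 1) * (f * (1 - X ^ b) ^ l)) = 0 := by
    by_contra h; exact h1 (h3 s h)
  have h6 : coeff s (((1 - X ^ b) ^ l - 1) * f) = 0 := by
    by_contra h; exact h2 (h4 s h)
  rw [h5, h6]; ring

/-- The coefficient at `a`. -/
theorem coeff_at (ha : a ∈ S) (hb : b ∈ S) (ha0 : 0 < a) {f : PowerSeries ℤ} (hf : Supp S f) (k l : ℕ)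
    (h2 : ¬ LeS S b a) :
    coeff a (f * ((1 - X ^ a) ^ k * (1 - X ^ b) ^ l)) = coeff a f - k * coeff 0 f := by
  have e1 : f * ((1 - X ^ a) ^ k * (1 - X ^ b) ^ l) =
      (f - C (k : ℤ) * (f * X ^ a)) + ((((1 - X ^ a) ^ k - (1 - C (k : ℤ) * X ^ a)) * (f * (1 - X ^ b) ^ l)) +
        (((1 - X ^ b) ^ l - 1) * (f * (1 - C (k : ℤ) * X ^ a)))) := by ring
  have h3 : Supp (Up S (2 * a)) (((1 - X ^ a) ^ k - (1 - C (k : ℤ) * X ^ a)) * (f * (1 - X ^ b) ^ l)) :=
    (supp_pow_sub_lin ha k).up_mul (hf.mul (Supp.one_sub_pow hb l))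
  have h4 : Supp (Up S b) (((1 - X ^ b) ^ l - 1) * (f * (1 - C (k : ℤ) * X ^ a))) :=
    (supp_pow_sub_one hb l).up_mul (hf.mul ((Supp.one S).sub ((Supp.X_pow ha).natCast_mul _)))
  have h5 : coeff a (((1 - X ^ a) ^ k - (1 - C (k : ℤ) * X ^ a)) * (f * (1 - X ^ b) ^ l)) = 0 := by
    by_contra h
    obtain ⟨t, _, ht⟩ := h3 a h
    omega
  have h6 : coeff a (((1 - X ^ b) ^ l - 1) * (f * (1 - C (k : ℤ) * X ^ a))) = 0 := by
    by_contra h; exact h2 (h4 a h)
  rw [e1, map_add, map_add, h5, h6, map_sub, coeff_C_mul, coeff_mul_X_pow', if_pos le_rfl, Nat.sub_self]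
  ring

end Pool.Agent.V11297.NS
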