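import Mathlib
import Pool.Agent.V11297.NSeries2

/-!
# The polynomial identity and its consequences
-/

open Finset

namespace Pool.Agent.V11297.NS

/-- `P_S` is a polynomial with value `1` at `1`. -/
theorem exists_poly {S : AddSubmonoid ℕ} (hS : IsNumerical S) :
    ∃ P : Polynomial ℤ, (P : PowerSeries ℤ) = semiPoly S ∧ P.eval 1 = 1 := by
  classical
  obtain ⟨F, hF⟩ := hS.bddAbove
  have hmem : ∀ n, F < n → n ∈ S := by
    intro n hn
    by_contra h
    have := hF h
    omega
  set h : Polynomial ℤ := ∑ n ∈ range (F + 1), if n ∈ S then Polynomial.X ^ n else 0 with hh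
  refine ⟨(1 - Polynomial.X) * h + Polynomial.X ^ (F + 1), ?_, by simp⟩
  have hsplit : hilb S = (h : PowerSeries ℤ) + PowerSeries.X ^ (F + 1) * PowerSeries.mk (fun _ => (1 : ℤ)) := by
    ext n
    rw [map_add, PowerSeries.coeff_X_pow_mul', coeff_hilb, Polynomial.coeff_coe, hh, Polynomial.finsetSum_coeff]
    have hterm : ∀ m, (if m ∈ S then (Polynomial.X ^ m : Polynomial ℤ) else 0).coeff n =
        if m = n then (if n ∈ S then 1 else 0) else 0 := by
      intro m
      by_cases hm : m ∈ S
      · rw [if_pos hm, Polynomial.coeff_X_pow]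
        by_cases hmn : m = n
        · rw [if_pos hmn.symm, if_pos hmn, if_pos (hmn ▸ hm)]
        · rw [if_neg (fun h => hmn h.symm), if_neg hmn]
      · rw [if_neg hm, Polynomial.coeff_zero]
        by_cases hmn : m = n
        · rw [if_pos hmn, if_neg (hmn ▸ hm)]
        · rw [if_neg hmn]
    simp only [hterm]
    rw [sum_ite_eq']
    by_cases hn : n ∈ range (F + 1)
    · have hlt : ¬ (F + 1 ≤ n) := by rw [mem_range] at hn; omega
      rw [if_pos hn, if_neg hlt, add_zero]
    · rw [if_neg hn]
      rw [mem_range] at hn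
      rw [if_pos (by omega : F + 1 ≤ n), if_pos (hmem n (by omega)), PowerSeries.coeff_mk, zero_add]
  have h3 : (PowerSeries.mk (fun _ => (1 : ℤ))) * (1 - PowerSeries.X) = 1 :=
    PowerSeries.mk_one_mul_one_sub_eq_one ℤ
  unfold semiPoly
  rw [hsplit]
  push_cast
  linear_combination -(PowerSeries.X ^ (F + 1)) * h3

/-- `(1 - X^n) = (1 - X) G_n`, with `G_n(1) = n`. -/
theorem factor_one_sub (n : ℕ) : ∃ G : Polynomial ℤ, (1 - Polynomial.X ^ n) = (1 - Polynomial.X) * G ∧
    G.eval 1 = n := by
  refine ⟨∑ i ∈ range n, Polynomial.X ^ i, (mul_neg_geom_sum _ _).symm, ?_⟩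
  simp [Polynomial.eval_finsetSum]

/-- Consequences of the polynomial identity. -/
theorem poly_consequences {ι : Type*} [Fintype ι] {n : ι → ℕ} (hn : ∀ i, 2 ≤ n i) {a b α β : ℕ}
    (ha : 0 < a) (hb : 0 < b) {P : Polynomial ℤ} (hP : P.eval 1 = 1)
    (h : P * ∏ i, (1 - Polynomial.X ^ n i) =
      (1 - Polynomial.X) * ((1 - Polynomial.X ^ a) ^ α * (1 - Polynomial.X ^ b) ^ β)) :
    Fintype.card ι = α + β + 1 ∧ ∀ i, n i ∣ a ∨ n i ∣ b := by
  classical
  constructor
  · choose G hG1 hG2 using factor_one_sub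
    have hX : (1 - Polynomial.X : Polynomial ℤ) ≠ 0 := by
      intro h0
      have := congrArg (fun p => Polynomial.eval 0 p) h0
      simp at this
    have e1 : (1 - Polynomial.X) ^ Fintype.card ι * (P * ∏ i, G (n i)) =
        (1 - Polynomial.X) ^ (α + β + 1) * (G a ^ α * G b ^ β) := by
      have : ∏ i, (1 - Polynomial.X ^ n i : Polynomial ℤ) = (1 - Polynomial.X) ^ Fintype.card ι * ∏ i, G (n i) := by
        rw [prod_congr rfl (fun i _ => hG1 (n i)), prod_mul_distrib, prod_const, card_univ]
      rw [this, hG1 a, hG1 b, mul_pow, mul_pow] at h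
      rw [pow_succ, pow_add]
      linear_combination h
    have v1 : (P * ∏ i, G (n i)).eval 1 ≠ 0 := by
      rw [Polynomial.eval_mul, hP, one_mul, Polynomial.eval_prod]
      apply prod_ne_zero_iff.mpr
      intro i _
      rw [hG2]
      have := hn i
      exact_mod_cast (by omega : n i ≠ 0)
    have v2 : (G a ^ α * G b ^ β).eval 1 ≠ 0 := by
      rw [Polynomial.eval_mul, Polynomial.eval_pow, Polynomial.eval_pow, hG2, hG2]
      apply mul_ne_zero <;> apply pow_ne_zero
      · exact_mod_cast ha.ne'
      · exact_mod_cast hb.ne'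
    rcases lt_trichotomy (Fintype.card ι) (α + β + 1) with hlt | heq | hgt
    · exfalso
      obtain ⟨d, hd⟩ := Nat.exists_eq_add_of_lt hlt
      rw [hd, add_assoc, pow_add, mul_assoc] at e1
      have e2 := mul_left_cancel₀ (pow_ne_zero _ hX) e1
      apply v1
      rw [e2, Polynomial.eval_mul]
      simp
    · exact heq
    · exfalso
      obtain ⟨d, hd⟩ := Nat.exists_eq_add_of_lt hgt
      rw [hd, add_assoc (α + β + 1), pow_add, mul_assoc] at e1
      have e2 := mul_left_cancel₀ (pow_ne_zero _ hX) e1
      apply v2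
      rw [← e2, Polynomial.eval_mul]
      simp
  · intro i
    have hi0 : n i ≠ 0 := by have := hn i; omega
    set ζ := Complex.exp (2 * Real.pi * Complex.I / (n i)) with hζ
    have hprim : IsPrimitiveRoot ζ (n i) := Complex.isPrimitiveRoot_exp (n i) hi0
    have h2 := congrArg (fun p => Polynomial.aeval ζ p) h
    simp only [map_mul, map_prod, map_sub, map_one, map_pow, Polynomial.aeval_X] at h2
    have h3 : ∏ j, (1 - ζ ^ n j) = 0 := by
      apply prod_eq_zero (mem_univ i)
      rw [hprim.pow_eq_one, sub_self]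
    rw [h3, mul_zero] at h2
    have h4 : (1 - ζ) ≠ 0 := by
      intro h0
      have h5 : ζ = 1 := by linear_combination -h0
      have h6 := hprim.pow_eq_one_iff_dvd 1
      rw [pow_one] at h6
      have h7 := Nat.dvd_one.mp (h6.mp h5)
      have := hn i
      omega
    rcases mul_eq_zero.mp h2.symm with h5 | h5
    · exact absurd h5 h4
    rcases mul_eq_zero.mp h5 with h6 | h6
    · left
      have h8 : 1 - ζ ^ a = 0 := by
        by_contra hne
        exact pow_ne_zero _ hne h6
      exact (hprim.pow_eq_one_iff_dvd a).mp (by linear_combination -h8)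
    · right
      have h8 : 1 - ζ ^ b = 0 := by
        by_contra hne
        exact pow_ne_zero _ hne h6
      exact (hprim.pow_eq_one_iff_dvd b).mp (by linear_combination -h8)

end Pool.Agent.V11297.NS
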