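import Mathlib
import Pool.Agent.V11297.NSPoly

/-!
# Presentations
-/

open Finset

namespace Pool.Agent.V11297.NS

variable {S : AddSubmonoid ℕ}

theorem gen_pos (i : Gen S) : 0 < i.1 := Nat.pos_of_ne_zero i.2.2.1

/-- Coordinates as rational numbers. -/
noncomputable def toQ (x : Gen S →₀ ℕ) : Gen S → ℚ := fun i => (x i : ℚ)

theorem toQ_add (x y : Gen S →₀ ℕ) : toQ (x + y) = toQ x + toQ y := by
  ext i; simp [toQ]

/-- Every finite presentation has at least `e - 1` elements. -/
theorem presentation_card [Fintype (Gen S)] {τ : Set ((Gen S →₀ ℕ) × (Gen S →₀ ℕ))}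
    (hfin : τ.Finite) (h : IsPresentation S τ) : Fintype.card (Gen S) ≤ τ.ncard + 1 := by
  classical
  by_cases hne : Nonempty (Gen S)
  swap
  · have : IsEmpty (Gen S) := not_nonempty_iff.mp hne
    simp
  obtain ⟨i0⟩ := hne
  set f : (Gen S →₀ ℕ) × (Gen S →₀ ℕ) → (Gen S → ℚ) := fun q => toQ q.1 - toQ q.2 with hf
  set V : Submodule ℚ (Gen S → ℚ) := Submodule.span ℚ (f '' τ) with hV
  -- the congruence `x - y ∈ V`
  let R : AddCon (Gen S →₀ ℕ) :=
    { r := fun x y => toQ x - toQ y ∈ V
      iseqv := ⟨fun x => by simp, fun {x y} hxy => by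
        have := V.neg_mem hxy
        rwa [neg_sub] at this, fun {x y z} hxy hyz => by
        have := V.add_mem hxy hyz
        rwa [sub_add_sub_cancel] at this⟩
      add' := fun {w x y z} h1 h2 => by
        have := V.add_mem h1 h2
        rw [toQ_add, toQ_add]
        convert this using 1
        ring }
  have hle : AddCon.ker (phi S) ≤ R := by
    rw [← h.2]
    apply AddCon.addConGen_le.mpr
    intro x y hxy
    exact Submodule.subset_span ⟨(x, y), hxy, rfl⟩
  have hmem : ∀ x y : Gen S →₀ ℕ, phi S x = phi S y → toQ x - toQ y ∈ V := by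
    intro x y hxy
    exact hle (show AddCon.ker (phi S) x y from hxy)
  have hsingle : ∀ i : Gen S, ∀ k : ℕ, toQ (Finsupp.single i k) = (k : ℚ) • (Pi.single i (1 : ℚ) : Gen S → ℚ) := by
    intro i k
    ext j
    simp only [toQ, Pi.smul_apply, smul_eq_mul]
    by_cases hij : i = j
    · subst hij; simp
    · rw [Finsupp.single_eq_of_ne (Ne.symm hij), Pi.single_eq_of_ne (Ne.symm hij)]; simp
  set w : Gen S → ℚ := Pi.single i0 1 with hw
  have htop : (⊤ : Submodule ℚ (Gen S → ℚ)) ≤ V ⊔ Submodule.span ℚ {w} := by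
    intro v _
    have hv : v = ∑ i, v i • (Pi.single i (1 : ℚ) : Gen S → ℚ) := by
      ext j
      simp [Finset.sum_apply, Pi.single_apply]
    rw [hv]
    apply Submodule.sum_mem
    intro i _
    apply Submodule.smul_mem
    have h1 := hmem (Finsupp.single i i0.1) (Finsupp.single i0 i.1) (by
      rw [phi_single, phi_single, mul_comm])
    rw [hsingle, hsingle] at h1
    have hi0 : ((i0.1 : ℕ) : ℚ) ≠ 0 := by exact_mod_cast (gen_pos i0).ne'
    have h2 : (Pi.single i (1 : ℚ) : Gen S → ℚ) = ((i0.1 : ℕ) : ℚ)⁻¹ • (((i0.1 : ℕ) : ℚ) • (Pi.single i (1 : ℚ) : Gen S → ℚ) -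
        ((i.1 : ℕ) : ℚ) • (Pi.single i0 (1 : ℚ) : Gen S → ℚ)) + (((i0.1 : ℕ) : ℚ)⁻¹ * ((i.1 : ℕ) : ℚ)) • w := by
      rw [smul_sub, smul_smul, smul_smul, inv_mul_cancel₀ hi0, one_smul, hw]
      abel
    rw [h2]
    apply Submodule.add_mem
    · exact Submodule.mem_sup_left (Submodule.smul_mem _ _ h1)
    · exact Submodule.mem_sup_right (Submodule.smul_mem _ _ (Submodule.mem_span_singleton_self w))
  have hfinimg : (f '' τ).Finite := hfin.image f
  have : Fintype (f '' τ) := hfinimg.fintype
  have r1 : Module.finrank ℚ V ≤ τ.ncard := by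
    have h1 := finrank_span_le_card (R := ℚ) (f '' τ)
    have h2 : (f '' τ).toFinset.card = (f '' τ).ncard := (Set.ncard_eq_toFinset_card' _).symm
    rw [h2] at h1
    exact h1.trans (Set.ncard_image_le hfin)
  have r2 : Module.finrank ℚ (Submodule.span ℚ {w}) ≤ 1 := by
    have := finrank_span_le_card (R := ℚ) ({w} : Set (Gen S → ℚ))
    simpa using this
  have r3 : Module.finrank ℚ (⊤ : Submodule ℚ (Gen S → ℚ)) ≤ Module.finrank ℚ V + Module.finrank ℚ (Submodule.span ℚ {w}) :=
    (Submodule.finrank_mono htop).trans (Submodule.finrank_add_le_finrank_add_finrank _ _)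
  rw [finrank_top, Module.finrank_fintype_fun_eq_card] at r3
  omega

/-- The structural lemma. -/
theorem structural [Fintype (Gen S)] {a b α β : ℕ} (ha : 0 < a) (hb : 0 < b)
    (hH : hilb S * ∏ i : Gen S, (1 - PowerSeries.X ^ i.1) =
      (1 - PowerSeries.X ^ a) ^ α * (1 - PowerSeries.X ^ b) ^ β)
    (hcard : Fintype.card (Gen S) = α + β + 1)
    (hIb : {i : Gen S | i.1 ∣ b}.ncard = β + 1) (hIa : ∀ i : Gen S, ¬ i.1 ∣ b → i.1 ∣ a)
    (z0 : Gen S →₀ ℕ) (hz0 : phi S z0 = a) (hz1 : ∀ i : Gen S, ¬ i.1 ∣ b → z0 i = 0) :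
    IsCompleteIntersection S := by
  classical
  obtain ⟨i0, hi0⟩ : ∃ i0 : Gen S, i0.1 ∣ b := by
    have : {i : Gen S | i.1 ∣ b}.Nonempty := by
      rw [← Set.ncard_pos]; omega
    exact this
  set c : Gen S → ℕ := fun i => if i.1 ∣ b then b / i.1 else a / i.1 with hc
  set t : Gen S → (Gen S →₀ ℕ) := fun i => if i.1 ∣ b then Finsupp.single i0 (b / i0.1) else z0 with ht
  have hcn : ∀ i, c i * i.1 = if i.1 ∣ b then b else a := by
    intro i
    simp only [hc]
    by_cases h : i.1 ∣ b
    · rw [if_pos h, if_pos h, Nat.div_mul_cancel h]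
    · rw [if_neg h, if_neg h, Nat.div_mul_cancel (hIa i h)]
  have hcpos : ∀ i, 1 ≤ c i := by
    intro i
    rcases Nat.eq_zero_or_pos (c i) with h | h
    · exfalso
      have := hcn i
      rw [h, zero_mul] at this
      split_ifs at this <;> omega
    · exact h
  have hphit : ∀ i, phi S (t i) = c i * i.1 := by
    intro i
    rw [hcn]
    simp only [ht]
    by_cases h : i.1 ∣ b
    · rw [if_pos h, if_pos h, phi_single, Nat.div_mul_cancel hi0]
    · rw [if_neg h, if_neg h, hz0]
  set r : Gen S → (Gen S →₀ ℕ) × (Gen S →₀ ℕ) := fun i => (Finsupp.single i (c i), t i) with hr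
  set σ : Set ((Gen S →₀ ℕ) × (Gen S →₀ ℕ)) := r '' {i | i ≠ i0} with hσ
  have hrinj : Function.Injective r := by
    intro i j hij
    simp only [hr, Prod.mk.injEq] at hij
    have h1 := hij.1
    rw [Finsupp.single_eq_single_iff] at h1
    rcases h1 with h1 | h1
    · exact h1.1
    · have := hcpos i; omega
  have hσcard : σ.ncard = α + β := by
    rw [hσ, Set.ncard_image_of_injective _ hrinj]
    have h1 : {i : Gen S | i ≠ i0} = ((univ.erase i0 : Finset (Gen S)) : Set (Gen S)) := by
      ext x; simp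
    rw [h1, Set.ncard_coe_finset, card_erase_of_mem (mem_univ _), card_univ, hcard]
    simp
  -- reduction to normal form
  set R := addConGen (fun x y : Gen S →₀ ℕ => (x, y) ∈ σ) with hR
  set W : ℕ := (∑ i, z0 i) + 1 with hW
  set wt : Gen S → ℕ := fun i => if i = i0 then 0 else if i.1 ∣ b then 1 else W with hwt
  set om : (Gen S →₀ ℕ) → ℕ := fun x => ∑ i, x i * wt i with hom
  have hom_add : ∀ x y, om (x + y) = om x + om y := by
    intro x y
    simp only [hom, Finsupp.add_apply, add_mul, sum_add_distrib]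
  have hom_single : ∀ i k, om (Finsupp.single i k) = k * wt i := by
    intro i k
    simp only [hom]
    rw [sum_eq_single i]
    · simp
    · intro j _ hj
      rw [Finsupp.single_eq_of_ne hj, zero_mul]
    · intro h; exact absurd (mem_univ _) h
  have hom_t : ∀ i, i ≠ i0 → om (t i) < c i * wt i := by
    intro i hi
    simp only [ht]
    by_cases h : i.1 ∣ b
    · rw [if_pos h, hom_single]
      have w0 : wt i0 = 0 := by simp [hwt]
      have w1 : wt i = 1 := by simp [hwt, hi, h]
      rw [w0, w1]
      have := hcpos i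
      omega
    · rw [if_neg h]
      have h1 : om z0 ≤ ∑ i, z0 i := by
        simp only [hom]
        apply sum_le_sum
        intro j _
        by_cases hj : j.1 ∣ b
        · have : wt j ≤ 1 := by
            simp only [hwt]; split_ifs <;> omega
          calc z0 j * wt j ≤ z0 j * 1 := Nat.mul_le_mul_left _ this
            _ = z0 j := mul_one _
        · rw [hz1 j hj, zero_mul]
      have h2 : wt i = W := by
        simp only [hwt]; rw [if_neg hi, if_neg h]
      rw [h2]
      have := hcpos i
      calc om z0 < W := by omega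
        _ = 1 * W := (one_mul _).symm
        _ ≤ c i * W := Nat.mul_le_mul_right _ this
  have hred : ∀ m : ℕ, ∀ x, om x = m → ∃ y, (∀ i, i = i0 ∨ y i < c i) ∧ R x y := by
    intro m
    induction m using Nat.strong_induction_on with
    | _ m ih =>
    intro x hx
    by_cases hn : ∀ i, i = i0 ∨ x i < c i
    · exact ⟨x, hn, R.refl x⟩
    · push Not at hn
      obtain ⟨i, hi, hci⟩ := hn
      set x' : Gen S →₀ ℕ := x - Finsupp.single i (c i) with hx'
      have hxx : x = Finsupp.single i (c i) + x' := by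
        rw [hx']
        ext j
        by_cases hij : j = i
        · subst hij; simp; omega
        · simp [Finsupp.single_eq_of_ne hij]
      have h1 : om x = c i * wt i + om x' := by
        rw [hxx, hom_add, hom_single]
      have h2 : om (t i + x') < m := by
        rw [hom_add]
        have := hom_t i hi
        omega
      obtain ⟨y, hy1, hy2⟩ := ih _ h2 (t i + x') rfl
      refine ⟨y, hy1, R.trans ?_ hy2⟩
      have h3 : R (Finsupp.single i (c i)) (t i) := by
        apply AddConGen.Rel.of
        exact ⟨i, hi, rfl⟩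
      have h4 := R.add h3 (R.refl x')
      rw [← hxx] at h4
      exact h4
  -- normal forms are determined by `φ`
  set K : Gen S → ℕ → Prop := fun i k => i = i0 ∨ k < c i with hK
  set F : Gen S → PowerSeries ℤ := fun i => if i = i0 then geo i.1 else ∑ k ∈ range (c i), (PowerSeries.X ^ i.1) ^ k with hF
  have hFc : ∀ i n, PowerSeries.coeff n (F i) = if (∃ k, K i k ∧ n = k * i.1) then 1 else 0 := by
    intro i n
    simp only [hF, hK]
    by_cases hi : i = i0
    · rw [if_pos hi, coeff_geo]
      congr 1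
      simp [hi]
    · rw [if_neg hi, coeff_geo_trunc _ _ _ (gen_pos i)]
      congr 1
      simp [hi]
  have hPne : (∏ i : Gen S, (1 - PowerSeries.X ^ i.1) : PowerSeries ℤ) ≠ 0 := by
    rw [prod_ne_zero_iff]
    intro i _ h0
    have := congrArg (PowerSeries.coeff 0) h0
    simp [(gen_pos i).ne'] at this
  have hprod : ∏ i, F i = hilb S := by
    apply mul_right_cancel₀ hPne
    rw [hH, ← prod_mul_distrib]
    have h1 : ∀ i ∈ (univ : Finset (Gen S)), F i * (1 - PowerSeries.X ^ i.1) =
        if i = i0 then 1 else if i.1 ∣ b then (1 - PowerSeries.X ^ b) else (1 - PowerSeries.X ^ a) := by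
      intro i _
      simp only [hF]
      by_cases hi : i = i0
      · rw [if_pos hi, if_pos hi, geo_mul _ (gen_pos i)]
      · rw [if_neg hi, if_neg hi, geo_trunc, hcn]
        by_cases h : i.1 ∣ b
        · rw [if_pos h, if_pos h]
        · rw [if_neg h, if_neg h]
    rw [prod_congr rfl h1]
    rw [← mul_prod_erase univ _ (mem_univ i0), if_pos rfl, one_mul]
    have h2 : ∀ i ∈ univ.erase i0, (if i = i0 then (1 : PowerSeries ℤ) else if i.1 ∣ b then (1 - PowerSeries.X ^ b) else (1 - PowerSeries.X ^ a)) =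
        if i.1 ∣ b then (1 - PowerSeries.X ^ b) else (1 - PowerSeries.X ^ a) := by
      intro i hi
      rw [if_neg (ne_of_mem_erase hi)]
    rw [prod_congr rfl h2, prod_ite, prod_const, prod_const]
    have hc1 : (filter (fun i : Gen S => i.1 ∣ b) univ).card = β + 1 := by
      rw [← hIb, ← Set.ncard_coe_finset]
      congr 1
      ext x; simp
    have hc2 : (filter (fun i : Gen S => i.1 ∣ b) (univ.erase i0)).card = β := by
      rw [filter_erase, card_erase_of_mem (by simp [hi0]), hc1]
      simp
    have hc3 : (filter (fun i : Gen S => ¬ i.1 ∣ b) (univ.erase i0)).card = α := by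
      have h3 := card_filter_add_card_filter_not (s := univ.erase i0) (fun i : Gen S => i.1 ∣ b)
      rw [hc2, card_erase_of_mem (mem_univ _), card_univ, hcard] at h3
      omega
    rw [hc2, hc3, mul_comm]
  have huniq : ∀ y y' : Gen S →₀ ℕ, (∀ i, i = i0 ∨ y i < c i) → (∀ i, i = i0 ∨ y' i < c i) →
      phi S y = phi S y' → y = y' := by
    intro y y' hy hy' hphi
    obtain ⟨hfin, hcoeff⟩ := coeff_prod_card K F hFc (phi S y)
    rw [hprod] at hcoeff
    have hle : PowerSeries.coeff (phi S y) (hilb S) ≤ 1 := by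
      rw [coeff_hilb]; split_ifs <;> norm_num
    rw [hcoeff] at hle
    have hle' : {x : Gen S →₀ ℕ | (∀ i, K i (x i)) ∧ phi S x = phi S y}.ncard ≤ 1 := by exact_mod_cast hle
    exact (Set.ncard_le_one hfin).mp hle' y ⟨hy, rfl⟩ y' ⟨hy', hphi.symm⟩
  have hker : ∀ q ∈ σ, phi S q.1 = phi S q.2 := by
    rintro q ⟨i, _, rfl⟩
    simp only [hr]
    rw [phi_single, hphit]
  have hpres : IsPresentation S σ := by
    refine ⟨hker, ?_⟩
    apply le_antisymm
    · apply AddCon.addConGen_le.mpr
      intro x y hxy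
      exact hker _ hxy
    · intro x y hxy
      obtain ⟨x', hx1, hx2⟩ := hred _ x rfl
      obtain ⟨y', hy1, hy2⟩ := hred _ y rfl
      have hle : R ≤ AddCon.ker (phi S) := by
        apply AddCon.addConGen_le.mpr
        intro x y hxy
        exact hker _ hxy
      have e1 : phi S x = phi S x' := hle hx2
      have e2 : phi S y = phi S y' := hle hy2
      have e3 : phi S x = phi S y := hxy
      have e4 : x' = y' := huniq x' y' hx1 hy1 (by rw [← e1, e3, e2])
      rw [← e4] at hy2
      exact R.trans hx2 (R.symm hy2)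
  have hσfin : σ.Finite := (Set.toFinite _).image r
  refine ⟨σ, ⟨hpres, ?_⟩, hσfin, ?_⟩
  · intro τ hτ hτp
    have h1 := presentation_card (hσfin.subset hτ.subset) hτp
    have h2 := Set.ncard_lt_ncard hτ hσfin
    omega
  · rw [hσcard, Nat.card_eq_fintype_card, hcard]

end Pool.Agent.V11297.NS
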