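import Mathlib
import Pool.Agent.V11297.NSComb

/-!
# Two incomparable elements in `𝓔(S)`
-/

open Finset

namespace Pool.Agent.V11297.NS

variable {S : AddSubmonoid ℕ} {e : ℕ → ℤ} {a b : ℕ}

/-- The factorizations of `s`. -/
def ZZ (S : AddSubmonoid ℕ) (s : ℕ) : Set (Gen S →₀ ℕ) := {x | phi S x = s}

/-- The series `∏ 1/(1 - X^(n_i))`. -/
noncomputable def Gam (S : AddSubmonoid ℕ) [Fintype (Gen S)] : PowerSeries ℤ := ∏ i : Gen S, geo i.1

theorem gam_coeff [Fintype (Gen S)] (s : ℕ) :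
    (ZZ S s).Finite ∧ PowerSeries.coeff s (Gam S) = ((ZZ S s).ncard : ℤ) := by
  classical
  have h := coeff_prod_card (S := S) (fun _ _ => True) (fun i => geo i.1)
    (fun i n => coeff_geo _ _) s
  simp only [implies_true, true_and] at h
  exact h

theorem gam_mul [Fintype (Gen S)] : Gam S * (∏ i : Gen S, (1 - PowerSeries.X ^ i.1)) = 1 := by
  unfold Gam
  rw [← prod_mul_distrib]
  exact prod_eq_one fun i _ => geo_mul _ (gen_pos i)

theorem gam_supp [Fintype (Gen S)] : Supp S (Gam S) := by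
  intro n hn
  rw [(gam_coeff n).2] at hn
  have h1 : (ZZ S n).ncard ≠ 0 := by exact_mod_cast hn
  have h2 : (ZZ S n).Nonempty := by
    rw [Set.nonempty_iff_ne_empty]
    intro h; rw [h] at h1; simp at h1
  obtain ⟨x, hx⟩ := h2
  have := phi_mem S x
  rw [show phi S x = n from hx] at this
  exact this

theorem gam_zero [Fintype (Gen S)] : PowerSeries.coeff 0 (Gam S) = 1 := by
  have h := congrArg (PowerSeries.coeff 0) (gam_mul (S := S))
  rw [PowerSeries.coeff_zero_eq_constantCoeff_apply, map_mul, map_prod] at h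
  have h2 : ∏ i : Gen S, PowerSeries.constantCoeff (1 - PowerSeries.X ^ i.1 : PowerSeries ℤ) = 1 := by
    apply prod_eq_one
    intro i _
    simp [(gen_pos i).ne']
  rw [h2, mul_one] at h
  rw [PowerSeries.coeff_zero_eq_constantCoeff_apply, h]
  simp

/-- Facts about `a` (and, by symmetry, `b`). -/
theorem facts_at [Fintype (Gen S)] (haS : a ∈ S) (hbS : b ∈ S) (ha0 : 0 < a) (hea : e a ≠ 0)
    (hba : ¬ LeS S b a)
    (hid : hilb S * (∏ i : Gen S, (1 - PowerSeries.X ^ i.1)) * ((1 - PowerSeries.X ^ a) ^ (-e a).toNat * (1 - PowerSeries.X ^ b) ^ (-e b).toNat) =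
      (1 - PowerSeries.X ^ a) ^ (e a).toNat * (1 - PowerSeries.X ^ b) ^ (e b).toNat) :
    (-e a).toNat = 0 ∧ (ZZ S a).ncard = (e a).toNat + 1 ∧
      ∀ x ∈ ZZ S a, ∀ y ∈ ZZ S a, x ≠ y → ∀ i, x i = 0 ∨ y i = 0 := by
  classical
  have hid2 : hilb S * ((1 - PowerSeries.X ^ a) ^ (-e a).toNat * (1 - PowerSeries.X ^ b) ^ (-e b).toNat) =
      Gam S * ((1 - PowerSeries.X ^ a) ^ (e a).toNat * (1 - PowerSeries.X ^ b) ^ (e b).toNat) := by
    have h1 : Gam S * (hilb S * (∏ i : Gen S, (1 - PowerSeries.X ^ i.1)) * ((1 - PowerSeries.X ^ a) ^ (-e a).toNat * (1 - PowerSeries.X ^ b) ^ (-e b).toNat)) =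
      Gam S * ((1 - PowerSeries.X ^ a) ^ (e a).toNat * (1 - PowerSeries.X ^ b) ^ (e b).toNat) := by rw [hid]
    calc _ = (Gam S * (∏ i : Gen S, (1 - PowerSeries.X ^ i.1))) * (hilb S * ((1 - PowerSeries.X ^ a) ^ (-e a).toNat * (1 - PowerSeries.X ^ b) ^ (-e b).toNat)) := by
          rw [gam_mul, one_mul]
      _ = _ := by rw [← h1]; ring
  have hca := congrArg (PowerSeries.coeff a) hid2
  rw [coeff_at haS hbS ha0 (hilb_supp S) _ _ hba, coeff_at haS hbS ha0 gam_supp _ _ hba,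
    coeff_hilb_mem haS, coeff_hilb_mem S.zero_mem, gam_zero, (gam_coeff a).2] at hca
  have hZpos : 1 ≤ (ZZ S a).ncard := by
    rw [Nat.one_le_iff_ne_zero, ← Nat.pos_iff_ne_zero, Set.ncard_pos (gam_coeff a).1]
    obtain ⟨x, hx⟩ := exists_fact S a haS
    exact ⟨x, hx⟩
  refine ⟨by omega, by omega, ?_⟩
  intro x hx y hy hxy i
  by_contra hcon
  push Not at hcon
  obtain ⟨hxi, hyi⟩ := hcon
  set x' : Gen S →₀ ℕ := x - Finsupp.single i 1 with hx'
  set y' : Gen S →₀ ℕ := y - Finsupp.single i 1 with hy'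
  have hxx : x = Finsupp.single i 1 + x' := by
    rw [hx']
    ext j
    by_cases hij : j = i
    · subst hij; simp; omega
    · simp [Finsupp.single_eq_of_ne hij]
  have hyy : y = Finsupp.single i 1 + y' := by
    rw [hy']
    ext j
    by_cases hij : j = i
    · subst hij; simp; omega
    · simp [Finsupp.single_eq_of_ne hij]
  have hpx : phi S x = i.1 + phi S x' := by
    conv_lhs => rw [hxx]
    rw [map_add, phi_single, one_mul]
  have hpy : phi S y = i.1 + phi S y' := by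
    conv_lhs => rw [hyy]
    rw [map_add, phi_single, one_mul]
  have hxa : phi S x = a := hx
  have hya : phi S y = a := hy
  have hi := gen_pos i
  set s := phi S x' with hs
  have hsS : s ∈ S := phi_mem S x'
  have h1 : ¬ LeS S a s := by
    rintro ⟨u, _, hu⟩; omega
  have h2 : ¬ LeS S b s := by
    rintro ⟨u, hu1, hu⟩
    apply hba
    exact ⟨u + i.1, S.add_mem hu1 i.2.1, by omega⟩
  have hcs := congrArg (PowerSeries.coeff s) hid2
  rw [coeff_away haS hbS (hilb_supp S) _ _ _ h1 h2, coeff_away haS hbS gam_supp _ _ _ h1 h2,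
    coeff_hilb_mem hsS, (gam_coeff s).2] at hcs
  have hone : (ZZ S s).ncard ≤ 1 := by omega
  have heq := (Set.ncard_le_one (gam_coeff s).1).mp hone x' rfl y' (show phi S y' = s by omega)
  apply hxy
  rw [hxx, hyy, heq]

/-- A factorization supported on the divisors of `b`. -/
theorem exists_z0 [Fintype (Gen S)] {α β : ℕ} (ha0 : 0 < a)
    (hZ : (ZZ S a).ncard = α + 1)
    (hdisj : ∀ x ∈ ZZ S a, ∀ y ∈ ZZ S a, x ≠ y → ∀ i, x i = 0 ∨ y i = 0)
    (hcard : Fintype.card (Gen S) = α + β + 1)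
    (hIb : {i : Gen S | i.1 ∣ b}.ncard = β + 1) (hIa : ∀ i : Gen S, ¬ i.1 ∣ b → i.1 ∣ a) :
    ∃ z0 : Gen S →₀ ℕ, phi S z0 = a ∧ ∀ i : Gen S, ¬ i.1 ∣ b → z0 i = 0 := by
  classical
  set g : Gen S → (Gen S →₀ ℕ) := fun i => Finsupp.single i (a / i.1) with hg
  have hpos : ∀ i : Gen S, ¬ i.1 ∣ b → 1 ≤ a / i.1 := fun i hi =>
    Nat.div_pos (Nat.le_of_dvd ha0 (hIa i hi)) (gen_pos i)
  have hfin : (ZZ S a).Finite := (gam_coeff a).1
  have hsub : g '' {i | ¬ i.1 ∣ b} ⊆ ZZ S a := by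
    rintro _ ⟨i, hi, rfl⟩
    show phi S (g i) = a
    simp only [hg]
    rw [phi_single, Nat.div_mul_cancel (hIa i hi)]
  have hcompl : {i : Gen S | ¬ i.1 ∣ b}.ncard = α := by
    have h1 := Set.ncard_add_ncard_compl {i : Gen S | i.1 ∣ b}
    rw [hIb, Nat.card_eq_fintype_card, hcard] at h1
    have h2 : {i : Gen S | i.1 ∣ b}ᶜ = {i : Gen S | ¬ i.1 ∣ b} := rfl
    rw [h2] at h1
    omega
  have hlt : (g '' {i | ¬ i.1 ∣ b}).ncard < (ZZ S a).ncard := by
    have := Set.ncard_image_le (f := g) (Set.toFinite {i : Gen S | ¬ i.1 ∣ b})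
    omega
  obtain ⟨z0, hz, hz'⟩ := Set.exists_mem_notMem_of_ncard_lt_ncard hlt
  refine ⟨z0, hz, ?_⟩
  intro i hi
  have hne : g i ≠ z0 := fun h => hz' ⟨i, hi, h⟩
  rcases hdisj (g i) (hsub ⟨i, hi, rfl⟩) z0 hz hne i with h | h
  · exfalso
    simp only [hg, Finsupp.single_eq_same] at h
    have := hpos i hi
    omega
  · exact h

theorem ncard_div_le [Fintype (Gen S)] {α : ℕ} (ha0 : 0 < a) (hZ : (ZZ S a).ncard = α + 1) :
    {i : Gen S | i.1 ∣ a}.ncard ≤ α + 1 := by
  rw [← hZ]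
  refine Set.ncard_le_ncard_of_injOn (fun i => Finsupp.single i (a / i.1)) ?_ ?_ (gam_coeff a).1
  · intro i hi
    show phi S (Finsupp.single i (a / i.1)) = a
    rw [phi_single, Nat.div_mul_cancel hi]
  · intro i hi j hj hij
    simp only at hij
    rw [Finsupp.single_eq_single_iff] at hij
    rcases hij with h | h
    · exact h.1
    · have := Nat.div_pos (Nat.le_of_dvd ha0 hi) (gen_pos i)
      omega

theorem main (hS : IsNumerical S) (he : IsExponentSequence S e) (hab : a ≠ b)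
    (hE : ESet S e = {a, b}) (h1 : ¬ LeS S a b) (h2 : ¬ LeS S b a) : IsCompleteIntersection S := by
  classical
  have : Finite (Gen S) := finite_gen hS
  have : Fintype (Gen S) := Fintype.ofFinite _
  have hone : 1 ∉ S := by
    intro h
    have htop : ∀ n, n ∈ S := by
      intro n
      have := S.nsmul_mem h n
      simpa using this
    rcases le_total a b with hle | hle
    · exact h1 ⟨b - a, htop _, by omega⟩
    · exact h2 ⟨a - b, htop _, by omega⟩
  have haE : a ∈ ESet S e := by rw [hE]; simp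
  have hbE : b ∈ ESet S e := by rw [hE]; simp
  obtain ⟨ha2, hea, hag⟩ := haE
  obtain ⟨hb2, heb, hbg⟩ := hbE
  have haS : a ∈ S := by
    by_contra h; exact hea ((exp_val hone he a ha2).1 h)
  have hbS : b ∈ S := by
    by_contra h; exact heb ((exp_val hone he b hb2).1 h)
  have hid := identity hone he hab hE
  have hid' : hilb S * (∏ i : Gen S, (1 - PowerSeries.X ^ i.1)) * ((1 - PowerSeries.X ^ b) ^ (-e b).toNat * (1 - PowerSeries.X ^ a) ^ (-e a).toNat) =
      (1 - PowerSeries.X ^ b) ^ (e b).toNat * (1 - PowerSeries.X ^ a) ^ (e a).toNat := by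
    rw [mul_comm ((1 - PowerSeries.X ^ b) ^ (-e b).toNat), hid, mul_comm]
  obtain ⟨a1, a2, a3⟩ := facts_at haS hbS (by omega) hea h2 hid
  obtain ⟨b1, b2, b3⟩ := facts_at hbS haS (by omega) heb h1 hid'
  set α := (e a).toNat with hα
  set β := (e b).toNat with hβ
  rw [a1, b1, pow_zero, pow_zero, mul_one, mul_one] at hid
  -- the polynomial identity
  obtain ⟨P, hP1, hP2⟩ := exists_poly hS
  have hpoly : P * ∏ i : Gen S, (1 - Polynomial.X ^ i.1) =
      (1 - Polynomial.X) * ((1 - Polynomial.X ^ a) ^ α * (1 - Polynomial.X ^ b) ^ β) := by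
    apply Polynomial.coe_injective (R := ℤ)
    have e1 : ((∏ i : Gen S, (1 - Polynomial.X ^ i.1) : Polynomial ℤ) : PowerSeries ℤ) =
        ∏ i : Gen S, (1 - PowerSeries.X ^ i.1) := by
      have h3 := map_prod (Polynomial.coeToPowerSeries.ringHom (R := ℤ)) (fun i : Gen S => (1 - Polynomial.X ^ i.1)) univ
      rw [Polynomial.coeToPowerSeries.ringHom_apply] at h3
      rw [h3]
      apply prod_congr rfl
      intro i _
      rw [Polynomial.coeToPowerSeries.ringHom_apply]
      push_cast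
      rfl
    push_cast
    rw [e1, hP1]
    unfold semiPoly
    rw [mul_assoc, hid]
  obtain ⟨hcard, hdiv⟩ := poly_consequences (fun i : Gen S => gen_ge_two hone i) (by omega : 0 < a)
    (by omega : 0 < b) hP2 hpoly
  have hIa := ncard_div_le (by omega : 0 < a) a2
  have hIb := ncard_div_le (by omega : 0 < b) b2
  have hunion : Fintype.card (Gen S) ≤ {i : Gen S | i.1 ∣ a}.ncard + {i : Gen S | i.1 ∣ b}.ncard := by
    have h3 : (Set.univ : Set (Gen S)) = {i : Gen S | i.1 ∣ a} ∪ {i : Gen S | i.1 ∣ b} := by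
      ext i
      simpa using hdiv i
    have h4 := Set.ncard_union_le {i : Gen S | i.1 ∣ a} {i : Gen S | i.1 ∣ b}
    rw [← h3, Set.ncard_univ, Nat.card_eq_fintype_card] at h4
    exact h4
  by_cases hB : {i : Gen S | i.1 ∣ b}.ncard = β + 1
  · have hd : ∀ i : Gen S, ¬ i.1 ∣ b → i.1 ∣ a := fun i hi => (hdiv i).resolve_right hi
    obtain ⟨z0, hz0, hz1⟩ := exists_z0 (by omega : 0 < a) a2 a3 hcard hB hd
    exact structural (by omega : 0 < a) (by omega : 0 < b) hid hcard hB hd z0 hz0 hz1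
  · have hA : {i : Gen S | i.1 ∣ a}.ncard = α + 1 := by omega
    have hd : ∀ i : Gen S, ¬ i.1 ∣ a → i.1 ∣ b := fun i hi => (hdiv i).resolve_left hi
    have hcard' : Fintype.card (Gen S) = β + α + 1 := by omega
    obtain ⟨z0, hz0, hz1⟩ := exists_z0 (by omega : 0 < b) b2 b3 hcard' hA hd
    refine structural (by omega : 0 < b) (by omega : 0 < a) ?_ hcard' hA hd z0 hz0 hz1
    rw [hid, mul_comm]

end Pool.Agent.V11297.NS
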