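import Mathlib

/-!
# Reduced finitary power monoids: definitions and first facts
-/

open scoped Pointwise

namespace Pool.Agent.V11297.PowMon

section General

variable {M : Type*} [Monoid M]

/-- `x ∣_M y`, i.e. `y ∈ M x M`. -/
def Divs (x y : M) : Prop := ∃ u v : M, y = u * x * v

/-- `x` is a unit-divisor: `x ∣_M 1`. -/
def UnitDivisor (x : M) : Prop := Divs x 1

/-- `x` is a proper divisor of `y`. -/
def ProperDivisor (x y : M) : Prop := Divs x y ∧ ¬ Divs y x

/-- Irreducible elements: non-unit-divisors `a` that are not products of two proper divisors of `a`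
that are not unit-divisors. -/
def IsIrred (a : M) : Prop :=
  ¬ UnitDivisor a ∧ ¬ ∃ b c : M, a = b * c ∧ ProperDivisor b a ∧ ProperDivisor c a ∧
    ¬ UnitDivisor b ∧ ¬ UnitDivisor c

/-- The set of lengths `L_M(x)` of factorizations of `x` into irreducibles. -/
def LengthSet (x : M) : Set ℕ :=
  {m | ∃ l : List M, l.length = m ∧ (∀ a ∈ l, IsIrred a) ∧ l.prod = x}

/-- `𝒰_k(M)`: the union of the length sets containing `k`. -/
def UnionLengths (M : Type*) [Monoid M] (k : ℕ) : Set ℕ :=
  {n | ∃ x : M, k ∈ LengthSet x ∧ n ∈ LengthSet x}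

end General

/-- An interval `[[a, b]]`, `a, b ∈ ℕ ∪ {∞}`, of nonnegative integers. -/
def IsInterval (s : Set ℕ) : Prop := ∃ a b : ℕ∞, s = {x : ℕ | a ≤ (x : ℕ∞) ∧ (x : ℕ∞) ≤ b}

open Classical in
/-- The reduced finitary power monoid `𝒫_{fin,1}(H)`: the finite subsets of `H` containing `1`. -/
noncomputable def PFin (H : Type*) [Monoid H] : Submonoid (Finset H) where
  carrier := {X | (1 : H) ∈ X}
  one_mem' := by simp
  mul_mem' := by
    intro X Y hX hY
    rw [Set.mem_ofPred_eq] at *
    rw [Finset.mem_mul]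
    exact ⟨1, hX, 1, hY, one_mul 1⟩

end Pool.Agent.V11297.PowMon
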