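import Mathlib
import Pool.Agent.V11297.PowMon

/-!
# Reduced finitary power monoids: irreducibles and length sets
-/

open scoped Pointwise

namespace Pool.Agent.V11297.PowMon

open Classical

variable {H : Type*} [Monoid H]

theorem one_mem' (X : PFin H) : (1 : H) ∈ X.1 := X.2

theorem coe_mul' (X Y : PFin H) : (X * Y).1 = X.1 * Y.1 := rfl

theorem sub_mul_left (X Y : PFin H) : X.1 ⊆ (X * Y).1 := by
  intro x hx
  rw [coe_mul', Finset.mem_mul]
  exact ⟨x, hx, 1, Y.2, mul_one x⟩

theorem sub_mul_right (X Y : PFin H) : Y.1 ⊆ (X * Y).1 := by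
  intro y hy
  rw [coe_mul', Finset.mem_mul]
  exact ⟨1, X.2, y, hy, one_mul y⟩

theorem divs_sub {X Y : PFin H} (h : Divs X Y) : X.1 ⊆ Y.1 := by
  obtain ⟨u, v, rfl⟩ := h
  exact (sub_mul_right u X).trans (sub_mul_left (u * X) v)

theorem divs_antisymm {X Y : PFin H} (h : Divs X Y) (h' : Divs Y X) : X = Y :=
  Subtype.ext (Finset.Subset.antisymm (divs_sub h) (divs_sub h'))

theorem divs_left (X Y : PFin H) : Divs X (X * Y) := ⟨1, Y, by rw [one_mul]⟩

theorem divs_right (X Y : PFin H) : Divs Y (X * Y) := ⟨X, 1, by rw [mul_one]⟩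

theorem unitDivisor_iff {X : PFin H} : UnitDivisor X ↔ X = 1 := by
  constructor
  · intro h
    exact divs_antisymm h ⟨X, 1, by simp⟩
  · rintro rfl
    exact ⟨1, 1, by simp⟩

theorem irred_iff {X : PFin H} :
    IsIrred X ↔ X ≠ 1 ∧ ∀ B C : PFin H, B * C = X → B = X ∨ C = X := by
  unfold IsIrred
  rw [unitDivisor_iff]
  constructor
  · rintro ⟨h1, h2⟩
    refine ⟨h1, ?_⟩
    intro B C hBC
    by_contra hcon
    push Not at hcon
    apply h2
    refine ⟨B, C, hBC.symm, ⟨hBC ▸ divs_left B C, ?_⟩, ⟨hBC ▸ divs_right B C, ?_⟩, ?_, ?_⟩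
    · intro h; exact hcon.1 (divs_antisymm (hBC ▸ divs_left B C) h)
    · intro h; exact hcon.2 (divs_antisymm (hBC ▸ divs_right B C) h)
    · rw [unitDivisor_iff]; rintro rfl; rw [one_mul] at hBC; exact hcon.2 hBC
    · rw [unitDivisor_iff]; rintro rfl; rw [mul_one] at hBC; exact hcon.1 hBC
  · rintro ⟨h1, h2⟩
    refine ⟨h1, ?_⟩
    rintro ⟨B, C, hBC, hB, hC, -, -⟩
    rcases h2 B C hBC.symm with h | h
    · apply hB.2; rw [h]; exact ⟨1, 1, by simp⟩
    · apply hC.2; rw [h]; exact ⟨1, 1, by simp⟩

/-- Two-element sets. -/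
noncomputable def two (h : H) : PFin H := ⟨{1, h}, by show (1 : H) ∈ ({1, h} : Finset H); simp⟩

theorem two_val (h : H) : (two h).1 = {1, h} := rfl

theorem irred_two {h : H} (hh : h ≠ 1) : IsIrred (two h) := by
  rw [irred_iff]
  constructor
  · intro h1
    have : h ∈ (1 : PFin H).1 := by rw [← h1, two_val]; simp
    have h2 : (1 : PFin H).1 = {1} := rfl
    rw [h2, Finset.mem_singleton] at this
    exact hh this
  · intro B C hBC
    by_contra hcon
    push Not at hcon
    have key : ∀ B : PFin H, B.1 ⊆ (two h).1 → B ≠ two h → B = 1 := by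
      intro B hB hne
      apply Subtype.ext
      have h2 : (1 : PFin H).1 = {1} := rfl
      rw [h2]
      apply Finset.Subset.antisymm
      · intro x hx
        have hx' := hB hx
        rw [two_val, Finset.mem_insert, Finset.mem_singleton] at hx'
        rw [Finset.mem_singleton]
        rcases hx' with h3 | h3
        · exact h3
        · exfalso
          apply hne
          apply Subtype.ext
          apply Finset.Subset.antisymm hB
          rw [two_val]
          intro z hz
          rw [Finset.mem_insert, Finset.mem_singleton] at hz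
          rcases hz with rfl | rfl
          · exact B.2
          · rw [← h3]; exact hx
      · intro x hx
        rw [Finset.mem_singleton] at hx
        rw [hx]; exact B.2
    have hB := key B (by rw [← hBC]; exact sub_mul_left B C) hcon.1
    rw [hB, one_mul] at hBC
    exact hcon.2 hBC

/-- Zero is a length only of the identity. -/
theorem zero_mem_iff {X : PFin H} : 0 ∈ LengthSet X ↔ X = 1 := by
  constructor
  · rintro ⟨l, hl, -, hp⟩
    rw [List.length_eq_zero_iff] at hl
    rw [hl] at hp
    simpa using hp.symm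
  · rintro rfl
    exact ⟨[], rfl, by simp, by simp⟩

theorem length_one {k : ℕ} (h : k ∈ LengthSet (1 : PFin H)) : k = 0 := by
  obtain ⟨l, hl, hirr, hp⟩ := h
  cases l with
  | nil => simpa using hl.symm
  | cons a l =>
    exfalso
    have h1 := (hirr a (List.mem_cons_self ..)).1
    apply h1
    rw [List.prod_cons] at hp
    exact ⟨1, l.prod, by rw [one_mul, hp]⟩

theorem one_mem_iff {X : PFin H} : 1 ∈ LengthSet X ↔ IsIrred X := by
  constructor
  · rintro ⟨l, hl, hirr, hp⟩
    obtain ⟨a, rfl⟩ := List.length_eq_one_iff.mp hl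
    rw [List.prod_singleton] at hp
    rw [← hp]
    exact hirr a (by simp)
  · intro h
    exact ⟨[X], rfl, by simpa using h, by simp⟩

theorem add_mem {X Y : PFin H} {j k : ℕ} (hj : j ∈ LengthSet X) (hk : k ∈ LengthSet Y) :
    j + k ∈ LengthSet (X * Y) := by
  obtain ⟨l, rfl, h1, rfl⟩ := hj
  obtain ⟨l', rfl, h1', rfl⟩ := hk
  refine ⟨l ++ l', by simp, ?_, by simp⟩
  intro a ha
  rw [List.mem_append] at ha
  exact ha.elim (h1 a) (h1' a)

theorem pow_mem {X : PFin H} (hX : IsIrred X) (k : ℕ) : k ∈ LengthSet (X ^ k) :=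
  ⟨List.replicate k X, by simp, by intro a ha; rw [List.eq_of_mem_replicate ha]; exact hX, by simp⟩

/-- If `A X = X` for an irreducible `A`, then the length set of `X` is closed upwards. -/
theorem up_left {A X : PFin H} (hA : IsIrred A) (h : A * X = X) {k l : ℕ} (hk : k ∈ LengthSet X)
    (hkl : k ≤ l) : l ∈ LengthSet X := by
  induction l, hkl using Nat.le_induction with
  | base => exact hk
  | succ n _ ih =>
    have := add_mem (one_mem_iff.mpr hA) ih
    rw [h, add_comm] at this
    exact this

theorem up_right {A X : PFin H} (hA : IsIrred A) (h : X * A = X) {k l : ℕ} (hk : k ∈ LengthSet X)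
    (hkl : k ≤ l) : l ∈ LengthSet X := by
  induction l, hkl using Nat.le_induction with
  | base => exact hk
  | succ n _ ih =>
    have := add_mem ih (one_mem_iff.mpr hA)
    rw [h] at this
    exact this

/-- An irreducible with a length at least two has all positive lengths. -/
theorem irred_long {X : PFin H} (hX : IsIrred X) {m : ℕ} (hm : m ∈ LengthSet X) (h2 : m ≠ 1)
    (n : ℕ) (hn : 1 ≤ n) : n ∈ LengthSet X := by
  have hX' := irred_iff.mp hX
  obtain ⟨l, hl, hirr, hp⟩ := hm
  match l, hl with
  | [], hl =>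
    exfalso
    apply hX'.1
    rw [← hp]; simp
  | [a], hl =>
    exfalso; apply h2; rw [← hl]; simp
  | a :: b :: t, hl =>
    rw [List.prod_cons] at hp
    have ha := hirr a (by simp)
    have hb := hirr b (by simp)
    rcases hX'.2 _ _ hp with h | h
    · -- `a = X`
      rw [h, List.prod_cons] at hp
      have hXb : X * b = X := by
        apply Subtype.ext
        apply Finset.Subset.antisymm
        · have h3 : (X * b).1 ⊆ (X * b * t.prod).1 := sub_mul_left _ _
          rw [mul_assoc, hp] at h3
          exact h3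
        · exact sub_mul_left _ _
      exact up_right hb hXb (one_mem_iff.mpr hX) hn
    · rw [h] at hp
      exact up_left ha hp (one_mem_iff.mpr hX) hn

/-! ### Intervals -/

theorem interval_Ici (a : ℕ) : IsInterval (Set.Ici a) := by
  refine ⟨a, ⊤, ?_⟩
  ext x
  simp

theorem interval_Icc (a b : ℕ) : IsInterval (Set.Icc a b) := by
  refine ⟨a, b, ?_⟩
  ext x
  simp

theorem interval_empty : IsInterval ∅ := by
  refine ⟨1, 0, ?_⟩
  ext x
  simp only [Set.mem_empty_iff_false, Set.mem_ofPred_eq, false_iff, not_and, not_le]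
  intro h
  exact lt_of_lt_of_le (by norm_num) h

theorem union_pos {k n : ℕ} (hk : 1 ≤ k) (hn : n ∈ UnionLengths (PFin H) k) : 1 ≤ n := by
  obtain ⟨X, h1, h2⟩ := hn
  rcases Nat.eq_zero_or_pos n with rfl | h
  · rw [zero_mem_iff] at h2
    rw [h2] at h1
    have := length_one h1
    omega
  · exact h

/-- If `1 ∈ 𝒰_k` with `k ≥ 2` then `𝒰_k` contains all positive integers. -/
theorem one_mem_union {k : ℕ} (hk : k ≠ 1) (h : 1 ∈ UnionLengths (PFin H) k) {n : ℕ} (hn : 1 ≤ n) :
    n ∈ UnionLengths (PFin H) k := by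
  obtain ⟨X, h1, h2⟩ := h
  exact ⟨X, h1, irred_long (one_mem_iff.mp h2) h1 hk n hn⟩

theorem union_ici {k a : ℕ} (hk : 2 ≤ k) (ha : a ≤ 3)
    (h : ∀ n, a ≤ n → n ∈ UnionLengths (PFin H) k) :
    IsInterval (UnionLengths (PFin H) k) := by
  by_cases h1 : 1 ∈ UnionLengths (PFin H) k
  · convert interval_Ici 1 using 1
    ext n
    exact ⟨fun hn => union_pos (by omega) hn, fun hn => one_mem_union (by omega) h1 hn⟩
  by_cases h2 : 2 ∈ UnionLengths (PFin H) k
  · convert interval_Ici 2 using 1
    ext n
    constructor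
    · intro hn
      have := union_pos (by omega) hn
      have h3 : n ≠ 1 := by rintro rfl; exact h1 hn
      show 2 ≤ n
      omega
    · intro hn
      rcases Nat.eq_or_lt_of_le (show 2 ≤ n from hn) with rfl | h3
      · exact h2
      · exact h n (by omega)
  · convert interval_Ici 3 using 1
    ext n
    constructor
    · intro hn
      have := union_pos (by omega) hn
      have h3 : n ≠ 1 := by rintro rfl; exact h1 hn
      have h4 : n ≠ 2 := by rintro rfl; exact h2 hn
      show 3 ≤ n
      omega
    · intro hn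
      exact h n (le_trans ha hn)

/-- `𝒰_1` is always an interval. -/
theorem union_one : IsInterval (UnionLengths (PFin H) 1) := by
  by_cases h : ∃ n, n ≠ 1 ∧ n ∈ UnionLengths (PFin H) 1
  · obtain ⟨m, hm, X, hX1, hX2⟩ := h
    convert interval_Ici 1 using 1
    ext n
    exact ⟨fun hn => union_pos le_rfl hn,
      fun hn => ⟨X, hX1, irred_long (one_mem_iff.mp hX1) hX2 hm n hn⟩⟩
  · push Not at h
    by_cases h1 : 1 ∈ UnionLengths (PFin H) 1
    · convert interval_Icc 1 1 using 1
      ext n
      rw [Set.Icc_self, Set.mem_singleton_iff]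
      constructor
      · intro hn
        by_contra hne
        exact h n hne hn
      · rintro rfl; exact h1
    · convert interval_empty using 1
      ext n
      simp only [Set.mem_empty_iff_false, iff_false]
      intro hn
      by_cases hne : n = 1
      · rw [hne] at hn; exact h1 hn
      · exact h n hne hn

/-- A product of two irreducibles absorbing an irreducible. -/
theorem union_of_absorb {A B D : PFin H} (hA : IsIrred A) (hB : IsIrred B) (hD : IsIrred D)
    (h : D * (A * B) = A * B) {k : ℕ} (hk : 2 ≤ k) : IsInterval (UnionLengths (PFin H) k) := by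
  have h2 : 2 ∈ LengthSet (A * B) := add_mem (one_mem_iff.mpr hA) (one_mem_iff.mpr hB)
  apply union_ici hk (by norm_num : 2 ≤ 3)
  intro n hn
  exact ⟨A * B, up_left hD h h2 hk, up_left hD h h2 hn⟩

/-- Case 1: an element `h ≠ 1` with `h² = 1` or `h² = h`. -/
theorem union_case1 {h : H} (hh : h ≠ 1) (h2 : h * h = 1 ∨ h * h = h) {k : ℕ} (hk : 1 ≤ k) :
    IsInterval (UnionLengths (PFin H) k) := by
  have hirr := irred_two hh
  have hidem : two h * two h = two h := by
    apply Subtype.ext
    rw [coe_mul', two_val]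
    ext x
    simp only [Finset.mem_mul, Finset.mem_insert, Finset.mem_singleton]
    constructor
    · rintro ⟨a, ha, b, hb, rfl⟩
      rcases ha with rfl | rfl <;> rcases hb with rfl | rfl
      · left; simp
      · right; simp
      · right; simp
      · rcases h2 with h2 | h2
        · left; exact h2
        · right; exact h2
    · rintro (rfl | rfl)
      · exact ⟨1, by simp, 1, by simp, by simp⟩
      · exact ⟨1, by simp, x, by simp, by simp⟩
  convert interval_Ici 1 using 1
  ext n
  constructor
  · exact fun hn => union_pos hk hn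
  · intro hn
    exact ⟨two h, up_left hirr hidem (one_mem_iff.mpr hirr) hk,
      up_left hirr hidem (one_mem_iff.mpr hirr) hn⟩

end Pool.Agent.V11297.PowMon
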