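import Mathlib
import Pool.Agent.V11297.PowMon2

/-!
# Minimal factorizations: a seven-element monoid
-/

open scoped Pointwise

namespace Pool.Agent.V11297.PowMon

section General

variable {M : Type*} [Monoid M]

/-- `l` is a factorization of `x` into irreducibles. -/
def IsFactorization (l : List M) (x : M) : Prop := (∀ a ∈ l, IsIrred a) ∧ l.prod = x

/-- `x ≃_M y`: `x` and `y` divide each other. -/
def DivEquiv (x y : M) : Prop := Divs x y ∧ Divs y x

/-- `l` is a minimal factorization of `x`. -/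
def IsMinimalFactorization (l : List M) (x : M) : Prop :=
  IsFactorization l x ∧ ¬ ∃ l' : List M, IsFactorization l' x ∧ l'.length < l.length ∧
    ∃ τ : Fin l'.length → Fin l.length, Function.Injective τ ∧
      ∀ i, DivEquiv (l'.get i) (l.get (τ i))

/-- The set `L^m_M(x)` of lengths of minimal factorizations. -/
def MinLengthSet (x : M) : Set ℕ := {m | ∃ l : List M, l.length = m ∧ IsMinimalFactorization l x}

/-- `𝒰^m_k(M)`: the union of the sets `L^m_M(x)` containing `k`. -/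
def UnionMinLengths (M : Type*) [Monoid M] (k : ℕ) : Set ℕ :=
  {n | ∃ x : M, k ∈ MinLengthSet x ∧ n ∈ MinLengthSet x}

end General

open Classical in
theorem mem_mul_iff' {H : Type*} [Monoid H] (X Y : PFin H) (t : H) :
    t ∈ (X * Y).1 ↔ ∃ x, x ∈ X.1 ∧ ∃ y, y ∈ Y.1 ∧ x * y = t := by
  rw [coe_mul', Finset.mem_mul]

/-- A monoid with seven elements. -/
inductive E7 | e | a1 | a2 | a3 | a4 | a5 | a6

namespace E7

/-- The multiplication: `e` is the identity, `a1` and `a4` are left zeros; `a2 x = a3 x = a1` and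
`a5 x = a4` for `x = a1, …, a5`; `a2 a6 = a3 a6 = a2`, `a5 a6 = a5`; `a6` fixes `a1, a2, a3, a6` on the left and `a6 a4 = a1`,
`a6 a5 = a2`. -/
def mul : E7 → E7 → E7
  | e, x => x
  | a1, _ => a1
  | a4, _ => a4
  | a2, e => a2
  | a2, a6 => a2
  | a2, _ => a1
  | a3, e => a3
  | a3, a6 => a2
  | a3, _ => a1
  | a5, e => a5
  | a5, a6 => a5
  | a5, _ => a4
  | a6, e => a6
  | a6, a4 => a1
  | a6, a5 => a2
  | a6, x => x

instance : Monoid E7 where
  mul := mul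
  one := e
  mul_assoc := by
    intro a b c
    show mul (mul a b) c = mul a (mul b c)
    cases a <;> cases b <;> cases c <;> rfl
  one_mul := fun _ => rfl
  mul_one := by
    intro a
    show mul a e = a
    cases a <;> rfl

theorem one_eq : (1 : E7) = e := rfl

theorem mul_eq (x y : E7) : x * y = mul x y := rfl

theorem exists_iff {p : E7 → Prop} : (∃ x, p x) ↔ p e ∨ p a1 ∨ p a2 ∨ p a3 ∨ p a4 ∨ p a5 ∨ p a6 := by
  constructor
  · rintro ⟨x, hx⟩
    cases x <;> tauto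
  · rintro (h | h | h | h | h | h | h) <;> exact ⟨_, h⟩

end E7

open E7

/-- Multiplication of masks. -/
def mulM (x y : ℕ) : ℕ :=
  x ||| y |||
    (if (x &&& 6 ≠ 0 ∧ y &&& 31 ≠ 0) ∨ (x &&& 32 ≠ 0 ∧ y &&& 8 ≠ 0) then 1 else 0) |||
    (if (x &&& 4 ≠ 0 ∧ y &&& 32 ≠ 0) ∨ (x &&& 32 ≠ 0 ∧ y &&& 16 ≠ 0) then 2 else 0) |||
    (if x &&& 16 ≠ 0 ∧ y &&& 31 ≠ 0 then 8 else 0)

/-- The mask attached to six truth values. -/
def encB (b1 b2 b3 b4 b5 b6 : Bool) : ℕ :=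
  b1.toNat + 2 * b2.toNat + 4 * b3.toNat + 8 * b4.toNat + 16 * b5.toNat + 32 * b6.toNat

theorem encB_mul : ∀ x1 x2 x3 x4 x5 x6 y1 y2 y3 y4 y5 y6 : Bool,
    mulM (encB x1 x2 x3 x4 x5 x6) (encB y1 y2 y3 y4 y5 y6) =
      encB (x1 || y1 || ((x2 || x3) && (y1 || y2 || y3 || y4 || y5)) || (x6 && y4))
        (x2 || y2 || (x3 && y6) || (x6 && y5))
        (x3 || y3)
        (x4 || y4 || (x5 && (y1 || y2 || y3 || y4 || y5)))
        (x5 || y5)
        (x6 || y6) := by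
  decide +kernel

theorem encB_lt : ∀ x1 x2 x3 x4 x5 x6 : Bool, encB x1 x2 x3 x4 x5 x6 < 64 := by
  decide +kernel

theorem encB_inj : ∀ x1 x2 x3 x4 x5 x6 y1 y2 y3 y4 y5 y6 : Bool,
    encB x1 x2 x3 x4 x5 x6 = encB y1 y2 y3 y4 y5 y6 →
      x1 = y1 ∧ x2 = y2 ∧ x3 = y3 ∧ x4 = y4 ∧ x5 = y5 ∧ x6 = y6 := by
  decide +kernel

theorem encB_surj : ∀ m < 64, ∃ b1 b2 b3 b4 b5 b6 : Bool, encB b1 b2 b3 b4 b5 b6 = m := by
  decide +kernel

/-- The masks of the irreducibles. -/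
def irrs : List ℕ := [1, 2, 4, 6, 8, 16, 18, 20, 22, 32, 52]

theorem irrs_dec : ∀ m ∈ List.range 64, m = 0 ∨ m ∈ irrs ∨
    ∃ b ∈ List.range 64, ∃ c ∈ List.range 64, mulM b c = m ∧ b ≠ m ∧ c ≠ m := by
  decide +kernel

theorem irrs_dec' : ∀ m ∈ irrs, ∀ b ∈ List.range 64, ∀ c ∈ List.range 64,
    mulM b c = m → b = m ∨ c = m := by
  decide +kernel

/-- The product of a word of masks. -/
def prodM : List ℕ → ℕ
  | [] => 0
  | a :: l => mulM a (prodM l)

/-- Selection of an element. -/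
def sel (b1 b2 b3 b4 b5 b6 : Bool) : E7 → Bool
  | e => true
  | a1 => b1
  | a2 => b2
  | a3 => b3
  | a4 => b4
  | a5 => b5
  | a6 => b6

open Classical

/-- The mask of an element of the power monoid. -/
noncomputable def enc (X : PFin E7) : ℕ :=
  encB (decide (a1 ∈ X.1)) (decide (a2 ∈ X.1)) (decide (a3 ∈ X.1)) (decide (a4 ∈ X.1))
    (decide (a5 ∈ X.1)) (decide (a6 ∈ X.1))

theorem e_mem (X : PFin E7) : e ∈ X.1 := X.2

theorem enc_lt (X : PFin E7) : enc X < 64 := encB_lt _ _ _ _ _ _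

theorem enc_inj {X Y : PFin E7} (h : enc X = enc Y) : X = Y := by
  classical
  obtain ⟨h1, h2, h3, h4, h5, h6⟩ := encB_inj _ _ _ _ _ _ _ _ _ _ _ _ h
  simp only [decide_eq_decide] at h1 h2 h3 h4 h5 h6
  apply Subtype.ext
  ext x
  cases x
  · exact ⟨fun _ => e_mem Y, fun _ => e_mem X⟩
  · exact h1
  · exact h2
  · exact h3
  · exact h4
  · exact h5
  · exact h6

theorem enc_mul (X Y : PFin E7) : enc (X * Y) = mulM (enc X) (enc Y) := by
  classical
  unfold enc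
  rw [encB_mul]
  have hX : e ∈ X.1 := e_mem X
  have hY : e ∈ Y.1 := e_mem Y
  have key : ∀ t : E7, t ∈ (X * Y).1 ↔ ∃ x, x ∈ X.1 ∧ ∃ y, y ∈ Y.1 ∧ mul x y = t := by
    intro t
    exact mem_mul_iff' X Y t
  have k1 : a1 ∈ (X * Y).1 ↔ (a1 ∈ X.1 ∨ a1 ∈ Y.1 ∨ ((a2 ∈ X.1 ∨ a3 ∈ X.1) ∧ (a1 ∈ Y.1 ∨ a2 ∈ Y.1 ∨ a3 ∈ Y.1 ∨ a4 ∈ Y.1 ∨ a5 ∈ Y.1)) ∨ (a6 ∈ X.1 ∧ a4 ∈ Y.1)) := by
    rw [key]
    simp only [exists_iff, mul, hX, hY, true_and, reduceCtorEq, and_false, false_or, or_false, and_true]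
    grind
  have k2 : a2 ∈ (X * Y).1 ↔ (a2 ∈ X.1 ∨ a2 ∈ Y.1 ∨ (a3 ∈ X.1 ∧ a6 ∈ Y.1) ∨ (a6 ∈ X.1 ∧ a5 ∈ Y.1)) := by
    rw [key]
    simp only [exists_iff, mul, hX, hY, true_and, reduceCtorEq, and_false, false_or, or_false, and_true]
    grind
  have k3 : a3 ∈ (X * Y).1 ↔ (a3 ∈ X.1 ∨ a3 ∈ Y.1) := by
    rw [key]
    simp only [exists_iff, mul, hX, hY, true_and, reduceCtorEq, and_false, false_or, or_false, and_true]
    grind
  have k4 : a4 ∈ (X * Y).1 ↔ (a4 ∈ X.1 ∨ a4 ∈ Y.1 ∨ (a5 ∈ X.1 ∧ (a1 ∈ Y.1 ∨ a2 ∈ Y.1 ∨ a3 ∈ Y.1 ∨ a4 ∈ Y.1 ∨ a5 ∈ Y.1))) := by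
    rw [key]
    simp only [exists_iff, mul, hX, hY, true_and, reduceCtorEq, and_false, false_or, or_false, and_true]
    grind
  have k5 : a5 ∈ (X * Y).1 ↔ (a5 ∈ X.1 ∨ a5 ∈ Y.1) := by
    rw [key]
    simp only [exists_iff, mul, hX, hY, true_and, reduceCtorEq, and_false, false_or, or_false, and_true]
    grind
  have k6 : a6 ∈ (X * Y).1 ↔ (a6 ∈ X.1 ∨ a6 ∈ Y.1) := by
    rw [key]
    simp only [exists_iff, mul, hX, hY, true_and, reduceCtorEq, and_false, false_or, or_false, and_true]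
    grind
  simp only [k1, k2, k3, k4, k5, k6, Bool.decide_or, Bool.decide_and, Bool.or_assoc]

/-- The list of the elements of `E7`. -/
noncomputable def elts : Finset E7 := {e, a1, a2, a3, a4, a5, a6}

/-- The element of the power monoid with given truth values. -/
noncomputable def mk (b1 b2 b3 b4 b5 b6 : Bool) : PFin E7 :=
  ⟨elts.filter (fun x => sel b1 b2 b3 b4 b5 b6 x = true),
    by show (1 : E7) ∈ elts.filter _; rw [Finset.mem_filter]; exact ⟨by simp [elts, one_eq], rfl⟩⟩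

theorem enc_mk (b1 b2 b3 b4 b5 b6 : Bool) : enc (mk b1 b2 b3 b4 b5 b6) = encB b1 b2 b3 b4 b5 b6 := by
  unfold enc mk
  simp [elts, sel]

theorem enc_surj {m : ℕ} (hm : m < 64) : ∃ X : PFin E7, enc X = m := by
  obtain ⟨b1, b2, b3, b4, b5, b6, h⟩ := encB_surj m hm
  exact ⟨mk b1 b2 b3 b4 b5 b6, by rw [enc_mk, h]⟩

theorem enc_one : enc (1 : PFin E7) = 0 := by
  have h1 : ∀ x : E7, x ∈ (1 : PFin E7).1 ↔ x = e := by
    intro x
    show x ∈ (1 : Finset E7) ↔ _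
    rw [Finset.mem_one]
    rfl
  unfold enc
  simp only [h1]
  simp
  decide

theorem irred_enc {X : PFin E7} : IsIrred X ↔ enc X ∈ irrs := by
  rw [irred_iff]
  constructor
  · rintro ⟨h1, h2⟩
    rcases irrs_dec (enc X) (List.mem_range.2 (enc_lt X)) with h0 | h0 | ⟨b, hb, c, hc, hbc, hb', hc'⟩
    · exact absurd (enc_inj (by rw [h0, enc_one])) h1
    · exact h0
    · exfalso
      obtain ⟨B, rfl⟩ := enc_surj (List.mem_range.1 hb)
      obtain ⟨C, rfl⟩ := enc_surj (List.mem_range.1 hc)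
      have : B * C = X := enc_inj (by rw [enc_mul, hbc])
      rcases h2 B C this with h | h
      · exact hb' (by rw [h])
      · exact hc' (by rw [h])
  · intro h
    constructor
    · rintro rfl
      rw [enc_one] at h
      revert h
      decide
    · intro B C hBC
      rcases irrs_dec' _ h _ (List.mem_range.2 (enc_lt B)) _ (List.mem_range.2 (enc_lt C))
        (by rw [← enc_mul, hBC]) with h | h
      · exact Or.inl (enc_inj h)
      · exact Or.inr (enc_inj h)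

theorem enc_prod (l : List (PFin E7)) : enc l.prod = prodM (l.map enc) := by
  induction l with
  | nil => exact enc_one
  | cons a l ih => rw [List.prod_cons, enc_mul, ih]; rfl

end Pool.Agent.V11297.PowMon
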