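import Mathlib
import Pool.Agent.V11297.PowCex2

/-!
# Minimal factorizations: the counterexample, conclusion
-/

open scoped Pointwise

namespace Pool.Agent.V11297.PowMon

open E7

open Classical

theorem divEquiv_iff {H : Type*} [Monoid H] {X Y : PFin H} : DivEquiv X Y ↔ X = Y :=
  ⟨fun h => divs_antisymm h.1 h.2, by rintro rfl; exact ⟨⟨1, 1, by simp⟩, ⟨1, 1, by simp⟩⟩⟩

theorem not_min {l : List (PFin E7)} {X : PFin E7} (hl : IsMinimalFactorization l X) (p : List ℕ)
    (hp : p.Nodup) (hi : ∀ i ∈ p, i < l.length) (hlen : p.length < l.length) :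
    prodM (p.map (fun i => (l.map enc).getD i 0)) ≠ prodM (l.map enc) := by
  intro h
  apply hl.2
  refine ⟨p.map (fun i => l.getD i 1), ⟨?_, ?_⟩, by simpa using hlen, ?_⟩
  · intro a ha
    obtain ⟨i, hi', rfl⟩ := List.mem_map.1 ha
    rw [List.getD_eq_getElem _ _ (hi i hi')]
    exact hl.1.1 _ (List.getElem_mem _)
  · rw [← hl.1.2]
    apply enc_inj
    rw [enc_prod, enc_prod, ← h, List.map_map]
    congr 1
    apply List.map_congr_left
    intro i hi'
    have h1 := hi i hi'
    have h2 : i < (l.map enc).length := by simpa using h1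
    rw [Function.comp_apply, List.getD_eq_getElem _ _ h1, List.getD_eq_getElem _ _ h2,
      List.getElem_map]
  · have hlp : (p.map (fun i => l.getD i 1)).length = p.length := by simp
    refine ⟨fun j => ⟨p[j.1]'(hlp ▸ j.2), hi _ (List.getElem_mem _)⟩, ?_, ?_⟩
    · intro j j' hj
      have := congrArg Fin.val hj
      simp only at this
      exact Fin.ext ((List.Nodup.getElem_inj_iff hp).1 this)
    · intro j
      rw [divEquiv_iff]
      have hj : j.1 < p.length := hlp ▸ j.2
      rw [List.get_eq_getElem, List.getElem_map, List.get_eq_getElem,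
        List.getD_eq_getElem _ _ (hi _ (List.getElem_mem hj))]

theorem enc_two1 : enc (two a1) = 1 := by
  unfold enc; simp only [two_val]; simp [one_eq]; decide

theorem enc_two3 : enc (two a3) = 4 := by
  unfold enc; simp only [two_val]; simp [one_eq]; decide

theorem enc_two5 : enc (two a5) = 16 := by
  unfold enc; simp only [two_val]; simp [one_eq]; decide

theorem enc_two6 : enc (two a6) = 32 := by
  unfold enc; simp only [two_val]; simp [one_eq]; decide

/-- The element with minimal length set `{2, 4}`. -/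
noncomputable def X0 : PFin E7 := [two a5, two a6, two a3, two a1].prod

/-- The block of three elements. -/
noncomputable def B0 : PFin E7 := mk false false true false true true

theorem enc_B0 : enc B0 = 52 := by
  unfold B0
  rw [enc_mk]
  decide

theorem enc_X0 : enc X0 = 61 := by
  unfold X0
  rw [enc_prod]
  simp only [List.map_cons, List.map_nil, enc_two1, enc_two3, enc_two5, enc_two6]
  decide

theorem min_of (l : List (PFin E7)) (hirr : ∀ a ∈ l, IsIrred a)
    (h : ∀ p : List ℕ, p.Nodup → (∀ i ∈ p, i < l.length) → p.length < l.length →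
      prodM (p.map (fun i => (l.map enc).getD i 0)) ≠ enc l.prod) :
    IsMinimalFactorization l l.prod := by
  refine ⟨⟨hirr, rfl⟩, ?_⟩
  rintro ⟨l', ⟨-, hprod⟩, hlen, τ, hτ, hd⟩
  apply h (List.ofFn (fun i => (τ i).1))
    (by rw [List.nodup_ofFn]; exact fun a b h => hτ (Fin.ext h))
    (by intro i hi; obtain ⟨j, rfl⟩ := (List.mem_ofFn' _ _).1 hi; exact (τ j).2)
    (by rw [List.length_ofFn]; exact hlen)
  have h3 : l'.map enc = (List.ofFn (fun i => (τ i).1)).map (fun i => (l.map enc).getD i 0) := by
    apply List.ext_getElem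
    · simp
    · intro i hi1 hi2
      have hi3 : i < l'.length := by simpa using hi1
      rw [List.getElem_map, List.getElem_map, List.getElem_ofFn]
      have h4 := divEquiv_iff.1 (hd ⟨i, hi3⟩)
      rw [List.get_eq_getElem, List.get_eq_getElem] at h4
      simp only at h4
      rw [h4]
      have h5 : (τ ⟨i, hi3⟩).1 < (l.map enc).length := by
        rw [List.length_map]; exact (τ ⟨i, hi3⟩).2
      rw [List.getD_eq_getElem _ _ h5, List.getElem_map]
  rw [← h3, ← enc_prod, hprod]

theorem four_mem : 4 ∈ MinLengthSet X0 := by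
  refine ⟨[two a5, two a6, two a3, two a1], rfl, ?_⟩
  have hle : [two a5, two a6, two a3, two a1].map enc = [16, 32, 4, 1] := by
    simp only [List.map_cons, List.map_nil, enc_two1, enc_two3, enc_two5, enc_two6]
  apply min_of
  · intro a ha
    rw [irred_enc]
    simp only [List.mem_cons, List.not_mem_nil, or_false] at ha
    rcases ha with rfl | rfl | rfl | rfl
    · rw [enc_two5]; decide
    · rw [enc_two6]; decide
    · rw [enc_two3]; decide
    · rw [enc_two1]; decide
  · intro p hp hi hl
    rw [hle]
    have h1 := arr4_complete p hp hi hl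
    have h2 := enc_X0
    unfold X0 at h2
    rw [h2]
    exact claimC _ h1

theorem two_mem : 2 ∈ MinLengthSet X0 := by
  refine ⟨[B0, two a1], rfl, ⟨?_, ?_⟩, ?_⟩
  · intro a ha
    rw [irred_enc]
    simp only [List.mem_cons, List.not_mem_nil, or_false] at ha
    rcases ha with rfl | rfl
    · rw [enc_B0]; decide
    · rw [enc_two1]; decide
  · apply enc_inj
    rw [enc_prod, enc_X0]
    simp only [List.map_cons, List.map_nil, enc_two1, enc_B0]
    decide
  · rintro ⟨l', ⟨-, hprod⟩, hlen, τ, hτ, hd⟩
    match l', hprod, hlen, τ, hτ, hd with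
    | [], hprod, _, _, _, _ =>
      have := congrArg enc hprod
      rw [enc_X0, List.prod_nil, enc_one] at this
      omega
    | [a], hprod, _, τ, _, hd =>
      have h1 := divEquiv_iff.1 (hd ⟨0, by simp⟩)
      have h2 := congrArg enc hprod
      rw [enc_X0, List.prod_singleton] at h2
      have h3 : a = B0 ∨ a = two a1 := by
        have h4 : a ∈ [B0, two a1] := by
          have h5 : ([a] : List (PFin E7)).get ⟨0, by simp⟩ = a := rfl
          rw [← h5, h1]
          exact List.get_mem _ _
        simpa using h4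
      rcases h3 with rfl | rfl
      · rw [enc_B0] at h2; omega
      · rw [enc_two1] at h2; omega
    | _ :: _ :: _, _, hlen, _, _, _ => simp at hlen

theorem three_not_mem {X : PFin E7} (h4 : 4 ∈ MinLengthSet X) (h3 : 3 ∈ MinLengthSet X) : False := by
  have hX : enc X = 61 := by
    obtain ⟨l, hlen, hl⟩ := h4
    match l, hlen, hl with
    | [a, b, c, d], _, hl =>
      have ha := irred_enc.1 (hl.1.1 a (by simp))
      have hb := irred_enc.1 (hl.1.1 b (by simp))
      have hc := irred_enc.1 (hl.1.1 c (by simp))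
      have hd := irred_enc.1 (hl.1.1 d (by simp))
      rcases claimA ha hb hc hd with h | ⟨p, hp, h⟩
      · rw [← hl.1.2, enc_prod]
        exact h
      · obtain ⟨h1, h2, h3⟩ := arrA_spec p hp
        exact absurd h (not_min hl p h1 h2 h3)
  obtain ⟨l, hlen, hl⟩ := h3
  match l, hlen, hl with
  | [a, b, c], _, hl =>
    have ha := irred_enc.1 (hl.1.1 a (by simp))
    have hb := irred_enc.1 (hl.1.1 b (by simp))
    have hc := irred_enc.1 (hl.1.1 c (by simp))
    rcases claimB ha hb hc with h | ⟨p, hp, h⟩
    · apply h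
      rw [← hX, ← hl.1.2, enc_prod]
      rfl
    · obtain ⟨h1, h2, h3⟩ := arrB_spec p hp
      exact absurd h (not_min hl p h1 h2 h3)

theorem not_interval_four : ¬ IsInterval (UnionMinLengths (PFin E7) 4) := by
  rintro ⟨a, b, hab⟩
  have h2 : 2 ∈ UnionMinLengths (PFin E7) 4 := ⟨X0, four_mem, two_mem⟩
  have h4 : 4 ∈ UnionMinLengths (PFin E7) 4 := ⟨X0, four_mem, four_mem⟩
  have h3 : 3 ∉ UnionMinLengths (PFin E7) 4 := fun ⟨X, hX4, hX3⟩ => three_not_mem hX4 hX3
  rw [hab] at h2 h3 h4
  apply h3
  refine ⟨h2.1.trans ?_, le_trans ?_ h4.2⟩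
  · exact_mod_cast (by norm_num : (2 : ℕ) ≤ 3)
  · exact_mod_cast (by norm_num : (3 : ℕ) ≤ 4)

end Pool.Agent.V11297.PowMon
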