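import Mathlib
import Pool.Agent.V11297.PowMon2

/-!
# Sets of powers of an element
-/

open scoped Pointwise

namespace Pool.Agent.V11297.PowMon

open Classical

variable {H : Type*} [Monoid H]

/-- Irreducibility for finite sets of natural numbers containing `0`. -/
def IrrN (X : Finset ℕ) : Prop :=
  X ≠ {0} ∧ ∀ B C : Finset ℕ, 0 ∈ B → 0 ∈ C → B + C = X → B = X ∨ C = X

/-- The set of powers `h^i`, `i ∈ X` (and `1`). -/
noncomputable def pw (h : H) (X : Finset ℕ) : PFin H :=
  ⟨insert 1 (X.image fun i => h ^ i), by show (1 : H) ∈ insert 1 (X.image fun i => h ^ i); simp⟩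

theorem mem_pw {h : H} {X : Finset ℕ} (h0 : 0 ∈ X) {x : H} : x ∈ (pw h X).1 ↔ ∃ i ∈ X, h ^ i = x := by
  show x ∈ insert 1 (X.image fun i => h ^ i) ↔ _
  rw [Finset.mem_insert, Finset.mem_image]
  constructor
  · rintro (rfl | h1)
    · exact ⟨0, h0, pow_zero h⟩
    · exact h1
  · intro h1; right; exact h1

theorem pw_add {h : H} {X Y : Finset ℕ} (hX : 0 ∈ X) (hY : 0 ∈ Y) :
    pw h (X + Y) = pw h X * pw h Y := by
  apply Subtype.ext
  rw [coe_mul']
  ext x
  have h0 : 0 ∈ X + Y := by rw [Finset.mem_add]; exact ⟨0, hX, 0, hY, rfl⟩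
  rw [mem_pw h0, Finset.mem_mul]
  constructor
  · rintro ⟨i, hi, rfl⟩
    rw [Finset.mem_add] at hi
    obtain ⟨a, ha, b, hb, rfl⟩ := hi
    exact ⟨h ^ a, (mem_pw hX).mpr ⟨a, ha, rfl⟩, h ^ b, (mem_pw hY).mpr ⟨b, hb, rfl⟩, (pow_add h a b).symm⟩
  · rintro ⟨a, ha, b, hb, rfl⟩
    obtain ⟨i, hi, rfl⟩ := (mem_pw hX).mp ha
    obtain ⟨j, hj, rfl⟩ := (mem_pw hY).mp hb
    exact ⟨i + j, Finset.add_mem_add hi hj, pow_add h i j⟩

theorem irred_pw {h : H} {N : ℕ} (hinj : ∀ i ≤ 2 * N, ∀ j ≤ 2 * N, h ^ i = h ^ j → i = j)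
    {X : Finset ℕ} (h0 : 0 ∈ X) (hN : ∀ i ∈ X, i ≤ N) (hX : IrrN X) : IsIrred (pw h X) := by
  rw [irred_iff]
  constructor
  · intro h1
    obtain ⟨x, hx, hx0⟩ : ∃ x ∈ X, x ≠ 0 := by
      by_contra hcon
      push Not at hcon
      apply hX.1
      ext z
      rw [Finset.mem_singleton]
      exact ⟨fun hz => hcon z hz, fun hz => hz ▸ h0⟩
    have h2 : h ^ x ∈ (pw h X).1 := (mem_pw h0).mpr ⟨x, hx, rfl⟩
    rw [h1] at h2
    have h3 : (1 : PFin H).1 = {1} := rfl
    rw [h3, Finset.mem_singleton, ← pow_zero h] at h2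
    have := hN x hx
    exact hx0 (hinj x (by omega) 0 (by omega) h2)
  · intro B C hBC
    have hB : B.1 ⊆ (pw h X).1 := hBC ▸ sub_mul_left B C
    have hC : C.1 ⊆ (pw h X).1 := hBC ▸ sub_mul_right B C
    set B' := X.filter (fun i => h ^ i ∈ B.1) with hB'
    set C' := X.filter (fun i => h ^ i ∈ C.1) with hC'
    have hB0 : 0 ∈ B' := by rw [hB', Finset.mem_filter, pow_zero]; exact ⟨h0, B.2⟩
    have hC0 : 0 ∈ C' := by rw [hC', Finset.mem_filter, pow_zero]; exact ⟨h0, C.2⟩
    have eB : B = pw h B' := by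
      apply Subtype.ext
      ext x
      rw [mem_pw hB0]
      constructor
      · intro hx
        obtain ⟨i, hi, rfl⟩ := (mem_pw h0).mp (hB hx)
        exact ⟨i, by rw [hB', Finset.mem_filter]; exact ⟨hi, hx⟩, rfl⟩
      · rintro ⟨i, hi, rfl⟩
        rw [hB', Finset.mem_filter] at hi
        exact hi.2
    have eC : C = pw h C' := by
      apply Subtype.ext
      ext x
      rw [mem_pw hC0]
      constructor
      · intro hx
        obtain ⟨i, hi, rfl⟩ := (mem_pw h0).mp (hC hx)
        exact ⟨i, by rw [hC', Finset.mem_filter]; exact ⟨hi, hx⟩, rfl⟩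
      · rintro ⟨i, hi, rfl⟩
        rw [hC', Finset.mem_filter] at hi
        exact hi.2
    have hsum : B' + C' = X := by
      ext x
      rw [Finset.mem_add]
      constructor
      · rintro ⟨i, hi, j, hj, rfl⟩
        rw [hB', Finset.mem_filter] at hi
        rw [hC', Finset.mem_filter] at hj
        have h1 : h ^ (i + j) ∈ (pw h X).1 := by
          rw [← hBC, coe_mul', pow_add]
          exact Finset.mul_mem_mul hi.2 hj.2
        obtain ⟨x, hx, hxe⟩ := (mem_pw h0).mp h1
        have := hN i hi.1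
        have := hN j hj.1
        have := hN x hx
        have h2 := hinj x (by omega) (i + j) (by omega) hxe
        rw [← h2]; exact hx
      · intro hx
        have h1 : h ^ x ∈ (B * C).1 := by rw [hBC]; exact (mem_pw h0).mpr ⟨x, hx, rfl⟩
        rw [coe_mul', Finset.mem_mul] at h1
        obtain ⟨b, hb, c, hc, hbc⟩ := h1
        rw [eB] at hb
        rw [eC] at hc
        obtain ⟨i, hi, rfl⟩ := (mem_pw hB0).mp hb
        obtain ⟨j, hj, rfl⟩ := (mem_pw hC0).mp hc
        refine ⟨i, hi, j, hj, ?_⟩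
        rw [← pow_add] at hbc
        have h2 := hN x hx
        have h3 := hN i (Finset.mem_of_mem_filter i hi)
        have h4 := hN j (Finset.mem_of_mem_filter j hj)
        exact hinj _ (by omega) _ (by omega) hbc
    rcases hX.2 B' C' hB0 hC0 hsum with h1 | h1
    · left; rw [eB, h1]
    · right; rw [eC, h1]

theorem two_eq_pw (h : H) (d : ℕ) : two (h ^ d) = pw h {0, d} := by
  apply Subtype.ext
  ext x
  rw [mem_pw (by simp), two_val]
  simp only [Finset.mem_insert, Finset.mem_singleton]
  constructor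
  · rintro (rfl | rfl)
    · exact ⟨0, Or.inl rfl, pow_zero h⟩
    · exact ⟨d, Or.inr rfl, rfl⟩
  · rintro ⟨i, rfl | rfl, rfl⟩
    · left; exact pow_zero h
    · right; rfl

theorem range_add_two (n d : ℕ) (hd : d ≤ n) (_hn : 1 ≤ n) :
    (Finset.range n + {0, d} : Finset ℕ) = Finset.range (n + d) := by
  ext x
  simp only [Finset.mem_add, Finset.mem_range, Finset.mem_insert, Finset.mem_singleton]
  constructor
  · rintro ⟨a, ha, b, rfl | rfl, rfl⟩ <;> omega
  · intro hx
    by_cases h : x < n
    · exact ⟨x, h, 0, Or.inl rfl, rfl⟩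
    · exact ⟨x - d, by omega, d, Or.inr rfl, by omega⟩

theorem two_pow (h : H) (n : ℕ) : two h ^ n = pw h (Finset.range (n + 1)) := by
  induction n with
  | zero =>
    rw [pow_zero]
    apply Subtype.ext
    ext x
    rw [mem_pw (by simp)]
    have h3 : (1 : PFin H).1 = {1} := rfl
    rw [h3, Finset.mem_singleton]
    simp [eq_comm]
  | succ n ih =>
    rw [pow_succ, ih]
    conv_lhs => rw [← pow_one h]
    rw [pow_one h]
    have := two_eq_pw h 1
    rw [pow_one] at this
    rw [this, ← pw_add (by simp) (by simp), range_add_two _ 1 (by omega) (by omega)]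

/-! ### Families of irreducible sets of natural numbers -/

theorem mem_add_left {B C : Finset ℕ} (hC : 0 ∈ C) {b : ℕ} (hb : b ∈ B) : b ∈ B + C :=
  Finset.mem_add.mpr ⟨b, hb, 0, hC, rfl⟩

theorem mem_add_right {B C : Finset ℕ} (hB : 0 ∈ B) {c : ℕ} (hc : c ∈ C) : c ∈ B + C :=
  Finset.mem_add.mpr ⟨0, hB, c, hc, by simp⟩

theorem eq_of_zero {B C X : Finset ℕ} (hsum : B + C = X) (hC : ∀ c ∈ C, c = 0) (hC0 : 0 ∈ C) : B = X := by
  have : C = {0} := by
    ext c
    rw [Finset.mem_singleton]
    exact ⟨hC c, fun h => h ▸ hC0⟩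
  rw [← hsum, this]
  ext x
  rw [Finset.mem_add]
  constructor
  · intro hx; exact ⟨x, hx, 0, by simp, by simp⟩
  · rintro ⟨a, ha, b, hb, rfl⟩
    rw [Finset.mem_singleton] at hb
    rw [hb, add_zero]; exact ha

theorem irrN_A {u s : ℕ} (hu : 1 ≤ u) (hus : u ≤ s) (h : s < 2 * u ∨ (s = 2 * u ∧ 2 ≤ u)) :
    IrrN (insert 0 (Finset.Icc u s)) := by
  constructor
  · intro h1
    have : u ∈ insert 0 (Finset.Icc u s) := by simp [hus]
    rw [h1, Finset.mem_singleton] at this
    omega
  · intro B C hB hC hsum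
    by_contra hcon
    push Not at hcon
    have hBX : ∀ b ∈ B, b = 0 ∨ (u ≤ b ∧ b ≤ s) := by
      intro b hb
      have := mem_add_left hC hb
      rw [hsum, Finset.mem_insert, Finset.mem_Icc] at this
      exact this
    have hCX : ∀ b ∈ C, b = 0 ∨ (u ≤ b ∧ b ≤ s) := by
      intro b hb
      have := mem_add_right hB hb
      rw [hsum, Finset.mem_insert, Finset.mem_Icc] at this
      exact this
    obtain ⟨b, hb, hb0⟩ : ∃ b ∈ B, b ≠ 0 := by
      by_contra hc
      push Not at hc
      apply hcon.2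
      rw [add_comm] at hsum
      exact eq_of_zero hsum hc hB
    obtain ⟨c, hc, hc0⟩ : ∃ c ∈ C, c ≠ 0 := by
      by_contra hc
      push Not at hc
      exact hcon.1 (eq_of_zero hsum hc hC)
    have hall : ∀ b ∈ B, ∀ c ∈ C, b ≠ 0 → c ≠ 0 → b = u ∧ c = u ∧ s = 2 * u := by
      intro b hb c hc hb0 hc0
      have h1 : b + c ∈ B + C := Finset.add_mem_add hb hc
      rw [hsum, Finset.mem_insert, Finset.mem_Icc] at h1
      have h2 := (hBX b hb).resolve_left hb0
      have h3 := (hCX c hc).resolve_left hc0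
      omega
    obtain ⟨h1, h2, h3⟩ := hall b hb c hc hb0 hc0
    have hu2 : 2 ≤ u := by omega
    have h4 : u + 1 ∈ B + C := by
      rw [hsum, Finset.mem_insert, Finset.mem_Icc]; omega
    obtain ⟨b', hb', c', hc', h5⟩ := Finset.mem_add.mp h4
    by_cases hb0' : b' = 0
    · rw [hb0', zero_add] at h5
      have := hall b hb c' hc' hb0 (by omega)
      omega
    · have := hall b' hb' c hc hb0' hc0
      by_cases hc0' : c' = 0
      · omega
      · have := hall b' hb' c' hc' hb0' hc0'
        omega

theorem irrN_B {u t : ℕ} (hu : 1 ≤ u) (hut : u ≤ t) (h : 2 * u - 1 ≤ t) :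
    IrrN (insert t (Finset.range u)) := by
  constructor
  · intro h1
    have : t ∈ insert t (Finset.range u) := by simp
    rw [h1, Finset.mem_singleton] at this
    omega
  · intro B C hB hC hsum
    have hBX : ∀ b ∈ B, b = t ∨ b < u := by
      intro b hb
      have := mem_add_left hC hb
      rw [hsum, Finset.mem_insert, Finset.mem_range] at this
      exact this
    have hCX : ∀ b ∈ C, b = t ∨ b < u := by
      intro b hb
      have := mem_add_right hB hb
      rw [hsum, Finset.mem_insert, Finset.mem_range] at this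
      exact this
    have ht : t ∈ B + C := by rw [hsum]; simp
    obtain ⟨b, hb, c, hc, hbc⟩ := Finset.mem_add.mp ht
    by_cases hbt : b = t
    · left
      apply eq_of_zero hsum _ hC
      intro c' hc'
      have h1 : b + c' ∈ B + C := Finset.add_mem_add hb hc'
      rw [hsum, Finset.mem_insert, Finset.mem_range] at h1
      omega
    · by_cases hct : c = t
      · right
        have hsum' := hsum
        rw [add_comm] at hsum'
        apply eq_of_zero hsum' _ hB
        intro b' hb'
        have h1 : b' + c ∈ B + C := Finset.add_mem_add hb' hc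
        rw [hsum, Finset.mem_insert, Finset.mem_range] at h1
        omega
      · exfalso
        have h1 := (hBX b hb).resolve_left hbt
        have h2 := (hCX c hc).resolve_left hct
        omega

theorem add_AB {u N : ℕ} (hu : 1 ≤ u) (huN : u ≤ N) :
    (insert 0 (Finset.Icc u N) + insert N (Finset.range u) : Finset ℕ) = Finset.range (2 * N + 1) := by
  ext x
  simp only [Finset.mem_add, Finset.mem_range, Finset.mem_insert, Finset.mem_Icc]
  constructor
  · rintro ⟨a, ha, b, hb, rfl⟩; omega
  · intro hx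
    by_cases h1 : x < u
    · exact ⟨0, Or.inl rfl, x, Or.inr h1, by omega⟩
    by_cases h2 : x ≤ N
    · exact ⟨x, Or.inr ⟨by omega, h2⟩, 0, Or.inr (by omega), by omega⟩
    by_cases h3 : x < N + u
    · exact ⟨N, Or.inr ⟨by omega, le_rfl⟩, x - N, Or.inr (by omega), by omega⟩
    · exact ⟨x - N, Or.inr ⟨by omega, by omega⟩, N, Or.inl rfl, by omega⟩

theorem irrN_odd {M : ℕ} (hM : 2 ≤ M) (hM2 : Even M) :
    IrrN (insert 0 ((Finset.range M).filter Odd)) := by
  constructor
  · intro h1
    have : 1 ∈ insert 0 ((Finset.range M).filter Odd) := by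
      rw [Finset.mem_insert, Finset.mem_filter, Finset.mem_range]
      right; exact ⟨by omega, odd_one⟩
    rw [h1, Finset.mem_singleton] at this
    omega
  · intro B C hB hC hsum
    have hBX : ∀ b ∈ B, b = 0 ∨ Odd b := by
      intro b hb
      have := mem_add_left hC hb
      rw [hsum, Finset.mem_insert, Finset.mem_filter] at this
      tauto
    have hCX : ∀ b ∈ C, b = 0 ∨ Odd b := by
      intro b hb
      have := mem_add_right hB hb
      rw [hsum, Finset.mem_insert, Finset.mem_filter] at this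
      tauto
    by_contra hcon
    push Not at hcon
    obtain ⟨b, hb, hb0⟩ : ∃ b ∈ B, b ≠ 0 := by
      by_contra hc
      push Not at hc
      apply hcon.2
      rw [add_comm] at hsum
      exact eq_of_zero hsum hc hB
    obtain ⟨c, hc, hc0⟩ : ∃ c ∈ C, c ≠ 0 := by
      by_contra hc
      push Not at hc
      exact hcon.1 (eq_of_zero hsum hc hC)
    have h1 : b + c ∈ B + C := Finset.add_mem_add hb hc
    rw [hsum, Finset.mem_insert, Finset.mem_filter] at h1
    have h2 := (hBX b hb).resolve_left hb0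
    have h3 := (hCX c hc).resolve_left hc0
    rcases h1 with h1 | h1
    · omega
    · have := h2.add_odd h3
      rw [← Nat.not_odd_iff_even] at this
      exact this h1.2

theorem add_odd {M : ℕ} (_hM : 2 ≤ M) (hM2 : Even M) :
    (insert 0 ((Finset.range M).filter Odd) + {0, 1} : Finset ℕ) = Finset.range (M + 1) := by
  ext x
  simp only [Finset.mem_add, Finset.mem_range, Finset.mem_insert, Finset.mem_filter, Finset.mem_singleton]
  constructor
  · rintro ⟨a, ha, b, hb, rfl⟩
    omega
  · intro hx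
    rcases Nat.even_or_odd x with h | h
    · by_cases h0 : x = 0
      · exact ⟨0, Or.inl rfl, 0, Or.inl rfl, by omega⟩
      · refine ⟨x - 1, Or.inr ⟨by omega, ?_⟩, 1, Or.inr rfl, by omega⟩
        obtain ⟨y, hy⟩ := h
        exact ⟨y - 1, by omega⟩
    · refine ⟨x, Or.inr ⟨?_, h⟩, 0, Or.inl rfl, by omega⟩
      obtain ⟨y, hy⟩ := h
      obtain ⟨z, hz⟩ := hM2
      omega

/-- Case 2: an element of infinite order. -/
theorem union_case2 {h : H} (hinj : ∀ i j : ℕ, h ^ i = h ^ j → i = j) {k : ℕ} (hk : 2 ≤ k) :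
    IsInterval (UnionLengths (PFin H) k) := by
  have h1 : h ≠ 1 := by
    intro h1
    have := hinj 1 0 (by rw [h1]; simp)
    omega
  have h2 : h ^ 2 ≠ 1 := by
    intro h2
    have := hinj 2 0 (by rw [h2]; simp)
    omega
  have key : ∀ k l : ℕ, 2 ≤ k → k ≤ l → ∃ X : PFin H, k ∈ LengthSet X ∧ l ∈ LengthSet X := by
    intro k l hk hkl
    have hlen2 : ∀ M, 2 ≤ M → Even M → 2 ∈ LengthSet (pw h (Finset.range (M + 1))) := by
      intro M hM hM2
      have hA : IsIrred (pw h (insert 0 ((Finset.range M).filter Odd))) := by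
        apply irred_pw (N := M) (fun i _ j _ hij => hinj i j hij) (by simp)
        · intro i hi
          rw [Finset.mem_insert, Finset.mem_filter, Finset.mem_range] at hi
          omega
        · exact irrN_odd hM hM2
      have hB := irred_two h1
      have h3 := add_mem (one_mem_iff.mpr hA) (one_mem_iff.mpr hB)
      have h4 := two_eq_pw h 1
      rw [pow_one] at h4
      rw [h4, ← pw_add (by simp) (by simp), add_odd hM hM2] at h3
      exact h3
    rcases Nat.even_or_odd (l - k) with hr | hr
    · set M := l - k + 2 with hM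
      refine ⟨pw h (Finset.range (M + 1)) * two h ^ (k - 2), ?_, ?_⟩
      · have h3 := add_mem (hlen2 M (by omega) (by rw [hM]; exact hr.add even_two)) (pow_mem (irred_two h1) (k - 2))
        have e : 2 + (k - 2) = k := by omega
        rwa [e] at h3
      · rw [← two_pow h M]
        have h3 := add_mem (pow_mem (irred_two h1) M) (pow_mem (irred_two h1) (k - 2))
        have e : M + (k - 2) = l := by omega
        rwa [e] at h3
    · set M := l - k + 3 with hM
      refine ⟨pw h (Finset.range (M + 1)) * two h ^ (k - 2), ?_, ?_⟩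
      · have hev : Even M := by
          obtain ⟨y, hy⟩ := hr
          exact ⟨y + 2, by omega⟩
        have h3 := add_mem (hlen2 M (by omega) hev) (pow_mem (irred_two h1) (k - 2))
        have e : 2 + (k - 2) = k := by omega
        rwa [e] at h3
      · have h5 : pw h (Finset.range (M + 1)) = two h ^ (M - 2) * two (h ^ 2) := by
          rw [two_pow h (M - 2), two_eq_pw h 2, ← pw_add (by simp) (by simp),
            range_add_two _ 2 (by omega) (by omega)]
          congr 2
        rw [h5]
        have h3 := add_mem (add_mem (pow_mem (irred_two h1) (M - 2)) (one_mem_iff.mpr (irred_two h2)))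
          (pow_mem (irred_two h1) (k - 2))
        have e : M - 2 + 1 + (k - 2) = l := by omega
        rwa [e] at h3
  apply union_ici hk (by norm_num : 2 ≤ 3)
  intro n hn
  rcases le_total k n with hle | hle
  · exact key k n hk hle
  · obtain ⟨X, hX1, hX2⟩ := key n k hn hle
    exact ⟨X, hX2, hX1⟩

/-- Case 3: an element of odd order `2N+1`, `N ≥ 1`, `N ≠ 2`. -/
theorem union_case3 {h : H} {N : ℕ} (hN : 1 ≤ N) (hN2 : N ≠ 2)
    (hinj : ∀ i ≤ 2 * N, ∀ j ≤ 2 * N, h ^ i = h ^ j → i = j) (hord : h ^ (2 * N + 1) = 1)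
    {k : ℕ} (hk : 2 ≤ k) : IsInterval (UnionLengths (PFin H) k) := by
  obtain ⟨u, hu1, hu⟩ : ∃ u, 1 ≤ u ∧ (N = 2 * u - 1 ∨ (N = 2 * u ∧ 2 ≤ u)) := by
    rcases Nat.even_or_odd N with ⟨y, hy⟩ | ⟨y, hy⟩
    · exact ⟨y, by omega, Or.inr ⟨by omega, by omega⟩⟩
    · exact ⟨y + 1, by omega, Or.inl (by omega)⟩
  have huN : u ≤ N := by omega
  have hA : IsIrred (pw h (insert 0 (Finset.Icc u N))) := by
    apply irred_pw hinj (by simp)
    · intro i hi
      rw [Finset.mem_insert, Finset.mem_Icc] at hi
      omega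
    · exact irrN_A hu1 huN (by omega)
  have hB : IsIrred (pw h (insert N (Finset.range u))) := by
    apply irred_pw hinj (by simp; omega)
    · intro i hi
      rw [Finset.mem_insert, Finset.mem_range] at hi
      omega
    · exact irrN_B hu1 huN (by omega)
  have h1 : h ≠ 1 := by
    intro h1
    have := hinj 1 (by omega) 0 (by omega) (by rw [h1]; simp)
    omega
  refine union_of_absorb hA hB (irred_two h1) ?_ hk
  rw [← pw_add (by simp) (by simp; omega), add_AB hu1 huN]
  have h4 := two_eq_pw h 1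
  rw [pow_one] at h4
  rw [h4, ← pw_add (by simp) (by simp), add_comm, range_add_two _ 1 (by omega) (by omega)]
  apply Subtype.ext
  ext x
  rw [mem_pw (by simp), mem_pw (by simp)]
  constructor
  · rintro ⟨i, hi, rfl⟩
    rw [Finset.mem_range] at hi
    by_cases hi2 : i < 2 * N + 1
    · exact ⟨i, by rw [Finset.mem_range]; exact hi2, rfl⟩
    · have : i = 2 * N + 1 := by omega
      exact ⟨0, by simp, by rw [this, hord, pow_zero]⟩
  · rintro ⟨i, hi, rfl⟩
    rw [Finset.mem_range] at hi
    exact ⟨i, by rw [Finset.mem_range]; omega, rfl⟩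

end Pool.Agent.V11297.PowMon
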