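import Mathlib
import Pool.Agent.V11297.PowMon3

/-!
# Monoids in which every element satisfies `g^5 = 1`
-/

open scoped Pointwise

namespace Pool.Agent.V11297.PowMon

open Classical

/-- Case 4b. -/
theorem union_case4b {G : Type*} [Group G] (h5 : ∀ g : G, g ^ 5 = 1) {x y : G} (hx : x ≠ 1)
    (hy : y ∉ Subgroup.zpowers x) {k : ℕ} (hk : 2 ≤ k) :
    IsInterval (UnionLengths (PFin G) k) := by
  have hy1 : y ≠ 1 := by rintro rfl; exact hy (one_mem _)
  -- the set of powers
  set Cx : Finset G := (Finset.range 5).image fun i => x ^ i with hCx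
  set Cy : Finset G := (Finset.range 5).image fun i => y ^ i with hCy
  have memC : ∀ g z : G, z ∈ (Finset.range 5).image (fun i => g ^ i) ↔ z ∈ Subgroup.zpowers g := by
    intro g z
    rw [Finset.mem_image]
    constructor
    · rintro ⟨i, _, rfl⟩
      exact Subgroup.pow_mem _ (Subgroup.mem_zpowers g) i
    · rintro ⟨i, rfl⟩
      refine ⟨(i % 5).toNat, ?_, ?_⟩
      · rw [Finset.mem_range]; omega
      · show g ^ (i % 5).toNat = g ^ i
        have h1 : ((i % 5).toNat : ℤ) = i % 5 := Int.toNat_of_nonneg (by omega)
        rw [← zpow_natCast, h1]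
        conv_rhs => rw [← Int.mul_ediv_add_emod i 5, zpow_add, zpow_mul]
        have h2 : g ^ (5 : ℤ) = 1 := by exact_mod_cast h5 g
        rw [h2, one_zpow, one_mul]
  have memCx : ∀ z, z ∈ Cx ↔ z ∈ Subgroup.zpowers x := memC x
  have memCy : ∀ z, z ∈ Cy ↔ z ∈ Subgroup.zpowers y := memC y
  -- square roots
  have hsq : ∀ (K : Subgroup G) (g : G), g * g ∈ K → g ∈ K := by
    intro K g hg
    have h1 : (g * g) ^ 3 ∈ K := K.pow_mem hg 3
    have h2 : (g * g) ^ 3 = g := by
      calc (g * g) ^ 3 = g ^ 5 * g := by rw [← pow_two, ← pow_mul, ← pow_succ]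
        _ = g := by rw [h5, one_mul]
    rwa [h2] at h1
  have hxy : x ∉ Subgroup.zpowers y := by
    intro h
    have hxC : x ∈ Cy := (memCy x).mpr h
    rw [hCy, Finset.mem_image] at hxC
    obtain ⟨i, hi, hix⟩ := hxC
    rw [Finset.mem_range] at hi
    apply hy
    have key : ∃ j : ℕ, x ^ j = y := by
      interval_cases i
      · exfalso; apply hx; rw [← hix]; simp
      · exact ⟨1, by rw [← hix]; simp⟩
      · refine ⟨3, ?_⟩
        rw [← hix, ← pow_mul]
        calc y ^ 6 = y ^ 5 * y := by rw [← pow_succ]
          _ = y := by rw [h5, one_mul]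
      · refine ⟨2, ?_⟩
        rw [← hix, ← pow_mul]
        calc y ^ 6 = y ^ 5 * y := by rw [← pow_succ]
          _ = y := by rw [h5, one_mul]
      · refine ⟨4, ?_⟩
        rw [← hix, ← pow_mul]
        calc y ^ 16 = (y ^ 5) ^ 3 * y := by rw [← pow_mul, ← pow_succ]
          _ = y := by rw [h5, one_pow, one_mul]
    obtain ⟨j, hj⟩ := key
    rw [← hj]
    exact Subgroup.pow_mem _ (Subgroup.mem_zpowers x) j
  -- the two irreducible sets
  let A : PFin G := ⟨insert 1 (Cx.image fun c => c * y), by
    show (1 : G) ∈ insert 1 (Cx.image fun c => c * y); simp⟩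
  let B : PFin G := ⟨insert x Cy, by
    show (1 : G) ∈ insert x Cy
    rw [Finset.mem_insert]; right; rw [memCy]; exact one_mem _⟩
  have memA : ∀ z, z ∈ A.1 ↔ z = 1 ∨ ∃ c ∈ Subgroup.zpowers x, c * y = z := by
    intro z
    show z ∈ insert 1 (Cx.image fun c => c * y) ↔ _
    rw [Finset.mem_insert, Finset.mem_image]
    simp only [memCx]
  have memB : ∀ z, z ∈ B.1 ↔ z = x ∨ z ∈ Subgroup.zpowers y := by
    intro z
    show z ∈ insert x Cy ↔ _
    rw [Finset.mem_insert, memCy]
  have hone : (1 : PFin G).1 = {1} := rfl
  have hA : IsIrred A := by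
    rw [irred_iff]
    constructor
    · intro h1
      have : y ∈ A.1 := (memA y).mpr (Or.inr ⟨1, one_mem _, one_mul y⟩)
      rw [h1, hone, Finset.mem_singleton] at this
      exact hy1 this
    · intro D E hDE
      have hD : D.1 ⊆ A.1 := hDE ▸ sub_mul_left D E
      have hE : E.1 ⊆ A.1 := hDE ▸ sub_mul_right D E
      by_contra hcon
      push Not at hcon
      obtain ⟨d, hd, hd1⟩ : ∃ d ∈ D.1, d ≠ 1 := by
        by_contra hc
        push Not at hc
        apply hcon.2
        have : D = 1 := by
          apply Subtype.ext
          rw [hone]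
          ext z
          rw [Finset.mem_singleton]
          exact ⟨hc z, fun h => h ▸ D.2⟩
        rw [this, one_mul] at hDE
        exact hDE
      obtain ⟨e, he, he1⟩ : ∃ e ∈ E.1, e ≠ 1 := by
        by_contra hc
        push Not at hc
        apply hcon.1
        have : E = 1 := by
          apply Subtype.ext
          rw [hone]
          ext z
          rw [Finset.mem_singleton]
          exact ⟨hc z, fun h => h ▸ E.2⟩
        rw [this, mul_one] at hDE
        exact hDE
      obtain ⟨c1, hc1, rfl⟩ := ((memA d).mp (hD hd)).resolve_left hd1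
      obtain ⟨c2, hc2, rfl⟩ := ((memA e).mp (hE he)).resolve_left he1
      have hprod : c1 * y * (c2 * y) ∈ A.1 := by
        rw [← hDE, coe_mul']; exact Finset.mul_mem_mul hd he
      rcases (memA _).mp hprod with h | ⟨c3, hc3, h⟩
      · -- `c1 y c2 y = 1`
        apply hy
        have h2 : y * c2 * (y * c2) ∈ Subgroup.zpowers x := by
          have : y * c2 * (y * c2) = c1⁻¹ * (c1 * y * (c2 * y)) * c2 := by group
          rw [this, h, mul_one]
          exact mul_mem (inv_mem hc1) hc2
        have h3 := hsq _ _ h2
        have h4 : y = y * c2 * c2⁻¹ := by group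
        rw [h4]
        exact mul_mem h3 (inv_mem hc2)
      · apply hy
        have h2 : y = c1⁻¹ * c3 * c2⁻¹ := by
          have h6 : c1 * y * c2 = c3 := by
            apply mul_right_cancel (b := y)
            rw [h]; group
          rw [← h6]; group
        rw [h2]
        exact mul_mem (mul_mem (inv_mem hc1) hc3) (inv_mem hc2)
  have hB : IsIrred B := by
    rw [irred_iff]
    constructor
    · intro h1
      have : y ∈ B.1 := (memB y).mpr (Or.inr (Subgroup.mem_zpowers y))
      rw [h1, hone, Finset.mem_singleton] at this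
      exact hy1 this
    · intro D E hDE
      have hD : D.1 ⊆ B.1 := hDE ▸ sub_mul_left D E
      have hE : E.1 ⊆ B.1 := hDE ▸ sub_mul_right D E
      have hxx : ∀ z, z ∈ B.1 → z ≠ 1 → x * z ∉ B.1 := by
        intro z hz hz1 hmem
        rcases (memB z).mp hz with rfl | hz2
        · rcases (memB _).mp hmem with h | h
          · exact hx (by simpa using h)
          · exact hxy (hsq _ _ h)
        · rcases (memB _).mp hmem with h | h
          · exact hz1 (by simpa using h)
          · apply hxy
            have : x = x * z * z⁻¹ := by group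
            rw [this]; exact mul_mem h (inv_mem hz2)
      have hxx' : ∀ z, z ∈ B.1 → z ≠ 1 → z * x ∉ B.1 := by
        intro z hz hz1 hmem
        rcases (memB z).mp hz with rfl | hz2
        · rcases (memB _).mp hmem with h | h
          · exact hx (by simpa using h)
          · exact hxy (hsq _ _ h)
        · rcases (memB _).mp hmem with h | h
          · exact hz1 (by simpa using h)
          · apply hxy
            have : x = z⁻¹ * (z * x) := by group
            rw [this]; exact mul_mem (inv_mem hz2) h
      have hxB : x ∈ (D * E).1 := by rw [hDE]; exact (memB x).mpr (Or.inl rfl)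
      rw [coe_mul', Finset.mem_mul] at hxB
      obtain ⟨d, hd, e, he, hde⟩ := hxB
      rcases (memB d).mp (hD hd) with rfl | hd2
      · -- `x ∈ D`
        left
        have : E = 1 := by
          apply Subtype.ext
          rw [hone]
          ext z
          rw [Finset.mem_singleton]
          constructor
          · intro hz
            by_contra hz1
            apply hxx z (hE hz) hz1
            rw [← hDE, coe_mul']; exact Finset.mul_mem_mul hd hz
          · rintro rfl; exact E.2
        rw [this, mul_one] at hDE
        exact hDE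
      · rcases (memB e).mp (hE he) with rfl | he2
        · right
          have : D = 1 := by
            apply Subtype.ext
            rw [hone]
            ext z
            rw [Finset.mem_singleton]
            constructor
            · intro hz
              by_contra hz1
              apply hxx' z (hD hz) hz1
              rw [← hDE, coe_mul']; exact Finset.mul_mem_mul hz he
            · rintro rfl; exact D.2
          rw [this, one_mul] at hDE
          exact hDE
        · exfalso
          apply hxy
          rw [← hde]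
          exact mul_mem hd2 he2
  -- absorption
  refine union_of_absorb hA hB (irred_two hx) ?_ hk
  -- every element of `A B` has the form `c y b`
  have hform : ∀ z, z ∈ (A * B).1 ↔ ∃ c ∈ Subgroup.zpowers x, ∃ b ∈ B.1, c * y * b = z := by
    intro z
    rw [coe_mul', Finset.mem_mul]
    constructor
    · rintro ⟨a, ha, b, hb, rfl⟩
      rcases (memA a).mp ha with rfl | ⟨c, hc, rfl⟩
      · rw [one_mul]
        rcases (memB b).mp hb with rfl | hb2
        · refine ⟨b, Subgroup.mem_zpowers _, y⁻¹, (memB _).mpr (Or.inr (inv_mem (Subgroup.mem_zpowers y))), ?_⟩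
          group
        · refine ⟨1, one_mem _, y⁻¹ * b, (memB _).mpr (Or.inr (mul_mem (inv_mem (Subgroup.mem_zpowers y)) hb2)), ?_⟩
          group
      · exact ⟨c, hc, b, hb, rfl⟩
    · rintro ⟨c, hc, b, hb, rfl⟩
      exact ⟨c * y, (memA _).mpr (Or.inr ⟨c, hc, rfl⟩), b, hb, rfl⟩
  apply Subtype.ext
  apply Finset.Subset.antisymm
  · intro z hz
    rw [coe_mul', Finset.mem_mul] at hz
    obtain ⟨t, ht, w, hw, rfl⟩ := hz
    obtain ⟨c, hc, b, hb, rfl⟩ := (hform w).mp hw
    rw [two_val, Finset.mem_insert, Finset.mem_singleton] at ht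
    rw [hform]
    rcases ht with rfl | rfl
    · exact ⟨c, hc, b, hb, by rw [one_mul]⟩
    · exact ⟨t * c, mul_mem (Subgroup.mem_zpowers t) hc, b, hb, by group⟩
  · exact sub_mul_right _ _

/-- In the group of order `5`, sets with at least three elements are reducible, and the sum of four
nontrivial sets is everything. -/
theorem z5_facts : (∀ X : Finset (ZMod 5), 0 ∈ X → 3 ≤ X.card →
    ∃ B ∈ X.powerset, ∃ C ∈ X.powerset, 0 ∈ B ∧ 0 ∈ C ∧ B ≠ X ∧ C ≠ X ∧ B + C = X) := by
  decide +kernel

end Pool.Agent.V11297.PowMon
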