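import Mathlib
import Pool.Agent.V11297.PowMon4

/-!
# Unions of length sets of reduced finitary power monoids are intervals
-/

open scoped Pointwise

namespace Pool.Agent.V11297.PowMon

open Classical

section OrderFive

variable {G : Type*} [Group G] {x : G}

/-- The parametrization of the group of order `5`. -/
def par (x : G) (i : ZMod 5) : G := x ^ i.val

theorem par_add (h5 : ∀ g : G, g ^ 5 = 1) (i j : ZMod 5) : par x (i + j) = par x i * par x j := by
  unfold par
  rw [← pow_add, ZMod.val_add]
  conv_rhs => rw [← Nat.mod_add_div (i.val + j.val) 5, pow_add, pow_mul, h5, one_pow, mul_one]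

theorem par_inj (h5 : ∀ g : G, g ^ 5 = 1) (hx : x ≠ 1) : Function.Injective (par x) := by
  have hord : orderOf x = 5 := by
    have : Fact (Nat.Prime 5) := ⟨by norm_num⟩
    exact orderOf_eq_prime (h5 x) hx
  intro i j hij
  unfold par at hij
  have h1 : i.val < orderOf x := by rw [hord]; exact ZMod.val_lt i
  have h2 : j.val < orderOf x := by rw [hord]; exact ZMod.val_lt j
  have := pow_injOn_Iio_orderOf h1 h2 hij
  exact ZMod.val_injective 5 this

theorem par_surj (h5 : ∀ g : G, g ^ 5 = 1) (hall : ∀ y : G, y ∈ Subgroup.zpowers x) (y : G) :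
    ∃ i, par x i = y := by
  obtain ⟨i, hi⟩ := hall y
  simp only at hi
  refine ⟨(((i % 5).toNat : ℕ) : ZMod 5), ?_⟩
  unfold par
  have h1 : ((i % 5).toNat : ℤ) = i % 5 := Int.toNat_of_nonneg (by omega)
  rw [ZMod.val_natCast, Nat.mod_eq_of_lt (by omega), ← hi, ← zpow_natCast, h1]
  conv_rhs => rw [← Int.mul_ediv_add_emod i 5, zpow_add, zpow_mul]
  have h2 : x ^ (5 : ℤ) = 1 := by exact_mod_cast h5 x
  rw [h2, one_zpow, one_mul]

/-- The element of the power monoid attached to a set of exponents. -/
noncomputable def ps (x : G) (X : Finset (ZMod 5)) : PFin G :=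
  ⟨insert 1 (X.image (par x)), by show (1 : G) ∈ insert 1 (X.image (par x)); simp⟩

theorem mem_ps {X : Finset (ZMod 5)} (h0 : 0 ∈ X) {z : G} : z ∈ (ps x X).1 ↔ ∃ i ∈ X, par x i = z := by
  show z ∈ insert 1 (X.image (par x)) ↔ _
  rw [Finset.mem_insert, Finset.mem_image]
  constructor
  · rintro (rfl | h)
    · exact ⟨0, h0, by simp [par]⟩
    · exact h
  · intro h; right; exact h

theorem irred_card (h5 : ∀ g : G, g ^ 5 = 1) (hx : x ≠ 1) (hall : ∀ y : G, y ∈ Subgroup.zpowers x)
    {X : PFin G} (hX : IsIrred X) : X.1.card ≤ 2 := by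
  by_contra hcard
  push Not at hcard
  set X' : Finset (ZMod 5) := Finset.univ.filter (fun i => par x i ∈ X.1) with hX'
  have h0 : (0 : ZMod 5) ∈ X' := by
    rw [hX', Finset.mem_filter]
    refine ⟨Finset.mem_univ _, ?_⟩
    simp only [par, ZMod.val_zero, pow_zero]
    exact X.2
  have himg : X.1 = X'.image (par x) := by
    ext z
    rw [Finset.mem_image]
    constructor
    · intro hz
      obtain ⟨i, rfl⟩ := par_surj h5 hall z
      exact ⟨i, by rw [hX', Finset.mem_filter]; exact ⟨Finset.mem_univ _, hz⟩, rfl⟩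
    · rintro ⟨i, hi, rfl⟩
      rw [hX', Finset.mem_filter] at hi
      exact hi.2
  have hcard' : 3 ≤ X'.card := by
    rw [himg, Finset.card_image_of_injective _ (par_inj h5 hx)] at hcard
    exact hcard
  obtain ⟨B, hB, C, hC, hB0, hC0, hBX, hCX, hsum⟩ := z5_facts X' h0 hcard'
  have hXps : X = ps x X' := by
    apply Subtype.ext
    ext z
    rw [mem_ps h0, himg, Finset.mem_image]
  have hmul : ps x B * ps x C = X := by
    rw [hXps]
    apply Subtype.ext
    rw [coe_mul']
    ext z
    rw [mem_ps h0, Finset.mem_mul]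
    constructor
    · rintro ⟨b, hb, c, hc, rfl⟩
      obtain ⟨i, hi, rfl⟩ := (mem_ps hB0).mp hb
      obtain ⟨j, hj, rfl⟩ := (mem_ps hC0).mp hc
      refine ⟨i + j, ?_, par_add h5 i j⟩
      rw [← hsum, Finset.mem_add]
      exact ⟨i, hi, j, hj, rfl⟩
    · rintro ⟨i, hi, rfl⟩
      rw [← hsum, Finset.mem_add] at hi
      obtain ⟨b, hb, c, hc, rfl⟩ := hi
      exact ⟨par x b, (mem_ps hB0).mpr ⟨b, hb, rfl⟩, par x c, (mem_ps hC0).mpr ⟨c, hc, rfl⟩,
        (par_add h5 b c).symm⟩
  have hinj : ∀ B : Finset (ZMod 5), 0 ∈ B → B ∈ X'.powerset → ps x B = X → B = X' := by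
    intro B hB0 hB hBX
    apply Finset.Subset.antisymm (Finset.mem_powerset.mp hB)
    intro i hi
    have h1 : par x i ∈ (ps x B).1 := by
      rw [hBX, himg, Finset.mem_image]
      exact ⟨i, hi, rfl⟩
    obtain ⟨j, hj, hji⟩ := (mem_ps hB0).mp h1
    rw [← par_inj h5 hx hji]; exact hj
  rcases (irred_iff.mp hX).2 _ _ hmul with h | h
  · exact hBX (hinj B hB0 hB h)
  · exact hCX (hinj C hC0 hC h)

/-- Products of `m` irreducibles have at least `min 5 (m + 1)` elements. -/
theorem card_prod (h5 : ∀ g : G, g ^ 5 = 1) (l : List (PFin G)) (hl : ∀ a ∈ l, IsIrred a) :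
    min 5 (l.length + 1) ≤ (l.prod).1.card := by
  induction l with
  | nil =>
    have : (1 : PFin G).1 = {1} := rfl
    rw [List.prod_nil, this]
    simp
  | cons a l ih =>
    rw [List.prod_cons, List.length_cons]
    have ih' := ih fun b hb => hl b (List.mem_cons_of_mem _ hb)
    have ha := irred_iff.mp (hl a (List.mem_cons_self ..))
    obtain ⟨h, hh, hh1⟩ : ∃ h ∈ a.1, h ≠ 1 := by
      by_contra hc
      push Not at hc
      apply ha.1
      apply Subtype.ext
      have : (1 : PFin G).1 = {1} := rfl
      rw [this]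
      ext z
      rw [Finset.mem_singleton]
      exact ⟨hc z, fun h => h ▸ a.2⟩
    have hsub := sub_mul_right a l.prod
    have hle := Finset.card_le_card hsub
    by_cases hcl : ∀ z ∈ (l.prod).1, h * z ∈ (l.prod).1
    · -- closed under multiplication by `h`: at least five elements
      have hpow : ∀ i : ℕ, h ^ i ∈ (l.prod).1 := by
        intro i
        induction i with
        | zero => rw [pow_zero]; exact l.prod.2
        | succ i ih2 => rw [pow_succ']; exact hcl _ ih2
      have hord : orderOf h = 5 := by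
        have : Fact (Nat.Prime 5) := ⟨by norm_num⟩
        exact orderOf_eq_prime (h5 h) hh1
      have h1 : (Finset.range 5).image (fun i => h ^ i) ⊆ (l.prod).1 := by
        intro z hz
        rw [Finset.mem_image] at hz
        obtain ⟨i, _, rfl⟩ := hz
        exact hpow i
      have h2 := Finset.card_le_card h1
      rw [Finset.card_image_of_injOn, Finset.card_range] at h2
      · exact (min_le_left _ _).trans (h2.trans hle)
      · intro i hi j hj hij
        simp only [Finset.coe_range, Set.mem_Iio] at hi hj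
        exact pow_injOn_Iio_orderOf (by rw [hord]; exact hi) (by rw [hord]; exact hj) hij
    · push Not at hcl
      obtain ⟨z, hz, hz2⟩ := hcl
      have h3 : h * z ∈ (a * l.prod).1 := by
        rw [coe_mul']; exact Finset.mul_mem_mul hh hz
      have h4 : (l.prod).1.card < (a * l.prod).1.card := by
        apply Finset.card_lt_card
        refine ⟨hsub, fun hcon => hz2 (hcon h3)⟩
      have h5' : min 5 (l.length + 1 + 1) ≤ min 5 (l.length + 1) + 1 := by omega
      omega

/-- Case 4c. -/
theorem union_case4c (h5 : ∀ g : G, g ^ 5 = 1) (hx : x ≠ 1)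
    (hall : ∀ y : G, y ∈ Subgroup.zpowers x) {k : ℕ} (hk : 2 ≤ k) :
    IsInterval (UnionLengths (PFin G) k) := by
  have hirr := irred_two hx
  have hord : orderOf x = 5 := by
    have : Fact (Nat.Prime 5) := ⟨by norm_num⟩
    exact orderOf_eq_prime (h5 x) hx
  have hx2 : x ^ 2 ≠ 1 := by
    intro h
    have := orderOf_dvd_of_pow_eq_one h
    rw [hord] at this
    norm_num at this
  have hirr2 := irred_two hx2
  -- `{1,x} {1,x^2} = {1,x}^3`
  have e3 : two x * two (x ^ 2) = two x ^ 3 := by
    have h1 := two_eq_pw x 1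
    rw [pow_one] at h1
    have h2 : ({0, 1} : Finset ℕ) = Finset.range 2 := by
      ext z; simp only [Finset.mem_insert, Finset.mem_singleton, Finset.mem_range]; omega
    rw [two_pow, h1, two_eq_pw x 2, ← pw_add (by simp) (by simp), h2,
      range_add_two 2 2 le_rfl (by norm_num)]
  have e4 : two x * (two x ^ 4) = two x ^ 4 := by
    have h1 := two_eq_pw x 1
    rw [pow_one] at h1
    rw [← pow_succ', two_pow, two_pow]
    apply Subtype.ext
    ext z
    rw [mem_pw (by simp), mem_pw (by simp)]
    constructor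
    · rintro ⟨i, hi, rfl⟩
      rw [Finset.mem_range] at hi
      by_cases hi2 : i < 5
      · exact ⟨i, by rw [Finset.mem_range]; exact hi2, rfl⟩
      · have : i = 5 := by omega
        exact ⟨0, by simp, by rw [this, h5, pow_zero]⟩
    · rintro ⟨i, hi, rfl⟩
      rw [Finset.mem_range] at hi
      exact ⟨i, by rw [Finset.mem_range]; omega, rfl⟩
  have hthree : 3 ∈ LengthSet (two x ^ 4) := by
    have h1 : two x ^ 4 = two x * two (x ^ 2) * two x := by rw [e3, ← pow_succ]
    rw [h1]
    exact add_mem (add_mem (one_mem_iff.mpr hirr) (one_mem_iff.mpr hirr2)) (one_mem_iff.mpr hirr)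
  rcases Nat.eq_or_lt_of_le hk with rfl | hk3
  · -- `k = 2`
    have hle : ∀ n ∈ UnionLengths (PFin G) 2, n ≤ 3 := by
      rintro n ⟨X, ⟨l, hl, hirrl, hp⟩, ⟨l', hl', hirrl', hp'⟩⟩
      by_contra hn
      push Not at hn
      have h1 := card_prod h5 l' hirrl'
      rw [hl', hp'] at h1
      have h2 : X.1.card ≤ 4 := by
        obtain ⟨a, b, rfl⟩ := List.length_eq_two.mp hl
        rw [← hp]
        simp only [List.prod_cons, List.prod_nil, mul_one]
        rw [coe_mul']
        have ha := irred_card h5 hx hall (hirrl a (by simp))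
        have hb := irred_card h5 hx hall (hirrl b (by simp))
        calc (a.1 * b.1).card ≤ a.1.card * b.1.card := Finset.card_mul_le
          _ ≤ 2 * 2 := Nat.mul_le_mul ha hb
          _ = 4 := rfl
      omega
    have h2 : 2 ∈ UnionLengths (PFin G) 2 :=
      ⟨two x ^ 2, pow_mem hirr 2, pow_mem hirr 2⟩
    have h3 : 3 ∈ UnionLengths (PFin G) 2 := by
      refine ⟨two x ^ 3, ?_, pow_mem hirr 3⟩
      rw [← e3]
      exact add_mem (one_mem_iff.mpr hirr) (one_mem_iff.mpr hirr2)
    convert interval_Icc 2 3 using 1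
    ext n
    rw [Set.mem_Icc]
    constructor
    · intro hn
      have h4 := hle n hn
      have h6 := union_pos (by norm_num) hn
      have h7 : n ≠ 1 := by
        rintro rfl
        have := hle 4 (one_mem_union (by norm_num) hn (by norm_num))
        omega
      omega
    · rintro ⟨h4, h6⟩
      have : n = 2 ∨ n = 3 := by omega
      rcases this with rfl | rfl
      · exact h2
      · exact h3
  · apply union_ici hk (le_refl 3)
    intro n hn
    exact ⟨two x ^ 4, up_left hirr e4 hthree hk3, up_left hirr e4 hthree hn⟩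

end OrderFive

/-- The main theorem. -/
theorem union_interval (H : Type*) [inst : Monoid H] (k : ℕ) (hk : 1 ≤ k) :
    IsInterval (UnionLengths (PFin H) k) := by
  by_cases hc1 : ∃ h : H, h ≠ 1 ∧ (h * h = 1 ∨ h * h = h)
  · obtain ⟨h, hh, h2⟩ := hc1
    exact union_case1 hh h2 hk
  rcases Nat.eq_or_lt_of_le hk with rfl | hk2
  · exact union_one
  by_cases hc2 : ∃ h : H, ∀ i j : ℕ, h ^ i = h ^ j → i = j
  · obtain ⟨h, hh⟩ := hc2
    exact union_case2 hh hk2
  push Not at hc1 hc2
  -- every element has finite odd order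
  have hfin : ∀ h : H, ∃ m, 1 ≤ m ∧ h ^ m = 1 := by
    intro h
    obtain ⟨i, j, hij, hne⟩ := hc2 h
    have key : ∀ i j : ℕ, i < j → h ^ i = h ^ j → ∃ m, 1 ≤ m ∧ h ^ m = 1 := by
      intro i j hlt hij
      obtain ⟨d, rfl⟩ := Nat.exists_eq_add_of_lt hlt
      set D := d + 1 with hD
      have hstep : ∀ m, i ≤ m → h ^ (m + D) = h ^ m := by
        intro m hm
        obtain ⟨t, rfl⟩ := Nat.exists_eq_add_of_le hm
        have e : i + t + D = (i + d + 1) + t := by omega
        rw [e, pow_add, ← hij, ← pow_add]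
      have hstep2 : ∀ q m, i ≤ m → h ^ (m + q * D) = h ^ m := by
        intro q
        induction q with
        | zero => intro m _; simp
        | succ q ih =>
          intro m hm
          rw [Nat.succ_mul, ← add_assoc, hstep _ (by omega), ih m hm]
      refine ⟨(i + 1) * D, Nat.mul_pos (by omega) (by omega), ?_⟩
      by_contra hne1
      have hid : h ^ ((i + 1) * D) * h ^ ((i + 1) * D) = h ^ ((i + 1) * D) := by
        rw [← pow_add]
        exact hstep2 (i + 1) _ (by nlinarith)
      exact (hc1 _ hne1).2 hid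
    rcases Nat.lt_or_gt_of_ne hne with hlt | hgt
    · exact key i j hlt hij
    · exact key j i hgt hij.symm
  have hpos : ∀ h : H, 0 < orderOf h := by
    intro h
    obtain ⟨m, hm1, hm⟩ := hfin h
    exact orderOf_pos_iff.mpr (isOfFinOrder_iff_pow_eq_one.mpr ⟨m, hm1, hm⟩)
  have hodd : ∀ h : H, h ≠ 1 → ∃ N, 1 ≤ N ∧ orderOf h = 2 * N + 1 := by
    intro h hh
    rcases Nat.even_or_odd (orderOf h) with ⟨y, hy⟩ | ⟨y, hy⟩
    · exfalso
      have hyp : 0 < y := by have := hpos h; omega
      have h1 : h ^ y ≠ 1 := by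
        intro h1
        have := orderOf_le_of_pow_eq_one hyp h1
        omega
      apply (hc1 _ h1).1
      rw [← pow_add, ← hy, pow_orderOf_eq_one]
    · refine ⟨y, ?_, hy⟩
      rcases Nat.eq_zero_or_pos y with h0 | h0
      · exfalso
        apply hh
        rw [h0] at hy
        exact orderOf_eq_one_iff.mp hy
      · exact h0
  by_cases hc3 : ∃ h : H, ∃ N, 1 ≤ N ∧ N ≠ 2 ∧ orderOf h = 2 * N + 1
  · obtain ⟨h, N, hN1, hN2, hord⟩ := hc3
    refine union_case3 (h := h) hN1 hN2 ?_ ?_ hk2
    · intro i hi j hj hij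
      exact pow_injOn_Iio_orderOf (by rw [hord]; show i < _; omega) (by rw [hord]; show j < _; omega) hij
    · rw [← hord, pow_orderOf_eq_one]
  push Not at hc3
  have h5 : ∀ h : H, h ^ 5 = 1 := by
    intro h
    by_cases hh : h = 1
    · rw [hh, one_pow]
    · obtain ⟨N, hN, hord⟩ := hodd h hh
      have hN2 : N = 2 := by
        by_contra hne
        exact hc3 h N hN hne hord
      rw [hN2] at hord
      rw [← pow_orderOf_eq_one h, hord]
  by_cases htriv : ∀ h : H, h = 1
  · convert interval_empty using 1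
    ext n
    simp only [Set.mem_empty_iff_false, iff_false]
    rintro ⟨X, hX, -⟩
    have : X = 1 := by
      apply Subtype.ext
      have h1 : (1 : PFin H).1 = {1} := rfl
      rw [h1]
      ext z
      rw [Finset.mem_singleton]
      exact ⟨fun _ => htriv z, fun h => h ▸ X.2⟩
    rw [this] at hX
    have := length_one hX
    omega
  push Not at htriv
  obtain ⟨x, hx⟩ := htriv
  let g : Group H := { inst with
    inv := fun a => a ^ 4
    inv_mul_cancel := fun a => by
      show a ^ 4 * a = 1
      rw [← pow_succ]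
      exact h5 a }
  by_cases hall : ∀ y : H, y ∈ Subgroup.zpowers x
  · exact union_case4c h5 hx hall hk2
  · push Not at hall
    obtain ⟨y, hy⟩ := hall
    exact union_case4b h5 hx hy hk2

end Pool.Agent.V11297.PowMon
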