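import Pool.Agent.V11297.Class13
import Pool.Agent.V11297.HeightDef

/-!
# The largest height of a divisor of `X ^ 5915 - 1`
-/

open Polynomial

namespace Pool.Agent.V11297.LP

/-- Product of a choice of cyclotomic polynomials of orders dividing 455. -/
noncomputable def FP (a1 a2 a3 a4 a5 a6 a7 a8 : Bool) : ℤ[X] :=
  pp a1 (ofL P1) * (pp a2 (ofL P5) * (pp a3 (ofL P7) * (pp a4 (ofL P35) * (pp a5 (ofL P13) *
    (pp a6 (ofL P65) * (pp a7 (ofL P91) * (pp a8 (ofL P455) * 1)))))))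

/-- Its value. -/
def FZ (z : ℤ) (a1 a2 a3 a4 a5 a6 a7 a8 : Bool) : ℤ :=
  pz a1 (evalL z P1) * (pz a2 (evalL z P5) * (pz a3 (evalL z P7) * (pz a4 (evalL z P35) *
    (pz a5 (evalL z P13) * (pz a6 (evalL z P65) * (pz a7 (evalL z P91) *
    (pz a8 (evalL z P455) * 1)))))))

lemma eval_FP (z : ℤ) (a1 a2 a3 a4 a5 a6 a7 a8 : Bool) :
    (FP a1 a2 a3 a4 a5 a6 a7 a8).eval z = FZ z a1 a2 a3 a4 a5 a6 a7 a8 := by
  unfold FP FZ
  simp only [eval_mul, eval_pp, eval_one]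

lemma coeff_FP (a1 a2 a3 a4 a5 a6 a7 a8 : Bool) (j : ℕ) :
    |(FP a1 a2 a3 a4 a5 a6 a7 a8).coeff j| < ((2 ^ 32 : ℕ) : ℤ) := by
  have h0 : ∀ j, |(1 : ℤ[X]).coeff j| ≤ ((1 : ℕ) : ℤ) := by
    intro j
    rw [coeff_one]
    split_ifs <;> simp
  have h1 := fun j => coeff_pp_l1 h0 a8 P455 (by decide +kernel) j
  have h2 := fun j => coeff_pp_l1 h1 a7 P91 (by decide +kernel) j
  have h3 := fun j => coeff_pp_l1 h2 a6 P65 (by decide +kernel) j
  have h4 := fun j => coeff_pp_l1 h3 a5 P13 (by decide +kernel) j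
  have h5 := fun j => coeff_pp_l1 h4 a4 P35 (by decide +kernel) j
  have h6 := fun j => coeff_pp_l1 h5 a3 P7 (by decide +kernel) j
  have h7 := fun j => coeff_pp_l1 h6 a2 P5 (by decide +kernel) j
  have h8 := coeff_pp_l1 h7 a1 P1 (by decide +kernel) j
  refine lt_of_le_of_lt h8 ?_
  have : l1 P1 * (l1 P5 * (l1 P7 * (l1 P35 * (l1 P13 * (l1 P65 * (l1 P91 * (l1 P455 * 1)))))))
      < 2 ^ 32 := by decide +kernel
  exact_mod_cast this

lemma natDegree_FP (a1 a2 a3 a4 a5 a6 a7 a8 : Bool) :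
    (FP a1 a2 a3 a4 a5 a6 a7 a8).natDegree ≤ 455 := by
  unfold FP
  have d1 := natDegree_pp a1 P1 (d := 1) (by decide +kernel)
  have d2 := natDegree_pp a2 P5 (d := 4) (by decide +kernel)
  have d3 := natDegree_pp a3 P7 (d := 6) (by decide +kernel)
  have d4 := natDegree_pp a4 P35 (d := 24) (by decide +kernel)
  have d5 := natDegree_pp a5 P13 (d := 12) (by decide +kernel)
  have d6 := natDegree_pp a6 P65 (d := 48) (by decide +kernel)
  have d7 := natDegree_pp a7 P91 (d := 72) (by decide +kernel)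
  have d8 := natDegree_pp a8 P455 (d := 288) (by decide +kernel)
  have e8 : (pp a8 (ofL P455) * 1).natDegree ≤ 288 := by rw [mul_one]; exact d8
  exact natDegree_mul_le_of_le d1 (natDegree_mul_le_of_le d2 (natDegree_mul_le_of_le d3
    (natDegree_mul_le_of_le d4 (natDegree_mul_le_of_le d5 (natDegree_mul_le_of_le d6
    (natDegree_mul_le_of_le d7 e8))))))

/-- The coefficient list. -/
def FL (a1 a2 a3 a4 a5 a6 a7 a8 : Bool) : List ℤ :=
  unpack (2 ^ 32) 456 (FZ (2 * ((2 ^ 32 : ℕ) : ℤ)) a1 a2 a3 a4 a5 a6 a7 a8)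

lemma ofL_FL (a1 a2 a3 a4 a5 a6 a7 a8 : Bool) :
    ofL (FL a1 a2 a3 a4 a5 a6 a7 a8) = FP a1 a2 a3 a4 a5 a6 a7 a8 := by
  unfold FL
  rw [← eval_FP]
  apply ofL_unpack _ (by positivity)
  · intro j hj
    exact coeff_eq_zero_of_natDegree_lt (lt_of_le_of_lt (natDegree_FP _ _ _ _ _ _ _ _) hj)
  · exact coeff_FP _ _ _ _ _ _ _ _

/-- Bounds for the class sums. -/
def FN (a1 a2 a3 a4 a5 a6 a7 a8 : Bool) : ℕ :=
  match a1, a2, a3, a4, a5, a6, a7, a8 with
  | false, true, true, false, true, false, false, true => 4921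
  | true, true, true, false, true, false, false, true => 1118
  | false, false, true, false, true, false, false, true => 1021
  | _, _, _, _, _, _, _, _ => 854

set_option maxRecDepth 100000 in
lemma FN_check : ∀ a1 a2 a3 a4 a5 a6 a7 a8 : Bool,
    go (FN a1 a2 a3 a4 a5 a6 a7 a8) (FL a1 a2 a3 a4 a5 a6 a7 a8) 0 0 0 0 0 0 0 0 0 0 0 0 0
      = true := by
  decide +kernel

end Pool.Agent.V11297.LP
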