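import Pool.Agent.V11297.ListPoly

/-!
# Counting real roots of polynomials given by lists
-/

open Polynomial

namespace Pool.Agent.V11297.LP

lemma count_le {F T : ℝ[X]} (hF : F ≠ 0) (hT : T ≠ 0) (P Q : ℝ → Prop) [DecidablePred P]
    [DecidablePred Q] (φ : ℝ → ℝ) (hφ : ∀ r, P r → Q (φ r))
    (h : ∀ s : Multiset ℝ, (∀ r ∈ s, P r) → (s.map (fun r => X - C r)).prod ∣ F →
      (s.map (fun r => X - C (φ r))).prod ∣ T) :
    F.roots.countP P ≤ T.roots.countP Q := by
  set s := F.roots.filter P with hs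
  have h1 : (s.map (fun r => X - C r)).prod ∣ F :=
    (Multiset.prod_X_sub_C_dvd_iff_le_roots hF s).mpr (Multiset.filter_le _ _)
  have h2 := h s (fun r hr => (Multiset.mem_filter.mp hr).2) h1
  have h3 : ((s.map φ).map (fun r => X - C r)).prod ∣ T := by
    rw [Multiset.map_map]; exact h2
  have h4 : s.map φ ≤ T.roots := (Multiset.prod_X_sub_C_dvd_iff_le_roots hT _).mp h3
  calc F.roots.countP P = s.card := Multiset.countP_eq_card_filter _ _
    _ = (s.map φ).card := (Multiset.card_map _ _).symm
    _ = (s.map φ).countP Q := by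
      symm
      rw [Multiset.countP_eq_card]
      intro a ha
      rw [Multiset.mem_map] at ha
      obtain ⟨r, hr, rfl⟩ := ha
      exact hφ r (Multiset.mem_filter.mp hr).2
    _ ≤ T.roots.countP Q := Multiset.countP_le_of_le _ h4

lemma count_shift {F : ℝ[X]} (hF : F ≠ 0) (hT : F.comp (X + 1) ≠ 0) :
    F.roots.countP (1 < ·) ≤ (F.comp (X + 1)).roots.countP (0 < ·) := by
  apply count_le hF hT _ _ (fun r => r - 1)
  · intro r hr
    linarith
  · rintro s _ ⟨G, hG⟩
    refine ⟨G.comp (X + 1), ?_⟩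
    rw [hG, mul_comp, multiset_prod_comp, Multiset.map_map]
    congr 2
    apply Multiset.map_congr rfl
    intro r _
    simp only [Function.comp_apply, sub_comp, X_comp, C_comp, C_sub, C_1]
    ring

lemma count_neg {F : ℝ[X]} (hF : F ≠ 0) (hT : F.comp (-X) ≠ 0) (P : ℝ → Prop)
    [DecidablePred P] :
    F.roots.countP (fun r => P (-r)) ≤ (F.comp (-X)).roots.countP P := by
  apply count_le hF hT _ _ (fun r => -r)
  · intro r hr
    exact hr
  · rintro s hs ⟨G, hG⟩
    rw [hG, mul_comp]
    apply Dvd.dvd.mul_right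
    rw [multiset_prod_comp, Multiset.map_map]
    clear hG hs
    induction s using Multiset.induction with
    | empty => simp
    | cons a s ih =>
      rw [Multiset.map_cons, Multiset.map_cons, Multiset.prod_cons, Multiset.prod_cons]
      apply mul_dvd_mul _ ih
      simp only [Function.comp_apply, sub_comp, X_comp, C_comp, C_neg]
      rw [show (-X - C a : ℝ[X]) = -(X - -C a) by ring]
      exact (dvd_neg).mpr dvd_rfl

lemma reverse_X_sub_C (r : ℝ) : (X - C r).reverse = 1 - C r * X := by
  ext n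
  rw [coeff_reverse, natDegree_X_sub_C]
  rcases n with _ | _ | n
  · rw [revAt_le (by norm_num)]
    simp
  · rw [revAt_le (by norm_num)]
    simp [coeff_one]
  · have : revAt 1 (n + 1 + 1) = n + 1 + 1 := by
      apply revAt_eq_self_of_lt
      omega
    rw [this]
    simp [coeff_X, coeff_one]

lemma count_rev {F : ℝ[X]} (hF : F ≠ 0) (hT : (F.reverse).comp (X + 1) ≠ 0) :
    F.roots.countP (fun r => 0 < r ∧ r < 1) ≤ ((F.reverse).comp (X + 1)).roots.countP (0 < ·) := by
  apply count_le hF hT _ _ (fun r => (1 - r) / r)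
  · rintro r ⟨h0, h1⟩
    apply div_pos <;> linarith
  · rintro s hs ⟨G, hG⟩
    rw [hG, reverse_mul_of_domain, mul_comp]
    apply Dvd.dvd.mul_right
    clear hG
    induction s using Multiset.induction with
    | empty => simp
    | cons a s ih =>
      have ih' := ih (fun r hr => hs r (Multiset.mem_cons_of_mem hr))
      have ha := hs a (Multiset.mem_cons_self a s)
      rw [Multiset.map_cons, Multiset.map_cons, Multiset.prod_cons, Multiset.prod_cons,
        reverse_mul_of_domain, mul_comp]
      apply mul_dvd_mul _ ih'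
      rw [reverse_X_sub_C]
      refine ⟨C (-a), ?_⟩
      have ha0 : a ≠ 0 := ha.1.ne'
      simp only [sub_comp, one_comp, mul_comp, C_comp, X_comp]
      have : C ((1 - a) / a) * C a = C (1 - a) := by
        rw [← C_mul]; congr 1; field_simp
      rw [C_neg]
      have e : (X - C ((1 - a) / a)) * -C a = -(C a * X) + C ((1 - a) / a) * C a := by ring
      rw [e, this, C_sub, C_1]
      ring

lemma ofR_reverse {l : List ℤ} (hl : l.getLastD 0 ≠ 0) : (ofR l).reverse = ofR l.reverse := by
  have hd := natDegree_ofR hl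
  ext n
  rw [coeff_reverse, coeff_ofR, coeff_ofR]
  by_cases hn : n ≤ (ofR l).natDegree
  · rw [revAt_le hn]
    have h1 : (ofR l).natDegree - n < l.length := by omega
    have h2 : n < l.reverse.length := by rw [List.length_reverse]; omega
    rw [List.getD_eq_getElem _ _ h1, List.getD_eq_getElem _ _ h2, List.getElem_reverse]
    congr 2
    omega
  · rw [revAt_eq_self_of_lt (by omega)]
    rw [List.getD_eq_default _ _ (by omega), List.getD_eq_default _ _ (by
      rw [List.length_reverse]; omega)]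

/-- The list of the Taylor shift. -/
def tl (h : ℕ) (l : List ℤ) : List ℤ := unpack h l.length (evalL (2 * h + 1) l)

/-- Bound check for a list. -/
def bdd (M : ℕ) : List ℤ → Bool
  | [] => true
  | a :: l => Nat.ble a.natAbs M && bdd M l

lemma bdd_spec {M : ℕ} {l : List ℤ} (h : bdd M l = true) : ∀ c ∈ l, |c| ≤ (M : ℤ) := by
  induction l with
  | nil => simp
  | cons a l ih =>
    simp only [bdd, Bool.and_eq_true, Nat.ble_eq] at h
    intro c hc
    rcases List.mem_cons.mp hc with rfl | hc
    · rw [Int.abs_eq_natAbs]; exact_mod_cast h.1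
    · exact ih h.2 c hc

lemma taylor_ofR (l : List ℤ) (h M : ℕ) (hM : bdd M l = true) (hpos : 0 < h)
    (hh : M * (2 ^ l.length - 1) < h) : (ofR l).comp (X + 1) = ofR (tl h l) := by
  have h1 : (M : ℤ) * (2 ^ l.length - 1) < h := by
    have : ((M * (2 ^ l.length - 1) : ℕ) : ℤ) < h := by exact_mod_cast hh
    rw [Nat.cast_mul, Nat.cast_sub Nat.one_le_two_pow] at this
    push_cast at this
    exact this
  have := taylor_eq l h M (bdd_spec hM) (by positivity) hpos h1
  unfold ofR tl
  rw [← this, Polynomial.map_comp]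
  simp

/-- Data of a check: the polynomial of the list has at most `v` roots greater than `1`. -/
lemma count_gt_one {l : List ℤ} (h M v : ℕ) (hl : l.getLastD 0 ≠ 0) (hM : bdd M l = true)
    (hpos : 0 < h) (hh : M * (2 ^ l.length - 1) < h) (ht : (tl h l).getLastD 0 ≠ 0)
    (hv : varL (tl h l) ≤ v) : (ofR l).roots.countP (1 < ·) ≤ v := by
  have e := taylor_ofR l h M hM hpos hh
  have h0 := ofR_ne_zero hl
  have h1 := ofR_ne_zero ht
  calc _ ≤ ((ofR l).comp (X + 1)).roots.countP (0 < ·) := count_shift h0 (by rw [e]; exact h1)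
    _ = (ofR (tl h l)).roots.countP (0 < ·) := by rw [e]
    _ ≤ varL (tl h l) := countP_pos_le ht
    _ ≤ v := hv

/-- At most `v` roots in `(0, 1)`. -/
lemma count_unit {l : List ℤ} (h M v : ℕ) (hl : l.getLastD 0 ≠ 0)
    (hM : bdd M l.reverse = true) (hpos : 0 < h) (hh : M * (2 ^ l.reverse.length - 1) < h)
    (ht : (tl h l.reverse).getLastD 0 ≠ 0) (hv : varL (tl h l.reverse) ≤ v) :
    (ofR l).roots.countP (fun r => 0 < r ∧ r < 1) ≤ v := by
  have e := taylor_ofR l.reverse h M hM hpos hh
  have h0 := ofR_ne_zero hl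
  have h1 := ofR_ne_zero ht
  have e2 := ofR_reverse hl
  calc _ ≤ (((ofR l).reverse).comp (X + 1)).roots.countP (0 < ·) :=
        count_rev h0 (by rw [e2, e]; exact h1)
    _ = (ofR (tl h l.reverse)).roots.countP (0 < ·) := by rw [e2, e]
    _ ≤ varL (tl h l.reverse) := countP_pos_le ht
    _ ≤ v := hv

lemma card_le_four (s : Multiset ℝ) (hs : ∀ r ∈ s, r ≠ 0 ∧ r ≠ 1 ∧ r ≠ -1) :
    s.card ≤ s.countP (1 < ·) + s.countP (fun r => 0 < r ∧ r < 1)
      + s.countP (fun r => 1 < -r) + s.countP (fun r => 0 < -r ∧ -r < 1) := by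
  induction s using Multiset.induction with
  | empty => simp
  | cons a s ih =>
    have ih' := ih (fun r hr => hs r (Multiset.mem_cons_of_mem hr))
    obtain ⟨h0, h1, h2⟩ := hs a (Multiset.mem_cons_self a s)
    rw [Multiset.card_cons, Multiset.countP_cons, Multiset.countP_cons, Multiset.countP_cons,
      Multiset.countP_cons]
    rcases lt_trichotomy a 0 with h | h | h
    · rcases lt_trichotomy (-a) 1 with h' | h' | h'
      · rw [if_pos (show 0 < -a ∧ -a < 1 from ⟨by linarith, h'⟩)]
        omega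
      · exact absurd (by linarith) h2
      · rw [if_pos (show 1 < -a from h')]
        omega
    · exact absurd h h0
    · rcases lt_trichotomy a 1 with h' | h' | h'
      · rw [if_pos (show 0 < a ∧ a < 1 from ⟨h, h'⟩)]
        omega
      · exact absurd h' h1
      · rw [if_pos (show 1 < a from h')]
        omega

lemma ofR_altL (l : List ℤ) : ofR (altL l) = (ofR l).comp (-X) := by
  unfold ofR
  rw [ofL_altL, Polynomial.map_comp]
  simp

lemma eval_ofR (l : List ℤ) (z : ℤ) : (ofR l).eval (z : ℝ) = ((evalL z l : ℤ) : ℝ) := by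
  unfold ofR
  rw [← eval_ofL]
  simp [eval_map, eval₂_at_intCast]

/-- Upper bound for the number of real roots with multiplicity. -/
theorem card_roots_le {l : List ℤ} (h M v1 v2 v3 v4 : ℕ) (hl : l.getLastD 0 ≠ 0)
    (hal : (altL l).getLastD 0 ≠ 0) (e0 : evalL 0 l ≠ 0) (e1 : evalL 1 l ≠ 0)
    (e2 : evalL (-1) l ≠ 0) (hpos : 0 < h)
    (b1 : bdd M l = true) (b2 : bdd M l.reverse = true) (b3 : bdd M (altL l) = true)
    (b4 : bdd M (altL l).reverse = true)
    (hh : M * (2 ^ l.length - 1) < h) (hlen : (altL l).length = l.length)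
    (t1 : (tl h l).getLastD 0 ≠ 0) (t2 : (tl h l.reverse).getLastD 0 ≠ 0)
    (t3 : (tl h (altL l)).getLastD 0 ≠ 0) (t4 : (tl h (altL l).reverse).getLastD 0 ≠ 0)
    (w1 : varL (tl h l) ≤ v1) (w2 : varL (tl h l.reverse) ≤ v2)
    (w3 : varL (tl h (altL l)) ≤ v3) (w4 : varL (tl h (altL l).reverse) ≤ v4) :
    (ofR l).roots.card ≤ v1 + v2 + v3 + v4 := by
  have h0 := ofR_ne_zero hl
  have ha0 := ofR_ne_zero hal
  have hroot : ∀ r ∈ (ofR l).roots, r ≠ 0 ∧ r ≠ 1 ∧ r ≠ -1 := by
    intro r hr
    rw [mem_roots h0, IsRoot.def] at hr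
    refine ⟨?_, ?_, ?_⟩
    · rintro rfl
      have := eval_ofR l 0
      rw [Int.cast_zero, hr] at this
      exact e0 (by exact_mod_cast this.symm)
    · rintro rfl
      have := eval_ofR l 1
      rw [Int.cast_one, hr] at this
      exact e1 (by exact_mod_cast this.symm)
    · rintro rfl
      have := eval_ofR l (-1)
      rw [Int.cast_neg, Int.cast_one, hr] at this
      exact e2 (by exact_mod_cast this.symm)
  have c1 := count_gt_one h M v1 hl b1 hpos hh t1 w1
  have c2 := count_unit h M v2 hl b2 hpos (by rw [List.length_reverse]; exact hh) t2 w2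
  have c3 := count_gt_one h M v3 hal b3 hpos (by rw [hlen]; exact hh) t3 w3
  have c4 := count_unit h M v4 hal b4 hpos (by rw [List.length_reverse, hlen]; exact hh) t4 w4
  rw [ofR_altL] at c3 c4 ha0
  have d3 := count_neg h0 ha0 (1 < ·)
  have d4 := count_neg h0 ha0 (fun r => 0 < r ∧ r < 1)
  have := card_le_four _ hroot
  omega

/-- Homogeneous evaluation. -/
def homL (a b : ℤ) : List ℤ → ℤ
  | [] => 0
  | c :: l => c * b ^ l.length + a * homL a b l

lemma homL_spec (a b : ℤ) (hb : b ≠ 0) (l : List ℤ) :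
    (b : ℝ) ^ l.length * (ofR l).eval ((a : ℝ) / b) = b * (homL a b l : ℤ) := by
  have hb' : (b : ℝ) ≠ 0 := by exact_mod_cast hb
  induction l with
  | nil => simp [ofR, ofL, homL]
  | cons c l ih =>
    have e : (ofR (c :: l)).eval ((a : ℝ) / b) = c + (a / b) * (ofR l).eval ((a : ℝ) / b) := by
      simp [ofR, ofL]
    rw [e, List.length_cons, homL]
    push_cast
    calc (b : ℝ) ^ (l.length + 1) * (c + a / b * (ofR l).eval ((a : ℝ) / b))
        = b * (c * b ^ l.length) + a * (b ^ l.length * (ofR l).eval ((a : ℝ) / b)) := by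
          rw [pow_succ]; field_simp
      _ = _ := by rw [ih]; ring

lemma eval_pos_of_homL {a b : ℤ} (hb : 0 < b) {l : List ℤ} (h : 0 < homL a b l) :
    0 < (ofR l).eval ((a : ℝ) / b) := by
  have hb' : (0 : ℝ) < b := by exact_mod_cast hb
  have hs := homL_spec a b hb.ne' l
  have h' : (0 : ℝ) < (homL a b l : ℤ) := by exact_mod_cast h
  by_contra hcon
  push Not at hcon
  have h1 : (b : ℝ) ^ l.length * (ofR l).eval ((a : ℝ) / b) ≤ 0 :=
    mul_nonpos_of_nonneg_of_nonpos (by positivity) hcon
  rw [hs] at h1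
  nlinarith

lemma eval_neg_of_homL {a b : ℤ} (hb : 0 < b) {l : List ℤ} (h : homL a b l < 0) :
    (ofR l).eval ((a : ℝ) / b) < 0 := by
  have hb' : (0 : ℝ) < b := by exact_mod_cast hb
  have hs := homL_spec a b hb.ne' l
  have h' : ((homL a b l : ℤ) : ℝ) < 0 := by exact_mod_cast h
  by_contra hcon
  push Not at hcon
  have : 0 ≤ (b : ℝ) ^ l.length * (ofR l).eval ((a : ℝ) / b) := by positivity
  rw [hs] at this
  nlinarith

/-- Lower bound for the number of roots from sign changes. -/
lemma card_roots_ge {F : ℝ[X]} (hF : F ≠ 0) (n : ℕ) (x : ℕ → ℝ)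
    (hx : ∀ i < n, x i < x (i + 1))
    (hs : ∀ i < n, F.eval (x i) * F.eval (x (i + 1)) < 0) : n ≤ F.roots.card := by
  have hex : ∀ i : ℕ, ∃ r : ℝ, i < n → (x i < r ∧ r < x (i + 1) ∧ F.eval r = 0) := by
    intro i
    by_cases hi : i < n
    · have hlt := hx i hi
      have hcont : ContinuousOn (fun y => F.eval y) (Set.Icc (x i) (x (i + 1))) :=
        F.continuous.continuousOn
      have hsi := hs i hi
      rcases mul_neg_iff.mp hsi with ⟨h1, h2⟩ | ⟨h1, h2⟩
      · obtain ⟨r, hr, hr0⟩ := intermediate_value_Ioo' hlt.le hcont ⟨h2, h1⟩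
        exact ⟨r, fun _ => ⟨hr.1, hr.2, hr0⟩⟩
      · obtain ⟨r, hr, hr0⟩ := intermediate_value_Ioo hlt.le hcont ⟨h1, h2⟩
        exact ⟨r, fun _ => ⟨hr.1, hr.2, hr0⟩⟩
    · exact ⟨0, fun h => absurd h hi⟩
  choose r hr using hex
  have hxle : ∀ i j, i ≤ j → j ≤ n → x i ≤ x j := by
    intro i j hij hj
    induction j with
    | zero => rw [Nat.le_zero.mp hij]
    | succ j ih =>
      rcases Nat.lt_or_ge i (j + 1) with h | h
      · exact (ih (by omega) (by omega)).trans (hx j (by omega)).le
      · rw [le_antisymm hij h]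
  have hinj : Set.InjOn r (Finset.range n : Set ℕ) := by
    intro i hi j hj hij
    simp only [Finset.coe_range, Set.mem_Iio] at hi hj
    by_contra hne
    rcases Nat.lt_or_gt_of_ne hne with h | h
    · have h1 := (hr i hi).2.1
      have h2 := (hr j hj).1
      have h3 := hxle (i + 1) j (by omega) (by omega)
      linarith
    · have h1 := (hr j hj).2.1
      have h2 := (hr i hi).1
      have h3 := hxle (j + 1) i (by omega) (by omega)
      linarith
  have hsub : (Finset.range n).image r ⊆ F.roots.toFinset := by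
    intro y hy
    rw [Finset.mem_image] at hy
    obtain ⟨i, hi, rfl⟩ := hy
    rw [Finset.mem_range] at hi
    rw [Multiset.mem_toFinset, mem_roots hF]
    exact (hr i hi).2.2
  calc n = (Finset.range n).card := (Finset.card_range n).symm
    _ = ((Finset.range n).image r).card := (Finset.card_image_of_injOn hinj).symm
    _ ≤ F.roots.toFinset.card := Finset.card_le_card hsub
    _ ≤ F.roots.card := Multiset.toFinset_card_le _

end Pool.Agent.V11297.LP
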