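import Pool.Agent.V11297.Pqr2
import Pool.Agent.V11297.CycloPQ
import Pool.Agent.V11297.RootCount

/-!
# The largest height of a divisor of `X ^ 5915 - 1`, second part
-/

open Polynomial

namespace Pool.Agent.V11297.LP

/-- Product of a choice of cyclotomic polynomials of orders `13, 65, 91, 455`. -/
noncomputable def QP (b1 b2 b3 b4 : Bool) : ℤ[X] :=
  pp b1 (ofL P13) * (pp b2 (ofL P65) * (pp b3 (ofL P91) * (pp b4 (ofL P455) * 1)))

/-- Its value. -/
def QZ (z : ℤ) (b1 b2 b3 b4 : Bool) : ℤ :=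
  pz b1 (evalL z P13) * (pz b2 (evalL z P65) * (pz b3 (evalL z P91) * (pz b4 (evalL z P455) * 1)))

lemma eval_QP (z : ℤ) (b1 b2 b3 b4 : Bool) :
    (QP b1 b2 b3 b4).eval z = QZ z b1 b2 b3 b4 := by
  unfold QP QZ
  simp only [eval_mul, eval_pp, eval_one]

lemma coeff_QP (b1 b2 b3 b4 : Bool) (j : ℕ) :
    |(QP b1 b2 b3 b4).coeff j| < ((2 ^ 21 : ℕ) : ℤ) := by
  have h0 : ∀ j, |(1 : ℤ[X]).coeff j| ≤ ((1 : ℕ) : ℤ) := by
    intro j
    rw [coeff_one]
    split_ifs <;> simp
  have h1 := fun j => coeff_pp_l1 h0 b4 P455 (by decide +kernel) j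
  have h2 := fun j => coeff_pp_l1 h1 b3 P91 (by decide +kernel) j
  have h3 := fun j => coeff_pp_l1 h2 b2 P65 (by decide +kernel) j
  have h8 := coeff_pp_l1 h3 b1 P13 (by decide +kernel) j
  refine lt_of_le_of_lt h8 ?_
  have : l1 P13 * (l1 P65 * (l1 P91 * (l1 P455 * 1))) < 2 ^ 21 := by decide +kernel
  exact_mod_cast this

lemma natDegree_QP (b1 b2 b3 b4 : Bool) : (QP b1 b2 b3 b4).natDegree ≤ 420 := by
  unfold QP
  have d1 := natDegree_pp b1 P13 (d := 12) (by decide +kernel)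
  have d2 := natDegree_pp b2 P65 (d := 48) (by decide +kernel)
  have d3 := natDegree_pp b3 P91 (d := 72) (by decide +kernel)
  have d4 := natDegree_pp b4 P455 (d := 288) (by decide +kernel)
  have e4 : (pp b4 (ofL P455) * 1).natDegree ≤ 288 := by rw [mul_one]; exact d4
  exact natDegree_mul_le_of_le d1 (natDegree_mul_le_of_le d2 (natDegree_mul_le_of_le d3 e4))

/-- The coefficient list. -/
def QL (b1 b2 b3 b4 : Bool) : List ℤ :=
  unpack (2 ^ 21) 421 (QZ (2 * ((2 ^ 21 : ℕ) : ℤ)) b1 b2 b3 b4)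

lemma ofL_QL (b1 b2 b3 b4 : Bool) : ofL (QL b1 b2 b3 b4) = QP b1 b2 b3 b4 := by
  unfold QL
  rw [← eval_QP]
  apply ofL_unpack _ (by positivity)
  · intro j hj
    exact coeff_eq_zero_of_natDegree_lt (lt_of_le_of_lt (natDegree_QP _ _ _ _) hj)
  · exact coeff_QP _ _ _ _

/-- Bounds for the heights. -/
def QN (b1 b2 b3 b4 : Bool) : ℕ :=
  match b1, b2, b3, b4 with
  | true, false, false, true => 15
  | false, true, true, false => 7
  | _, _, _, _ => 2

set_option maxRecDepth 100000 in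
lemma QN_check : ∀ b1 b2 b3 b4 : Bool, bdd (QN b1 b2 b3 b4) (QL b1 b2 b3 b4) = true := by
  decide +kernel

lemma coeff_ofL_le {M : ℕ} {l : List ℤ} (h : bdd M l = true) (j : ℕ) :
    |(ofL l).coeff j| ≤ M := by
  rw [coeff_ofL]
  rcases Nat.lt_or_ge j l.length with hj | hj
  · rw [List.getD_eq_getElem _ _ hj]
    exact bdd_spec h _ (List.getElem_mem hj)
  · rw [List.getD_eq_default _ _ hj]
    simp

lemma coeff_QP_le (b1 b2 b3 b4 : Bool) (j : ℕ) :
    |(QP b1 b2 b3 b4).coeff j| ≤ QN b1 b2 b3 b4 := by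
  rw [← ofL_QL]
  exact coeff_ofL_le (QN_check _ _ _ _) j

/-- The bound by class sums. -/
lemma coeff_FQ_le (a1 a2 a3 a4 a5 a6 a7 a8 b1 b2 b3 b4 : Bool) (k : ℕ) :
    |(FP a1 a2 a3 a4 a5 a6 a7 a8 * expand ℤ 13 (QP b1 b2 b3 b4)).coeff k|
      ≤ ((QN b1 b2 b3 b4 * FN a1 a2 a3 a4 a5 a6 a7 a8 : ℕ) : ℤ) := by
  rw [← ofL_FL]
  have h1 : ∀ j, |(expand ℤ 13 (QP b1 b2 b3 b4)).coeff j| ≤ QN b1 b2 b3 b4 := by
    intro j
    rw [coeff_expand (by norm_num)]
    split_ifs
    · exact coeff_QP_le _ _ _ _ _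
    · simp
  have h2 : ∀ j, ¬ 13 ∣ j → (expand ℤ 13 (QP b1 b2 b3 b4)).coeff j = 0 := by
    intro j hj
    rw [coeff_expand (by norm_num), if_neg hj]
  have h3 := coeff_mul_expand_le h1 h2 (FL a1 a2 a3 a4 a5 a6 a7 a8) k
  have h4 := cs_le_of_go (FN_check a1 a2 a3 a4 a5 a6 a7 a8) (Nat.mod_lt k (show 13 > 0 by norm_num))
  refine h3.trans ?_
  push_cast
  exact mul_le_mul_of_nonneg_left (by exact_mod_cast h4) (by positivity)

lemma natDegree_FQ (a1 a2 a3 a4 a5 a6 a7 a8 b1 b2 b3 b4 : Bool) :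
    (FP a1 a2 a3 a4 a5 a6 a7 a8 * expand ℤ 13 (QP b1 b2 b3 b4)).natDegree ≤ 5915 := by
  have h1 := natDegree_FP a1 a2 a3 a4 a5 a6 a7 a8
  have h2 := natDegree_QP b1 b2 b3 b4
  have h3 : (expand ℤ 13 (QP b1 b2 b3 b4)).natDegree ≤ 5460 := by
    rw [natDegree_expand]; omega
  exact natDegree_mul_le_of_le h1 h3

/-- The full list of a product. -/
def FQL (a1 a2 a3 a4 a5 a6 a7 a8 b1 b2 b3 b4 : Bool) : List ℤ :=
  unpack (2 ^ 17) 5916 (FZ (2 * ((2 ^ 17 : ℕ) : ℤ)) a1 a2 a3 a4 a5 a6 a7 a8 *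
    QZ ((2 * ((2 ^ 17 : ℕ) : ℤ)) ^ 13) b1 b2 b3 b4)

lemma ofL_FQL {a1 a2 a3 a4 a5 a6 a7 a8 b1 b2 b3 b4 : Bool}
    (hb : QN b1 b2 b3 b4 * FN a1 a2 a3 a4 a5 a6 a7 a8 < 2 ^ 17) :
    ofL (FQL a1 a2 a3 a4 a5 a6 a7 a8 b1 b2 b3 b4)
      = FP a1 a2 a3 a4 a5 a6 a7 a8 * expand ℤ 13 (QP b1 b2 b3 b4) := by
  unfold FQL
  rw [← eval_FP, ← eval_QP, ← expand_eval, ← eval_mul]
  apply ofL_unpack _ (by positivity)
  · intro j hj
    exact coeff_eq_zero_of_natDegree_lt
      (lt_of_le_of_lt (natDegree_FQ _ _ _ _ _ _ _ _ _ _ _ _) hj)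
  · intro j
    refine lt_of_le_of_lt (coeff_FQ_le _ _ _ _ _ _ _ _ _ _ _ _ j) ?_
    exact_mod_cast hb

set_option maxRecDepth 100000 in
lemma full_check1 : bdd 12822
    (FQL false true true false true false false true false true true false) = true := by
  decide +kernel

set_option maxRecDepth 100000 in
lemma full_check2 : bdd 12822
    (FQL false true true false true false false true true false false true) = true := by
  decide +kernel

set_option maxRecDepth 100000 in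
lemma full_check3 : bdd 12822
    (FQL true true true false true false false true true false false true) = true := by
  decide +kernel

set_option maxRecDepth 100000 in
lemma full_check4 : bdd 12822
    (FQL false false true false true false false true true false false true) = true := by
  decide +kernel

/-- The four products that are not covered by the class sums. -/
def exc : Bool → Bool → Bool → Bool → Bool → Bool → Bool → Bool → Bool → Bool → Bool → Bool → Bool
  | false, true, true, false, true, false, false, true, false, true, true, false => true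
  | false, true, true, false, true, false, false, true, true, false, false, true => true
  | true, true, true, false, true, false, false, true, true, false, false, true => true
  | false, false, true, false, true, false, false, true, true, false, false, true => true
  | _, _, _, _, _, _, _, _, _, _, _, _ => false

/-- Every choice is covered. -/
def cov (a1 a2 a3 a4 a5 a6 a7 a8 b1 b2 b3 b4 : Bool) : Bool :=
  Nat.ble (QN b1 b2 b3 b4 * FN a1 a2 a3 a4 a5 a6 a7 a8) 12822 ||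
    (Nat.blt (QN b1 b2 b3 b4 * FN a1 a2 a3 a4 a5 a6 a7 a8) (2 ^ 17) &&
      exc a1 a2 a3 a4 a5 a6 a7 a8 b1 b2 b3 b4)

lemma cov_true : ∀ a1 a2 a3 a4 a5 a6 a7 a8 b1 b2 b3 b4 : Bool,
    cov a1 a2 a3 a4 a5 a6 a7 a8 b1 b2 b3 b4 = true := by
  intro a1 a2 a3 a4
  revert a1 a2 a3 a4
  decide +kernel

/-- Every product has all coefficients bounded by `12822`. -/
theorem upper_FQ (a1 a2 a3 a4 a5 a6 a7 a8 b1 b2 b3 b4 : Bool) (k : ℕ) :
    |(FP a1 a2 a3 a4 a5 a6 a7 a8 * expand ℤ 13 (QP b1 b2 b3 b4)).coeff k| ≤ 12822 := by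
  have h := cov_true a1 a2 a3 a4 a5 a6 a7 a8 b1 b2 b3 b4
  unfold cov at h
  rw [Bool.or_eq_true, Bool.and_eq_true] at h
  rcases h with h | ⟨hb, hc⟩
  · refine (coeff_FQ_le _ _ _ _ _ _ _ _ _ _ _ _ k).trans ?_
    exact_mod_cast Nat.le_of_ble_eq_true h
  · have hb' : QN b1 b2 b3 b4 * FN a1 a2 a3 a4 a5 a6 a7 a8 < 2 ^ 17 := by
      simpa using hb
    rw [← ofL_FQL hb']
    unfold exc at hc
    split at hc
    · exact coeff_ofL_le full_check1 k
    · exact coeff_ofL_le full_check2 k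
    · exact coeff_ofL_le full_check3 k
    · exact coeff_ofL_le full_check4 k
    · exact absurd hc (by simp)

end Pool.Agent.V11297.LP
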