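import Pool.Agent.V11297.CycloPQ2

/-!
# Coefficients of ternary cyclotomic polynomials
-/

open Polynomial

namespace Pool.Agent.V11297.CycloPQ

variable {p q : ℕ}

lemma psum_one (m : ℤ) : psum (1 : ℤ[X]) m = if 0 ≤ m then 1 else 0 := by
  unfold psum
  split_ifs with h
  · obtain ⟨k, hk⟩ : ∃ k : ℕ, (m + 1).toNat = k + 1 := ⟨m.toNat, by omega⟩
    rw [hk, Finset.sum_range_succ']
    simp [coeff_one]
  · rw [show (m + 1).toNat = 0 by omega]
    simp

/-- The coefficients of `Φ_{pq}`. -/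
lemma apq (hp : p.Prime) (hq : q.Prime) (hpq : p ≠ q) (B : Bez p q) (n : ℤ) :
    zc (cyclotomic (p * q) ℤ) n =
      if B.i n < B.ρ then (if 0 ≤ B.a n ∧ B.a n < p - B.v then 1 else 0)
      else (if -B.v ≤ B.a n ∧ B.a n < 0 then -1 else 0) := by
  have h := coeff_pq hp hq hpq B 1 n
  rw [map_one, mul_one] at h
  rw [h, psum_one, psum_one]
  have i0 := B.i_nonneg hq.pos n
  have i1 := B.i_lt hq.pos n
  have i2 := B.i_nonneg hq.pos (n - 1)
  have i3 := B.i_lt hq.pos (n - 1)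
  have v0 := B.hv0
  have v1 := B.hv1
  rcases B.a_diff hq.pos n with ⟨h1, h2⟩ | ⟨h1, h2⟩
  · rw [if_neg (show ¬ B.i n < B.ρ by omega)]
    split_ifs <;> first | rfl | omega
  · rw [if_pos (show B.i n < B.ρ by omega)]
    split_ifs <;> first | rfl | omega

/-- Data of a ternary cyclotomic polynomial. -/
structure Tern (p q r : ℕ) where
  hp : p.Prime
  hq : q.Prime
  hr : r.Prime
  hpq : p < q
  hpr : p ≠ r
  hqr : q ≠ r
  B : Bez p q
  s : ℤ
  hs : ((p * q : ℕ) : ℤ) ∣ r * s - 1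

namespace Tern

variable {r : ℕ} (T : Tern p q r)

include T

lemma pq_pos : (0 : ℤ) < ((p * q : ℕ) : ℤ) := by
  exact_mod_cast Nat.mul_pos T.hp.pos T.hq.pos

/-- The residue `f` with `r f ≡ t` modulo `p q`. -/
def F (t : ℤ) : ℤ := (T.s * t) % ((p * q : ℕ) : ℤ)

lemma F_nonneg (t : ℤ) : 0 ≤ T.F t := Int.emod_nonneg _ T.pq_pos.ne'

lemma F_lt (t : ℤ) : T.F t < ((p * q : ℕ) : ℤ) := Int.emod_lt_of_pos _ T.pq_pos

lemma dvd_F (t : ℤ) : ((p * q : ℕ) : ℤ) ∣ T.s * t - T.F t := Int.dvd_self_sub_emod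

lemma dvd_rF (t : ℤ) : ((p * q : ℕ) : ℤ) ∣ t - r * T.F t := by
  have h1 := (T.dvd_F t).mul_left (r : ℤ)
  have h2 := T.hs.mul_left t
  have e : t - r * T.F t = r * (T.s * t - T.F t) - t * (r * T.s - 1) := by ring
  rw [e]
  exact dvd_sub h1 h2

lemma F_unique {t f : ℤ} (h0 : 0 ≤ f) (h1 : f < ((p * q : ℕ) : ℤ))
    (h : ((p * q : ℕ) : ℤ) ∣ T.s * t - f) : T.F t = f := by
  unfold F
  have := Int.emod_emod_of_dvd (T.s * t) (dvd_refl ((p * q : ℕ) : ℤ))
  have h2 : (T.s * t) % ((p * q : ℕ) : ℤ) = f % ((p * q : ℕ) : ℤ) :=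
    Int.emod_eq_emod_iff_emod_sub_eq_zero.mpr (Int.emod_eq_zero_of_dvd h)
  rw [h2, Int.emod_eq_of_lt h0 h1]

/-- The summand. -/
noncomputable def A (t : ℤ) : ℤ := if r * T.F t ≤ t then zc (cyclotomic (p * q) ℤ) (T.F t) else 0

lemma A_neg {t : ℤ} (ht : t < 0) : T.A t = 0 := by
  unfold A
  rw [if_neg]
  have := T.F_nonneg t
  have : 0 ≤ (r : ℤ) * T.F t := mul_nonneg (by positivity) this
  omega

lemma zc_big {g : ℤ} (hg : ((p * q : ℕ) : ℤ) ≤ g) : zc (cyclotomic (p * q) ℤ) g = 0 := by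
  have hpos := T.pq_pos
  obtain ⟨m, rfl⟩ : ∃ m : ℕ, g = m := ⟨g.toNat, by omega⟩
  rw [zc_natCast]
  apply coeff_eq_zero_of_natDegree_lt
  rw [natDegree_cyclotomic]
  have h1 : p * q ≤ m := by exact_mod_cast hg
  have h2 : 1 < p * q := by
    have := T.hp.one_lt
    have := T.hq.one_lt
    nlinarith
  exact lt_of_lt_of_le (Nat.totient_lt _ h2) h1

lemma zc_expand_zero {t : ℤ} (h : t ≠ r * T.F t) :
    zc (expand ℤ r (cyclotomic (p * q) ℤ)) t = 0 := by
  have hr0 : (0 : ℤ) < r := by exact_mod_cast T.hr.pos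
  rw [zc_expand r T.hr.pos]
  split_ifs with hd
  · obtain ⟨g, hg⟩ := hd
    rw [hg, Int.mul_ediv_cancel_left _ hr0.ne']
    by_cases g0 : 0 ≤ g
    · by_cases g1 : g < ((p * q : ℕ) : ℤ)
      · exfalso
        apply h
        have : T.F t = g := by
          apply T.F_unique g0 g1
          rw [hg]
          have := T.hs.mul_left g
          have e : T.s * (r * g) - g = g * (r * T.s - 1) := by ring
          rw [e]; exact this
        rw [this, hg]
      · exact T.zc_big (by omega)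
    · exact zc_neg _ (by omega)
  · rfl

lemma A_diff (t : ℤ) :
    T.A t - T.A (t - ((p * q : ℕ) : ℤ)) = zc (expand ℤ r (cyclotomic (p * q) ℤ)) t := by
  have hr0 : (0 : ℤ) < r := by exact_mod_cast T.hr.pos
  have hpos := T.pq_pos
  have hF : T.F (t - ((p * q : ℕ) : ℤ)) = T.F t := by
    apply T.F_unique (T.F_nonneg t) (T.F_lt t)
    have := T.dvd_F t
    have e : T.s * (t - ((p * q : ℕ) : ℤ)) - T.F t
        = (T.s * t - T.F t) - ((p * q : ℕ) : ℤ) * T.s := by ring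
    rw [e]
    exact dvd_sub this (dvd_mul_right _ _)
  unfold A
  rw [hF]
  obtain ⟨k, hk⟩ := T.dvd_rF t
  rcases lt_trichotomy k 0 with h | h | h
  · have h1 : ((p * q : ℕ) : ℤ) * k < 0 := mul_neg_of_pos_of_neg hpos h
    rw [if_neg (by omega), if_neg (by omega), T.zc_expand_zero (by omega), sub_zero]
  · rw [h, mul_zero] at hk
    have e : t = r * T.F t := by omega
    rw [if_pos (by omega), if_neg (by omega), zc_expand r T.hr.pos]
    have hd : (r : ℤ) ∣ t := ⟨T.F t, e⟩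
    rw [if_pos hd]
    have : t / r = T.F t := by
      conv_lhs => rw [e]
      exact Int.mul_ediv_cancel_left _ hr0.ne'
    rw [this]
    ring
  · have h1 : ((p * q : ℕ) : ℤ) * 1 ≤ ((p * q : ℕ) : ℤ) * k :=
      mul_le_mul_of_nonneg_left (by omega) hpos.le
    rw [if_pos (by omega), if_pos (by omega), T.zc_expand_zero (by omega), sub_self]

/-- `Φ_{pq} (X ^ q - 1) (1 + ... + X ^ (p - 1)) = X ^ (p q) - 1`. -/
lemma rel_pq : cyclotomic (p * q) ℤ * (X ^ q - 1) * (∑ m ∈ Finset.range p, X ^ m)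
    = X ^ (p * q) - 1 := by
  have h1 := cyc_pq_rel T.hp T.hq T.hpq.ne
  have : Fact q.Prime := ⟨T.hq⟩
  have h2 : (X ^ q - 1 : ℤ[X]) = cyclotomic q ℤ * (X - 1) := by
    rw [cyclotomic_prime]; exact (geom_sum_mul X q).symm
  have h3 := congrArg (expand ℤ p) h2
  simp only [map_sub, map_mul, map_pow, expand_X, map_one] at h3
  have h4 : (∑ m ∈ Finset.range p, X ^ m : ℤ[X]) * (X - 1) = X ^ p - 1 := geom_sum_mul X p
  rw [h1, ← pow_mul] at *
  linear_combination expand ℤ p (cyclotomic q ℤ) * h4 - h3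

lemma rel_pqr : X ^ (p * q) * cyclotomic (p * q * r) ℤ - cyclotomic (p * q * r) ℤ
    = ∑ m ∈ Finset.range p, (X ^ m * (X ^ q * expand ℤ r (cyclotomic (p * q) ℤ)
      - expand ℤ r (cyclotomic (p * q) ℤ))) := by
  have h1 := cyclotomic_expand_eq_cyclotomic_mul T.hr (n := p * q) (by
    rw [T.hr.dvd_mul, Nat.prime_dvd_prime_iff_eq T.hr T.hp, Nat.prime_dvd_prime_iff_eq T.hr T.hq]
    rintro (h | h)
    · exact T.hpr h.symm
    · exact T.hqr h.symm) ℤ
  have h2 := T.rel_pq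
  rw [← Finset.sum_mul]
  rw [h1]
  linear_combination (-cyclotomic (p * q * r) ℤ) * h2

omit T in
lemma zc_sum (S : Finset ℕ) (f : ℕ → ℤ[X]) (n : ℤ) :
    zc (∑ m ∈ S, f m) n = ∑ m ∈ S, zc (f m) n := by
  unfold zc
  split_ifs
  · rw [finsetSum_coeff]
  · simp

/-- Kaplan's lemma. -/
theorem kaplan (n : ℤ) : zc (cyclotomic (p * q * r) ℤ) n
    = ∑ m ∈ Finset.range p, (T.A (n - m) - T.A (n - m - q)) := by
  have hpos := T.pq_pos
  have hstep : ∀ t : ℤ, zc (cyclotomic (p * q * r) ℤ) t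
      = zc (cyclotomic (p * q * r) ℤ) (t - ((p * q : ℕ) : ℤ))
        + ∑ m ∈ Finset.range p, (zc (expand ℤ r (cyclotomic (p * q) ℤ)) (t - m)
          - zc (expand ℤ r (cyclotomic (p * q) ℤ)) (t - m - q)) := by
    intro t
    have := congrArg (fun g => zc g t) T.rel_pqr
    simp only [zc_sub, zc_X_pow_mul, zc_sum] at this
    have e : ∑ m ∈ Finset.range p, (zc (expand ℤ r (cyclotomic (p * q) ℤ)) (t - m)
          - zc (expand ℤ r (cyclotomic (p * q) ℤ)) (t - m - q))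
        = -∑ m ∈ Finset.range p, (zc (expand ℤ r (cyclotomic (p * q) ℤ)) (t - m - q)
          - zc (expand ℤ r (cyclotomic (p * q) ℤ)) (t - m)) := by
      rw [← Finset.sum_neg_distrib]
      exact Finset.sum_congr rfl (fun m _ => by ring)
    rw [e, ← this]
    ring
  have key : ∀ N : ℕ, ∀ t : ℤ, t < N → zc (cyclotomic (p * q * r) ℤ) t
      = ∑ m ∈ Finset.range p, (T.A (t - m) - T.A (t - m - q)) := by
    intro N
    induction N with
    | zero =>
      intro t ht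
      have ht' : t < 0 := by exact_mod_cast ht
      rw [zc_neg _ ht']
      symm
      apply Finset.sum_eq_zero
      intro m _
      rw [T.A_neg (by omega), T.A_neg (by omega)]
      ring
    | succ N ih =>
      intro t ht
      rw [hstep t, ih _ (by push_cast at ht hpos ⊢; omega), ← Finset.sum_add_distrib]
      apply Finset.sum_congr rfl
      intro m _
      rw [← T.A_diff (t - m), ← T.A_diff (t - m - q)]
      rw [show t - ((p * q : ℕ) : ℤ) - m = t - m - ((p * q : ℕ) : ℤ) by ring,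
        show t - m - ((p * q : ℕ) : ℤ) - q = t - m - q - ((p * q : ℕ) : ℤ) by ring]
      ring
  exact key (n.toNat + 1) n (by push_cast; omega)

end Tern

end Pool.Agent.V11297.CycloPQ
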