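import Pool.Agent.V11297.Ternary

/-!
# Coefficients of ternary cyclotomic polynomials, second part: coordinates and upper bound
-/

open Polynomial

namespace Pool.Agent.V11297.CycloPQ

variable {p q : ℕ}

/-- `a ≡ -v n` modulo `p`. -/
lemma Bez.a_congr (B : Bez p q) (n : ℤ) : (p : ℤ) ∣ B.a n + B.v * n := by
  have h1 := B.a_spec n
  have h2 := B.h
  refine ⟨B.a n * B.ρ + B.v * B.i n, ?_⟩
  linear_combination (-B.a n) * h2 - B.v * h1

lemma Bez.v_pos (B : Bez p q) (hp : 1 < p) : 0 < B.v := by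
  have h := B.h
  have h0 := B.hv0
  rcases h0.lt_or_eq with h1 | h1
  · exact h1
  · exfalso
    rw [← h1, mul_zero, add_zero] at h
    have := B.hρ0
    have hp' : (1 : ℤ) < p := by exact_mod_cast hp
    nlinarith

/-- Coefficients in terms of the coordinates. -/
lemma apq_coord (hp : p.Prime) (hq : q.Prime) (hpq : p ≠ q) (B : Bez p q) {f j : ℤ}
    (h0 : 0 ≤ f) (h1 : f < ((p * q : ℕ) : ℤ)) (j0 : 0 ≤ j) (j1 : j < p)
    (hj : (p : ℤ) ∣ B.a f - j) :
    (B.i f < B.ρ ∧ j < p - B.v ∧ f = p * B.i f + q * j ∧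
        zc (cyclotomic (p * q) ℤ) f = 1) ∨
    (B.ρ ≤ B.i f ∧ p - B.v ≤ j ∧ f = p * B.i f + q * (j - p) ∧
        zc (cyclotomic (p * q) ℤ) f = -1) ∨
    (zc (cyclotomic (p * q) ℤ) f = 0 ∧ (B.i f < B.ρ → p - B.v ≤ j) ∧
      (B.ρ ≤ B.i f → j < p - B.v)) := by
  have hp' : (0 : ℤ) < p := by exact_mod_cast hp.pos
  have hq' : (0 : ℤ) < q := by exact_mod_cast hq.pos
  have ha := B.a_spec f
  have i0 := B.i_nonneg hq.pos f
  have i1 := B.i_lt hq.pos f
  have hB := B.h
  have v0 := B.hv0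
  have v1 := B.hv1
  rw [Nat.cast_mul] at h1
  have e1 : (p : ℤ) * B.i f ≤ p * (q - 1) := mul_le_mul_of_nonneg_left (by omega) hp'.le
  have e0 : 0 ≤ (p : ℤ) * B.i f := mul_nonneg hp'.le i0
  have a1 : B.a f < p := by
    by_contra hcon
    push Not at hcon
    have : (q : ℤ) * p ≤ q * B.a f := mul_le_mul_of_nonneg_left hcon hq'.le
    nlinarith
  have a0 : -(p : ℤ) < B.a f := by
    by_contra hcon
    push Not at hcon
    have : (q : ℤ) * B.a f ≤ q * (-p) := mul_le_mul_of_nonneg_left hcon hq'.le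
    nlinarith
  obtain ⟨k, hk⟩ := hj
  have k1 : k < 1 := by
    by_contra hcon
    push Not at hcon
    have : (p : ℤ) * 1 ≤ p * k := mul_le_mul_of_nonneg_left hcon hp'.le
    omega
  have k2 : -2 < k := by
    by_contra hcon
    push Not at hcon
    have : (p : ℤ) * k ≤ p * (-2) := mul_le_mul_of_nonneg_left hcon hp'.le
    omega
  rw [apq hp hq hpq B]
  have hk3 : k = 0 ∨ k = -1 := by omega
  rcases lt_or_ge (B.i f) B.ρ with hi | hi
  · rw [if_pos hi]
    rcases hk3 with rfl | rfl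
    · have haj : B.a f = j := by omega
      by_cases hjv : j < p - B.v
      · left
        refine ⟨hi, hjv, ?_, ?_⟩
        · rw [← haj]; linarith
        · rw [if_pos ⟨by omega, by omega⟩]
      · right; right
        rw [if_neg (by omega)]
        exact ⟨rfl, fun _ => by omega, fun h => by omega⟩
    · have haj : B.a f = j - p := by omega
      right; right
      rw [if_neg (by omega)]
      refine ⟨rfl, fun _ => ?_, fun h => by omega⟩
      by_contra hcon
      push Not at hcon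
      have h3 : B.a f ≤ -B.v - 1 := by omega
      have h4 : (q : ℤ) * B.a f ≤ q * (-B.v - 1) := mul_le_mul_of_nonneg_left h3 hq'.le
      have h5 : (p : ℤ) * B.i f ≤ p * (B.ρ - 1) := mul_le_mul_of_nonneg_left (by omega) hp'.le
      have h6 : (1 : ℤ) < p := by exact_mod_cast hp.one_lt
      linarith
  · rw [if_neg (by omega)]
    rcases hk3 with rfl | rfl
    · have haj : B.a f = j := by omega
      right; right
      rw [if_neg (by omega)]
      refine ⟨rfl, fun h => by omega, fun _ => ?_⟩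
      by_contra hcon
      push Not at hcon
      have h3 : (q : ℤ) * (p - B.v) ≤ q * B.a f := mul_le_mul_of_nonneg_left (by omega) hq'.le
      have h5 : (p : ℤ) * B.ρ ≤ p * B.i f := mul_le_mul_of_nonneg_left hi hp'.le
      nlinarith
    · have haj : B.a f = j - p := by omega
      by_cases hjv : p - B.v ≤ j
      · right; left
        refine ⟨hi, hjv, ?_, ?_⟩
        · rw [← haj]; linarith
        · rw [if_pos ⟨by omega, by omega⟩]
      · right; right
        rw [if_neg (by omega)]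
        exact ⟨rfl, fun h => by omega, fun _ => by omega⟩

namespace Tern

variable {r : ℕ} (T : Tern p q r)

include T

/-- The second coordinate. -/
def jj (t : ℤ) : ℤ := (-(T.B.v * T.s) * t) % (p : ℤ)

/-- The first coordinate. -/
def ii (t : ℤ) : ℤ := T.B.i (T.F t)

lemma p_pos : (0 : ℤ) < p := by exact_mod_cast T.hp.pos

lemma q_pos : (0 : ℤ) < q := by exact_mod_cast T.hq.pos

lemma r_pos : (0 : ℤ) < r := by exact_mod_cast T.hr.pos

lemma jj_nonneg (t : ℤ) : 0 ≤ T.jj t := Int.emod_nonneg _ T.p_pos.ne'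

lemma jj_lt (t : ℤ) : T.jj t < p := Int.emod_lt_of_pos _ T.p_pos

lemma dvd_jj (t : ℤ) : (p : ℤ) ∣ T.B.a (T.F t) - T.jj t := by
  have h1 := T.B.a_congr (T.F t)
  have h2 : (p : ℤ) ∣ T.s * t - T.F t := by
    have := T.dvd_F t
    rw [Nat.cast_mul] at this
    exact (dvd_mul_right _ _).trans this
  have h3 : (p : ℤ) ∣ (-(T.B.v * T.s) * t) - T.jj t := Int.dvd_self_sub_emod
  have e : T.B.a (T.F t) - T.jj t = (T.B.a (T.F t) + T.B.v * T.F t)
      + T.B.v * (T.s * t - T.F t) + ((-(T.B.v * T.s) * t) - T.jj t) := by ring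
  rw [e]
  exact dvd_add (dvd_add h1 (h2.mul_left _)) h3

lemma i_congr {x y : ℤ} (h : (q : ℤ) ∣ x - y) : T.B.i x = T.B.i y := by
  unfold Bez.i
  apply Int.emod_emod_of_dvd _ (dvd_refl _) |>.symm.trans _
  rw [Int.emod_emod_of_dvd _ (dvd_refl _)]
  apply Int.emod_eq_emod_iff_emod_sub_eq_zero.mpr
  apply Int.emod_eq_zero_of_dvd
  rw [← sub_mul]
  exact h.mul_right _

lemma ii_sub (t : ℤ) : T.ii (t - q) = T.ii t := by
  unfold ii
  apply T.i_congr
  have h1 := T.dvd_F t
  have h2 := T.dvd_F (t - q)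
  rw [Nat.cast_mul] at h1 h2
  have h1' : (q : ℤ) ∣ T.s * t - T.F t := (dvd_mul_left _ _).trans h1
  have h2' : (q : ℤ) ∣ T.s * (t - q) - T.F (t - q) := (dvd_mul_left _ _).trans h2
  have e : T.F (t - q) - T.F t = (T.s * t - T.F t) - (T.s * (t - q) - T.F (t - q)) - q * T.s := by
    ring
  rw [e]
  exact dvd_sub (dvd_sub h1' h2') (dvd_mul_right _ _)

/-- The shift of the second coordinate. -/
def τ : ℤ := T.s % (p : ℤ)

lemma τ_pos : 0 < T.τ := by
  have h0 : 0 ≤ T.τ := Int.emod_nonneg _ T.p_pos.ne'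
  rcases h0.lt_or_eq with h | h
  · exact h
  · exfalso
    have h1 : (p : ℤ) ∣ T.s := Int.dvd_of_emod_eq_zero h.symm
    have h2 : (p : ℤ) ∣ r * T.s - 1 := by
      have := T.hs
      rw [Nat.cast_mul] at this
      exact (dvd_mul_right _ _).trans this
    have h3 : (p : ℤ) ∣ 1 := by
      have := dvd_sub (h1.mul_left (r : ℤ)) h2
      rwa [show (r : ℤ) * T.s - (r * T.s - 1) = 1 by ring] at this
    have h4 := Int.le_of_dvd (by norm_num) h3
    have := T.hp.one_lt
    have : (1 : ℤ) < p := by exact_mod_cast this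
    omega

lemma τ_lt : T.τ < p := Int.emod_lt_of_pos _ T.p_pos

lemma jj_sub (t : ℤ) : T.jj (t - q) = if T.τ ≤ T.jj t then T.jj t - T.τ else T.jj t - T.τ + p := by
  have h1 : (p : ℤ) ∣ (-(T.B.v * T.s) * t) - T.jj t := Int.dvd_self_sub_emod
  have h2 : (p : ℤ) ∣ (-(T.B.v * T.s) * (t - q)) - T.jj (t - q) := Int.dvd_self_sub_emod
  have h3 : (p : ℤ) ∣ T.s - T.τ := Int.dvd_self_sub_emod
  have hB := T.B.h
  have h4 : (p : ℤ) ∣ T.jj (t - q) - (T.jj t - T.τ) := by
    have e : T.jj (t - q) - (T.jj t - T.τ)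
        = ((-(T.B.v * T.s) * t) - T.jj t) - ((-(T.B.v * T.s) * (t - q)) - T.jj (t - q))
          - (T.s - T.τ) + p * (T.B.ρ * T.s) := by
      linear_combination (-T.s) * hB
    rw [e]
    exact dvd_add (dvd_sub (dvd_sub h1 h2) h3) (dvd_mul_right _ _)
  obtain ⟨k, hk⟩ := h4
  have hp := T.p_pos
  have a0 := T.jj_nonneg t
  have a1 := T.jj_lt t
  have a2 := T.jj_nonneg (t - q)
  have a3 := T.jj_lt (t - q)
  have a4 := T.τ_pos
  have a5 := T.τ_lt
  have k1 : k < 2 := by
    by_contra hcon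
    push Not at hcon
    have : (p : ℤ) * 2 ≤ p * k := mul_le_mul_of_nonneg_left hcon hp.le
    omega
  have k2 : -1 < k := by
    by_contra hcon
    push Not at hcon
    have : (p : ℤ) * k ≤ p * (-1) := mul_le_mul_of_nonneg_left hcon hp.le
    omega
  have hk3 : k = 0 ∨ k = 1 := by omega
  rcases hk3 with rfl | rfl
  · rw [if_pos (by omega)]; omega
  · rw [if_neg (by omega)]; omega

/-- Trichotomy for the summand. -/
lemma A_cases (t : ℤ) :
    (T.ii t < T.B.ρ ∧ T.jj t < p - T.B.v ∧ T.F t = p * T.ii t + q * T.jj t ∧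
        T.A t = if r * T.F t ≤ t then 1 else 0) ∨
    (T.B.ρ ≤ T.ii t ∧ p - T.B.v ≤ T.jj t ∧ T.F t = p * T.ii t + q * (T.jj t - p) ∧
        T.A t = if r * T.F t ≤ t then -1 else 0) ∨
    (T.A t = 0 ∧ (T.ii t < T.B.ρ → p - T.B.v ≤ T.jj t) ∧
      (T.B.ρ ≤ T.ii t → T.jj t < p - T.B.v)) := by
  have := apq_coord T.hp T.hq T.hpq.ne T.B (T.F_nonneg t) (T.F_lt t) (T.jj_nonneg t)
    (T.jj_lt t) (T.dvd_jj t)
  unfold A ii
  rcases this with ⟨h1, h2, h3, h4⟩ | ⟨h1, h2, h3, h4⟩ | ⟨h1, h2, h3⟩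
  · left
    exact ⟨h1, h2, h3, by rw [h4]⟩
  · right; left
    exact ⟨h1, h2, h3, by rw [h4]⟩
  · right; right
    exact ⟨by rw [h1]; simp, h2, h3⟩

omit T in
/-- The case analysis for one term. -/
lemma term_cases {p q i j j' τ v ρ F1 F2 x y : ℤ} {W1 W2 : Prop} [Decidable W1] [Decidable W2]
    (hq : 0 < q) (hτ0 : 0 < τ) (hτ1 : τ < p)
    (hvp : v ≤ p)
    (hA : (i < ρ ∧ j < p - v ∧ F1 = p * i + q * j ∧ x = if W1 then 1 else 0) ∨
      (ρ ≤ i ∧ p - v ≤ j ∧ F1 = p * i + q * (j - p) ∧ x = if W1 then -1 else 0) ∨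
      (x = 0 ∧ (i < ρ → p - v ≤ j) ∧ (ρ ≤ i → j < p - v)))
    (hB : (i < ρ ∧ j' < p - v ∧ F2 = p * i + q * j' ∧ y = if W2 then 1 else 0) ∨
      (ρ ≤ i ∧ p - v ≤ j' ∧ F2 = p * i + q * (j' - p) ∧ y = if W2 then -1 else 0) ∨
      (y = 0 ∧ (i < ρ → p - v ≤ j') ∧ (ρ ≤ i → j' < p - v)))
    (hj : (τ ≤ j ∧ j' = j - τ) ∨ (j < τ ∧ j' = j - τ + p))
    (w1 : F2 + q ≤ F1 → W1 → W2) (w2 : F1 ≤ F2 → W2 → W1) :
    x - y ≤ 1 ∧ -1 ≤ x - y ∧
      (0 < x - y → (j < τ ∧ j < p - v) ∨ τ + (p - v) ≤ j) ∧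
      (x - y < 0 → (τ ≤ j ∧ j < τ + (p - v)) ∨ (p - v ≤ j ∧ j < τ)) := by
  have f1 : q * 1 ≤ q * τ := mul_le_mul_of_nonneg_left (by omega) hq.le
  have f2 : 0 ≤ q * (p - τ) := mul_nonneg hq.le (by omega)
  rcases hj with ⟨hj, rfl⟩ | ⟨hj, rfl⟩
  · have w1' : (F1 - F2 = q * τ) → W1 → W2 := fun h => w1 (by omega)
    rcases hA with ⟨h1, h2, h3, h4⟩ | ⟨h1, h2, h3, h4⟩ | ⟨h1, h2, h3⟩ <;>
      rcases hB with ⟨g1, g2, g3, g4⟩ | ⟨g1, g2, g3, g4⟩ | ⟨g1, g2, g3⟩
    · have w := w1' (by rw [h3, g3]; ring)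
      by_cases a : W1 <;> by_cases b : W2 <;> simp only [a, b, if_true, if_false] at h4 g4 <;>
        first | (exfalso; exact b (w a)) | (subst h4; subst g4; omega)
    · omega
    · split_ifs at h4 <;> (subst h4; subst g1; omega)
    · omega
    · have w := w1' (by rw [h3, g3]; ring)
      by_cases a : W1 <;> by_cases b : W2 <;> simp only [a, b, if_true, if_false] at h4 g4 <;>
        first | (exfalso; exact b (w a)) | (subst h4; subst g4; omega)
    · split_ifs at h4 <;> (subst h4; subst g1; omega)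
    · split_ifs at g4 <;> (subst h1; subst g4; omega)
    · split_ifs at g4 <;> (subst h1; subst g4; omega)
    · subst h1; subst g1; omega
  · have w2' : (F2 - F1 = q * (p - τ)) → W2 → W1 := fun h => w2 (by omega)
    rcases hA with ⟨h1, h2, h3, h4⟩ | ⟨h1, h2, h3, h4⟩ | ⟨h1, h2, h3⟩ <;>
      rcases hB with ⟨g1, g2, g3, g4⟩ | ⟨g1, g2, g3, g4⟩ | ⟨g1, g2, g3⟩
    · have w := w2' (by rw [h3, g3]; ring)
      by_cases a : W1 <;> by_cases b : W2 <;> simp only [a, b, if_true, if_false] at h4 g4 <;>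
        first | (exfalso; exact a (w b)) | (subst h4; subst g4; omega)
    · omega
    · split_ifs at h4 <;> (subst h4; subst g1; omega)
    · omega
    · have w := w2' (by rw [h3, g3]; ring)
      by_cases a : W1 <;> by_cases b : W2 <;> simp only [a, b, if_true, if_false] at h4 g4 <;>
        first | (exfalso; exact a (w b)) | (subst h4; subst g4; omega)
    · split_ifs at h4 <;> (subst h4; subst g1; omega)
    · split_ifs at g4 <;> (subst h1; subst g4; omega)
    · split_ifs at g4 <;> (subst h1; subst g4; omega)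
    · subst h1; subst g1; omega

/-- The possible values of one term. -/
lemma term (t : ℤ) : T.A t - T.A (t - q) ≤ 1 ∧ -1 ≤ T.A t - T.A (t - q) ∧
      (0 < T.A t - T.A (t - q) →
        (T.jj t < T.τ ∧ T.jj t < p - T.B.v) ∨ T.τ + (p - T.B.v) ≤ T.jj t) ∧
      (T.A t - T.A (t - q) < 0 →
        (T.τ ≤ T.jj t ∧ T.jj t < T.τ + (p - T.B.v)) ∨ (p - T.B.v ≤ T.jj t ∧ T.jj t < T.τ)) := by
  have hr : (1 : ℤ) ≤ r := T.r_pos
  have hq := T.q_pos
  have hA := T.A_cases t
  have hB := T.A_cases (t - q)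
  rw [T.ii_sub t] at hB
  refine term_cases hq T.τ_pos T.τ_lt T.B.hv1.le hA hB ?_ ?_ ?_
  · have := T.jj_sub t
    split_ifs at this with h
    · left; exact ⟨h, this⟩
    · right; exact ⟨by omega, this⟩
  · intro h hw
    nlinarith
  · intro h hw
    nlinarith

lemma jj_inj (n : ℤ) : Set.InjOn (fun m : ℕ => (T.jj (n - m)).toNat) (Finset.range p : Set ℕ) := by
  intro m hm m' hm' h
  simp only [Finset.coe_range, Set.mem_Iio] at hm hm'
  have a0 := T.jj_nonneg (n - m)
  have a1 := T.jj_nonneg (n - m')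
  have h' : T.jj (n - m) = T.jj (n - m') := by
    have : (T.jj (n - m)).toNat = (T.jj (n - m')).toNat := h
    omega
  have h1 : (p : ℤ) ∣ (-(T.B.v * T.s) * (n - m)) - T.jj (n - m) := Int.dvd_self_sub_emod
  have h2 : (p : ℤ) ∣ (-(T.B.v * T.s) * (n - m')) - T.jj (n - m') := Int.dvd_self_sub_emod
  have h3 : (p : ℤ) ∣ T.B.v * (T.s * ((m : ℤ) - m')) := by
    have e : T.B.v * (T.s * ((m : ℤ) - m')) = ((-(T.B.v * T.s) * (n - m)) - T.jj (n - m))
        - ((-(T.B.v * T.s) * (n - m')) - T.jj (n - m')) := by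
      rw [h']; ring
    rw [e]
    exact dvd_sub h1 h2
  have hpr : Prime (p : ℤ) := Nat.prime_iff_prime_int.mp T.hp
  rcases hpr.dvd_or_dvd h3 with h4 | h4
  · exfalso
    have := Int.le_of_dvd (T.B.v_pos T.hp.one_lt) h4
    have := T.B.hv1
    omega
  · rcases hpr.dvd_or_dvd h4 with h5 | h5
    · exfalso
      have h6 : T.τ = 0 := Int.emod_eq_zero_of_dvd h5
      have := T.τ_pos
      omega
    · obtain ⟨k, hk⟩ := h5
      have hp := T.p_pos
      have k1 : k < 1 := by
        by_contra hcon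
        push Not at hcon
        have : (p : ℤ) * 1 ≤ p * k := mul_le_mul_of_nonneg_left hcon hp.le
        omega
      have k2 : -1 < k := by
        by_contra hcon
        push Not at hcon
        have : (p : ℤ) * k ≤ p * (-1) := mul_le_mul_of_nonneg_left hcon hp.le
        omega
      have : k = 0 := by omega
      subst this
      omega

lemma sum_jj_le (g : ℤ → ℤ) (hg : ∀ j, 0 ≤ g j) (n : ℤ) :
    ∑ m ∈ Finset.range p, g (T.jj (n - m)) ≤ ∑ j ∈ Finset.range p, g j := by
  have h1 : ∑ m ∈ Finset.range p, g (T.jj (n - m))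
      = ∑ j ∈ (Finset.range p).image (fun m : ℕ => (T.jj (n - m)).toNat), g j := by
    rw [Finset.sum_image (T.jj_inj n)]
    apply Finset.sum_congr rfl
    intro m _
    congr 1
    have := T.jj_nonneg (n - m)
    omega
  rw [h1]
  apply Finset.sum_le_sum_of_subset_of_nonneg
  · intro j hj
    rw [Finset.mem_image] at hj
    obtain ⟨m, _, rfl⟩ := hj
    rw [Finset.mem_range]
    have := T.jj_nonneg (n - m)
    have := T.jj_lt (n - m)
    omega
  · intro j _ _
    exact hg j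

/-- Upper bound for the height of a ternary cyclotomic polynomial. -/
theorem upper (n : ℤ) : |zc (cyclotomic (p * q * r) ℤ) n| ≤ max (p - T.B.v) T.B.v := by
  have hp := T.p_pos
  have t0 := T.τ_pos
  have t1 := T.τ_lt
  have v0 := T.B.hv0
  have v1 := T.B.hv1
  rw [T.kaplan n, abs_le]
  constructor
  · let g : ℤ → ℤ := fun j => if (T.τ ≤ j ∧ j < T.τ + (p - T.B.v)) ∨ (p - T.B.v ≤ j ∧ j < T.τ)
      then 1 else 0
    have hg : ∀ j, 0 ≤ g j := by
      intro j
      simp only [g]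
      split_ifs <;> norm_num
    have h1 : -∑ m ∈ Finset.range p, (T.A (n - m) - T.A (n - m - q))
        ≤ ∑ m ∈ Finset.range p, g (T.jj (n - m)) := by
      rw [← Finset.sum_neg_distrib]
      apply Finset.sum_le_sum
      intro m _
      obtain ⟨c1, c2, c3, c4⟩ := T.term (n - m)
      simp only [g]
      split_ifs with h
      · omega
      · have : ¬ (T.A (n - m) - T.A (n - m - q) < 0) := fun h' => h (c4 h')
        omega
    have h2 := T.sum_jj_le g hg n
    have h3 : ∑ j ∈ Finset.range p, g j ≤ max (p - T.B.v) T.B.v := by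
      simp only [g]
      rw [Finset.sum_boole]
      have hsub : (Finset.range p).filter (fun j : ℕ => (T.τ ≤ (j : ℤ) ∧ (j : ℤ) < T.τ + (p - T.B.v))
          ∨ (p - T.B.v ≤ (j : ℤ) ∧ (j : ℤ) < T.τ)) ⊆
          Finset.Ico T.τ.toNat (min p (T.τ.toNat + (p - T.B.v).toNat)) ∪
            Finset.Ico (p - T.B.v).toNat T.τ.toNat := by
        intro j hj
        rw [Finset.mem_filter, Finset.mem_range] at hj
        rw [Finset.mem_union, Finset.mem_Ico, Finset.mem_Ico]
        omega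
      have hc := (Finset.card_le_card hsub).trans (Finset.card_union_le _ _)
      rw [Nat.card_Ico, Nat.card_Ico] at hc
      have hc' := Int.ofNat_le.mpr hc
      refine hc'.trans ?_
      omega
    omega
  · let g : ℤ → ℤ := fun j => if (j < T.τ ∧ j < p - T.B.v) ∨ T.τ + (p - T.B.v) ≤ j
      then 1 else 0
    have hg : ∀ j, 0 ≤ g j := by
      intro j
      simp only [g]
      split_ifs <;> norm_num
    have h1 : ∑ m ∈ Finset.range p, (T.A (n - m) - T.A (n - m - q))
        ≤ ∑ m ∈ Finset.range p, g (T.jj (n - m)) := by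
      apply Finset.sum_le_sum
      intro m _
      obtain ⟨c1, c2, c3, c4⟩ := T.term (n - m)
      simp only [g]
      split_ifs with h
      · omega
      · have : ¬ (0 < T.A (n - m) - T.A (n - m - q)) := fun h' => h (c3 h')
        omega
    have h2 := T.sum_jj_le g hg n
    have h3 : ∑ j ∈ Finset.range p, g j ≤ max (p - T.B.v) T.B.v := by
      simp only [g]
      rw [Finset.sum_boole]
      have hsub : (Finset.range p).filter (fun j : ℕ => ((j : ℤ) < T.τ ∧ (j : ℤ) < p - T.B.v)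
          ∨ T.τ + (p - T.B.v) ≤ (j : ℤ)) ⊆
          Finset.range (min T.τ.toNat (p - T.B.v).toNat) ∪
            Finset.Ico (T.τ.toNat + (p - T.B.v).toNat) p := by
        intro j hj
        rw [Finset.mem_filter, Finset.mem_range] at hj
        rw [Finset.mem_union, Finset.mem_range, Finset.mem_Ico]
        omega
      have hc := (Finset.card_le_card hsub).trans (Finset.card_union_le _ _)
      rw [Finset.card_range, Nat.card_Ico] at hc
      have hc' := Int.ofNat_le.mpr hc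
      refine hc'.trans ?_
      omega
    omega

end Tern

end Pool.Agent.V11297.CycloPQ
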