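import Pool.Agent.V11297.Ternary2

/-!
# Coefficients of ternary cyclotomic polynomials, third part: lower bound
-/

open Polynomial

namespace Pool.Agent.V11297.CycloPQ.Tern

variable {p q r : ℕ} (T : Tern p q r)

/-- The conditions under which a coefficient equal to `± (p - v)` exists. -/
structure Good (T : Tern p q r) (σ δ α t' : ℤ) : Prop where
  hσ : σ = p - T.B.v - 1
  hs : T.s = α
  hα0 : 0 < α
  ht' : (q : ℤ) - α = p * t'
  ht0 : 0 < t'
  h1 : (σ - T.B.v) * q ≤ σ * α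
  hδ0 : 0 < δ
  hδ1 : δ ≤ T.B.v
  hδ : σ * α < δ * q
  hv : 2 * T.B.v < p
  hr : 2 * (p * q : ℤ) < r

variable {T} {σ δ α t' : ℤ}

lemma Good.σ_nonneg (G : Good T σ δ α t') : 0 ≤ σ := by
  have := G.hσ
  have := G.hv
  have := T.B.hv0
  omega

lemma Good.α_lt (G : Good T σ δ α t') : α < q := by
  have h1 := G.ht'
  have h2 := G.ht0
  have h3 := T.p_pos
  nlinarith

/-- Coordinates for `k ≥ 0`. -/
lemma Good.coord_nonneg (G : Good T σ δ α t') {k : ℤ} (h0 : 0 ≤ k) (h1 : k ≤ σ) :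
    T.B.i (σ * q - k * α) = k * t' ∧ T.B.a (σ * q - k * α) = σ - k ∧ k * t' < T.B.ρ := by
  have hp := T.p_pos
  have hq := T.q_pos
  have ht := G.ht'
  have ht0 := G.ht0
  have hB := T.B.h
  have hα := G.α_lt
  have g1 := G.h1
  have hρ : k * t' < T.B.ρ := by
    have e1 : (p : ℤ) * (k * t') = k * (q - α) := by rw [ht]; ring
    have e2 : k * ((q : ℤ) - α) ≤ σ * (q - α) := mul_le_mul_of_nonneg_right h1 (by omega)
    have e3 : σ * ((q : ℤ) - α) ≤ q * T.B.v := by nlinarith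
    have e4 : (p : ℤ) * (k * t') < p * T.B.ρ := by rw [e1, hB]; omega
    exact lt_of_mul_lt_mul_left e4 hp.le
  have h3 := T.B.a_unique T.hq.pos (n := σ * q - k * α) (i' := k * t') (a' := σ - k)
    (mul_nonneg h0 ht0.le) (hρ.trans T.B.hρ1) (by linear_combination k * ht)
  exact ⟨h3.1.symm, h3.2.symm, hρ⟩

/-- Coordinates for `k < 0`. -/
lemma Good.coord_neg (G : Good T σ δ α t') {k : ℤ} (h0 : k < 0) (h1 : -T.B.v ≤ k) :
    T.B.i (σ * q - k * α) = q + k * t' ∧ T.B.a (σ * q - k * α) = σ - k - p ∧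
      T.B.ρ ≤ q + k * t' := by
  have hp := T.p_pos
  have hq := T.q_pos
  have ht := G.ht'
  have ht0 := G.ht0
  have hB := T.B.h
  have hα := G.α_lt
  have hα0 := G.hα0
  have hv := G.hv
  have hρ : T.B.ρ ≤ q + k * t' := by
    have e1 : (p : ℤ) * (q + k * t') = p * q + k * (q - α) := by rw [ht]; ring
    have e2 : (-T.B.v) * ((q : ℤ) - α) ≤ k * (q - α) := mul_le_mul_of_nonneg_right h1 (by omega)
    have v0 := T.B.hv0
    have e3 : 0 ≤ T.B.v * α := mul_nonneg v0 hα0.le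
    have e4 : (p : ℤ) * T.B.ρ ≤ p * (q + k * t') := by
      rw [e1, hB]
      nlinarith
    exact le_of_mul_le_mul_left e4 hp
  have hk : k * t' < 0 := mul_neg_of_neg_of_pos h0 ht0
  have h3 := T.B.a_unique T.hq.pos (n := σ * q - k * α) (i' := q + k * t') (a' := σ - k - p)
    (by have := T.B.hρ0; omega) (by omega) (by linear_combination k * ht)
  exact ⟨h3.1.symm, h3.2.symm, hρ⟩

lemma Good.value_one (G : Good T σ δ α t') {k : ℤ} (h0 : 0 ≤ k) (h1 : k ≤ σ) :
    zc (cyclotomic (p * q) ℤ) (σ * q - k * α) = 1 := by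
  obtain ⟨c1, c2, c3⟩ := G.coord_nonneg h0 h1
  have := G.hσ
  rw [apq T.hp T.hq T.hpq.ne T.B, c1, c2, if_pos c3, if_pos ⟨by omega, by omega⟩]

lemma Good.value_zero (G : Good T σ δ α t') {k g : ℤ} (h0 : -T.B.v ≤ k) (h1 : k ≤ σ)
    (g0 : g ≤ σ * q) (hg : ((p * q : ℕ) : ℤ) ∣ g - (σ * q - k * α + q * δ)) :
    zc (cyclotomic (p * q) ℤ) g = 0 := by
  have hp := T.p_pos
  have hq := T.q_pos
  obtain ⟨c, hc⟩ := hg
  rw [Nat.cast_mul] at hc
  have hα := G.α_lt
  have hα0 := G.hα0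
  have hδ := G.hδ
  have hδ0 := G.hδ0
  have hδ1 := G.hδ1
  have hσ := G.hσ
  have hv := G.hv
  have hσ0 := G.σ_nonneg
  -- the first coordinates agree
  have hi : T.B.i g = T.B.i (σ * q - k * α) := by
    apply T.i_congr
    refine ⟨δ + p * c, ?_⟩
    linear_combination hc
  have ha : T.B.a g = T.B.a (σ * q - k * α) + δ + p * c := by
    have s1 := T.B.a_spec g
    have s2 := T.B.a_spec (σ * q - k * α)
    rw [hi] at s1
    apply mul_left_cancel₀ hq.ne'
    linear_combination s1 - s2 + hc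
  have hc1 : c ≤ -1 := by
    by_contra hcon
    push Not at hcon
    have hc0 : 0 ≤ c := by omega
    have e1 : k * α ≤ σ * α := mul_le_mul_of_nonneg_right h1 hα0.le
    have e2 : 0 ≤ (p : ℤ) * q * c := mul_nonneg (mul_nonneg hp.le hq.le) hc0
    nlinarith
  have hpc : (p : ℤ) * c ≤ -p := by nlinarith
  rw [apq T.hp T.hq T.hpq.ne T.B, hi, ha]
  rcases lt_or_ge k 0 with hk | hk
  · obtain ⟨c1, c2, c3⟩ := G.coord_neg hk h0
    rw [c1, c2, if_neg (by omega), if_neg (by omega)]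
  · obtain ⟨c1, c2, c3⟩ := G.coord_nonneg hk h1
    rw [c1, c2, if_pos c3, if_neg (by omega)]

lemma Good.f_range (G : Good T σ δ α t') {k : ℤ} (h0 : -T.B.v ≤ k) (h1 : k ≤ σ) :
    0 ≤ σ * q - k * α ∧ σ * q - k * α < ((p * q : ℕ) : ℤ) := by
  have hp := T.p_pos
  have hq := T.q_pos
  have hα := G.α_lt
  have hα0 := G.hα0
  have hσ := G.hσ
  have hσ0 := G.σ_nonneg
  have v0 := T.B.hv0
  rw [Nat.cast_mul]
  have e1 : k * α ≤ σ * α := mul_le_mul_of_nonneg_right h1 hα0.le
  have e2 : σ * α ≤ σ * q := mul_le_mul_of_nonneg_left hα.le hσ0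
  have e3 : -T.B.v * α ≤ k * α := mul_le_mul_of_nonneg_right h0 hα0.le
  have e4 : T.B.v * α ≤ T.B.v * q := mul_le_mul_of_nonneg_left hα.le v0
  refine ⟨by omega, ?_⟩
  have e5 : σ * q + T.B.v * q = (p - 1) * q := by rw [hσ]; ring
  nlinarith

/-- The half of the sum with the coefficients equal to one. -/
lemma Good.half (G : Good T σ δ α t') {m : ℤ} (m0 : 0 ≤ m) (m1 : m < p) :
    T.F (r * (σ * q) + T.B.v + p * q - m) = σ * q - (m - T.B.v) * α ∧
    T.A (r * (σ * q) + T.B.v + p * q - m) = if T.B.v ≤ m then 1 else 0 := by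
  have hp := T.p_pos
  have hq := T.q_pos
  have hσ := G.hσ
  have v0 := T.B.hv0
  have hv := G.hv
  have hα0 := G.hα0
  have hr := G.hr
  obtain ⟨r1, r2⟩ := G.f_range (k := m - T.B.v) (by omega) (by omega)
  have hpq : (p : ℤ) ≤ p * q := by
    have : (1 : ℤ) ≤ q := hq
    nlinarith
  have hF : T.F (r * (σ * q) + T.B.v + p * q - m) = σ * q - (m - T.B.v) * α := by
    apply T.F_unique r1 r2
    have h1 := T.hs
    rw [G.hs] at h1 ⊢
    have e : α * (r * (σ * q) + T.B.v + p * q - m) - (σ * q - (m - T.B.v) * α)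
        = (r * α - 1) * (σ * q) + ((p * q : ℕ) : ℤ) * α := by
      push_cast; ring
    rw [e]
    exact dvd_add (h1.mul_right _) (dvd_mul_right _ _)
  refine ⟨hF, ?_⟩
  unfold A
  rw [hF]
  by_cases hm : T.B.v ≤ m
  · rw [if_pos hm, if_pos]
    · exact G.value_one (by omega) (by omega)
    · have e1 : 0 ≤ (m - T.B.v) * α := mul_nonneg (by omega) hα0.le
      have e2 : (r : ℤ) * (σ * q - (m - T.B.v) * α) ≤ r * (σ * q) :=
        mul_le_mul_of_nonneg_left (by omega) (by positivity)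
      omega
  · rw [if_neg hm, if_neg]
    have e1 : 1 ≤ (T.B.v - m) * α := by
      have : 1 * 1 ≤ (T.B.v - m) * α := mul_le_mul (by omega) (by omega) (by norm_num) (by omega)
      omega
    have e2 : (r : ℤ) * (σ * q + 1) ≤ r * (σ * q - (m - T.B.v) * α) :=
      mul_le_mul_of_nonneg_left (by linarith) (by positivity)
    have e3 : (r : ℤ) * (σ * q + 1) = r * (σ * q) + r := by ring
    omega

/-- The other half vanishes. -/
lemma Good.other (G : Good T σ δ α t') {k t : ℤ} (h0 : -T.B.v ≤ k) (h1 : k ≤ σ)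
    (ht : t < r * (σ * q) + r)
    (hg : ((p * q : ℕ) : ℤ) ∣ T.s * t - (σ * q - k * α + q * δ)) : T.A t = 0 := by
  unfold A
  split_ifs with h
  · apply G.value_zero h0 h1
    · have hr := T.r_pos
      by_contra hcon
      push Not at hcon
      have : (r : ℤ) * (σ * q + 1) ≤ r * T.F t := mul_le_mul_of_nonneg_left (by omega) hr.le
      have e3 : (r : ℤ) * (σ * q + 1) = r * (σ * q) + r := by ring
      omega
    · have h2 := T.dvd_F t
      have e : T.F t - (σ * q - k * α + q * δ)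
          = (T.s * t - (σ * q - k * α + q * δ)) - (T.s * t - T.F t) := by ring
      rw [e]
      exact dvd_sub hg h2
  · rfl

lemma sum_ite_ge (v : ℤ) (hv : 0 ≤ v) (hvp : v ≤ p) :
    ∑ m ∈ Finset.range p, (if v ≤ (m : ℤ) then (1 : ℤ) else 0) = p - v := by
  rw [Finset.sum_boole]
  have : (Finset.range p).filter (fun m : ℕ => v ≤ (m : ℤ)) = Finset.Ico v.toNat p := by
    ext m
    rw [Finset.mem_filter, Finset.mem_range, Finset.mem_Ico]
    omega
  rw [this, Nat.card_Ico]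
  omega

/-- The positive family. -/
theorem Good.lower_pos (G : Good T σ δ α t') (hδq : (p : ℤ) ∣ q + δ) :
    ∃ n, zc (cyclotomic (p * q * r) ℤ) n = p - T.B.v := by
  have hp := T.p_pos
  have hq := T.q_pos
  have hσ := G.hσ
  have v0 := T.B.hv0
  have hv := G.hv
  have hr := G.hr
  have hpq : (p : ℤ) ≤ p * q := by
    have : (1 : ℤ) ≤ q := hq
    nlinarith
  refine ⟨r * (σ * q) + T.B.v + p * q, ?_⟩
  rw [T.kaplan, ← sum_ite_ge T.B.v v0 T.B.hv1.le]
  apply Finset.sum_congr rfl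
  intro m hm
  rw [Finset.mem_range] at hm
  have m1 : (m : ℤ) < p := by exact_mod_cast hm
  obtain ⟨f1, f2⟩ := G.half (m := m) (by positivity) m1
  rw [f2, G.other (k := m - T.B.v) (by omega) (by omega), sub_zero]
  · omega
  · have h1 := T.hs
    rw [G.hs] at h1 ⊢
    obtain ⟨c, hc⟩ := hδq
    have ht := G.ht'
    have e : α * (r * (σ * q) + T.B.v + p * q - m - q) - (σ * q - (m - T.B.v) * α + q * δ)
        = (r * α - 1) * (σ * q) + ((p * q : ℕ) : ℤ) * (α + t' - c) := by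
      push_cast
      linear_combination (q : ℤ) * ht - q * hc
    rw [e]
    exact dvd_add (h1.mul_right _) (dvd_mul_right _ _)

/-- The negative family. -/
theorem Good.lower_neg (G : Good T σ δ α t') (hδq : (p : ℤ) ∣ q - δ) :
    ∃ n, zc (cyclotomic (p * q * r) ℤ) n = -(p - T.B.v) := by
  have hp := T.p_pos
  have hq := T.q_pos
  have hσ := G.hσ
  have v0 := T.B.hv0
  have hv := G.hv
  have hr := G.hr
  have hpq : (p : ℤ) ≤ p * q := by
    have : (1 : ℤ) ≤ q := hq
    nlinarith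
  have hpq' : (2 : ℤ) * q ≤ p * q := by
    have : (2 : ℤ) ≤ p := by exact_mod_cast T.hp.two_le
    nlinarith
  refine ⟨r * (σ * q) + T.B.v + p * q + q, ?_⟩
  rw [T.kaplan, ← sum_ite_ge T.B.v v0 T.B.hv1.le, ← Finset.sum_neg_distrib]
  apply Finset.sum_congr rfl
  intro m hm
  rw [Finset.mem_range] at hm
  have m1 : (m : ℤ) < p := by exact_mod_cast hm
  obtain ⟨f1, f2⟩ := G.half (m := m) (by positivity) m1
  rw [show r * (σ * q) + T.B.v + p * q + q - (m : ℤ) - q
    = r * (σ * q) + T.B.v + p * q - m by ring, f2,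
    G.other (k := m - T.B.v) (by omega) (by omega), zero_sub]
  · omega
  · have h1 := T.hs
    rw [G.hs] at h1 ⊢
    obtain ⟨c, hc⟩ := hδq
    have ht := G.ht'
    have e : α * (r * (σ * q) + T.B.v + p * q + q - m) - (σ * q - (m - T.B.v) * α + q * δ)
        = (r * α - 1) * (σ * q) + ((p * q : ℕ) : ℤ) * (α - t' + c) := by
      push_cast
      linear_combination (-q : ℤ) * ht + q * hc
    rw [e]
    exact dvd_add (h1.mul_right _) (dvd_mul_right _ _)

end Pool.Agent.V11297.CycloPQ.Tern
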