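import Mathlib

/-!
# Corners of finite order ideals of `ℕ^e`
-/

namespace Pool.Agent.V11297.TypeBd

open Finset

/-- Vectors of length `e` with coordinate sum at most `k`. -/
def dlt (e k : ℕ) : Finset (Fin e → ℕ) :=
  (Fintype.piFinset fun _ => Finset.range (k + 1)).filter (fun v => ∑ i, v i ≤ k)

theorem mem_dlt {e k : ℕ} {v : Fin e → ℕ} : v ∈ dlt e k ↔ ∑ i, v i ≤ k := by
  unfold dlt
  rw [Finset.mem_filter, Fintype.mem_piFinset]
  constructor
  · exact fun h => h.2
  · intro h
    refine ⟨fun i => ?_, h⟩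
    have : v i ≤ ∑ j, v j := Finset.single_le_sum (fun _ _ => Nat.zero_le _) (Finset.mem_univ i)
    rw [Finset.mem_range]
    omega

theorem card_dlt (e k : ℕ) : (dlt e k).card = (e + k).choose e := by
  induction e generalizing k with
  | zero =>
    rw [Nat.choose_zero_right]
    rw [Finset.card_eq_one]
    refine ⟨fun _ => 0, ?_⟩
    ext v
    simp only [mem_dlt, Finset.univ_eq_empty, Finset.sum_empty, Nat.zero_le, true_iff,
      Finset.mem_singleton]
    ext i
    exact i.elim0
  | succ e ih =>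
    have h1 : (dlt (e + 1) k).card =
        ((Finset.range (k + 1)).sigma (fun t => dlt e (k - t))).card := by
      refine Finset.card_nbij' (fun v => ⟨v 0, Fin.tail v⟩) (fun p => Fin.cons p.1 p.2)
        ?_ ?_ ?_ ?_
      · intro v hv
        rw [Finset.mem_coe, mem_dlt, Fin.sum_univ_succ] at hv
        rw [Finset.mem_coe, Finset.mem_sigma, Finset.mem_range, mem_dlt]
        constructor
        · show v 0 < k + 1
          omega
        · show ∑ i, v (Fin.succ i) ≤ k - v 0
          omega
      · rintro ⟨t, v⟩ hv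
        rw [Finset.mem_coe, Finset.mem_sigma, Finset.mem_range, mem_dlt] at hv
        rw [Finset.mem_coe, mem_dlt, Fin.sum_univ_succ]
        simp only [Fin.cons_zero, Fin.cons_succ]
        simp only at hv
        omega
      · intro v _
        exact Fin.cons_self_tail v
      · rintro ⟨t, v⟩ _
        simp
    rw [h1, Finset.card_sigma]
    have h2 : ∑ t ∈ Finset.range (k + 1), (dlt e (k - t)).card =
        ∑ t ∈ Finset.range (k + 1), (t + e).choose e := by
      rw [← Finset.sum_range_reflect]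
      apply Finset.sum_congr rfl
      intro t ht
      rw [Finset.mem_range] at ht
      rw [ih]
      congr 1
      omega
    rw [h2, Nat.sum_range_add_choose]
    congr 1
    omega

/-- The weight of a vector of degree `j` (dimension `d + 2`). -/
noncomputable def wt (d j : ℕ) : ℚ := ((d : ℚ) + 1) / ((d : ℚ) + 1 + j)

theorem wt_pos (d j : ℕ) : 0 < wt d j := by unfold wt; positivity

theorem wt_anti (d : ℕ) {i j : ℕ} (h : i ≤ j) : wt d j ≤ wt d i := by
  unfold wt
  have h' : (i : ℚ) ≤ j := by exact_mod_cast h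
  gcongr

theorem mono_dlt {e k l : ℕ} (h : k ≤ l) : dlt e k ⊆ dlt e l := by
  intro v hv
  rw [mem_dlt] at *
  omega

theorem choose_wt (d k : ℕ) :
    ((d + 2 + k).choose (d + 1) : ℚ) * wt d (k + 1) = ((d + 1 + k).choose d : ℚ) := by
  have h := Nat.add_one_mul_choose_eq (d + 1 + k) d
  -- (d+1+k+1) * choose (d+1+k) d = choose (d+1+k+1) (d+1) * (d+1)
  have h' : ((d : ℚ) + 1 + k + 1) * ((d + 1 + k).choose d : ℚ) =
      ((d + 2 + k).choose (d + 1) : ℚ) * ((d : ℚ) + 1) := by
    have : d + 2 + k = d + 1 + k + 1 := by ring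
    rw [this]
    exact_mod_cast h
  unfold wt
  have hne : ((d : ℚ) + 1 + ((k + 1 : ℕ) : ℚ)) ≠ 0 := by positivity
  rw [mul_div_assoc', div_eq_iff hne, ← h']
  push_cast
  ring

theorem card_level (d k : ℕ) :
    ((dlt (d + 2) (k + 1) \ dlt (d + 2) k).card : ℚ) = ((d + 2 + k).choose (d + 1) : ℚ) := by
  rw [Finset.card_sdiff_of_subset (mono_dlt (Nat.le_succ k)), card_dlt, card_dlt]
  have h : (d + 2 + (k + 1)).choose (d + 2) =
      (d + 2 + k).choose (d + 1) + (d + 2 + k).choose (d + 2) := by
    rw [show d + 2 + (k + 1) = (d + 2 + k) + 1 by ring]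
    exact Nat.choose_succ_succ _ _
  rw [h, Nat.add_sub_cancel]

theorem sum_wt_dlt (d k : ℕ) :
    ∑ v ∈ dlt (d + 2) k, wt d (∑ i, v i) = ((d + 1 + k).choose (d + 1) : ℚ) := by
  induction k with
  | zero =>
    have h : dlt (d + 2) 0 = {fun _ => 0} := by
      ext v
      rw [mem_dlt, Finset.mem_singleton]
      constructor
      · intro h
        ext i
        have : v i ≤ ∑ j, v j :=
          Finset.single_le_sum (fun _ _ => Nat.zero_le _) (Finset.mem_univ i)
        omega
      · rintro rfl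
        simp
    rw [h, Finset.sum_singleton]
    unfold wt
    simp
    positivity
  | succ k ih =>
    rw [← Finset.sum_sdiff (mono_dlt (Nat.le_succ k)), ih]
    have h1 : ∑ v ∈ dlt (d + 2) (k + 1) \ dlt (d + 2) k, wt d (∑ i, v i) =
        ∑ v ∈ dlt (d + 2) (k + 1) \ dlt (d + 2) k, wt d (k + 1) := by
      apply Finset.sum_congr rfl
      intro v hv
      rw [Finset.mem_sdiff, mem_dlt, mem_dlt] at hv
      congr 1
      omega
    rw [h1, Finset.sum_const, nsmul_eq_mul, card_level, choose_wt]
    have h2 : (d + 1 + (k + 1)).choose (d + 1) =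
        (d + 1 + k).choose d + (d + 1 + k).choose (d + 1) := by
      rw [show d + 1 + (k + 1) = (d + 1 + k) + 1 by ring]
      exact Nat.choose_succ_succ _ _
    rw [h2]
    push_cast
    ring

/-- The corners of a finite set of vectors. -/
noncomputable def corners {e : ℕ} (Ω : Finset (Fin e → ℕ)) : Finset (Fin e → ℕ) :=
  Ω.filter (fun v => ∀ i, v + Pi.single i 1 ∉ Ω)

theorem sum_add_single {e : ℕ} (v : Fin e → ℕ) (i : Fin e) :
    ∑ j, (v + Pi.single i 1 : Fin e → ℕ) j = ∑ j, v j + 1 := by
  simp only [Pi.add_apply, Finset.sum_add_distrib]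
  congr 1
  rw [Finset.sum_pi_single']
  simp

theorem corners_le {d : ℕ} {Ω : Finset (Fin (d + 2) → ℕ)}
    (hΩ : ∀ v ∈ Ω, ∀ u, u ≤ v → u ∈ Ω) :
    ((corners Ω).card : ℚ) ≤ ∑ v ∈ Ω, wt d (∑ i, v i) := by
  classical
  -- for each direction, reindex
  have key : ∀ i : Fin (d + 2),
      ∑ v ∈ Ω.filter (fun v => v + Pi.single i 1 ∈ Ω),
        ((v i : ℚ) + 1) / ((∑ j, v j : ℕ) + d + 2) =
      ∑ u ∈ Ω, (u i : ℚ) / ((∑ j, u j : ℕ) + d + 1) := by
    intro i
    rw [← Finset.sum_filter_add_sum_filter_not Ω (fun u => u i ≠ 0)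
      (fun u => (u i : ℚ) / ((∑ j, u j : ℕ) + d + 1))]
    have h0 : ∑ u ∈ Ω with ¬ u i ≠ 0, (u i : ℚ) / ((∑ j, u j : ℕ) + d + 1) = 0 := by
      apply Finset.sum_eq_zero
      intro u hu
      rw [Finset.mem_filter, not_not] at hu
      rw [hu.2]
      simp
    rw [h0, add_zero]
    refine Finset.sum_nbij' (fun v => v + Pi.single i 1) (fun u => u - Pi.single i 1) ?_ ?_ ?_ ?_ ?_
    · intro v hv
      rw [Finset.mem_filter] at *
      refine ⟨hv.2, ?_⟩
      simp
    · intro u hu
      rw [Finset.mem_filter] at *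
      have h1 : u - Pi.single i 1 + Pi.single i 1 = u := by
        apply tsub_add_cancel_of_le
        intro j
        by_cases hj : j = i
        · subst hj
          rw [Pi.single_eq_same]
          exact Nat.one_le_iff_ne_zero.2 hu.2
        · rw [Pi.single_eq_of_ne hj]
          exact Nat.zero_le _
      refine ⟨hΩ u hu.1 _ tsub_le_self, ?_⟩
      rw [h1]
      exact hu.1
    · intro v _
      exact add_tsub_cancel_right _ _
    · intro u hu
      rw [Finset.mem_filter] at hu
      apply tsub_add_cancel_of_le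
      intro j
      by_cases hj : j = i
      · subst hj
        rw [Pi.single_eq_same]
        exact Nat.one_le_iff_ne_zero.2 hu.2
      · rw [Pi.single_eq_of_ne hj]
        exact Nat.zero_le _
    · intro v _
      rw [sum_add_single]
      simp only [Pi.add_apply, Pi.single_eq_same]
      push_cast
      congr 1
      ring
  -- sum over directions
  have h1 : ∑ v ∈ Ω, ∑ i : Fin (d + 2), (if v + Pi.single i 1 ∈ Ω then
      ((v i : ℚ) + 1) / ((∑ j, v j : ℕ) + d + 2) else 0) =
      ∑ u ∈ Ω, ((∑ j, u j : ℕ) : ℚ) / ((∑ j, u j : ℕ) + d + 1) := by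
    rw [Finset.sum_comm]
    have : ∀ i : Fin (d + 2), ∑ v ∈ Ω, (if v + Pi.single i 1 ∈ Ω then
        ((v i : ℚ) + 1) / ((∑ j, v j : ℕ) + d + 2) else 0) =
        ∑ u ∈ Ω, (u i : ℚ) / ((∑ j, u j : ℕ) + d + 1) := by
      intro i
      rw [← key i, Finset.sum_filter]
    rw [Finset.sum_congr rfl (fun i _ => this i), Finset.sum_comm]
    apply Finset.sum_congr rfl
    intro u _
    rw [← Finset.sum_div]
    push_cast
    rfl
  have h2 : ∀ v ∈ Ω, ∑ i : Fin (d + 2), (if v + Pi.single i 1 ∈ Ω then
      ((v i : ℚ) + 1) / ((∑ j, v j : ℕ) + d + 2) else 0) ≤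
      if (∀ i, v + Pi.single i 1 ∉ Ω) then 0 else 1 := by
    intro v _
    split_ifs with hc
    · apply le_of_eq
      apply Finset.sum_eq_zero
      intro i _
      rw [if_neg (hc i)]
    · calc ∑ i : Fin (d + 2), (if v + Pi.single i 1 ∈ Ω then
          ((v i : ℚ) + 1) / ((∑ j, v j : ℕ) + d + 2) else 0)
          ≤ ∑ i : Fin (d + 2), ((v i : ℚ) + 1) / ((∑ j, v j : ℕ) + d + 2) := by
            apply Finset.sum_le_sum
            intro i _
            split_ifs
            · exact le_refl _
            · positivity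
        _ = (∑ i : Fin (d + 2), ((v i : ℚ) + 1)) / ((∑ j, v j : ℕ) + d + 2) := by
            rw [Finset.sum_div]
        _ = 1 := by
            rw [Finset.sum_add_distrib, Finset.sum_const, Finset.card_univ, Fintype.card_fin,
              nsmul_eq_mul, mul_one]
            push_cast
            rw [div_eq_one_iff_eq]
            · ring
            · positivity
  have h3 := Finset.sum_le_sum h2
  rw [h1] at h3
  have h4 : ∑ v ∈ Ω, (if (∀ i, v + Pi.single i 1 ∉ Ω) then (0 : ℚ) else 1) =
      (Ω.card : ℚ) - (corners Ω).card := by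
    have h5 : ∑ v ∈ Ω, ((if (∀ i, v + Pi.single i 1 ∉ Ω) then (0 : ℚ) else 1) +
        (if (∀ i, v + Pi.single i 1 ∉ Ω) then (1 : ℚ) else 0)) = Ω.card := by
      rw [Finset.card_eq_sum_ones]
      push_cast
      apply Finset.sum_congr rfl
      intro v _
      split_ifs <;> simp
    rw [Finset.sum_add_distrib] at h5
    have h6 : ∑ v ∈ Ω, (if (∀ i, v + Pi.single i 1 ∉ Ω) then (1 : ℚ) else 0) =
        (corners Ω).card := by
      unfold corners
      rw [Finset.sum_ite, Finset.sum_const_zero, add_zero, Finset.sum_const, nsmul_eq_mul, mul_one]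
    rw [h6] at h5
    linarith
  rw [h4] at h3
  have h7 : ∑ v ∈ Ω, wt d (∑ i, v i) =
      (Ω.card : ℚ) - ∑ u ∈ Ω, ((∑ j, u j : ℕ) : ℚ) / ((∑ j, u j : ℕ) + d + 1) := by
    rw [eq_sub_iff_add_eq, ← Finset.sum_add_distrib, Finset.card_eq_sum_ones]
    push_cast
    apply Finset.sum_congr rfl
    intro v _
    unfold wt
    have hne : ((∑ j, (v j : ℚ)) + d + 1) ≠ 0 := by positivity
    have hne' : ((d : ℚ) + 1 + ∑ j, (v j : ℚ)) ≠ 0 := by positivity
    push_cast
    rw [div_add_div _ _ hne' hne, div_eq_one_iff_eq (mul_ne_zero hne' hne)]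
    ring
  rw [h7]
  linarith

end Pool.Agent.V11297.TypeBd
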