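import Mathlib
import Pool.Agent.V11297.TypeBd1

/-!
# Order ideals with many corners contain a large simplex; packing of simplices
-/

namespace Pool.Agent.V11297.TypeBd

open Finset

theorem lemmaA {d r q : ℕ} {Ω : Finset (Fin (d + 2) → ℕ)}
    (hΩ : ∀ v ∈ Ω, ∀ u, u ≤ v → u ∈ Ω) (hcard : Ω.card < (d + 2 + r).choose (d + 2))
    (hr : 1 ≤ r) (hq : 1 ≤ q) {u : Fin (d + 2) → ℕ} (hu : u ∉ Ω) (hdeg : ∑ i, u i + 2 * q ≤ r)
    (hnum : ((d + r).choose d : ℚ) ≤ ((dlt (d + 2) q).card : ℚ) * (wt d (r - q) - wt d r)) :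
    ((corners Ω).card : ℚ) < ((d + r).choose (d + 1) : ℚ) := by
  classical
  obtain ⟨k, rfl⟩ : ∃ k, r = k + 1 := ⟨r - 1, by omega⟩
  have hc := corners_le hΩ
  set Δ := dlt (d + 2) k with hΔ
  -- split the sum
  have h1 : ∑ v ∈ Ω, wt d (∑ i, v i) =
      (Ω.card : ℚ) * wt d (k + 1) + ∑ v ∈ Ω, (wt d (∑ i, v i) - wt d (k + 1)) := by
    rw [Finset.sum_sub_distrib, Finset.sum_const, nsmul_eq_mul]
    ring
  have h2 : ∑ v ∈ Ω, (wt d (∑ i, v i) - wt d (k + 1)) ≤
      ∑ v ∈ Ω ∩ Δ, (wt d (∑ i, v i) - wt d (k + 1)) := by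
    rw [← Finset.sum_inter_add_sum_sdiff Ω Δ]
    have : ∑ v ∈ Ω \ Δ, (wt d (∑ i, v i) - wt d (k + 1)) ≤ 0 := by
      apply Finset.sum_nonpos
      intro v hv
      rw [Finset.mem_sdiff, hΔ, mem_dlt] at hv
      have := wt_anti d (i := k + 1) (j := ∑ i, v i) (by omega)
      linarith
    linarith
  have h3 : ∑ v ∈ Ω ∩ Δ, (wt d (∑ i, v i) - wt d (k + 1)) =
      ∑ v ∈ Δ, (wt d (∑ i, v i) - wt d (k + 1)) -
        ∑ v ∈ Δ \ Ω, (wt d (∑ i, v i) - wt d (k + 1)) := by
    rw [← Finset.sum_inter_add_sum_sdiff Δ Ω, Finset.inter_comm]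
    ring
  -- the missing part
  have hpos : ∀ v ∈ Δ \ Ω, 0 ≤ wt d (∑ i, v i) - wt d (k + 1) := by
    intro v hv
    rw [Finset.mem_sdiff, hΔ, mem_dlt] at hv
    have := wt_anti d (i := ∑ i, v i) (j := k + 1) (by omega)
    linarith
  set T := (dlt (d + 2) q).image (fun v => u + v) with hT
  have hTcard : T.card = (dlt (d + 2) q).card := by
    rw [hT, Finset.card_image_of_injective]
    intro a b hab
    exact add_left_cancel hab
  have hTsum : ∀ v ∈ T, ∑ i, v i ≤ k + 1 - q := by
    intro v hv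
    obtain ⟨w, hw, rfl⟩ := Finset.mem_image.1 hv
    rw [mem_dlt] at hw
    simp only [Pi.add_apply, Finset.sum_add_distrib]
    omega
  have hTsub : T ⊆ Δ \ Ω := by
    intro v hv
    rw [Finset.mem_sdiff]
    constructor
    · rw [hΔ, mem_dlt]
      have := hTsum v hv
      omega
    · intro hvΩ
      obtain ⟨w, hw, rfl⟩ := Finset.mem_image.1 hv
      apply hu
      apply hΩ _ hvΩ
      intro i
      show u i ≤ u i + w i
      omega
  have h4 : ((dlt (d + 2) q).card : ℚ) * (wt d (k + 1 - q) - wt d (k + 1)) ≤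
      ∑ v ∈ Δ \ Ω, (wt d (∑ i, v i) - wt d (k + 1)) := by
    calc ((dlt (d + 2) q).card : ℚ) * (wt d (k + 1 - q) - wt d (k + 1))
        = ∑ v ∈ T, (wt d (k + 1 - q) - wt d (k + 1)) := by
          rw [Finset.sum_const, nsmul_eq_mul, hTcard]
      _ ≤ ∑ v ∈ T, (wt d (∑ i, v i) - wt d (k + 1)) := by
          apply Finset.sum_le_sum
          intro v hv
          have := wt_anti d (hTsum v hv)
          linarith
      _ ≤ ∑ v ∈ Δ \ Ω, (wt d (∑ i, v i) - wt d (k + 1)) :=
          Finset.sum_le_sum_of_subset_of_nonneg hTsub (fun v hv _ => hpos v hv)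
  have h5 : ∑ v ∈ Δ, (wt d (∑ i, v i) - wt d (k + 1)) =
      ((d + 1 + k).choose (d + 1) : ℚ) - (Δ.card : ℚ) * wt d (k + 1) := by
    rw [Finset.sum_sub_distrib, Finset.sum_const, nsmul_eq_mul, hΔ, sum_wt_dlt]
  have h6 : (Ω.card : ℚ) + 1 ≤ ((d + 2 + (k + 1)).choose (d + 2) : ℚ) := by exact_mod_cast hcard
  have h7 : ((d + 2 + (k + 1)).choose (d + 2) : ℚ) =
      (Δ.card : ℚ) + ((d + 2 + k).choose (d + 1) : ℚ) := by
    rw [hΔ, card_dlt]
    have h : (d + 2 + (k + 1)).choose (d + 2) =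
        (d + 2 + k).choose (d + 1) + (d + 2 + k).choose (d + 2) := by
      rw [show d + 2 + (k + 1) = (d + 2 + k) + 1 by ring]
      exact Nat.choose_succ_succ _ _
    rw [h]
    push_cast
    ring
  have h8 := choose_wt d k
  have h9 := wt_pos d (k + 1)
  have h10 : (Ω.card : ℚ) * wt d (k + 1) ≤
      ((Δ.card : ℚ) + ((d + 2 + k).choose (d + 1) : ℚ) - 1) * wt d (k + 1) := by
    apply mul_le_mul_of_nonneg_right _ h9.le
    linarith
  rw [show d + (k + 1) = d + 1 + k by ring] at hnum ⊢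
  have h11 : ((Δ.card : ℚ) + ((d + 2 + k).choose (d + 1) : ℚ) - 1) * wt d (k + 1) =
      (Δ.card : ℚ) * wt d (k + 1) + ((d + 2 + k).choose (d + 1) : ℚ) * wt d (k + 1) -
        wt d (k + 1) := by ring
  linarith

theorem card_zero_coord {d p : ℕ} (i : Fin (d + 2)) :
    ((dlt (d + 2) p).filter (fun P => P i = 0)).card = (d + 1 + p).choose (d + 1) := by
  rw [← card_dlt]
  refine Finset.card_nbij' (fun v => Fin.removeNth i v) (fun v => Fin.insertNth i 0 v) ?_ ?_ ?_ ?_
  · intro v hv
    rw [Finset.mem_coe, Finset.mem_filter, mem_dlt, Fin.sum_univ_succAbove _ i] at hv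
    rw [Finset.mem_coe, mem_dlt]
    show ∑ j, v (i.succAbove j) ≤ p
    omega
  · intro v hv
    rw [Finset.mem_coe, mem_dlt] at hv
    rw [Finset.mem_coe, Finset.mem_filter, mem_dlt, Fin.sum_univ_succAbove _ i]
    simp only [Fin.insertNth_apply_same, Fin.insertNth_apply_succAbove, and_true]
    omega
  · intro v hv
    rw [Finset.mem_coe, Finset.mem_filter] at hv
    have := Fin.insertNth_self_removeNth i v
    rw [hv.2] at this
    exact this
  · intro v _
    simp [Fin.removeNth_insertNth]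

theorem lemmaB {d p n m : ℕ} (hm : 0 < m) (a : Fin (d + 2) → ℕ)
    (hinj : Set.InjOn (fun v : Fin (d + 2) → ℕ => ((∑ i, v i * a i : ℕ) : ZMod m))
      (dlt (d + 2) (p + n) : Set (Fin (d + 2) → ℕ))) :
    (d + 2 + p).choose (d + 2) + 2 * n * (d + 1 + p).choose (d + 1) ≤ m := by
  classical
  have : NeZero m := ⟨hm.ne'⟩
  let i0 : Fin (d + 2) := 0
  let i1 : Fin (d + 2) := 1
  have hi : i0 ≠ i1 := by
    intro h
    have := congrArg Fin.val h
    simp [i0, i1] at this
  let N0 : Finset (Fin (d + 2) → ℕ) := {0}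
  let N1 : Finset (Fin (d + 2) → ℕ) := (Finset.Icc 1 n).image (fun t => Pi.single i0 t)
  let N2 : Finset (Fin (d + 2) → ℕ) := (Finset.Icc 1 n).image (fun t => Pi.single i1 t)
  let F : (Fin (d + 2) → ℕ) → Finset (Fin (d + 2) → ℕ) := fun N =>
    (dlt (d + 2) p).filter (fun P => ∀ i, P i = 0 ∨ N i = 0)
  let B : Finset (Σ _ : Fin (d + 2) → ℕ, Fin (d + 2) → ℕ) := (N0 ∪ (N1 ∪ N2)).sigma F
  have hN1 : ∀ N ∈ N1, ∃ t, 1 ≤ t ∧ t ≤ n ∧ N = Pi.single i0 t := by
    intro N hN
    obtain ⟨t, ht, rfl⟩ := Finset.mem_image.1 hN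
    rw [Finset.mem_Icc] at ht
    exact ⟨t, ht.1, ht.2, rfl⟩
  have hN2 : ∀ N ∈ N2, ∃ t, 1 ≤ t ∧ t ≤ n ∧ N = Pi.single i1 t := by
    intro N hN
    obtain ⟨t, ht, rfl⟩ := Finset.mem_image.1 hN
    rw [Finset.mem_Icc] at ht
    exact ⟨t, ht.1, ht.2, rfl⟩
  have hd12 : Disjoint N1 N2 := by
    rw [Finset.disjoint_left]
    intro N h1 h2
    obtain ⟨t, ht1, _, rfl⟩ := hN1 N h1
    obtain ⟨t', ht1', _, h⟩ := hN2 _ h2
    have := congrFun h i0
    rw [Pi.single_eq_same, Pi.single_eq_of_ne hi] at this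
    omega
  have hd0 : Disjoint N0 (N1 ∪ N2) := by
    rw [Finset.disjoint_left]
    intro N h1 h2
    rw [Finset.mem_singleton] at h1
    subst h1
    rcases Finset.mem_union.1 h2 with h | h
    · obtain ⟨t, ht1, _, h⟩ := hN1 _ h
      have := congrFun h i0
      rw [Pi.single_eq_same] at this
      simp at this
      omega
    · obtain ⟨t, ht1, _, h⟩ := hN2 _ h
      have := congrFun h i1
      rw [Pi.single_eq_same] at this
      simp at this
      omega
  have hsum : ∀ N ∈ N0 ∪ (N1 ∪ N2), ∑ i, N i ≤ n := by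
    intro N hN
    rcases Finset.mem_union.1 hN with h | h
    · rw [Finset.mem_singleton] at h
      subst h
      simp
    · rcases Finset.mem_union.1 h with h | h
      · obtain ⟨t, _, ht, rfl⟩ := hN1 _ h
        rw [Finset.sum_pi_single']
        simpa using ht
      · obtain ⟨t, _, ht, rfl⟩ := hN2 _ h
        rw [Finset.sum_pi_single']
        simpa using ht
  have hcard : B.card = (d + 2 + p).choose (d + 2) + 2 * n * (d + 1 + p).choose (d + 1) := by
    rw [Finset.card_sigma, Finset.sum_union hd0, Finset.sum_union hd12]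
    have e0 : ∑ N ∈ N0, (F N).card = (d + 2 + p).choose (d + 2) := by
      rw [Finset.sum_singleton, ← card_dlt]
      congr 1
      apply Finset.filter_true_of_mem
      intro P _ i
      right
      rfl
    have e1 : ∀ i : Fin (d + 2), ∀ t, 1 ≤ t →
        (F (Pi.single i t)).card = (d + 1 + p).choose (d + 1) := by
      intro i t ht
      rw [← card_zero_coord (p := p) i]
      congr 1
      apply Finset.filter_congr
      intro P _
      constructor
      · intro h
        rcases h i with h | h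
        · exact h
        · rw [Pi.single_eq_same] at h
          omega
      · intro h j
        by_cases hj : j = i
        · subst hj
          exact Or.inl h
        · exact Or.inr (Pi.single_eq_of_ne hj _)
    have e2 : ∀ i : Fin (d + 2),
        ∑ N ∈ (Finset.Icc 1 n).image (fun t => (Pi.single i t : Fin (d + 2) → ℕ)), (F N).card =
          n * (d + 1 + p).choose (d + 1) := by
      intro i
      rw [Finset.sum_image]
      · rw [Finset.sum_congr rfl (fun t ht => e1 i t (Finset.mem_Icc.1 ht).1), Finset.sum_const,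
          Nat.card_Icc, smul_eq_mul, Nat.add_sub_cancel]
      · intro t _ t' _ h
        have := congrFun h i
        simpa using this
    rw [e0]
    have e3 : ∑ N ∈ N1, (F N).card = n * (d + 1 + p).choose (d + 1) := e2 i0
    have e4 : ∑ N ∈ N2, (F N).card = n * (d + 1 + p).choose (d + 1) := e2 i1
    rw [e3, e4]
    ring
  rw [← hcard]
  have hle : B.card ≤ (Finset.univ : Finset (ZMod m)).card := by
    apply Finset.card_le_card_of_injOn (fun x : (Σ _ : Fin (d + 2) → ℕ, Fin (d + 2) → ℕ) =>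
      ((∑ i, x.2 i * a i : ℕ) : ZMod m) - ((∑ i, x.1 i * a i : ℕ) : ZMod m))
    · intro x _
      exact Finset.mem_coe.2 (Finset.mem_univ _)
    · rintro ⟨N, P⟩ hx ⟨N', P'⟩ hx' h
      rw [Finset.mem_coe, Finset.mem_sigma, Finset.mem_filter, mem_dlt] at hx hx'
      simp only at h hx hx'
      have hs := hsum N hx.1
      have hs' := hsum N' hx'.1
      have h1 : P + N' = P' + N := by
        apply hinj
        · rw [Finset.mem_coe, mem_dlt]
          simp only [Pi.add_apply, Finset.sum_add_distrib]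
          omega
        · rw [Finset.mem_coe, mem_dlt]
          simp only [Pi.add_apply, Finset.sum_add_distrib]
          omega
        · have h2 := sub_eq_sub_iff_add_eq_add.1 h
          simp only [Pi.add_apply, add_mul, Finset.sum_add_distrib, Nat.cast_add]
          rw [h2]
      have h3 : ∀ i, P i = P' i ∧ N i = N' i := by
        intro i
        have h4 := congrFun h1 i
        simp only [Pi.add_apply] at h4
        rcases hx.2.2 i with h5 | h5 <;> rcases hx'.2.2 i with h6 | h6 <;> omega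
      have h7 : P = P' := funext (fun i => (h3 i).1)
      have h8 : N = N' := funext (fun i => (h3 i).2)
      rw [h7, h8]
  rwa [Finset.card_univ, ZMod.card] at hle

end Pool.Agent.V11297.TypeBd
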