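import Mathlib
import Pool.Agent.V11297.TypeBd2

/-!
# The Apéry set of a numerical semigroup as an order ideal
-/

namespace Pool.Agent.V11297.TypeBd

open Finset

/-- The set of minimal generators. -/
def gens (S : AddSubmonoid ℕ) : Set ℕ :=
  {x : ℕ | x ∈ S ∧ x ≠ 0 ∧ ¬ ∃ a ∈ S, ∃ b ∈ S, a ≠ 0 ∧ b ≠ 0 ∧ a + b = x}

/-- The set of nonnegative pseudo-Frobenius numbers. -/
def pfs (S : AddSubmonoid ℕ) : Set ℕ := {x : ℕ | x ∉ S ∧ ∀ s ∈ S, s ≠ 0 → x + s ∈ S}

theorem gens_enum {S : AddSubmonoid ℕ} {m e : ℕ} (hm : m ∈ S ∧ m ≠ 0 ∧ ∀ x ∈ S, x ≠ 0 → m ≤ x)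
    (hG : (gens S).ncard = e + 1) :
    ∃ a : Fin e → ℕ, (∀ i, a i ∈ S ∧ a i ≠ 0) ∧ ∀ x ∈ gens S, x = m ∨ ∃ i, a i = x := by
  classical
  have hfin : (gens S).Finite := Set.finite_of_ncard_ne_zero (by omega)
  have hmG : m ∈ gens S := by
    refine ⟨hm.1, hm.2.1, ?_⟩
    rintro ⟨a, ha, b, hb, ha0, hb0, hab⟩
    have := hm.2.2 a ha ha0
    have := hm.2.2 b hb hb0
    have := hm.2.1
    omega
  have h1 : (hfin.toFinset.erase m).card = e := by
    rw [Finset.card_erase_of_mem (hfin.mem_toFinset.2 hmG), ← Set.ncard_eq_toFinset_card _ hfin, hG]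
    rfl
  let f := Finset.equivFinOfCardEq h1
  refine ⟨fun i => (f.symm i).1, ?_, ?_⟩
  · intro i
    have h2 := (f.symm i).2
    rw [Finset.mem_erase, hfin.mem_toFinset] at h2
    exact ⟨h2.2.1, h2.2.2.1⟩
  · intro x hx
    by_cases hxm : x = m
    · exact Or.inl hxm
    · right
      have h2 : x ∈ hfin.toFinset.erase m := by
        rw [Finset.mem_erase, hfin.mem_toFinset]
        exact ⟨hxm, hx⟩
      refine ⟨f ⟨x, h2⟩, ?_⟩
      show (f.symm (f ⟨x, h2⟩)).1 = x
      rw [Equiv.symm_apply_apply]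

theorem rep {S : AddSubmonoid ℕ} {m e : ℕ} {a : Fin e → ℕ}
    (ha : ∀ x ∈ gens S, x = m ∨ ∃ i, a i = x) (x : ℕ) (hx : x ∈ S) :
    ∃ (c : ℕ) (v : Fin e → ℕ), x = c * m + ∑ i, v i * a i := by
  classical
  induction x using Nat.strong_induction_on with
  | _ x ih =>
    by_cases h0 : x = 0
    · exact ⟨0, 0, by simp [h0]⟩
    by_cases hg : x ∈ gens S
    · rcases ha x hg with h | ⟨i, hi⟩
      · exact ⟨1, 0, by simp [h]⟩
      · refine ⟨0, Pi.single i 1, ?_⟩
        rw [Finset.sum_eq_single i]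
        · simp [hi]
        · intro j _ hj
          rw [Pi.single_eq_of_ne hj, zero_mul]
        · intro h
          exact absurd (Finset.mem_univ i) h
    · have h1 : ∃ a ∈ S, ∃ b ∈ S, a ≠ 0 ∧ b ≠ 0 ∧ a + b = x := by
        by_contra hcon
        exact hg ⟨hx, h0, hcon⟩
      obtain ⟨y, hy, z, hz, hy0, hz0, hyz⟩ := h1
      obtain ⟨c, v, hv⟩ := ih y (by omega) hy
      obtain ⟨c', v', hv'⟩ := ih z (by omega) hz
      refine ⟨c + c', v + v', ?_⟩
      simp only [Pi.add_apply, add_mul, Finset.sum_add_distrib]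
      omega

theorem sum_mem {S : AddSubmonoid ℕ} {e : ℕ} {a : Fin e → ℕ} (ha : ∀ i, a i ∈ S)
    (v : Fin e → ℕ) : ∑ i, v i * a i ∈ S := by
  apply S.sum_mem
  intro i _
  have := S.nsmul_mem (ha i) (v i)
  simpa using this

/-- The Apéry set of a numerical semigroup gives an order ideal with at least `type` corners. -/
theorem main_structure {S : AddSubmonoid ℕ} {m e : ℕ}
    (hm : m ∈ S ∧ m ≠ 0 ∧ ∀ x ∈ S, x ≠ 0 → m ≤ x) (hG : (gens S).ncard = e + 1) :
    ∃ (a : Fin e → ℕ) (Ω : Finset (Fin e → ℕ)),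
      (∀ v ∈ Ω, ∀ u, u ≤ v → u ∈ Ω) ∧
      Set.InjOn (fun v : Fin e → ℕ => ((∑ i, v i * a i : ℕ) : ZMod m)) (Ω : Set (Fin e → ℕ)) ∧
      (pfs S).ncard ≤ (corners Ω).card := by
  classical
  obtain ⟨a, haS, haG⟩ := gens_enum hm hG
  have hm0 : 0 < m := Nat.pos_of_ne_zero hm.2.1
  have : NeZero m := ⟨hm.2.1⟩
  let φ : (Fin e → ℕ) → ℕ := fun v => ∑ i, v i * a i
  have hφadd : ∀ u v, φ (u + v) = φ u + φ v := by
    intro u v
    simp only [φ, Pi.add_apply, add_mul, Finset.sum_add_distrib]
  have hφS : ∀ v, φ v ∈ S := fun v => sum_mem (fun i => (haS i).1) v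
  let P : ℕ → Prop := fun x => x ∈ S ∧ ∀ y ∈ S, y + m ≠ x
  have hPinj : ∀ x y, P x → P y → (x : ZMod m) = (y : ZMod m) → x = y := by
    have aux : ∀ x y, P x → P y → x ≤ y → (x : ZMod m) = (y : ZMod m) → x = y := by
      intro x y hx hy hxy h
      rw [ZMod.natCast_eq_natCast_iff] at h
      obtain ⟨k, hk⟩ := (Nat.modEq_iff_dvd' hxy).1 h
      rcases Nat.eq_zero_or_pos k with hk0 | hk0
      · subst hk0
        omega
      · exfalso
        obtain ⟨l, rfl⟩ : ∃ l, k = l + 1 := ⟨k - 1, by omega⟩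
        have h1 : x + l * m ∈ S := by
          apply S.add_mem hx.1
          have := S.nsmul_mem hm.1 l
          simpa using this
        apply hy.2 _ h1
        have : m * (l + 1) = l * m + m := by ring
        omega
    intro x y hx hy h
    rcases le_total x y with hxy | hxy
    · exact aux x y hx hy hxy h
    · exact (aux y x hy hx hxy h.symm).symm
  let O : Set (Fin e → ℕ) := {v | P (φ v) ∧ ∀ v', φ v' = φ v → toLex v ≤ toLex v'}
  have hOinj : Set.InjOn (fun v : Fin e → ℕ => ((φ v : ℕ) : ZMod m)) O := by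
    intro v hv v' hv' h
    have h1 := hPinj _ _ hv.1 hv'.1 h
    have h2 := hv.2 v' h1.symm
    have h3 := hv'.2 v h1
    exact toLex.injective (le_antisymm h2 h3)
  have hOfin : O.Finite := Set.Finite.of_finite_image (Set.toFinite _) hOinj
  have hdown : ∀ v ∈ O, ∀ u, u ≤ v → u ∈ O := by
    intro v hv u huv
    obtain ⟨t, rfl⟩ : ∃ t, v = u + t := ⟨v - u, (add_tsub_cancel_of_le huv).symm⟩
    refine ⟨⟨hφS u, ?_⟩, ?_⟩
    · intro y hy hyu
      apply hv.1.2 (y + φ t) (S.add_mem hy (hφS t))
      rw [hφadd]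
      omega
    · intro u' hu'
      have h1 := hv.2 (u' + t) (by rw [hφadd, hφadd, hu'])
      rw [toLex_add, toLex_add] at h1
      exact le_of_add_le_add_right h1
  refine ⟨a, hOfin.toFinset, ?_, ?_, ?_⟩
  · intro v hv u hu
    rw [hOfin.mem_toFinset] at *
    exact hdown v hv u hu
  · rw [hOfin.coe_toFinset]
    exact hOinj
  · have hsub : pfs S ⊆ ((corners hOfin.toFinset).image (fun v => φ v - m) : Finset ℕ) := by
      intro x hx
      have hxm : P (x + m) := by
        refine ⟨hx.2 m hm.1 hm.2.1, ?_⟩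
        intro y hy h
        have : y = x := by omega
        exact hx.1 (this ▸ hy)
      have hne : ({v | φ v = x + m} : Set (Fin e → ℕ)).Nonempty := by
        obtain ⟨c, v, hv⟩ := rep haG (x + m) hxm.1
        rcases Nat.eq_zero_or_pos c with hc | hc
        · subst hc
          exact ⟨v, by show φ v = x + m; simp only [φ]; omega⟩
        · exfalso
          obtain ⟨c', rfl⟩ : ∃ c', c = c' + 1 := ⟨c - 1, by omega⟩
          have h1 : c' * m + φ v ∈ S := by
            apply S.add_mem _ (hφS v)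
            have := S.nsmul_mem hm.1 c'
            simpa using this
          apply hxm.2 _ h1
          rw [hv]
          simp only [φ]
          ring
      have hfin : ({v | φ v = x + m} : Set (Fin e → ℕ)).Finite := by
        apply (Finset.finite_toSet (dlt e (x + m))).subset
        intro v hv
        rw [Finset.mem_coe, mem_dlt]
        have hv' : φ v = x + m := hv
        rw [← hv']
        apply Finset.sum_le_sum
        intro i _
        exact Nat.le_mul_of_pos_right _ (Nat.pos_of_ne_zero (haS i).2)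
      obtain ⟨v, hv, hvmin⟩ := Set.exists_min_image _ (fun v => toLex v) hfin hne
      have hv' : φ v = x + m := hv
      rw [Finset.mem_coe, Finset.mem_image]
      refine ⟨v, ?_, ?_⟩
      · unfold corners
        rw [Finset.mem_filter, hOfin.mem_toFinset]
        refine ⟨⟨by rw [hv']; exact hxm, ?_⟩, ?_⟩
        · intro v'' hv''
          exact hvmin v'' (by show φ v'' = x + m; rw [hv'', hv'])
        · intro i hi
          rw [hOfin.mem_toFinset] at hi
          have h1 := hi.1.2 (x + a i) (hx.2 _ (haS i).1 (haS i).2)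
          apply h1
          rw [hφadd, hv']
          have h2 : φ (Pi.single i 1) = a i := by
            simp only [φ]
            rw [Finset.sum_eq_single i]
            · simp
            · intro j _ hj
              rw [Pi.single_eq_of_ne hj, zero_mul]
            · intro h
              exact absurd (Finset.mem_univ i) h
          rw [h2]
          ring
      · show φ v - m = x
        omega
    calc (pfs S).ncard ≤ (((corners hOfin.toFinset).image (fun v => φ v - m) : Finset ℕ) :
          Set ℕ).ncard := Set.ncard_le_ncard hsub (Finset.finite_toSet _)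
      _ = ((corners hOfin.toFinset).image (fun v => φ v - m)).card := Set.ncard_coe_finset _
      _ ≤ _ := Finset.card_image_le

end Pool.Agent.V11297.TypeBd
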