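import Mathlib
import Pool.Agent.V11297.TypeBd3

/-!
# Numerical estimates and the bound for the type
-/

namespace Pool.Agent.V11297.TypeBd

open Finset

theorem num1 {d r q : ℕ} (hrd : d + 1 ≤ r) (hr : r + 1 ≤ 60 * (d + 2) * (q + 1)) (hqr : q ≤ r)
    (hq : (d + 2) * (2 * (60 * (d + 2))) ^ (d + 2) ≤ q) :
    ((d + r).choose d : ℚ) ≤ ((dlt (d + 2) q).card : ℚ) * (wt d (r - q) - wt d r) := by
  have h1 : (((d + 2 + q).choose (d + 2) : ℕ) : ℚ) ≥
      ((q : ℚ) + 1) ^ (d + 2) / ((d + 2).factorial : ℚ) := by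
    have := Nat.pow_le_choose (α := ℚ) (d + 2) (d + 2 + q)
    have h : d + 2 + q + 1 - (d + 2) = q + 1 := by omega
    rw [h] at this
    push_cast at this
    exact this
  have h2 : ((d + r).choose d : ℚ) ≤ ((d : ℚ) + r) ^ d / (d.factorial : ℚ) := by
    have := Nat.choose_le_pow_div (α := ℚ) d (d + r)
    push_cast at this
    exact this
  have hcast : ((r - q : ℕ) : ℚ) = (r : ℚ) - q := by
    rw [Nat.cast_sub hqr]
  have hr0 : (0 : ℚ) ≤ r := Nat.cast_nonneg r
  have hd0 : (0 : ℚ) ≤ d := Nat.cast_nonneg d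
  have hq0 : (0 : ℚ) ≤ q := Nat.cast_nonneg q
  have hqr' : (q : ℚ) ≤ r := by exact_mod_cast hqr
  have hA : (0 : ℚ) < (d : ℚ) + 1 + ((r : ℚ) - q) := by linarith
  have hB : (0 : ℚ) < (d : ℚ) + 1 + r := by linarith
  have h3 : wt d (r - q) - wt d r ≥ ((d : ℚ) + 1) * q / ((d : ℚ) + 1 + r) ^ 2 := by
    unfold wt
    rw [hcast, div_sub_div _ _ hA.ne' hB.ne', ge_iff_le, div_le_div_iff₀ (by positivity)
      (mul_pos hA hB)]
    have : ((d : ℚ) + 1) * ((d : ℚ) + 1 + r) - ((d : ℚ) + 1 + ((r : ℚ) - q)) * ((d : ℚ) + 1) =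
        ((d : ℚ) + 1) * q := by ring
    rw [this]
    have h4 : ((d : ℚ) + 1 + ((r : ℚ) - q)) * ((d : ℚ) + 1 + r) ≤ ((d : ℚ) + 1 + r) ^ 2 := by
      rw [sq]
      apply mul_le_mul_of_nonneg_right _ hB.le
      linarith
    exact mul_le_mul_of_nonneg_left h4 (by positivity)
  rw [card_dlt]
  have hfac : ((d + 2).factorial : ℚ) = ((d : ℚ) + 2) * ((d : ℚ) + 1) * (d.factorial : ℚ) := by
    rw [Nat.factorial_succ, Nat.factorial_succ]
    push_cast
    ring
  have hf0 : (0 : ℚ) < (d.factorial : ℚ) := by exact_mod_cast Nat.factorial_pos d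
  calc ((d + r).choose d : ℚ) ≤ ((d : ℚ) + r) ^ d / (d.factorial : ℚ) := h2
    _ ≤ ((d : ℚ) + 1 + r) ^ d / (d.factorial : ℚ) := by
        gcongr
        linarith
    _ ≤ (((q : ℚ) + 1) ^ (d + 2) / ((d + 2).factorial : ℚ)) *
        (((d : ℚ) + 1) * q / ((d : ℚ) + 1 + r) ^ 2) := by
        rw [hfac, div_mul_div_comm, div_le_div_iff₀ hf0 (by positivity)]
        have key : ((d : ℚ) + 2) * ((d : ℚ) + 1 + r) ^ (d + 2) ≤ ((q : ℚ) + 1) ^ (d + 2) * q := by
          have e1 : ((d : ℚ) + 1 + r) ≤ (2 * (60 * ((d : ℚ) + 2))) * ((q : ℚ) + 1) := by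
            have e2 : ((r : ℚ) + 1) ≤ 60 * ((d : ℚ) + 2) * ((q : ℚ) + 1) := by exact_mod_cast hr
            have e3 : ((d : ℚ) + 1) ≤ r := by exact_mod_cast hrd
            linarith
          have e4 : ((d : ℚ) + 2) * (2 * (60 * ((d : ℚ) + 2))) ^ (d + 2) ≤ q := by
            exact_mod_cast hq
          calc ((d : ℚ) + 2) * ((d : ℚ) + 1 + r) ^ (d + 2)
              ≤ ((d : ℚ) + 2) * ((2 * (60 * ((d : ℚ) + 2))) * ((q : ℚ) + 1)) ^ (d + 2) := by
                gcongr
            _ = ((q : ℚ) + 1) ^ (d + 2) *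
                (((d : ℚ) + 2) * (2 * (60 * ((d : ℚ) + 2))) ^ (d + 2)) := by
                rw [mul_pow]
                ring
            _ ≤ ((q : ℚ) + 1) ^ (d + 2) * q := by
                gcongr
        calc ((d : ℚ) + 1 + r) ^ d * (((d : ℚ) + 2) * ((d : ℚ) + 1) * (d.factorial : ℚ) *
              ((d : ℚ) + 1 + r) ^ 2)
            = (((d : ℚ) + 2) * ((d : ℚ) + 1 + r) ^ (d + 2)) * (((d : ℚ) + 1) *
              (d.factorial : ℚ)) := by ring
          _ ≤ (((q : ℚ) + 1) ^ (d + 2) * q) * (((d : ℚ) + 1) * (d.factorial : ℚ)) := by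
              gcongr
          _ = ((q : ℚ) + 1) ^ (d + 2) * (((d : ℚ) + 1) * q) * (d.factorial : ℚ) := by ring
    _ ≤ (((d + 2 + q).choose (d + 2) : ℕ) : ℚ) * (wt d (r - q) - wt d r) := by
        apply mul_le_mul h1 h3 (by positivity) (by positivity)

theorem pow_aux {e r q : ℚ} {n : ℕ} (he : e = n + 1) (hr : 0 < r) (hq : 60 * e * q ≤ r)
    (hq2 : 4 * e ≤ q) :
    (r + e) ^ (n + 1) ≤ (r - 5 * q) ^ n * (r + (6 * e - 5) * q) := by
  have hn : (0 : ℚ) ≤ n := Nat.cast_nonneg n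
  have he1 : 1 ≤ e := by linarith
  have hq0 : 0 < q := by linarith
  set x := q / r with hx
  have hx0 : 0 < x := div_pos hq0 hr
  have hqx : q = x * r := by rw [hx]; field_simp
  have hxe : 60 * e * x ≤ 1 := by
    rw [hx, mul_div_assoc', div_le_one hr]
    exact hq
  have hx60 : 60 * x ≤ 1 := by nlinarith
  set y := e / r with hy
  have hy0 : 0 < y := div_pos (by linarith) hr
  have hey : e = y * r := by rw [hy]; field_simp
  have h4y : 4 * y ≤ x := by
    rw [hx, hy, mul_div_assoc']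
    gcongr
  -- upper bound
  have hyey : e * y ≤ 1 / 240 := by nlinarith
  have u1 : (1 + y) ^ (n + 1) * (1 - e * y) ≤ 1 := by
    have b1 : 1 + ((n + 1 : ℕ) : ℚ) * (-y) ≤ (1 + (-y)) ^ (n + 1) := by
      apply one_add_mul_le_pow
      nlinarith
    have b2 : 1 - e * y ≤ (1 - y) ^ (n + 1) := by
      have : 1 + ((n + 1 : ℕ) : ℚ) * (-y) = 1 - e * y := by
        push_cast
        rw [he]
        ring
      rw [← this, sub_eq_add_neg 1 y]
      exact b1
    calc (1 + y) ^ (n + 1) * (1 - e * y) ≤ (1 + y) ^ (n + 1) * (1 - y) ^ (n + 1) := by gcongr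
      _ = (1 - y ^ 2) ^ (n + 1) := by rw [← mul_pow]; ring
      _ ≤ 1 := by
          apply pow_le_one₀
          · nlinarith
          · nlinarith
  have u2 : (1 + y) ^ (n + 1) ≤ 1 + 2 * (e * y) := by
    have hpos : 0 < 1 - e * y := by linarith
    have : (1 + y) ^ (n + 1) ≤ 1 / (1 - e * y) := by
      rw [le_div_iff₀ hpos]
      exact u1
    refine this.trans ?_
    rw [div_le_iff₀ hpos]
    have : 0 ≤ e * y := by positivity
    nlinarith
  -- lower bound
  have l1 : 1 - 5 * n * x ≤ (1 - 5 * x) ^ n := by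
    have b1 : 1 + (n : ℚ) * (-(5 * x)) ≤ (1 + (-(5 * x))) ^ n := by
      apply one_add_mul_le_pow
      linarith
    have e1 : 1 + (n : ℚ) * (-(5 * x)) = 1 - 5 * n * x := by ring
    have e2 : 1 + (-(5 * x)) = 1 - 5 * x := by ring
    rw [e1, e2] at b1
    exact b1
  have l2 : 1 + e * x / 2 ≤ (1 - 5 * x) ^ n * (1 + (6 * e - 5) * x) := by
    have hpos : 0 ≤ 1 + (6 * e - 5) * x := by
      have : 0 ≤ (6 * e - 5) * x := by
        apply mul_nonneg _ hx0.le
        linarith
      linarith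
    calc 1 + e * x / 2 ≤ (1 - 5 * n * x) * (1 + (6 * e - 5) * x) := by
          have hn' : (n : ℚ) = e - 1 := by rw [he]; ring
          rw [hn']
          have : (1 - 5 * (e - 1) * x) * (1 + (6 * e - 5) * x) - (1 + e * x / 2) =
              e * x / 2 - 5 * (e - 1) * (6 * e - 5) * x ^ 2 := by ring
          have h30 : 5 * (e - 1) * (6 * e - 5) * x ^ 2 ≤ 30 * e ^ 2 * x ^ 2 := by
            apply mul_le_mul_of_nonneg_right _ (sq_nonneg x)
            nlinarith
          have h31 : 30 * e ^ 2 * x ^ 2 ≤ e * x / 2 := by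
            have : 30 * e ^ 2 * x ^ 2 = (60 * e * x) * (e * x / 2) := by ring
            rw [this]
            have h0 : 0 ≤ e * x / 2 := by positivity
            nlinarith
          linarith
      _ ≤ _ := mul_le_mul_of_nonneg_right l1 hpos
  have fin : (1 + y) ^ (n + 1) ≤ (1 - 5 * x) ^ n * (1 + (6 * e - 5) * x) := by
    refine u2.trans (le_trans ?_ l2)
    nlinarith
  have s1 : (r + e) ^ (n + 1) = r ^ (n + 1) * (1 + y) ^ (n + 1) := by
    rw [← mul_pow]
    congr 1
    rw [mul_add, mul_one, mul_comm r y, ← hey]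
  have s2 : (r - 5 * q) ^ n * (r + (6 * e - 5) * q) =
      r ^ (n + 1) * ((1 - 5 * x) ^ n * (1 + (6 * e - 5) * x)) := by
    have t1 : r - 5 * q = r * (1 - 5 * x) := by rw [hqx]; ring
    have t2 : r + (6 * e - 5) * q = r * (1 + (6 * e - 5) * x) := by rw [hqx]; ring
    rw [t1, t2, mul_pow]
    ring
  rw [s1, s2]
  exact mul_le_mul_of_nonneg_left fin (by positivity)

theorem num2 {d r q : ℕ} (hq : 60 * (d + 2) * q ≤ r) (hq2 : 4 * (d + 2) ≤ q) :
    (d + 2 + r).choose (d + 2) ≤ (d + 2 + (r - 5 * q)).choose (d + 2) +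
      2 * (3 * q) * (d + 1 + (r - 5 * q)).choose (d + 1) := by
  have h5 : 5 * q ≤ r := by nlinarith
  obtain ⟨p, hp⟩ : ∃ p, r = p + 5 * q := ⟨r - 5 * q, by omega⟩
  have hp' : r - 5 * q = p := by omega
  rw [hp']
  have h1 : ((d + 2 + p).choose (d + 2) : ℚ) ≥ ((p : ℚ) + 1) ^ (d + 2) / ((d + 2).factorial : ℚ) := by
    have := Nat.pow_le_choose (α := ℚ) (d + 2) (d + 2 + p)
    have h : d + 2 + p + 1 - (d + 2) = p + 1 := by omega
    rw [h] at this
    push_cast at this
    exact this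
  have h2 : ((d + 1 + p).choose (d + 1) : ℚ) ≥ ((p : ℚ) + 1) ^ (d + 1) / ((d + 1).factorial : ℚ) := by
    have := Nat.pow_le_choose (α := ℚ) (d + 1) (d + 1 + p)
    have h : d + 1 + p + 1 - (d + 1) = p + 1 := by omega
    rw [h] at this
    push_cast at this
    exact this
  have h3 : ((d + 2 + r).choose (d + 2) : ℚ) ≤
      ((d : ℚ) + 2 + r) ^ (d + 2) / ((d + 2).factorial : ℚ) := by
    have := Nat.choose_le_pow_div (α := ℚ) (d + 2) (d + 2 + r)
    push_cast at this
    exact this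
  have hfac : ((d + 2).factorial : ℚ) = ((d : ℚ) + 2) * ((d + 1).factorial : ℚ) := by
    rw [Nat.factorial_succ]
    push_cast
    ring
  have hf0 : (0 : ℚ) < ((d + 1).factorial : ℚ) := by exact_mod_cast Nat.factorial_pos _
  have hp0 : (0 : ℚ) ≤ p := Nat.cast_nonneg p
  have hq0 : (0 : ℚ) ≤ q := Nat.cast_nonneg q
  have hd0 : (0 : ℚ) ≤ d := Nat.cast_nonneg d
  have hqpos : 0 < q := by omega
  have hrpos : (0 : ℚ) < r := by
    have : 0 < r := by omega
    exact_mod_cast this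
  have hmain := pow_aux (e := (d : ℚ) + 2) (r := r) (q := q) (n := d + 1)
    (by push_cast; ring) hrpos (by exact_mod_cast hq) (by exact_mod_cast hq2)
  have hrp : (r : ℚ) - 5 * q = p := by rw [hp]; push_cast; ring
  rw [hrp] at hmain
  have hgoal : ((d + 2 + r).choose (d + 2) : ℚ) ≤ ((d + 2 + p).choose (d + 2) : ℚ) +
      2 * (3 * q) * ((d + 1 + p).choose (d + 1) : ℚ) := by
    refine h3.trans ?_
    have h4 : ((p : ℚ) + 1) ^ (d + 2) / ((d + 2).factorial : ℚ) +
        2 * (3 * q) * (((p : ℚ) + 1) ^ (d + 1) / ((d + 1).factorial : ℚ)) =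
        (((p : ℚ) + 1) ^ (d + 1) * ((p : ℚ) + 1 + 6 * ((d : ℚ) + 2) * q)) /
          ((d + 2).factorial : ℚ) := by
      rw [hfac]
      field_simp
      ring
    have h5 : ((d : ℚ) + 2 + r) ^ (d + 2) / ((d + 2).factorial : ℚ) ≤
        (((p : ℚ) + 1) ^ (d + 1) * ((p : ℚ) + 1 + 6 * ((d : ℚ) + 2) * q)) /
          ((d + 2).factorial : ℚ) := by
      apply div_le_div_of_nonneg_right _ (by positivity)
      have h6 : ((d : ℚ) + 2 + r) ^ (d + 2) ≤ (p : ℚ) ^ (d + 1) *
          ((r : ℚ) + (6 * ((d : ℚ) + 2) - 5) * q) := by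
        rw [show (d : ℚ) + 2 + r = r + ((d : ℚ) + 2) by ring]
        exact hmain
      refine h6.trans ?_
      apply mul_le_mul
      · gcongr
        linarith
      · have : (r : ℚ) = p + 5 * q := by rw [hp]; push_cast; ring
        rw [this]
        linarith
      · have : (0 : ℚ) ≤ (6 * ((d : ℚ) + 2) - 5) * q := by
          apply mul_nonneg _ hq0
          linarith
        linarith
      · positivity
    rw [← h4] at h5
    refine h5.trans ?_
    apply add_le_add h1
    exact mul_le_mul_of_nonneg_left h2 (by positivity)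
  exact_mod_cast hgoal

/-- For fixed `d` and all large `r`: a numerical semigroup of multiplicity `m < C(d + 2 + r, r)`
and embedding dimension `d + 3` has type less than `C(d + r, r - 1)`. -/
theorem type_bound (d : ℕ) : ∃ R : ℕ, ∀ r, R ≤ r → ∀ m, m < (d + 2 + r).choose (d + 2) →
    ∀ S : AddSubmonoid ℕ, (m ∈ S ∧ m ≠ 0 ∧ ∀ x ∈ S, x ≠ 0 → m ≤ x) →
      (gens S).ncard = d + 3 → (pfs S).ncard < (d + r).choose (d + 1) := by
  refine ⟨60 * (d + 2) * ((d + 2) * (2 * (60 * (d + 2))) ^ (d + 2) + 4 * (d + 2)), ?_⟩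
  intro r hr m hmr S hm hG
  obtain ⟨a, Ω, hΩ, hinj, hle⟩ := main_structure hm hG
  have hm0 : 0 < m := Nat.pos_of_ne_zero hm.2.1
  have : NeZero m := ⟨hm.2.1⟩
  set L := 60 * (d + 2) with hL
  have hL0 : 0 < L := by omega
  set q := r / L with hq
  have hqL : L * q ≤ r := Nat.mul_div_le r L
  have hqL' : r < L * (q + 1) := by
    have := Nat.lt_mul_div_succ r hL0
    exact this
  have hqbig : (d + 2) * (2 * L) ^ (d + 2) + 4 * (d + 2) ≤ q := by
    rw [hq, Nat.le_div_iff_mul_le hL0, mul_comm]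
    exact hr
  have hq4 : 4 * (d + 2) ≤ q := by
    have : 0 ≤ (d + 2) * (2 * L) ^ (d + 2) := Nat.zero_le _
    omega
  have hqr : 60 * (d + 2) * q ≤ r := hqL
  have h2 := num2 hqr hq4
  have hcardΩ : Ω.card < (d + 2 + r).choose (d + 2) := by
    have : Ω.card ≤ (Finset.univ : Finset (ZMod m)).card := by
      apply Finset.card_le_card_of_injOn _ _ hinj
      intro x _
      exact Finset.mem_coe.2 (Finset.mem_univ _)
    rw [Finset.card_univ, ZMod.card] at this
    omega
  have hq5 : 60 * q ≤ r := by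
    have : 60 * q ≤ 60 * (d + 2) * q := by
      apply Nat.mul_le_mul_right
      omega
    omega
  by_cases hex : ∃ u, u ∉ Ω ∧ ∑ i, u i + 2 * q ≤ r
  · obtain ⟨u, hu, hdeg⟩ := hex
    have hq60 : q ≤ r := by omega
    have hA := lemmaA hΩ hcardΩ (by omega) (by omega) hu hdeg
      (num1 (by nlinarith) (Nat.succ_le_of_lt hqL') hq60 (le_trans (Nat.le_add_right _ _) hqbig))
    have : (corners Ω).card < (d + r).choose (d + 1) := by exact_mod_cast hA
    omega
  · exfalso
    push Not at hex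
    have hsub : (dlt (d + 2) ((r - 5 * q) + 3 * q) : Set (Fin (d + 2) → ℕ)) ⊆ Ω := by
      intro v hv
      rw [Finset.mem_coe, mem_dlt] at hv
      by_contra hcon
      have := hex v hcon
      omega
    have hB := lemmaB hm0 a (hinj.mono hsub)
    omega

end Pool.Agent.V11297.TypeBd
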